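import Mathlib

/-! Change of variables for shears of the plane. -/

set_option autoImplicit false

open MeasureTheory Set
open scoped ENNReal NNReal

namespace Pool.Agent.H969

/-- One variable: a monotone continuously differentiable map on a closed interval. -/
theorem lint_Icc {α β : ℝ} (hab : α ≤ β) {f f' : ℝ → ℝ}
    (hf : ∀ t ∈ Icc α β, HasDerivAt f (f' t) t) (hpos : ∀ t ∈ Icc α β, 0 ≤ f' t)
    (F : ℝ → ℝ≥0∞) :
    ∫⁻ t in Icc α β, ENNReal.ofReal (f' t) * F (f t) = ∫⁻ u in Icc (f α) (f β), F u := by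
  have hcont : ContinuousOn f (Icc α β) := fun t ht => (hf t ht).continuousAt.continuousWithinAt
  have hmono : MonotoneOn f (Icc α β) := by
    apply monotoneOn_of_deriv_nonneg (convex_Icc α β) hcont
    · intro t ht
      exact (hf t (interior_subset ht)).differentiableAt.differentiableWithinAt
    · intro t ht
      rw [(hf t (interior_subset ht)).deriv]
      exact hpos t (interior_subset ht)
  have himg : f '' Icc α β = Icc (f α) (f β) := by
    apply Subset.antisymm
    · rintro _ ⟨t, ht, rfl⟩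
      exact ⟨hmono (left_mem_Icc.2 hab) ht ht.1, hmono ht (right_mem_Icc.2 hab) ht.2⟩
    · exact intermediate_value_Icc hab hcont
  rw [← himg]
  exact (lintegral_image_eq_lintegral_deriv_mul_of_monotoneOn measurableSet_Icc
    (fun t ht => (hf t ht).hasDerivWithinAt) hmono F).symm

theorem lint_prod (A B : Set ℝ) (F : ℝ × ℝ → ℝ≥0∞) (hF : Measurable F) :
    ∫⁻ z in A ×ˢ B, F z = ∫⁻ s in A, ∫⁻ t in B, F (s, t) := by
  rw [Measure.volume_eq_prod, ← Measure.prod_restrict, lintegral_prod _ hF.aemeasurable]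

theorem lint_prod' (A B : Set ℝ) (F : ℝ × ℝ → ℝ≥0∞) (hF : Measurable F) :
    ∫⁻ z in A ×ˢ B, F z = ∫⁻ t in B, ∫⁻ s in A, F (s, t) := by
  rw [Measure.volume_eq_prod, ← Measure.prod_restrict, lintegral_prod_symm _ hF.aemeasurable]

/-- Shear in the second variable. -/
theorem lint_shear2 {c b : ℝ} (hb : 0 ≤ b) {g g' : ℝ → ℝ → ℝ}
    (hgm : Measurable fun z : ℝ × ℝ => g z.1 z.2) (hg'm : Measurable fun z : ℝ × ℝ => g' z.1 z.2)
    (hg : ∀ s ∈ Icc 0 c, ∀ t ∈ Icc 0 b, HasDerivAt (g s) (g' s t) t)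
    (hpos : ∀ s ∈ Icc 0 c, ∀ t ∈ Icc 0 b, -1 ≤ g' s t)
    (h0 : ∀ s ∈ Icc 0 c, g s 0 = 0) (h1 : ∀ s ∈ Icc 0 c, g s b = 0)
    (F : ℝ × ℝ → ℝ≥0∞) (hF : Measurable F) :
    ∫⁻ z in Icc 0 c ×ˢ Icc 0 b, ENNReal.ofReal (1 + g' z.1 z.2) * F (z.1, z.2 + g z.1 z.2)
      = ∫⁻ y in Icc 0 c ×ˢ Icc 0 b, F y := by
  rw [lint_prod _ _ _ (by fun_prop), lint_prod _ _ _ hF]
  apply setLIntegral_congr_fun measurableSet_Icc
  intro s hs
  have := lint_Icc (f := fun t => t + g s t) (f' := fun t => 1 + g' s t) hb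
    (fun t ht => (hasDerivAt_id t).add (hg s hs t ht))
    (fun t ht => by have := hpos s hs t ht; linarith) (fun u => F (s, u))
  simp only [h0 s hs, h1 s hs, add_zero] at this
  exact this

/-- The region `{0 ≤ y₂ ≤ b, 0 ≤ y₁ ≤ T y₂}`. -/
def region (b : ℝ) (T : ℝ → ℝ) : Set (ℝ × ℝ) := {y | y.2 ∈ Icc 0 b ∧ y.1 ∈ Icc 0 (T y.2)}

theorem measurableSet_region {b : ℝ} {T : ℝ → ℝ} (hT : Measurable T) :
    MeasurableSet (region b T) := by
  unfold region
  apply MeasurableSet.inter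
  · exact measurable_snd measurableSet_Icc
  · have h1 : MeasurableSet {y : ℝ × ℝ | 0 ≤ y.1} := measurableSet_le measurable_const measurable_fst
    have h2 : MeasurableSet {y : ℝ × ℝ | y.1 ≤ T y.2} :=
      measurableSet_le measurable_fst (hT.comp measurable_snd)
    exact h1.inter h2

theorem lint_region {b : ℝ} {T : ℝ → ℝ} (hT : Measurable T) (F : ℝ × ℝ → ℝ≥0∞)
    (hF : Measurable F) :
    ∫⁻ y in region b T, F y = ∫⁻ t in Icc 0 b, ∫⁻ s in Icc 0 (T t), F (s, t) := by
  rw [← lintegral_indicator (measurableSet_region hT), Measure.volume_eq_prod,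
    lintegral_prod_symm _ (hF.indicator (measurableSet_region hT)).aemeasurable,
    ← lintegral_indicator measurableSet_Icc]
  congr 1
  ext t
  by_cases ht : t ∈ Icc 0 b
  · rw [indicator_of_mem ht, ← lintegral_indicator measurableSet_Icc]
    congr 1
    ext s
    by_cases hs : s ∈ Icc 0 (T t)
    · rw [indicator_of_mem hs, indicator_of_mem]
      exact ⟨ht, hs⟩
    · rw [indicator_of_notMem hs, indicator_of_notMem]
      rintro ⟨_, h⟩
      exact hs h
  · rw [indicator_of_notMem ht]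
    rw [show (fun s => (region b T).indicator F (s, t)) = fun _ => 0 from ?_]
    · simp
    · ext s
      rw [indicator_of_notMem]
      rintro ⟨h, _⟩
      exact ht h

/-- Shear in the first variable, from the rectangle onto a region. -/
theorem lint_shear1 {c b : ℝ} (hc : 0 ≤ c) {g g' : ℝ → ℝ → ℝ}
    (hgm : Measurable fun z : ℝ × ℝ => g z.1 z.2) (hg'm : Measurable fun z : ℝ × ℝ => g' z.1 z.2)
    (hg : ∀ s ∈ Icc 0 c, ∀ t ∈ Icc 0 b, HasDerivAt (fun s => g s t) (g' s t) s)
    (hpos : ∀ s ∈ Icc 0 c, ∀ t ∈ Icc 0 b, g' s t ≤ 1)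
    (h0 : ∀ t ∈ Icc 0 b, g 0 t = 0)
    (F : ℝ × ℝ → ℝ≥0∞) (hF : Measurable F) :
    ∫⁻ z in Icc 0 c ×ˢ Icc 0 b, ENNReal.ofReal (1 - g' z.1 z.2) * F (z.1 - g z.1 z.2, z.2)
      = ∫⁻ y in region b (fun t => c - g c t), F y := by
  have hT : Measurable fun t => c - g c t :=
    measurable_const.sub (hgm.comp (measurable_const.prodMk measurable_id))
  rw [lint_prod' _ _ _ (by fun_prop), lint_region hT _ hF]
  apply setLIntegral_congr_fun measurableSet_Icc
  intro t ht
  have := lint_Icc (f := fun s => s - g s t) (f' := fun s => 1 - g' s t) hc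
    (fun s hs => (hasDerivAt_id s).sub (hg s hs t ht))
    (fun s hs => by have := hpos s hs t ht; linarith) (fun u => F (u, t))
  simp only [h0 t ht, sub_zero] at this
  exact this

end Pool.Agent.H969
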