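import Mathlib

/-! Semi-discrete transport plans and their cost. -/

set_option autoImplicit false

open MeasureTheory Set
open scoped ENNReal NNReal

namespace Pool.Agent.H969

/-- squared Euclidean distance -/
def sqd (w y : ℝ × ℝ) : ℝ := (w.1 - y.1) ^ 2 + (w.2 - y.2) ^ 2

theorem sqd_nonneg (w y : ℝ × ℝ) : 0 ≤ sqd w y := by unfold sqd; positivity

theorem continuous_sqd (w : ℝ × ℝ) : Continuous (sqd w) := by
  unfold sqd; fun_prop

/-- A plan: a family of probability measures with sum `lam`. -/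
structure IsPlan {ι : Type*} [Fintype ι] (lam : Measure (ℝ × ℝ)) (p : ι → Measure (ℝ × ℝ)) :
    Prop where
  mass : ∀ i, p i univ = 1
  sum : ∑ i, p i = lam

/-- cost of a plan -/
noncomputable def planCost {ι : Type*} [Fintype ι] (z : ι → ℝ × ℝ) (p : ι → Measure (ℝ × ℝ)) : ℝ :=
  ∑ i, ∫ y, sqd (z i) y ∂(p i)

/-- optimal cost of the points `z` against the measure `lam` -/
noncomputable def costR {ι : Type*} [Fintype ι] (z : ι → ℝ × ℝ) (lam : Measure (ℝ × ℝ)) : ℝ :=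
  ⨅ p : {p : ι → Measure (ℝ × ℝ) // IsPlan lam p}, planCost z p.1

theorem planCost_nonneg {ι : Type*} [Fintype ι] (z : ι → ℝ × ℝ) (p : ι → Measure (ℝ × ℝ)) :
    0 ≤ planCost z p :=
  Finset.sum_nonneg fun _ _ => integral_nonneg fun _ => sqd_nonneg _ _

theorem costR_nonneg {ι : Type*} [Fintype ι] (z : ι → ℝ × ℝ) (lam : Measure (ℝ × ℝ)) :
    0 ≤ costR z lam :=
  Real.iInf_nonneg fun _ => planCost_nonneg _ _

theorem costR_le {ι : Type*} [Fintype ι] (z : ι → ℝ × ℝ) {lam : Measure (ℝ × ℝ)}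
    {p : ι → Measure (ℝ × ℝ)} (hp : IsPlan lam p) : costR z lam ≤ planCost z p :=
  ciInf_le (f := fun p : {p : ι → Measure (ℝ × ℝ) // IsPlan lam p} => planCost z p.1)
    ⟨0, by rintro _ ⟨p, rfl⟩; exact planCost_nonneg _ _⟩ ⟨p, hp⟩

theorem le_costR {ι : Type*} [Fintype ι] (z : ι → ℝ × ℝ) {lam : Measure (ℝ × ℝ)}
    (hne : ∃ p : ι → Measure (ℝ × ℝ), IsPlan lam p) {X : ℝ}
    (h : ∀ p : ι → Measure (ℝ × ℝ), IsPlan lam p → X ≤ planCost z p) : X ≤ costR z lam := by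
  have : Nonempty {p : ι → Measure (ℝ × ℝ) // IsPlan lam p} := hne.elim fun p hp => ⟨⟨p, hp⟩⟩
  exact le_ciInf fun p => h p.1 p.2

theorem exists_plan {ι : Type*} [Fintype ι] [Nonempty ι] {lam : Measure (ℝ × ℝ)}
    (h : lam univ = Fintype.card ι) : ∃ p : ι → Measure (ℝ × ℝ), IsPlan lam p := by
  refine ⟨fun _ => (Fintype.card ι : ℝ≥0∞)⁻¹ • lam, ?_, ?_⟩
  · intro i
    rw [Measure.smul_apply, h, smul_eq_mul, ENNReal.inv_mul_cancel]
    · simp
    · simp
  · rw [Finset.sum_const, Finset.card_univ, ← Nat.cast_smul_eq_nsmul ℝ≥0∞, smul_smul,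
      ENNReal.mul_inv_cancel, one_smul]
    · simp
    · simp

theorem costR_le_of {ι κ : Type*} [Fintype ι] [Fintype κ] {z : ι → ℝ × ℝ} {z' : κ → ℝ × ℝ}
    {lam lam' : Measure (ℝ × ℝ)} {A X : ℝ} (hA : 0 < A)
    (hne : ∃ p : ι → Measure (ℝ × ℝ), IsPlan lam p)
    (h : ∀ p : ι → Measure (ℝ × ℝ), IsPlan lam p →
      ∃ p' : κ → Measure (ℝ × ℝ), IsPlan lam' p' ∧ planCost z' p' ≤ A * planCost z p + X) :
    costR z' lam' ≤ A * costR z lam + X := by
  have : (costR z' lam' - X) / A ≤ costR z lam := by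
    apply le_costR z hne
    intro p hp
    obtain ⟨p', hp', hle⟩ := h p hp
    rw [div_le_iff₀ hA]
    have := costR_le z' hp'
    linarith [mul_comm A (planCost z p)]
  rw [div_le_iff₀ hA] at this
  linarith [mul_comm A (costR z lam)]

theorem IsPlan.le {ι : Type*} [Fintype ι] {lam : Measure (ℝ × ℝ)} {p : ι → Measure (ℝ × ℝ)}
    (hp : IsPlan lam p) (i : ι) : p i ≤ lam := by
  rw [← hp.sum]
  exact Finset.single_le_sum (f := p) (fun j _ => Measure.zero_le _) (Finset.mem_univ i)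

theorem IsPlan.isProb {ι : Type*} [Fintype ι] {lam : Measure (ℝ × ℝ)} {p : ι → Measure (ℝ × ℝ)}
    (hp : IsPlan lam p) (i : ι) : IsProbabilityMeasure (p i) := ⟨hp.mass i⟩

theorem IsPlan.ae {ι : Type*} [Fintype ι] {lam : Measure (ℝ × ℝ)} {p : ι → Measure (ℝ × ℝ)}
    (hp : IsPlan lam p) (i : ι) {P : ℝ × ℝ → Prop} (h : ∀ᵐ y ∂lam, P y) : ∀ᵐ y ∂(p i), P y :=
  (Measure.absolutelyContinuous_of_le (hp.le i)).ae_le h

/-- integrals against a plan -/
theorem IsPlan.sum_integral {ι : Type*} [Fintype ι] {lam : Measure (ℝ × ℝ)}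
    {p : ι → Measure (ℝ × ℝ)} (hp : IsPlan lam p) {f : ℝ × ℝ → ℝ} (hf : Integrable f lam) :
    ∑ i, ∫ y, f y ∂(p i) = ∫ y, f y ∂lam := by
  rw [← hp.sum, integral_finsetSum_measure]
  intro i _
  exact hf.mono_measure (hp.le i)

/-- pushing a plan forward -/
theorem IsPlan.map {ι : Type*} [Fintype ι] {lam : Measure (ℝ × ℝ)}
    {p : ι → Measure (ℝ × ℝ)} (hp : IsPlan lam p) {f : ℝ × ℝ → ℝ × ℝ} (hf : Measurable f) :
    IsPlan (lam.map f) (fun i => (p i).map f) := by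
  refine ⟨fun i => ?_, ?_⟩
  · rw [Measure.map_apply hf MeasurableSet.univ, preimage_univ]
    exact hp.mass i
  · rw [← Measure.map_finset_sum' hf.aemeasurable, hp.sum]

end Pool.Agent.H969
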