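import Mathlib
import Pool.Agent.H969.Cost

/-! Smooth functions of two variables with small second derivatives. -/

set_option autoImplicit false

open MeasureTheory Set
open scoped ENNReal NNReal

namespace Pool.Agent.H969

/-- `w` has the indicated partial derivatives; the second ones are at most `δ` on
`[0, c] × ℝ`. -/
structure Pot (c δ : ℝ) (w w1 w2 w11 w12 w22 : ℝ → ℝ → ℝ) : Prop where
  h1 : ∀ s t, HasDerivAt (fun s => w s t) (w1 s t) s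
  h2 : ∀ s t, HasDerivAt (fun t => w s t) (w2 s t) t
  h11 : ∀ s t, HasDerivAt (fun s => w1 s t) (w11 s t) s
  h12 : ∀ s t, HasDerivAt (fun t => w1 s t) (w12 s t) t
  h21 : ∀ s t, HasDerivAt (fun s => w2 s t) (w12 s t) s
  h22 : ∀ s t, HasDerivAt (fun t => w2 s t) (w22 s t) t
  cw : Continuous fun z : ℝ × ℝ => w z.1 z.2
  c1 : Continuous fun z : ℝ × ℝ => w1 z.1 z.2
  c2 : Continuous fun z : ℝ × ℝ => w2 z.1 z.2
  c11 : Continuous fun z : ℝ × ℝ => w11 z.1 z.2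
  c22 : Continuous fun z : ℝ × ℝ => w22 z.1 z.2
  b11 : ∀ s ∈ Icc 0 c, ∀ t, |w11 s t| ≤ δ
  b12 : ∀ s ∈ Icc 0 c, ∀ t, |w12 s t| ≤ δ
  b22 : ∀ s ∈ Icc 0 c, ∀ t, |w22 s t| ≤ δ

theorem lip_of_deriv {s : Set ℝ} (hs : Convex ℝ s) {f f' : ℝ → ℝ} {C : ℝ}
    (hf : ∀ x ∈ s, HasDerivAt f (f' x) x) (hC : ∀ x ∈ s, |f' x| ≤ C) {x y : ℝ} (hx : x ∈ s)
    (hy : y ∈ s) : |f y - f x| ≤ C * |y - x| := by
  have := hs.norm_image_sub_le_of_norm_hasDerivWithin_le (f := f) (f' := f') (C := C)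
    (fun x hx => (hf x hx).hasDerivWithinAt) (fun x hx => by simpa using hC x hx) hx hy
  simpa using this

theorem taylor_of_deriv {s : Set ℝ} (hs : Convex ℝ s) {f f' f'' : ℝ → ℝ} {C : ℝ}
    (hf : ∀ x ∈ s, HasDerivAt f (f' x) x) (hf' : ∀ x ∈ s, HasDerivAt f' (f'' x) x)
    (hC : ∀ x ∈ s, |f'' x| ≤ C) {x y : ℝ} (hx : x ∈ s)
    (hy : y ∈ s) : |f y - f x - f' x * (y - x)| ≤ C * (y - x) ^ 2 := by
  have hC0 : 0 ≤ C := (abs_nonneg _).trans (hC x hx)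
  have hsub : uIcc x y ⊆ s := by
    rw [← segment_eq_uIcc]
    exact hs.segment_subset hx hy
  have h := lip_of_deriv (convex_uIcc x y) (f := fun u => f u - f' x * u)
    (f' := fun u => f' u - f' x) (C := C * |y - x|) (x := x) (y := y) ?_ ?_ left_mem_uIcc
    right_mem_uIcc
  · have e : f y - f' x * y - (f x - f' x * x) = f y - f x - f' x * (y - x) := by ring
    rw [e] at h
    calc _ ≤ _ := h
      _ = C * (|y - x| * |y - x|) := by ring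
      _ = C * (y - x) ^ 2 := by rw [← sq, sq_abs]
  · intro u hu
    have := (hf u (hsub hu)).fun_sub ((hasDerivAt_id u).const_mul (f' x))
    rw [mul_one] at this
    exact this
  · intro u hu
    calc |f' u - f' x| ≤ C * |u - x| := lip_of_deriv hs hf' hC hx (hsub hu)
      _ ≤ C * |y - x| := by
        apply mul_le_mul_of_nonneg_left _ hC0
        have := abs_sub_left_of_mem_uIcc hu
        simpa using this

variable {c δ : ℝ} {w w1 w2 w11 w12 w22 : ℝ → ℝ → ℝ}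

theorem Pot.delta_nonneg (hP : Pot c δ w w1 w2 w11 w12 w22) (hc : 0 ≤ c) : 0 ≤ δ :=
  (abs_nonneg _).trans (hP.b11 0 (left_mem_Icc.2 hc) 0)

theorem Pot.lip1 (hP : Pot c δ w w1 w2 w11 w12 w22) {s s' : ℝ} (hs : s ∈ Icc 0 c)
    (hs' : s' ∈ Icc 0 c) (t t' : ℝ) : |w1 s t - w1 s' t'| ≤ δ * |s - s'| + δ * |t - t'| := by
  have e1 := lip_of_deriv (convex_Icc 0 c) (fun x _ => hP.h11 x t)
    (fun x hx => hP.b11 x hx t) hs' hs
  have e2 := lip_of_deriv convex_univ (fun x _ => hP.h12 s' x)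
    (fun x _ => hP.b12 s' hs' x) (mem_univ t') (mem_univ t)
  calc |w1 s t - w1 s' t'| = |(w1 s t - w1 s' t) + (w1 s' t - w1 s' t')| := by congr 1; ring
    _ ≤ _ := (abs_add_le _ _).trans (add_le_add e1 e2)

theorem Pot.lip2 (hP : Pot c δ w w1 w2 w11 w12 w22) {s s' : ℝ} (hs : s ∈ Icc 0 c)
    (hs' : s' ∈ Icc 0 c) (t t' : ℝ) : |w2 s t - w2 s' t'| ≤ δ * |s - s'| + δ * |t - t'| := by
  have e1 := lip_of_deriv (convex_Icc 0 c) (fun x _ => hP.h21 x t)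
    (fun x hx => hP.b12 x hx t) hs' hs
  have e2 := lip_of_deriv convex_univ (fun x _ => hP.h22 s' x)
    (fun x _ => hP.b22 s' hs' x) (mem_univ t') (mem_univ t)
  calc |w2 s t - w2 s' t'| = |(w2 s t - w2 s' t) + (w2 s' t - w2 s' t')| := by congr 1; ring
    _ ≤ _ := (abs_add_le _ _).trans (add_le_add e1 e2)

theorem Pot.taylor (hP : Pot c δ w w1 w2 w11 w12 w22) {p1 q1 : ℝ} (hp : p1 ∈ Icc 0 c)
    (hq : q1 ∈ Icc 0 c) (p2 q2 : ℝ) :
    |w p1 p2 - w q1 q2 - (w1 q1 q2 * (p1 - q1) + w2 q1 q2 * (p2 - q2))| ≤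
      (3 / 2) * δ * ((p1 - q1) ^ 2 + (p2 - q2) ^ 2) := by
  have hc : 0 ≤ c := hp.1.trans hp.2
  have hδ := hP.delta_nonneg hc
  have e1 := taylor_of_deriv (convex_Icc 0 c) (fun x _ => hP.h1 x q2) (fun x _ => hP.h11 x q2)
    (fun x hx => hP.b11 x hx q2) hq hp
  have e2 := taylor_of_deriv convex_univ (fun x _ => hP.h2 p1 x) (fun x _ => hP.h22 p1 x)
    (fun x _ => hP.b22 p1 hp x) (mem_univ q2) (mem_univ p2)
  have e3 := hP.lip2 hp hq q2 q2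
  have e4 : |(w2 p1 q2 - w2 q1 q2) * (p2 - q2)| ≤ δ * (((p1 - q1) ^ 2 + (p2 - q2) ^ 2) / 2) := by
    rw [abs_mul]
    have h1 : |w2 p1 q2 - w2 q1 q2| ≤ δ * |p1 - q1| := by simpa using e3
    have h2 : |p1 - q1| * |p2 - q2| ≤ ((p1 - q1) ^ 2 + (p2 - q2) ^ 2) / 2 := by
      nlinarith [sq_nonneg (|p1 - q1| - |p2 - q2|), sq_abs (p1 - q1), sq_abs (p2 - q2)]
    calc |w2 p1 q2 - w2 q1 q2| * |p2 - q2| ≤ δ * |p1 - q1| * |p2 - q2| :=
          mul_le_mul_of_nonneg_right h1 (abs_nonneg _)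
      _ = δ * (|p1 - q1| * |p2 - q2|) := by ring
      _ ≤ _ := mul_le_mul_of_nonneg_left h2 hδ
  have e : w p1 p2 - w q1 q2 - (w1 q1 q2 * (p1 - q1) + w2 q1 q2 * (p2 - q2)) =
      (w p1 q2 - w q1 q2 - w1 q1 q2 * (p1 - q1)) + (w p1 p2 - w p1 q2 - w2 p1 q2 * (p2 - q2))
      + (w2 p1 q2 - w2 q1 q2) * (p2 - q2) := by ring
  rw [e]
  calc _ ≤ _ := abs_add_three _ _ _
    _ ≤ δ * (p1 - q1) ^ 2 + δ * (p2 - q2) ^ 2 + δ * (((p1 - q1) ^ 2 + (p2 - q2) ^ 2) / 2) := by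
      gcongr
    _ = _ := by ring

end Pool.Agent.H969
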