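import Mathlib
import Pool.Agent.H969.CoV

/-! Homeomorphisms `z ↦ (z₁, z₂ + G z)`. -/

set_option autoImplicit false

open MeasureTheory Set
open scoped ENNReal NNReal

namespace Pool.Agent.H969

theorem shear_approx (G : ℝ × ℝ → ℝ) (hG : ∀ z z', |G z - G z'| ≤ (1 / 2) * ‖z - z'‖) :
    ApproximatesLinearOn (fun z : ℝ × ℝ => (z.1, z.2 + G z))
      ((ContinuousLinearEquiv.refl ℝ (ℝ × ℝ) : (ℝ × ℝ) ≃L[ℝ] (ℝ × ℝ)) : (ℝ × ℝ) →L[ℝ] (ℝ × ℝ))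
      univ (1 / 2) := by
  intro x _ y _
  have : ((x.1, x.2 + G x) : ℝ × ℝ) - (y.1, y.2 + G y) -
      ((ContinuousLinearEquiv.refl ℝ (ℝ × ℝ) : (ℝ × ℝ) ≃L[ℝ] (ℝ × ℝ)) : (ℝ × ℝ) →L[ℝ] (ℝ × ℝ))
        (x - y) = (0, G x - G y) := by
    ext
    · simp
    · simp
      ring
  rw [this, Prod.norm_mk, norm_zero, Real.norm_eq_abs, max_eq_right (abs_nonneg _)]
  simpa using hG x y

/-- The homeomorphism `z ↦ (z₁, z₂ + G z)`. -/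
noncomputable def shearHomeo (G : ℝ × ℝ → ℝ) (hG : ∀ z z', |G z - G z'| ≤ (1 / 2) * ‖z - z'‖) :
    (ℝ × ℝ) ≃ₜ (ℝ × ℝ) :=
  (shear_approx G hG).toHomeomorph _ (Or.inr (by
    have : ‖(((ContinuousLinearEquiv.refl ℝ (ℝ × ℝ)).symm : (ℝ × ℝ) ≃L[ℝ] (ℝ × ℝ)) :
      (ℝ × ℝ) →L[ℝ] (ℝ × ℝ))‖₊ = 1 := by
      have := ContinuousLinearMap.nnnorm_id (𝕜 := ℝ) (E := ℝ × ℝ)
      simpa using this
    rw [this, inv_one]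
    norm_num [← NNReal.coe_lt_coe]))

theorem shearHomeo_apply (G : ℝ × ℝ → ℝ) (hG : ∀ z z', |G z - G z'| ≤ (1 / 2) * ‖z - z'‖)
    (z : ℝ × ℝ) : shearHomeo G hG z = (z.1, z.2 + G z) := rfl

theorem exists_shear (G : ℝ × ℝ → ℝ) (hG : ∀ z z', |G z - G z'| ≤ (1 / 2) * ‖z - z'‖) :
    ∃ S : (ℝ × ℝ) ≃ₜ (ℝ × ℝ), ∀ z, S z = (z.1, z.2 + G z) :=
  ⟨shearHomeo G hG, shearHomeo_apply G hG⟩

end Pool.Agent.H969
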