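import Mathlib
import Pool.Agent.H969.Pot
import Pool.Agent.H969.Shear

/-! Deformation of a rectangle with a free side. -/

set_option autoImplicit false

open MeasureTheory Set
open scoped ENNReal NNReal

namespace Pool.Agent.H969

theorem integrable_of_carried {μ : Measure (ℝ × ℝ)} [IsFiniteMeasure μ] {K : Set (ℝ × ℝ)}
    (hK : IsCompact K) (hμ : ∀ᵐ y ∂μ, y ∈ K) {f : ℝ × ℝ → ℝ} (hf : Continuous f) :
    Integrable f μ := by
  obtain ⟨C, hC⟩ := hK.exists_bound_of_continuousOn hf.continuousOn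
  exact Integrable.of_bound hf.aestronglyMeasurable C (hμ.mono fun y hy => hC y hy)

/-- the closed rectangle `[0, c] × [0, b]` -/
def rect (c b : ℝ) : Set (ℝ × ℝ) := Icc 0 c ×ˢ Icc 0 b

theorem isCompact_rect (c b : ℝ) : IsCompact (rect c b) := isCompact_Icc.prod isCompact_Icc

theorem measurableSet_rect (c b : ℝ) : MeasurableSet (rect c b) :=
  measurableSet_Icc.prod measurableSet_Icc

theorem volume_rect {c b : ℝ} (hc : 0 ≤ c) : volume (rect c b) = ENNReal.ofReal (c * b) := by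
  unfold rect
  rw [Measure.volume_eq_prod, Measure.prod_prod, Real.volume_Icc, Real.volume_Icc, sub_zero,
    sub_zero, ENNReal.ofReal_mul hc]

/-- uniform measure on the rectangle with density `r` -/
noncomputable def unif (c b r : ℝ) : Measure (ℝ × ℝ) :=
  ENNReal.ofReal r • volume.restrict (rect c b)

instance (c b r : ℝ) : IsFiniteMeasure (unif c b r) := by
  unfold unif
  have : IsFiniteMeasure (volume.restrict (rect c b)) :=
    ⟨by rw [Measure.restrict_apply_univ]; exact (isCompact_rect c b).measure_lt_top⟩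
  exact Measure.smul_finite _ ENNReal.ofReal_ne_top

theorem unif_univ {c b r : ℝ} (hc : 0 ≤ c) (hr : 0 ≤ r) :
    unif c b r univ = ENNReal.ofReal (r * (c * b)) := by
  unfold unif
  rw [Measure.smul_apply, Measure.restrict_apply_univ, volume_rect hc, smul_eq_mul,
    ← ENNReal.ofReal_mul hr]

theorem unif_ae (c b r : ℝ) : ∀ᵐ y ∂(unif c b r), y ∈ rect c b := by
  unfold unif
  exact Measure.ae_smul_measure (ae_restrict_mem (measurableSet_rect c b)) _

variable {c δ : ℝ} {w w1 w2 w11 w12 w22 : ℝ → ℝ → ℝ}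

/-- projection onto `[0, c]` -/
def clip (c s : ℝ) : ℝ := max 0 (min s c)

theorem clip_mem {c : ℝ} (hc : 0 ≤ c) (s : ℝ) : clip c s ∈ Icc 0 c :=
  ⟨le_max_left _ _, max_le hc (min_le_right _ _)⟩

theorem clip_of_mem {c s : ℝ} (h : s ∈ Icc 0 c) : clip c s = s := by
  unfold clip
  rw [min_eq_left h.2, max_eq_right h.1]

theorem clip_lip (c s s' : ℝ) : |clip c s - clip c s'| ≤ |s - s'| := by
  unfold clip
  calc |max 0 (min s c) - max 0 (min s' c)| ≤ |min s c - min s' c| := by
        simpa [max_comm] using abs_max_sub_max_le_abs (min s c) (min s' c) 0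
    _ ≤ |s - s'| := by
        simpa using abs_min_sub_min_le_max s c s' c

theorem Pot.exists_shear (hP : Pot c δ w w1 w2 w11 w12 w22) (hc : 0 ≤ c) {α : ℝ} (hα : 0 ≤ α)
    (hαδ : α * δ ≤ 1 / 4) :
    ∃ S : (ℝ × ℝ) ≃ₜ (ℝ × ℝ), ∀ z, S z = (z.1, z.2 + α * w2 (clip c z.1) z.2) := by
  apply Pool.Agent.H969.exists_shear
  intro z z'
  have hδ := hP.delta_nonneg hc
  have h := hP.lip2 (clip_mem hc z.1) (clip_mem hc z'.1) z.2 z'.2
  have h1 := clip_lip c z.1 z'.1
  have h2 : |z.1 - z'.1| ≤ ‖z - z'‖ := norm_fst_le (z - z')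
  have h3 : |z.2 - z'.2| ≤ ‖z - z'‖ := norm_snd_le (z - z')
  rw [← mul_sub, abs_mul, abs_of_nonneg hα]
  calc α * |w2 (clip c z.1) z.2 - w2 (clip c z'.1) z'.2|
      ≤ α * (δ * ‖z - z'‖ + δ * ‖z - z'‖) := by
        apply mul_le_mul_of_nonneg_left _ hα
        refine h.trans (add_le_add ?_ ?_)
        · exact mul_le_mul_of_nonneg_left (h1.trans h2) hδ
        · exact mul_le_mul_of_nonneg_left h3 hδ
    _ = 2 * (α * δ) * ‖z - z'‖ := by ring
    _ ≤ 2 * (1 / 4) * ‖z - z'‖ := by gcongr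
    _ = _ := by ring

theorem map_shear (hP : Pot c δ w w1 w2 w11 w12 w22) {b : ℝ} (hb : 0 ≤ b) {α : ℝ}
    (hα : 0 ≤ α) (hαδ : α * δ ≤ 1 / 4)
    (hbc1 : ∀ s, w2 s 0 = 0) (hbc2 : ∀ s, w2 s b = 0) {S : (ℝ × ℝ) ≃ₜ (ℝ × ℝ)}
    (hS : ∀ z, S z = (z.1, z.2 + α * w2 (clip c z.1) z.2)) :
    ((volume.restrict (rect c b)).withDensity
      (fun z => ENNReal.ofReal (1 + α * w22 z.1 z.2))).map S = volume.restrict (rect c b) := by
  have hm2 := hP.c2
  have hm22 := hP.c22
  apply Measure.ext_of_lintegral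
  intro F hF
  rw [lintegral_map hF S.continuous.measurable,
    lintegral_withDensity_eq_lintegral_mul _ (by fun_prop) (g := fun a => F (S a))
      (hF.comp S.continuous.measurable)]
  have h := lint_shear2 (c := c) hb (g := fun s t => α * w2 s t) (g' := fun s t => α * w22 s t)
    (by fun_prop) (by fun_prop) (fun s _ t _ => (hP.h22 s t).const_mul α)
    (fun s hs t _ => ?_) (fun s _ => by simp [hbc1]) (fun s _ => by simp [hbc2]) F hF
  · refine Eq.trans ?_ h
    apply setLIntegral_congr_fun (measurableSet_rect c b)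
    intro z hz
    simp only [Pi.mul_apply, Function.comp_apply]
    rw [hS, clip_of_mem hz.1]
  · have := hP.b22 s hs t
    have h1 := neg_abs_le (w22 s t)
    nlinarith

theorem map_shear1 (hP : Pot c δ w w1 w2 w11 w12 w22) (hc : 0 ≤ c) {b : ℝ}
    (hδ : δ ≤ 1) (hbc0 : ∀ t, w1 0 t = 0) :
    ((volume.restrict (rect c b)).withDensity
      (fun z => ENNReal.ofReal (1 - w11 z.1 z.2))).map (fun z => (z.1 - w1 z.1 z.2, z.2)) =
      volume.restrict (region b (fun t => c - w1 c t)) := by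
  have hm1 := hP.c1
  have hm11 := hP.c11
  have hD : Measurable (fun z : ℝ × ℝ => (z.1 - w1 z.1 z.2, z.2)) := by fun_prop
  apply Measure.ext_of_lintegral
  intro F hF
  rw [lintegral_map hF hD,
    lintegral_withDensity_eq_lintegral_mul _ (by fun_prop)
      (g := fun a : ℝ × ℝ => F (a.1 - w1 a.1 a.2, a.2)) (hF.comp hD)]
  have h := lint_shear1 (b := b) hc (g := w1) (g' := w11) (by fun_prop) (by fun_prop)
    (fun s _ t _ => hP.h11 s t) (fun s hs t _ => (le_abs_self _).trans ((hP.b11 s hs t).trans hδ))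
    (fun t _ => hbc0 t) F hF
  rw [← h]
  rfl

/-- The pointwise estimate behind the deformation lemma. -/
theorem shear_real {δ α p q u v u' v' W : ℝ} (hδ0 : 0 ≤ δ) (hδ : δ ≤ 1 / 20)
    (hαle : α ≤ 1 + 2.3 * δ) (hαge : 1 - 2.3 * δ ≤ α) (l1 : |u - u'| ≤ δ * (α * |v|))
    (l2 : |v - v'| ≤ δ * (α * |v|)) (t1 : -(3 / 2 * δ * (p ^ 2 + q ^ 2)) ≤ W - (u' * p + v' * q)) :
    (p + u) ^ 2 + (q + α * v) ^ 2 ≤
      (1 + 12 * δ) * (p ^ 2 + q ^ 2) + 2 * W + (1 + 10 * δ) * (u ^ 2 + v ^ 2) := by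
  have hα12 : α ≤ 1.2 := by linarith
  have hα0 : 0 ≤ α := by linarith
  have hv := abs_nonneg v
  have hkey : δ * (α * |v|) ≤ 1.2 * δ * |v| := by
    have := mul_le_mul_of_nonneg_left hα12 (mul_nonneg hδ0 hv)
    linarith
  have m1 : 2 * (p * (u - u')) ≤ 1.2 * δ * (p ^ 2 + v ^ 2) := by
    have h2 : |u - u'| ≤ 1.2 * δ * |v| := l1.trans hkey
    have h3 : p * (u - u') ≤ |p| * |u - u'| := (le_abs_self _).trans (abs_mul _ _).le
    have h4 : |p| * |u - u'| ≤ |p| * (1.2 * δ * |v|) :=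
      mul_le_mul_of_nonneg_left h2 (abs_nonneg _)
    have h5 : 2 * (|p| * |v|) ≤ p ^ 2 + v ^ 2 := by
      have := sq_nonneg (|p| - |v|)
      have e1 := sq_abs p
      have e2 := sq_abs v
      linarith
    have h6 := mul_le_mul_of_nonneg_left h5 (mul_nonneg (by norm_num : (0:ℝ) ≤ 1.2) hδ0)
    linarith
  have m2 : 2 * (q * (α * v - v')) ≤ 3.5 * δ * (q ^ 2 + v ^ 2) := by
    have h6 : |v - v'| ≤ 1.2 * δ * |v| := l2.trans hkey
    have h7 : |α * v - v| ≤ 2.3 * δ * |v| := by
      have : α * v - v = (α - 1) * v := by ring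
      rw [this, abs_mul]
      apply mul_le_mul_of_nonneg_right _ hv
      rw [abs_le]
      constructor <;> linarith
    have h8 : |α * v - v'| ≤ 3.5 * δ * |v| := by
      calc |α * v - v'| = |(α * v - v) + (v - v')| := by congr 1; ring
        _ ≤ _ := abs_add_le _ _
        _ ≤ 3.5 * δ * |v| := by linarith
    have h3 : q * (α * v - v') ≤ |q| * |α * v - v'| := (le_abs_self _).trans (abs_mul _ _).le
    have h4 : |q| * |α * v - v'| ≤ |q| * (3.5 * δ * |v|) :=
      mul_le_mul_of_nonneg_left h8 (abs_nonneg _)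
    have h5 : 2 * (|q| * |v|) ≤ q ^ 2 + v ^ 2 := by
      have := sq_nonneg (|q| - |v|)
      have e1 := sq_abs q
      have e2 := sq_abs v
      linarith
    have h6 := mul_le_mul_of_nonneg_left h5 (mul_nonneg (by norm_num : (0:ℝ) ≤ 3.5) hδ0)
    linarith
  have m3 : α ^ 2 ≤ 1 + 5 * δ := by
    have h1 : α ^ 2 ≤ (1 + 2.3 * δ) ^ 2 := pow_le_pow_left₀ hα0 hαle 2
    have h2 : δ * δ ≤ δ * (1 / 20) := mul_le_mul_of_nonneg_left hδ hδ0
    linarith
  have m4 : α ^ 2 * v ^ 2 ≤ (1 + 5 * δ) * v ^ 2 := mul_le_mul_of_nonneg_right m3 (sq_nonneg _)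
  have m5 : 0 ≤ δ * p ^ 2 := by positivity
  have m6 : 0 ≤ δ * q ^ 2 := by positivity
  have m7 : 0 ≤ δ * u ^ 2 := by positivity
  have m8 : 0 ≤ δ * v ^ 2 := by positivity
  linarith

/-- **Deformation lemma.** -/
theorem deform {ι : Type*} [Fintype ι] [Nonempty ι] {b κ ρ : ℝ} (hc : 0 < c) (hb : 0 < b)
    (hδ : δ ≤ 1 / 20) (hP : Pot c δ w w1 w2 w11 w12 w22)
    (hlap : ∀ s t, w11 s t + w22 s t = κ) (hbc0 : ∀ t, w1 0 t = 0) (hbc1 : ∀ s, w2 s 0 = 0)
    (hbc2 : ∀ s, w2 s b = 0) (hρ : 0 < ρ) (hmass : ρ * (c * b) = Fintype.card ι)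
    (z : ι → ℝ × ℝ) (hz : ∀ i, z i ∈ rect c b) :
    costR z (ENNReal.ofReal (ρ / (1 - κ)) • volume.restrict (region b (fun t => c - w1 c t))) ≤
      (1 + 12 * δ) * costR z (unif c b ρ) +
      (2 * (∑ i, w (z i).1 (z i).2 - ρ * ∫ y in rect c b, w y.1 y.2) +
        (1 + 12 * δ) * ρ * ∫ y in rect c b, (w1 y.1 y.2 ^ 2 + w2 y.1 y.2 ^ 2)) ∧
    (ENNReal.ofReal (ρ / (1 - κ)) • volume.restrict (region b (fun t => c - w1 c t)))
      (univ : Set (ℝ × ℝ)) = Fintype.card ι := by
  have hδ0 := hP.delta_nonneg hc.le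
  have hκ : |κ| ≤ 2 * δ := by
    rw [← hlap 0 0]
    have h1 := hP.b11 0 (left_mem_Icc.2 hc.le) 0
    have h2 := hP.b22 0 (left_mem_Icc.2 hc.le) 0
    exact (abs_add_le _ _).trans (by linarith)
  have hκ1 := abs_le.1 hκ
  set α : ℝ := 1 / (1 - κ) with hαdef
  have h1κ : 0 < 1 - κ := by linarith
  have hα0 : 0 < α := by positivity
  have hακ : α * (1 - κ) = 1 := by rw [hαdef]; field_simp
  have hαle : α ≤ 1 + 2.3 * δ := by
    rw [hαdef, div_le_iff₀ h1κ]
    nlinarith
  have hαge : 1 - 2.3 * δ ≤ α := by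
    rw [hαdef, le_div_iff₀ h1κ]
    nlinarith
  have hαδ : α * δ ≤ 1 / 4 := by nlinarith
  obtain ⟨S, hS⟩ := hP.exists_shear hc.le hα0.le hαδ
  set D : ℝ × ℝ → ℝ × ℝ := fun z => (z.1 - w1 z.1 z.2, z.2) with hDdef
  have hm1 := hP.c1
  have hm2 := hP.c2
  have hm11 := hP.c11
  have hm22 := hP.c22
  have hmw := hP.cw
  have hDc : Continuous D := by
    have := hP.c1
    fun_prop
  have hQ := isCompact_rect c b
  -- the measures
  have e1 := map_shear hP hb.le hα0.le hαδ hbc1 hbc2 hS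
  have e2 := map_shear1 hP hc.le (b := b) (by linarith) hbc0
  have e3 : (unif c b ρ).map S.symm = ENNReal.ofReal ρ • ((volume.restrict (rect c b)).withDensity
      (fun z => ENNReal.ofReal (1 + α * w22 z.1 z.2))) := by
    unfold unif
    rw [Measure.map_smul]
    conv_lhs => rw [← e1]
    rw [Measure.map_map S.symm.continuous.measurable S.continuous.measurable]
    simp
  have e4 : ENNReal.ofReal ρ • ((volume.restrict (rect c b)).withDensity
      (fun z => ENNReal.ofReal (1 + α * w22 z.1 z.2))) = ENNReal.ofReal (ρ / (1 - κ)) •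
      ((volume.restrict (rect c b)).withDensity (fun z => ENNReal.ofReal (1 - w11 z.1 z.2))) := by
    rw [← withDensity_smul _ (by fun_prop), ← withDensity_smul _ (by fun_prop)]
    apply withDensity_congr_ae
    filter_upwards with y
    simp only [Pi.smul_apply, smul_eq_mul]
    rw [← ENNReal.ofReal_mul hρ.le, ← ENNReal.ofReal_mul (by positivity)]
    congr 1
    have := hlap y.1 y.2
    have e : w22 y.1 y.2 = κ - w11 y.1 y.2 := by linarith
    rw [e, hαdef]
    field_simp
    ring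
  have e5 : (unif c b ρ).map (D ∘ S.symm) = ENNReal.ofReal (ρ / (1 - κ)) •
      volume.restrict (region b (fun t => c - w1 c t)) := by
    rw [← Measure.map_map hDc.measurable S.symm.continuous.measurable, e3, e4, Measure.map_smul,
      e2]
  -- the image measure is dominated
  have hle : (unif c b ρ).map S.symm ≤ ENNReal.ofReal (ρ * (1 + 1.2 * δ)) •
      volume.restrict (rect c b) := by
    rw [e3, ENNReal.ofReal_mul hρ.le, mul_smul]
    gcongr
    rw [← withDensity_const]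
    apply withDensity_mono
    filter_upwards [ae_restrict_mem (measurableSet_rect c b)] with y hy
    apply ENNReal.ofReal_le_ofReal
    have := hP.b22 y.1 hy.1 y.2
    have h1 := le_abs_self (w22 y.1 y.2)
    nlinarith
  have hfin : IsFiniteMeasure (ENNReal.ofReal (ρ * (1 + 1.2 * δ)) •
      (volume.restrict (rect c b) : Measure (ℝ × ℝ))) := by
    have : IsFiniteMeasure (volume.restrict (rect c b)) :=
      ⟨by rw [Measure.restrict_apply_univ]; exact (isCompact_rect c b).measure_lt_top⟩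
    exact Measure.smul_finite _ ENNReal.ofReal_ne_top
  -- points of the rectangle
  have hSsymm : ∀ y ∈ rect c b, S.symm y ∈ rect c b ∧ (S.symm y).1 = y.1 ∧
      y.2 = (S.symm y).2 + α * w2 (S.symm y).1 (S.symm y).2 := by
    intro y hy
    have h := hS (S.symm y)
    rw [S.apply_symm_apply] at h
    have h1 : y.1 = (S.symm y).1 := (Prod.ext_iff.1 h).1
    have h2 : y.2 = (S.symm y).2 + α * w2 (clip c (S.symm y).1) (S.symm y).2 :=
      (Prod.ext_iff.1 h).2
    have hmem : (S.symm y).1 ∈ Icc 0 c := h1 ▸ hy.1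
    rw [clip_of_mem hmem] at h2
    refine ⟨⟨hmem, ?_⟩, h1.symm, h2⟩
    have l0 := hP.lip2 hmem hmem (S.symm y).2 0
    have l1 := hP.lip2 hmem hmem (S.symm y).2 b
    rw [hbc1] at l0
    rw [hbc2] at l1
    have hy2 := hy.2
    simp only [sub_self, abs_zero, mul_zero, zero_add, sub_zero] at l0 l1
    constructor
    · by_contra hlt
      push Not at hlt
      rw [abs_of_neg hlt] at l0
      have := (abs_le.1 l0).2
      have h3 := hy2.1
      nlinarith
    · by_contra hlt
      push Not at hlt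
      rw [abs_of_pos (sub_pos.2 hlt)] at l1
      have := (abs_le.1 l1).1
      have h3 := hy2.2
      nlinarith
  -- the pointwise bound
  set g : ℝ × ℝ → ℝ := fun x => (1 + 10 * δ) * (w1 x.1 x.2 ^ 2 + w2 x.1 x.2 ^ 2) with hgdef
  have hgc : Continuous g := by fun_prop
  have hpt : ∀ x ∈ rect c b, ∀ y ∈ rect c b, sqd x (D (S.symm y)) ≤
      (1 + 12 * δ) * sqd x y + 2 * (w x.1 x.2 - w y.1 y.2) + g (S.symm y) := by
    intro x hx y hy
    obtain ⟨hζ, h1, h2⟩ := hSsymm y hy
    set ζ := S.symm y with hζdef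
    have ht := hP.taylor hx.1 hy.1 x.2 y.2
    have t1 := (abs_le.1 ht).1
    have l1 := hP.lip1 hζ.1 hy.1 ζ.2 y.2
    have l2 := hP.lip2 hζ.1 hy.1 ζ.2 y.2
    rw [h1, sub_self, abs_zero, mul_zero, zero_add] at l1 l2
    have hd : ζ.2 - y.2 = -(α * w2 ζ.1 ζ.2) := by rw [h2]; ring
    rw [h1] at hd
    rw [hd, abs_neg, abs_mul, abs_of_pos hα0] at l1 l2
    simp only [hDdef, hgdef]
    rw [h1]
    set u := w1 y.1 ζ.2
    set v := w2 y.1 ζ.2
    set u' := w1 y.1 y.2
    set v' := w2 y.1 y.2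
    have hy2 : y.2 = ζ.2 + α * v := by linarith
    set p := x.1 - y.1 with hp
    set q := x.2 - y.2 with hq
    have hsq : sqd x (y.1 - u, ζ.2) = (p + u) ^ 2 + (q + α * v) ^ 2 := by
      unfold sqd
      simp only
      rw [hp, hq, hy2]
      ring
    have hsq' : sqd x y = p ^ 2 + q ^ 2 := rfl
    rw [hsq, hsq']
    exact shear_real hδ0 hδ hαle hαge l1 l2 t1
  -- conclusion
  have hne : ∃ p : ι → Measure (ℝ × ℝ), IsPlan (unif c b ρ) p := by
    apply exists_plan
    rw [unif_univ hc.le hρ.le, hmass, ENNReal.ofReal_natCast]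
  refine ⟨costR_le_of (by positivity) hne ?_, ?_⟩
  swap
  · rw [← e5, Measure.map_apply (hDc.comp S.symm.continuous).measurable MeasurableSet.univ,
      preimage_univ, unif_univ hc.le hρ.le, hmass, ENNReal.ofReal_natCast]
  intro p hp
  refine ⟨fun i => (p i).map (D ∘ S.symm), ?_, ?_⟩
  · rw [← e5]
    exact hp.map (hDc.comp S.symm.continuous).measurable
  have hΨ : Continuous (D ∘ S.symm) := hDc.comp S.symm.continuous
  have hprob := hp.isProb
  have hpQ : ∀ i, ∀ᵐ y ∂(p i), y ∈ rect c b := fun i => hp.ae i (unif_ae c b ρ)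
  have hwI : Integrable (fun y : ℝ × ℝ => w y.1 y.2) (unif c b ρ) :=
    integrable_of_carried hQ (unif_ae c b ρ) hmw
  have hgS : Continuous fun y => g (S.symm y) := hgc.comp S.symm.continuous
  have hgI : Integrable (fun y : ℝ × ℝ => g (S.symm y)) (unif c b ρ) :=
    integrable_of_carried hQ (unif_ae c b ρ) hgS
  have step1 : ∀ i, ∫ y, sqd (z i) y ∂((p i).map (D ∘ S.symm)) ≤
      (1 + 12 * δ) * ∫ y, sqd (z i) y ∂(p i) + 2 * (w (z i).1 (z i).2 - ∫ y, w y.1 y.2 ∂(p i))
        + ∫ y, g (S.symm y) ∂(p i) := by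
    intro i
    have := hprob i
    rw [integral_map hΨ.measurable.aemeasurable (continuous_sqd _).aestronglyMeasurable]
    have i1 : Integrable (fun y => sqd (z i) y) (p i) :=
      integrable_of_carried hQ (hpQ i) (continuous_sqd _)
    have i2 : Integrable (fun y : ℝ × ℝ => w y.1 y.2) (p i) :=
      integrable_of_carried hQ (hpQ i) hmw
    have i3 : Integrable (fun y => g (S.symm y)) (p i) :=
      integrable_of_carried hQ (hpQ i) hgS
    have i4 : Integrable (fun y => sqd (z i) ((D ∘ S.symm) y)) (p i) :=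
      integrable_of_carried hQ (hpQ i) ((continuous_sqd _).comp hΨ)
    calc ∫ y, sqd (z i) ((D ∘ S.symm) y) ∂(p i)
        ≤ ∫ y, ((1 + 12 * δ) * sqd (z i) y + 2 * (w (z i).1 (z i).2 - w y.1 y.2)
            + g (S.symm y)) ∂(p i) := by
          apply integral_mono_ae i4
          · exact ((i1.const_mul _).add (((integrable_const _).sub i2).const_mul _)).add i3
          · filter_upwards [hpQ i] with y hy
            exact hpt (z i) (hz i) y hy
      _ = _ := by
          have j2 : Integrable (fun y : ℝ × ℝ => 2 * (w (z i).1 (z i).2 - w y.1 y.2)) (p i) :=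
            ((integrable_const _).sub i2).const_mul _
          have j1 : Integrable (fun y : ℝ × ℝ => (1 + 12 * δ) * sqd (z i) y) (p i) :=
            i1.const_mul _
          have j3 : Integrable (fun y : ℝ × ℝ => (1 + 12 * δ) * sqd (z i) y +
              2 * (w (z i).1 (z i).2 - w y.1 y.2)) (p i) := j1.add j2
          rw [integral_add j3 i3, integral_add j1 j2,
            integral_const_mul, integral_const_mul, integral_sub (integrable_const _) i2]
          simp
  have step2 : planCost z (fun i => (p i).map (D ∘ S.symm)) ≤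
      (1 + 12 * δ) * planCost z p + (2 * (∑ i, w (z i).1 (z i).2 -
        ∫ y, w y.1 y.2 ∂(unif c b ρ)) + ∫ y, g (S.symm y) ∂(unif c b ρ)) := by
    unfold planCost
    calc _ ≤ ∑ i, ((1 + 12 * δ) * ∫ y, sqd (z i) y ∂(p i) +
          2 * (w (z i).1 (z i).2 - ∫ y, w y.1 y.2 ∂(p i)) + ∫ y, g (S.symm y) ∂(p i)) :=
          Finset.sum_le_sum fun i _ => step1 i
      _ = _ := by
          rw [Finset.sum_add_distrib, Finset.sum_add_distrib, ← Finset.mul_sum, ← Finset.mul_sum,
            Finset.sum_sub_distrib, hp.sum_integral hwI, hp.sum_integral hgI]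
          ring
  have hint : ∫ y, w y.1 y.2 ∂(unif c b ρ) = ρ * ∫ y in rect c b, w y.1 y.2 := by
    unfold unif
    rw [integral_smul_measure, ENNReal.toReal_ofReal hρ.le, smul_eq_mul]
  have hg2 : ∫ y, g (S.symm y) ∂(unif c b ρ) ≤
      (1 + 12 * δ) * ρ * ∫ y in rect c b, (w1 y.1 y.2 ^ 2 + w2 y.1 y.2 ^ 2) := by
    have k1 : ∫ y, g (S.symm y) ∂(unif c b ρ) = ∫ x, g x ∂((unif c b ρ).map S.symm) := by
      rw [integral_map S.symm.continuous.measurable.aemeasurable hgc.aestronglyMeasurable]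
    have hg0 : ∀ x, 0 ≤ g x := fun x => by
      simp only [hgdef]
      positivity
    have k2 : ∫ x, g x ∂((unif c b ρ).map S.symm) ≤ ∫ x, g x ∂(ENNReal.ofReal
        (ρ * (1 + 1.2 * δ)) • volume.restrict (rect c b)) := by
      apply integral_mono_measure hle (Filter.Eventually.of_forall hg0)
      apply integrable_of_carried hQ _ hgc
      exact Measure.ae_smul_measure (ae_restrict_mem (measurableSet_rect c b)) _
    rw [k1]
    refine k2.trans ?_
    rw [integral_smul_measure, ENNReal.toReal_ofReal (by positivity), smul_eq_mul]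
    simp only [hgdef]
    rw [integral_const_mul]
    have k3 : 0 ≤ ∫ y in rect c b, (w1 y.1 y.2 ^ 2 + w2 y.1 y.2 ^ 2) :=
      integral_nonneg fun _ => by positivity
    have k4 : (1 + 1.2 * δ) * (1 + 10 * δ) ≤ 1 + 12 * δ := by nlinarith
    calc ρ * (1 + 1.2 * δ) * ((1 + 10 * δ) * ∫ y in rect c b, (w1 y.1 y.2 ^ 2 + w2 y.1 y.2 ^ 2))
        = ((1 + 1.2 * δ) * (1 + 10 * δ)) * (ρ *
          ∫ y in rect c b, (w1 y.1 y.2 ^ 2 + w2 y.1 y.2 ^ 2)) := by ring
      _ ≤ (1 + 12 * δ) * (ρ * ∫ y in rect c b, (w1 y.1 y.2 ^ 2 + w2 y.1 y.2 ^ 2)) := by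
        gcongr
      _ = _ := by ring
  rw [hint] at step2
  linarith

end Pool.Agent.H969
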