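import Mathlib
import Pool.Agent.H969.Cost

/-! Product measures: mixtures, reindexing and moments. -/

set_option autoImplicit false

open MeasureTheory Set
open scoped ENNReal NNReal

namespace Pool.Agent.H969

variable {Ω : Type*} [MeasurableSpace Ω]

theorem mp_elim {ι κ τ : Type*} [Fintype ι] [Fintype κ] [Fintype τ] (e : ι ⊕ κ ≃ τ)
    (μ ν : Measure Ω) [SigmaFinite μ] [SigmaFinite ν] :
    ((Measure.pi fun _ : ι => μ).prod (Measure.pi fun _ : κ => ν)).map
      (fun w : (ι → Ω) × (κ → Ω) => fun i => Sum.elim w.1 w.2 (e.symm i)) =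
    Measure.pi fun i => Sum.elim (fun _ : ι => μ) (fun _ : κ => ν) (e.symm i) := by
  have : ∀ i, SigmaFinite (Sum.elim (fun _ : ι => μ) (fun _ : κ => ν) (e.symm i)) := by
    intro i
    rcases e.symm i with a | b
    · simp only [Sum.elim_inl]; infer_instance
    · simp only [Sum.elim_inr]; infer_instance
  have hmeas : Measurable (fun w : (ι → Ω) × (κ → Ω) => fun i => Sum.elim w.1 w.2 (e.symm i)) := by
    apply measurable_pi_lambda
    intro i
    rcases e.symm i with a | b
    · exact (measurable_pi_apply a).comp measurable_fst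
    · exact (measurable_pi_apply b).comp measurable_snd
  symm
  apply Measure.pi_eq
  intro s hs
  rw [Measure.map_apply hmeas (MeasurableSet.univ_pi hs)]
  have hpre : (fun w : (ι → Ω) × (κ → Ω) => fun i => Sum.elim w.1 w.2 (e.symm i)) ⁻¹'
      (univ.pi s) = (univ.pi fun a => s (e (Sum.inl a))) ×ˢ (univ.pi fun b => s (e (Sum.inr b))) := by
    ext w
    simp only [mem_preimage, mem_univ_pi, mem_prod]
    constructor
    · intro h
      refine ⟨fun a => ?_, fun b => ?_⟩
      · have := h (e (Sum.inl a))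
        rwa [e.symm_apply_apply] at this
      · have := h (e (Sum.inr b))
        rwa [e.symm_apply_apply] at this
    · rintro ⟨h1, h2⟩ i
      obtain ⟨x, rfl⟩ := e.surjective i
      rw [e.symm_apply_apply]
      rcases x with a | b
      · exact h1 a
      · exact h2 b
  rw [hpre, Measure.prod_prod, Measure.pi_pi, Measure.pi_pi, ← e.prod_comp, Fintype.prod_sum_type]
  simp

theorem pi_mix {n : ℕ} (μ ν : Measure Ω) [IsProbabilityMeasure μ] [IsProbabilityMeasure ν]
    (p q : ℝ≥0∞) (hp : p ≠ ∞) (hq : q ≠ ∞) :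
    (Measure.pi fun _ : Fin n => p • μ + q • ν) =
      ∑ S : Finset (Fin n), (p ^ S.card * q ^ (n - S.card)) •
        Measure.pi fun i => if i ∈ S then μ else ν := by
  have f1 := Measure.smul_finite μ hp
  have f2 := Measure.smul_finite ν hq
  have f3 : ∀ (S : Finset (Fin n)) (i : Fin n), SigmaFinite (if i ∈ S then μ else ν) := by
    intro S i
    split_ifs <;> infer_instance
  apply Measure.pi_eq
  intro s hs
  rw [Measure.finsetSum_apply]
  simp only [Measure.smul_apply, smul_eq_mul, Measure.add_apply]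
  rw [Finset.prod_add, Finset.powerset_univ]
  apply Finset.sum_congr rfl
  intro S _
  rw [Measure.pi_pi]
  have e1 : ∏ i, (if i ∈ S then μ else ν) (s i) =
      (∏ i ∈ S, μ (s i)) * ∏ i ∈ Finset.univ \ S, ν (s i) := by
    rw [← Finset.prod_sdiff (Finset.subset_univ S), mul_comm]
    congr 1
    · exact Finset.prod_congr rfl fun i hi => by rw [if_pos hi]
    · exact Finset.prod_congr rfl fun i hi => by rw [if_neg (Finset.mem_sdiff.1 hi).2]
  rw [e1, Finset.prod_mul_distrib, Finset.prod_mul_distrib, Finset.prod_const, Finset.prod_const,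
    Finset.card_sdiff_of_subset (Finset.subset_univ S), Finset.card_univ, Fintype.card_fin]
  ring

/-- the label-sorting equivalence -/
theorem exists_sort {n k l : ℕ} (S : Finset (Fin n)) (hk : S.card = k) (hl : n - S.card = l) :
    ∃ e : Fin k ⊕ Fin l ≃ Fin n, (∀ a, e (Sum.inl a) ∈ S) ∧ ∀ b, e (Sum.inr b) ∉ S := by
  have c1 : Fintype.card {i // i ∈ S} = k := by rw [Fintype.card_coe, hk]
  have c2 : Fintype.card {i // ¬ i ∈ S} = l := by
    rw [Fintype.card_subtype_compl, Fintype.card_fin, Fintype.card_coe, hl]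
  refine ⟨(Equiv.sumCongr (Fintype.equivFinOfCardEq c1).symm
    (Fintype.equivFinOfCardEq c2).symm).trans (Equiv.sumCompl (· ∈ S)), fun a => ?_, fun b => ?_⟩
  · simp
  · simp only [Equiv.trans_apply, Equiv.sumCongr_apply, Sum.map_inr, Equiv.sumCompl_apply_inr]
    exact ((Fintype.equivFinOfCardEq c2).symm b).2

theorem map_sort {n k l : ℕ} (S : Finset (Fin n)) (μ ν : Measure Ω) [IsProbabilityMeasure μ]
    [IsProbabilityMeasure ν] (e : Fin k ⊕ Fin l ≃ Fin n) (h1 : ∀ a, e (Sum.inl a) ∈ S)
    (h2 : ∀ b, e (Sum.inr b) ∉ S) :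
    ((Measure.pi fun _ : Fin k => μ).prod (Measure.pi fun _ : Fin l => ν)).map
      (fun w : (Fin k → Ω) × (Fin l → Ω) => fun i => Sum.elim w.1 w.2 (e.symm i)) =
    Measure.pi fun i => if i ∈ S then μ else ν := by
  rw [mp_elim]
  congr 1
  ext1 i
  obtain ⟨x, rfl⟩ := e.surjective i
  rw [e.symm_apply_apply]
  rcases x with a | b
  · rw [if_pos (h1 a)]; rfl
  · rw [if_neg (h2 b)]; rfl

/-- first moment -/
theorem pi_mean {ι : Type*} [Fintype ι] (μ : Measure Ω) [IsProbabilityMeasure μ] {f : Ω → ℝ}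
    (hf : Integrable f μ) :
    ∫ z, ∑ i, f (z i) ∂(Measure.pi fun _ : ι => μ) = Fintype.card ι * ∫ y, f y ∂μ := by
  rw [integral_finsetSum]
  · rw [Finset.sum_congr rfl fun i _ => integral_comp_eval hf.aestronglyMeasurable]
    simp
  · exact fun i _ => integrable_comp_eval hf

theorem pi_var {ι : Type*} [Fintype ι] (μ : Measure Ω) [IsProbabilityMeasure μ] {f : Ω → ℝ}
    (hf : MemLp f 2 μ) (h0 : ∫ y, f y ∂μ = 0) :
    ∫ z, (∑ i, f (z i)) ^ 2 ∂(Measure.pi fun _ : ι => μ) = Fintype.card ι * ∫ y, f y ^ 2 ∂μ := by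
  have h := ProbabilityTheory.variance_sum_pi (ι := ι) (μ := fun _ => μ) (X := fun _ => f)
    (fun _ => hf)
  have hint : Integrable f μ := hf.integrable (by norm_num)
  have hm : AEMeasurable (∑ i, fun z : ι → Ω => f (z i)) (Measure.pi fun _ : ι => μ) := by
    apply Finset.aemeasurable_sum
    intro i _
    exact (integrable_comp_eval hint).aestronglyMeasurable.aemeasurable
  rw [ProbabilityTheory.variance_of_integral_eq_zero hm] at h
  · simp only [Finset.sum_apply, Finset.sum_const, Finset.card_univ, nsmul_eq_mul] at h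
    rw [h, ProbabilityTheory.variance_of_integral_eq_zero hint.aestronglyMeasurable.aemeasurable h0]
  · have := pi_mean (ι := ι) μ hint
    simp only [Finset.sum_apply]
    rw [this, h0, mul_zero]

end Pool.Agent.H969
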