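import Mathlib
import Pool.Agent.H969.Mix
import Pool.Agent.H969.Deform

/-! Fourth moments; measurability and crude bounds of the cost. -/

set_option autoImplicit false

open MeasureTheory
open scoped ENNReal NNReal

namespace Pool.Agent.H969

variable {Ω : Type*} [MeasurableSpace Ω]

theorem ae_pi {ι : Type*} [Fintype ι] (μ : Measure Ω) [IsProbabilityMeasure μ] {p : Ω → Prop}
    (h : ∀ᵐ y ∂μ, p y) : ∀ᵐ z ∂(Measure.pi fun _ : ι => μ), ∀ i, p (z i) := by
  rw [ae_all_iff]
  intro i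
  exact (measurePreserving_eval (fun _ : ι => μ) i).quasiMeasurePreserving.ae h

theorem exp_quad {u : ℝ} (hu : |u| ≤ 1) : Real.exp u ≤ 1 + u + u ^ 2 := by
  have := (abs_le.1 (Real.abs_exp_sub_one_sub_id_le hu)).2
  linarith

theorem exp_moment (μ : Measure Ω) [IsProbabilityMeasure μ] {f : Ω → ℝ} {θ M : ℝ}
    (hf : AEStronglyMeasurable f μ) (hb : ∀ᵐ y ∂μ, |f y| ≤ M) (h0 : ∫ y, f y ∂μ = 0)
    (hθ : |θ| * M ≤ 1) : ∫ y, Real.exp (θ * f y) ∂μ ≤ 1 + θ ^ 2 * M ^ 2 := by
  have hfi : Integrable f μ := Integrable.of_bound hf M (by simpa using hb)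
  have hf2 : Integrable (fun y => f y ^ 2) μ :=
    Integrable.of_bound (hf.pow 2) (M ^ 2) (hb.mono fun y hy => by
      rw [Real.norm_eq_abs, abs_pow]
      exact pow_le_pow_left₀ (abs_nonneg _) hy 2)
  have hM0 : ∀ᵐ y ∂μ, |θ * f y| ≤ 1 := hb.mono fun y hy => by
    rw [abs_mul]
    exact (mul_le_mul_of_nonneg_left hy (abs_nonneg _)).trans hθ
  calc ∫ y, Real.exp (θ * f y) ∂μ ≤ ∫ y, (1 + θ * f y + θ ^ 2 * M ^ 2) ∂μ := by
        apply integral_mono_of_nonneg
        · exact Filter.Eventually.of_forall fun y => (Real.exp_pos _).le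
        · exact ((integrable_const _).add (hfi.const_mul θ)).add (integrable_const _)
        · filter_upwards [hb, hM0] with y h1 h2
          refine (exp_quad h2).trans ?_
          have : (θ * f y) ^ 2 ≤ θ ^ 2 * M ^ 2 := by
            rw [mul_pow]
            apply mul_le_mul_of_nonneg_left _ (sq_nonneg _)
            rw [← sq_abs]
            exact pow_le_pow_left₀ (abs_nonneg _) h1 2
          linarith
    _ = 1 + θ ^ 2 * M ^ 2 := by
        have j1 : Integrable (fun y => 1 + θ * f y) μ := (integrable_const _).add (hfi.const_mul θ)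
        rw [integral_add j1 (integrable_const _),
          integral_add (integrable_const _) (hfi.const_mul θ), integral_const_mul, h0]
        simp

theorem pow4_le (y : ℝ) : y ^ 4 ≤ 24 * (Real.exp y + Real.exp (-y)) := by
  have key : ∀ x : ℝ, 0 ≤ x → x ^ 4 ≤ 24 * Real.exp x := by
    intro x hx
    have := Real.pow_div_factorial_le_exp x hx 4
    rw [div_le_iff₀ (by positivity)] at this
    have e : ((Nat.factorial 4 : ℕ) : ℝ) = 24 := by norm_num [Nat.factorial]
    rw [e] at this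
    linarith
  rcases le_total 0 y with h | h
  · have := key y h
    have := Real.exp_pos (-y)
    linarith
  · have := key (-y) (by linarith)
    have := Real.exp_pos y
    have e : (-y) ^ 4 = y ^ 4 := by ring
    linarith

theorem pi_fourth {ι : Type*} [Fintype ι] (μ : Measure Ω) [IsProbabilityMeasure μ] {f : Ω → ℝ}
    {M : ℝ} (hM : 0 < M) (hf : AEStronglyMeasurable f μ) (hb : ∀ᵐ y ∂μ, |f y| ≤ M)
    (h0 : ∫ y, f y ∂μ = 0) :
    ∫ z, (∑ i, f (z i)) ^ 4 ∂(Measure.pi fun _ : ι => μ) ≤ 150 * (Fintype.card ι : ℝ) ^ 2 * M ^ 4 := by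
  rcases isEmpty_or_nonempty ι with hι | hι
  · simp
  have hn : (0 : ℝ) < Fintype.card ι := by exact_mod_cast Fintype.card_pos
  have hn1 : (1 : ℝ) ≤ Fintype.card ι := by exact_mod_cast Fintype.card_pos
  set n : ℝ := (Fintype.card ι : ℝ) with hndef
  set θ : ℝ := 1 / (M * Real.sqrt n) with hθdef
  have hs : 0 < Real.sqrt n := Real.sqrt_pos.2 hn
  have hs1 : 1 ≤ Real.sqrt n := Real.one_le_sqrt.2 hn1
  have hθ : 0 < θ := by positivity
  have hθ2 : θ ^ 2 * M ^ 2 = 1 / n := by
    rw [hθdef, div_pow, mul_pow, Real.sq_sqrt hn.le]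
    field_simp
  have hθM : |θ| * M ≤ 1 := by
    rw [abs_of_pos hθ, hθdef, one_div_mul_eq_div, div_le_one (by positivity)]
    nlinarith
  have hθM' : |-θ| * M ≤ 1 := by rwa [abs_neg]
  have hfi : Integrable f μ := Integrable.of_bound hf M (by simpa using hb)
  have hfm := hfi.aestronglyMeasurable.aemeasurable
  have hSm : AEStronglyMeasurable (fun z : ι → Ω => ∑ i, f (z i)) (Measure.pi fun _ : ι => μ) :=
    (integrable_finsetSum _ fun i _ => integrable_comp_eval hfi).aestronglyMeasurable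
  have hSb : ∀ᵐ z ∂(Measure.pi fun _ : ι => μ), |∑ i, f (z i)| ≤ n * M := by
    filter_upwards [ae_pi μ hb] with z hz
    calc |∑ i, f (z i)| ≤ ∑ i, |f (z i)| := Finset.abs_sum_le_sum_abs _ _
      _ ≤ ∑ _i : ι, M := Finset.sum_le_sum fun i _ => hz i
      _ = n * M := by simp [hndef]
  have hexpI : ∀ s : ℝ, Integrable (fun z : ι → Ω => Real.exp (s * ∑ i, f (z i)))
      (Measure.pi fun _ : ι => μ) := by
    intro s
    apply Integrable.of_bound
      (Real.continuous_exp.comp_aestronglyMeasurable (hSm.const_mul s)) (Real.exp (|s| * (n * M)))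
    filter_upwards [hSb] with z hz
    rw [Real.norm_eq_abs, abs_of_pos (Real.exp_pos _)]
    apply Real.exp_le_exp.2
    refine (le_abs_self _).trans ?_
    rw [abs_mul]
    exact mul_le_mul_of_nonneg_left hz (abs_nonneg _)
  have hexp : ∀ s : ℝ, |s| * M ≤ 1 → s ^ 2 * M ^ 2 = 1 / n →
      ∫ z, Real.exp (s * ∑ i, f (z i)) ∂(Measure.pi fun _ : ι => μ) ≤ Real.exp 1 := by
    intro s hs1 hs2
    have e : ∀ z : ι → Ω, Real.exp (s * ∑ i, f (z i)) = ∏ i, Real.exp (s * f (z i)) := by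
      intro z
      rw [Finset.mul_sum, Real.exp_sum]
    simp_rw [e]
    rw [integral_fintype_prod_eq_pow (f := fun y => Real.exp (s * f y))]
    have h1 := exp_moment μ hf hb h0 hs1
    rw [hs2] at h1
    have h2 : 0 ≤ ∫ y, Real.exp (s * f y) ∂μ := integral_nonneg fun _ => (Real.exp_pos _).le
    calc (∫ y, Real.exp (s * f y) ∂μ) ^ Fintype.card ι ≤ (1 + 1 / n) ^ Fintype.card ι :=
          pow_le_pow_left₀ h2 h1 _
      _ ≤ (Real.exp (1 / n)) ^ Fintype.card ι := by
          apply pow_le_pow_left₀ (by positivity)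
          linarith [Real.add_one_le_exp (1 / n)]
      _ = Real.exp 1 := by
          rw [← Real.exp_nat_mul, ← hndef]
          congr 1
          field_simp
  have k1 := hexp θ hθM hθ2
  have k2 := hexp (-θ) hθM' (by rw [neg_sq]; exact hθ2)
  have hmain : ∫ z, (∑ i, f (z i)) ^ 4 ∂(Measure.pi fun _ : ι => μ) ≤
      ∫ z, (24 / θ ^ 4) * (Real.exp (θ * ∑ i, f (z i)) + Real.exp (-θ * ∑ i, f (z i)))
        ∂(Measure.pi fun _ : ι => μ) := by
    apply integral_mono_of_nonneg
    · exact Filter.Eventually.of_forall fun z => by positivity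
    · exact ((hexpI θ).add (hexpI (-θ))).const_mul _
    · refine Filter.Eventually.of_forall fun z => ?_
      simp only
      have := pow4_le (θ * ∑ i, f (z i))
      rw [mul_pow, ← neg_mul] at this
      rw [div_mul_eq_mul_div, le_div_iff₀ (by positivity), mul_comm]
      exact this
  refine hmain.trans ?_
  rw [integral_const_mul, integral_add (hexpI θ) (hexpI (-θ))]
  have e4 : 24 / θ ^ 4 = 24 * (n ^ 2 * M ^ 4) := by
    have : θ ^ 4 = 1 / (n ^ 2 * M ^ 4) := by
      have e : θ ^ 4 * M ^ 4 = (θ ^ 2 * M ^ 2) ^ 2 := by ring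
      rw [hθ2] at e
      have hM4 : M ^ 4 ≠ 0 := by positivity
      rw [eq_div_iff (by positivity)]
      calc θ ^ 4 * (n ^ 2 * M ^ 4) = (θ ^ 4 * M ^ 4) * n ^ 2 := by ring
        _ = 1 := by rw [e]; field_simp
    rw [this]
    field_simp
  rw [e4]
  have he : Real.exp 1 ≤ 3 := by linarith [Real.exp_one_lt_d9]
  have hpos : 0 ≤ 24 * (n ^ 2 * M ^ 4) := by positivity
  calc 24 * (n ^ 2 * M ^ 4) * (_ + _) ≤ 24 * (n ^ 2 * M ^ 4) * (3 + 3) := by
        apply mul_le_mul_of_nonneg_left _ hpos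
        linarith
    _ ≤ 150 * n ^ 2 * M ^ 4 := by nlinarith [mul_nonneg (sq_nonneg n) (by positivity : 0 ≤ M ^ 4)]

/-! ### The cost -/

theorem integral_sqd {μ : Measure (ℝ × ℝ)} [IsProbabilityMeasure μ] {K : Set (ℝ × ℝ)}
    (hK : IsCompact K) (hμ : ∀ᵐ y ∂μ, y ∈ K) (x : ℝ × ℝ) :
    ∫ y, sqd x y ∂μ = (x.1 ^ 2 + x.2 ^ 2) - 2 * x.1 * ∫ y, y.1 ∂μ - 2 * x.2 * ∫ y, y.2 ∂μ +
      ∫ y, (y.1 ^ 2 + y.2 ^ 2) ∂μ := by
  have i1 : Integrable (fun y : ℝ × ℝ => y.1) μ := integrable_of_carried hK hμ continuous_fst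
  have i2 : Integrable (fun y : ℝ × ℝ => y.2) μ := integrable_of_carried hK hμ continuous_snd
  have i3 : Integrable (fun y : ℝ × ℝ => y.1 ^ 2 + y.2 ^ 2) μ :=
    integrable_of_carried hK hμ (by fun_prop)
  have e : ∀ y : ℝ × ℝ, sqd x y = ((x.1 ^ 2 + x.2 ^ 2) - 2 * x.1 * y.1 - 2 * x.2 * y.2) +
      (y.1 ^ 2 + y.2 ^ 2) := by
    intro y
    unfold sqd
    ring
  simp_rw [e]
  have j1 : Integrable (fun y : ℝ × ℝ => (x.1 ^ 2 + x.2 ^ 2) - 2 * x.1 * y.1) μ :=
    (integrable_const _).sub (i1.const_mul _)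
  have j2 : Integrable (fun y : ℝ × ℝ => (x.1 ^ 2 + x.2 ^ 2) - 2 * x.1 * y.1 - 2 * x.2 * y.2) μ :=
    j1.sub (i2.const_mul _)
  rw [integral_add j2 i3, integral_sub j1 (i2.const_mul _),
    integral_sub (integrable_const _) (i1.const_mul _), integral_const_mul, integral_const_mul]
  simp

theorem measurable_costR {ι : Type*} [Fintype ι] {lam : Measure (ℝ × ℝ)} {K : Set (ℝ × ℝ)}
    (hK : IsCompact K) (hlam : ∀ᵐ y ∂lam, y ∈ K) :
    Measurable (fun z : ι → ℝ × ℝ => costR z lam) := by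
  apply UpperSemicontinuous.measurable
  unfold costR
  apply upperSemicontinuous_ciInf
  · intro z
    exact ⟨0, by rintro _ ⟨p, rfl⟩; exact planCost_nonneg _ _⟩
  · rintro ⟨p, hp⟩
    apply Continuous.upperSemicontinuous
    unfold planCost
    apply continuous_finsetSum
    intro i _
    have := hp.isProb i
    simp_rw [integral_sqd hK (hp.ae i hlam)]
    fun_prop

theorem IsPlan.comp {ι κ : Type*} [Fintype ι] [Fintype κ] (e : κ ≃ ι) {lam : Measure (ℝ × ℝ)}
    {p : ι → Measure (ℝ × ℝ)} (hp : IsPlan lam p) : IsPlan lam (fun j => p (e j)) := by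
  refine ⟨fun j => hp.mass _, ?_⟩
  rw [← hp.sum]
  exact e.sum_comp p

theorem costR_comp {ι κ : Type*} [Fintype ι] [Fintype κ] (e : κ ≃ ι) (z : ι → ℝ × ℝ)
    (lam : Measure (ℝ × ℝ)) : costR (fun j => z (e j)) lam = costR z lam := by
  unfold costR
  refine Function.Surjective.iInf_congr
    (fun p : {p : κ → Measure (ℝ × ℝ) // IsPlan lam p} =>
      (⟨fun i => p.1 (e.symm i), p.2.comp e.symm⟩ :
        {p : ι → Measure (ℝ × ℝ) // IsPlan lam p})) ?_ ?_
  · intro p
    refine ⟨⟨fun j => p.1 (e j), p.2.comp e⟩, ?_⟩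
    ext1
    simp
  · intro p
    simp only [planCost]
    rw [← e.sum_comp]
    simp

theorem costR_le_crude {ι : Type*} [Fintype ι] [Nonempty ι] {lam : Measure (ℝ × ℝ)} {C : ℝ}
    {z : ι → ℝ × ℝ} (hmass : lam Set.univ = Fintype.card ι)
    (h : ∀ i, ∀ᵐ y ∂lam, sqd (z i) y ≤ C) : costR z lam ≤ Fintype.card ι * C := by
  obtain ⟨p, hp⟩ := exists_plan hmass
  refine (costR_le z hp).trans ?_
  unfold planCost
  calc ∑ i, ∫ y, sqd (z i) y ∂(p i) ≤ ∑ _i : ι, C := by
        apply Finset.sum_le_sum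
        intro i _
        have := hp.isProb i
        calc ∫ y, sqd (z i) y ∂(p i) ≤ ∫ _y, C ∂(p i) := by
              apply integral_mono_of_nonneg
              · exact Filter.Eventually.of_forall fun y => sqd_nonneg _ _
              · exact integrable_const _
              · exact hp.ae i (h i)
          _ = C := by simp
    _ = _ := by simp

theorem costR_empty {ι : Type*} [Fintype ι] [IsEmpty ι] (lam : Measure (ℝ × ℝ)) (z : ι → ℝ × ℝ) :
    costR z lam = 0 := by
  unfold costR planCost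
  simp

end Pool.Agent.H969
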