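import Mathlib
import Pool.Agent.H969.Deform

/-! Explicit harmonic potentials. -/

set_option autoImplicit false

open MeasureTheory Set Real
open scoped ENNReal NNReal

namespace Pool.Agent.H969

variable {c δ δ' : ℝ} {w w1 w2 w11 w12 w22 v v1 v2 v11 v12 v22 : ℝ → ℝ → ℝ}

theorem Pot.add (hP : Pot c δ w w1 w2 w11 w12 w22) (hQ : Pot c δ' v v1 v2 v11 v12 v22) :
    Pot c (δ + δ') (fun s t => w s t + v s t) (fun s t => w1 s t + v1 s t)
      (fun s t => w2 s t + v2 s t) (fun s t => w11 s t + v11 s t) (fun s t => w12 s t + v12 s t)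
      (fun s t => w22 s t + v22 s t) where
  h1 s t := (hP.h1 s t).fun_add (hQ.h1 s t)
  h2 s t := (hP.h2 s t).fun_add (hQ.h2 s t)
  h11 s t := (hP.h11 s t).fun_add (hQ.h11 s t)
  h12 s t := (hP.h12 s t).fun_add (hQ.h12 s t)
  h21 s t := (hP.h21 s t).fun_add (hQ.h21 s t)
  h22 s t := (hP.h22 s t).fun_add (hQ.h22 s t)
  cw := hP.cw.add hQ.cw
  c1 := hP.c1.add hQ.c1
  c2 := hP.c2.add hQ.c2
  c11 := hP.c11.add hQ.c11
  c22 := hP.c22.add hQ.c22
  b11 s hs t := (abs_add_le _ _).trans (add_le_add (hP.b11 s hs t) (hQ.b11 s hs t))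
  b12 s hs t := (abs_add_le _ _).trans (add_le_add (hP.b12 s hs t) (hQ.b12 s hs t))
  b22 s hs t := (abs_add_le _ _).trans (add_le_add (hP.b22 s hs t) (hQ.b22 s hs t))

theorem Pot.mono (hP : Pot c δ w w1 w2 w11 w12 w22) (h : δ ≤ δ') :
    Pot c δ' w w1 w2 w11 w12 w22 :=
  { hP with
    b11 := fun s hs t => (hP.b11 s hs t).trans h
    b12 := fun s hs t => (hP.b12 s hs t).trans h
    b22 := fun s hs t => (hP.b22 s hs t).trans h }

theorem Pot.sum {ι : Type*} (S : Finset ι) (h d : ι → ℝ) {u u1 u2 u11 u12 u22 : ι → ℝ → ℝ → ℝ}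
    (hP : ∀ i ∈ S, Pot c (d i) (u i) (u1 i) (u2 i) (u11 i) (u12 i) (u22 i)) :
    Pot c (∑ i ∈ S, |h i| * d i) (fun s t => ∑ i ∈ S, h i * u i s t)
      (fun s t => ∑ i ∈ S, h i * u1 i s t)
      (fun s t => ∑ i ∈ S, h i * u2 i s t) (fun s t => ∑ i ∈ S, h i * u11 i s t)
      (fun s t => ∑ i ∈ S, h i * u12 i s t)
      (fun s t => ∑ i ∈ S, h i * u22 i s t) where
  h1 s t := HasDerivAt.fun_sum fun i hi => ((hP i hi).h1 s t).const_mul (h i)
  h2 s t := HasDerivAt.fun_sum fun i hi => ((hP i hi).h2 s t).const_mul (h i)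
  h11 s t := HasDerivAt.fun_sum fun i hi => ((hP i hi).h11 s t).const_mul (h i)
  h12 s t := HasDerivAt.fun_sum fun i hi => ((hP i hi).h12 s t).const_mul (h i)
  h21 s t := HasDerivAt.fun_sum fun i hi => ((hP i hi).h21 s t).const_mul (h i)
  h22 s t := HasDerivAt.fun_sum fun i hi => ((hP i hi).h22 s t).const_mul (h i)
  cw := continuous_finsetSum _ fun i hi => continuous_const.mul (hP i hi).cw
  c1 := continuous_finsetSum _ fun i hi => continuous_const.mul (hP i hi).c1
  c2 := continuous_finsetSum _ fun i hi => continuous_const.mul (hP i hi).c2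
  c11 := continuous_finsetSum _ fun i hi => continuous_const.mul (hP i hi).c11
  c22 := continuous_finsetSum _ fun i hi => continuous_const.mul (hP i hi).c22
  b11 s hs t := (Finset.abs_sum_le_sum_abs _ _).trans (Finset.sum_le_sum fun i hi => by
    rw [abs_mul]; exact mul_le_mul_of_nonneg_left ((hP i hi).b11 s hs t) (abs_nonneg _))
  b12 s hs t := (Finset.abs_sum_le_sum_abs _ _).trans (Finset.sum_le_sum fun i hi => by
    rw [abs_mul]; exact mul_le_mul_of_nonneg_left ((hP i hi).b12 s hs t) (abs_nonneg _))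
  b22 s hs t := (Finset.abs_sum_le_sum_abs _ _).trans (Finset.sum_le_sum fun i hi => by
    rw [abs_mul]; exact mul_le_mul_of_nonneg_left ((hP i hi).b22 s hs t) (abs_nonneg _))

theorem pot_quad (hc : 0 < c) (h0 : ℝ) :
    Pot c (|h0| / c) (fun s _ => h0 * (s ^ 2 / (2 * c))) (fun s _ => h0 * (s / c)) (fun _ _ => 0)
      (fun _ _ => h0 / c) (fun _ _ => 0) (fun _ _ => 0) where
  h1 s t := by
    have h := ((hasDerivAt_pow 2 s).div_const (2 * c)).const_mul h0
    refine h.congr_deriv ?_
    rw [show (2 - 1 : ℕ) = 1 from rfl, pow_one]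
    push_cast
    field_simp
  h2 s t := hasDerivAt_const _ _
  h11 s t := by
    have h := ((hasDerivAt_id s).div_const c).const_mul h0
    exact h.congr_deriv (by ring)
  h12 s t := hasDerivAt_const _ _
  h21 s t := hasDerivAt_const _ _
  h22 s t := hasDerivAt_const _ _
  cw := by fun_prop
  c1 := by fun_prop
  c2 := by fun_prop
  c11 := by fun_prop
  c22 := by fun_prop
  b11 s _ t := by rw [abs_div, abs_of_pos hc]
  b12 s _ t := by simp; positivity
  b22 s _ t := by simp; positivity

theorem sinh_le_cosh_of {x y : ℝ} (hx : 0 ≤ x) (hxy : x ≤ y) :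
    |sinh x| ≤ cosh y ∧ |cosh x| ≤ cosh y := by
  have h1 : cosh x ≤ cosh y := by
    rw [cosh_le_cosh, abs_of_nonneg hx, abs_of_nonneg (hx.trans hxy)]
    exact hxy
  refine ⟨?_, ?_⟩
  · rw [abs_of_nonneg (sinh_nonneg_iff.2 hx)]
    exact (sinh_lt_cosh x).le.trans h1
  · rwa [abs_of_pos (cosh_pos x)]

theorem hda_cosh (k s : ℝ) : HasDerivAt (fun s => cosh (k * s)) (sinh (k * s) * k) s := by
  have h := ((hasDerivAt_id s).const_mul k).cosh
  simpa using h

theorem hda_sinh (k s : ℝ) : HasDerivAt (fun s => sinh (k * s)) (cosh (k * s) * k) s := by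
  have h := ((hasDerivAt_id s).const_mul k).sinh
  simpa using h

theorem hda_cos (k s : ℝ) : HasDerivAt (fun s => cos (k * s)) (-sin (k * s) * k) s := by
  have h := ((hasDerivAt_id s).const_mul k).cos
  simpa using h

theorem hda_sin (k s : ℝ) : HasDerivAt (fun s => sin (k * s)) (cos (k * s) * k) s := by
  have h := ((hasDerivAt_id s).const_mul k).sin
  simpa using h

theorem pot_modeN {k : ℝ} (hk : 0 < k) (hc : 0 < c) :
    Pot c (k * (cosh (k * c) / sinh (k * c)))
      (fun s t => cosh (k * s) * cos (k * t) / (k * sinh (k * c)))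
      (fun s t => sinh (k * s) * cos (k * t) / sinh (k * c))
      (fun s t => -(cosh (k * s) * sin (k * t) / sinh (k * c)))
      (fun s t => k * (cosh (k * s) * cos (k * t) / sinh (k * c)))
      (fun s t => -(k * (sinh (k * s) * sin (k * t) / sinh (k * c))))
      (fun s t => -(k * (cosh (k * s) * cos (k * t) / sinh (k * c)))) := by
  have hS : 0 < sinh (k * c) := sinh_pos_iff.2 (by positivity)
  have key : ∀ {x y z : ℝ}, |x| ≤ cosh (k * c) → |y| ≤ 1 →
      |k * (x * y / sinh (k * c))| ≤ k * (cosh (k * c) / sinh (k * c)) := by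
    intro x y _ hx hy
    rw [abs_mul, abs_of_pos hk, abs_div, abs_of_pos hS, abs_mul]
    gcongr
    calc |x| * |y| ≤ cosh (k * c) * 1 := by
          apply mul_le_mul hx hy (abs_nonneg _) (cosh_pos _).le
      _ = _ := mul_one _
  have hcs : ∀ s ∈ Icc 0 c, |sinh (k * s)| ≤ cosh (k * c) ∧ |cosh (k * s)| ≤ cosh (k * c) :=
    fun s hs => sinh_le_cosh_of (mul_nonneg hk.le hs.1) (mul_le_mul_of_nonneg_left hs.2 hk.le)
  exact
  { h1 := fun s t => by
      have h := ((hda_cosh k s).mul_const (cos (k * t))).div_const (k * sinh (k * c))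
      exact h.congr_deriv (by field_simp)
    h2 := fun s t => by
      have h := ((hda_cos k t).const_mul (cosh (k * s))).div_const (k * sinh (k * c))
      exact h.congr_deriv (by field_simp)
    h11 := fun s t => by
      have h := ((hda_sinh k s).mul_const (cos (k * t))).div_const (sinh (k * c))
      exact h.congr_deriv (by ring)
    h12 := fun s t => by
      have h := ((hda_cos k t).const_mul (sinh (k * s))).div_const (sinh (k * c))
      exact h.congr_deriv (by ring)
    h21 := fun s t => by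
      have h := (((hda_cosh k s).mul_const (sin (k * t))).div_const (sinh (k * c))).fun_neg
      exact h.congr_deriv (by ring)
    h22 := fun s t => by
      have h := (((hda_sin k t).const_mul (cosh (k * s))).div_const (sinh (k * c))).fun_neg
      exact h.congr_deriv (by ring)
    cw := by fun_prop (disch := positivity)
    c1 := by fun_prop
    c2 := by fun_prop
    c11 := by fun_prop
    c22 := by fun_prop
    b11 := fun s hs t => key (z := 0) (hcs s hs).2 (abs_cos_le_one _)
    b12 := fun s hs t => by rw [abs_neg]; exact key (z := 0) (hcs s hs).1 (abs_sin_le_one _)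
    b22 := fun s hs t => by rw [abs_neg]; exact key (z := 0) (hcs s hs).2 (abs_cos_le_one _) }

theorem coth_le {x : ℝ} (hx : 0 < x) : cosh x / sinh x ≤ 1 + 1 / x := by
  have hS : 0 < sinh x := sinh_pos_iff.2 hx
  rw [div_le_iff₀ hS]
  have h1 : cosh x - sinh x = exp (-x) := cosh_sub_sinh x
  have h2 : x ≤ sinh x := (self_le_sinh_iff.2 hx.le)
  have h3 : exp (-x) ≤ 1 := exp_le_one_iff.2 (by linarith)
  have h4 : 1 ≤ 1 / x * sinh x := by
    rw [one_div, ← div_eq_inv_mul, le_div_iff₀ hx]
    linarith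
  linarith [add_mul 1 (1 / x) (sinh x)]

end Pool.Agent.H969
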