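import Mathlib
import Pool.Agent.H969.PotN

/-! Integrals of the explicit potentials. -/

set_option autoImplicit false

open MeasureTheory Set Real
open scoped ENNReal NNReal

namespace Pool.Agent.H969

theorem setInt_of_deriv {a b : ℝ} (hab : a ≤ b) {f f' : ℝ → ℝ}
    (h : ∀ x, HasDerivAt f (f' x) x) (hc : Continuous f') :
    ∫ x in Icc a b, f' x = f b - f a := by
  rw [integral_Icc_eq_integral_Ioc, ← intervalIntegral.integral_of_le hab]
  exact intervalIntegral.integral_eq_sub_of_hasDerivAt (fun x _ => h x)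
    (hc.intervalIntegrable _ _)

/-- the frequencies -/
noncomputable def kap (l : ℕ) : ℝ := π * (l + 1)

theorem kap_pos (l : ℕ) : 0 < kap l := by unfold kap; positivity

theorem int_cos {n : ℤ} (hn : n ≠ 0) : ∫ t in Icc (0:ℝ) 1, cos (π * n * t) = 0 := by
  have hk : π * n ≠ 0 := mul_ne_zero pi_ne_zero (by exact_mod_cast hn)
  rw [setInt_of_deriv zero_le_one (f := fun t => sin (π * n * t) / (π * n))]
  · simp only [mul_one, mul_zero, sin_zero, zero_div, sub_zero]
    rw [mul_comm, sin_int_mul_pi, zero_div]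
  · intro x
    refine ((hda_sin (π * n) x).div_const (π * n)).congr_deriv ?_
    field_simp
  · fun_prop

theorem int_cos_one {n : ℤ} (hn : n = 0) : ∫ t in Icc (0:ℝ) 1, cos (π * n * t) = 1 := by
  subst hn
  simp

theorem int_cc (l l' : ℕ) : ∫ t in Icc (0:ℝ) 1, cos (kap l * t) * cos (kap l' * t) =
    if l = l' then 1 / 2 else 0 := by
  have e : ∀ t : ℝ, cos (kap l * t) * cos (kap l' * t) =
      (1 / 2) * cos (π * ((l : ℤ) - l' : ℤ) * t) + (1 / 2) * cos (π * ((l : ℤ) + l' + 2 : ℤ) * t) := by
    intro t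
    have h1 : π * ((l : ℤ) - l' : ℤ) * t = kap l * t - kap l' * t := by
      unfold kap; push_cast; ring
    have h2 : π * ((l : ℤ) + l' + 2 : ℤ) * t = kap l * t + kap l' * t := by
      unfold kap; push_cast; ring
    rw [h1, h2, cos_sub, cos_add]
    ring
  simp_rw [e]
  rw [integral_add, integral_const_mul, integral_const_mul, int_cos (n := (l:ℤ) + l' + 2) (by omega)]
  · split_ifs with h
    · rw [int_cos_one (by omega)]
      norm_num
    · rw [int_cos (by omega)]
      norm_num
  · exact (Continuous.continuousOn (by fun_prop)).integrableOn_Icc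
  · exact (Continuous.continuousOn (by fun_prop)).integrableOn_Icc

theorem int_ss (l l' : ℕ) : ∫ t in Icc (0:ℝ) 1, sin (kap l * t) * sin (kap l' * t) =
    if l = l' then 1 / 2 else 0 := by
  have e : ∀ t : ℝ, sin (kap l * t) * sin (kap l' * t) =
      (1 / 2) * cos (π * ((l : ℤ) - l' : ℤ) * t) - (1 / 2) * cos (π * ((l : ℤ) + l' + 2 : ℤ) * t) := by
    intro t
    have h1 : π * ((l : ℤ) - l' : ℤ) * t = kap l * t - kap l' * t := by
      unfold kap; push_cast; ring
    have h2 : π * ((l : ℤ) + l' + 2 : ℤ) * t = kap l * t + kap l' * t := by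
      unfold kap; push_cast; ring
    rw [h1, h2, cos_sub, cos_add]
    ring
  simp_rw [e]
  rw [integral_sub, integral_const_mul, integral_const_mul, int_cos (n := (l:ℤ) + l' + 2) (by omega)]
  · split_ifs with h
    · rw [int_cos_one (by omega)]
      norm_num
    · rw [int_cos (by omega)]
      norm_num
  · exact (Continuous.continuousOn (by fun_prop)).integrableOn_Icc
  · exact (Continuous.continuousOn (by fun_prop)).integrableOn_Icc

theorem int_c (l : ℕ) : ∫ t in Icc (0:ℝ) 1, cos (kap l * t) = 0 := by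
  have := int_cos (n := (l : ℤ) + 1) (by omega)
  unfold kap
  simpa using this

theorem int_cosh_sq {k c : ℝ} (hk : 0 < k) (hc : 0 ≤ c) :
    ∫ s in Icc 0 c, cosh (k * s) ^ 2 = c / 2 + sinh (k * c) * cosh (k * c) / (2 * k) := by
  rw [setInt_of_deriv hc (f := fun s => s / 2 + sinh (k * s) * cosh (k * s) / (2 * k))]
  · simp
  · intro x
    have h := ((hasDerivAt_id x).div_const 2).fun_add
      (((hda_sinh k x).fun_mul (hda_cosh k x)).div_const (2 * k))
    refine h.congr_deriv ?_
    have := cosh_sq (k * x)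
    field_simp
    rw [this]
    ring
  · fun_prop

theorem int_sinh_sq {k c : ℝ} (hk : 0 < k) (hc : 0 ≤ c) :
    ∫ s in Icc 0 c, sinh (k * s) ^ 2 = -(c / 2) + sinh (k * c) * cosh (k * c) / (2 * k) := by
  rw [setInt_of_deriv hc (f := fun s => -(s / 2) + sinh (k * s) * cosh (k * s) / (2 * k))]
  · simp
  · intro x
    have h := (((hasDerivAt_id x).div_const 2).fun_neg).fun_add
      (((hda_sinh k x).fun_mul (hda_cosh k x)).div_const (2 * k))
    refine h.congr_deriv ?_
    have := cosh_sq (k * x)
    field_simp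
    rw [this]
    ring
  · fun_prop

theorem int_prod_rect {c : ℝ} (f g : ℝ → ℝ) :
    ∫ y in rect c 1, f y.1 * g y.2 = (∫ s in Icc 0 c, f s) * ∫ t in Icc (0:ℝ) 1, g t := by
  unfold rect
  rw [Measure.volume_eq_prod, setIntegral_prod_mul]

theorem intOn_rect {c b : ℝ} {f : ℝ × ℝ → ℝ} (hf : Continuous f) :
    Integrable f (volume.restrict (rect c b)) :=
  hf.continuousOn.integrableOn_compact (isCompact_rect c b)

/-- orthogonality -/
theorem int_sq_sum {c : ℝ} (L : ℕ) (f g : ℕ → ℝ → ℝ) (hf : ∀ l, Continuous (f l))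
    (hg : ∀ l, Continuous (g l))
    (ho : ∀ l l', ∫ t in Icc (0:ℝ) 1, g l t * g l' t = if l = l' then 1 / 2 else 0) :
    ∫ y in rect c 1, (∑ l ∈ Finset.range L, f l y.1 * g l y.2) ^ 2 =
      ∑ l ∈ Finset.range L, (∫ s in Icc 0 c, f l s ^ 2) * (1 / 2) := by
  have e : ∀ y : ℝ × ℝ, (∑ l ∈ Finset.range L, f l y.1 * g l y.2) ^ 2 =
      ∑ l ∈ Finset.range L, ∑ l' ∈ Finset.range L, (f l y.1 * f l' y.1) * (g l y.2 * g l' y.2) := by
    intro y
    rw [sq, Finset.sum_mul_sum]
    exact Finset.sum_congr rfl fun l _ => Finset.sum_congr rfl fun l' _ => by ring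
  simp_rw [e]
  rw [integral_finsetSum]
  · apply Finset.sum_congr rfl
    intro l hl
    rw [integral_finsetSum]
    · rw [Finset.sum_eq_single l]
      · rw [int_prod_rect (fun s => f l s * f l s) (fun t => g l t * g l t), ho, if_pos rfl]
        simp_rw [sq]
      · intro l' _ hne
        rw [int_prod_rect (fun s => f l s * f l' s) (fun t => g l t * g l' t), ho,
          if_neg hne.symm, mul_zero]
      · intro h; exact absurd hl h
    · intro l' _
      apply intOn_rect
      have h1 := hf l; have h2 := hf l'; have h3 := hg l; have h4 := hg l'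
      fun_prop
  · intro l _
    apply integrable_finsetSum
    intro l' _
    apply intOn_rect
    have h1 := hf l; have h2 := hf l'; have h3 := hg l; have h4 := hg l'
    fun_prop

theorem int_quad1 {c : ℝ} (hc : 0 ≤ c) : ∫ s in Icc 0 c, s ^ 2 = c ^ 3 / 3 := by
  rw [setInt_of_deriv hc (f := fun s => s ^ 3 / 3)]
  · simp
  · intro x
    refine ((hasDerivAt_pow 3 x).div_const 3).congr_deriv ?_
    rw [show (3 - 1 : ℕ) = 2 from rfl]
    push_cast
    ring
  · fun_prop

end Pool.Agent.H969
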