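import Mathlib
import Pool.Agent.H969.Ints

/-! Deformation of a rectangle by the explicit Neumann potentials. -/

set_option autoImplicit false

open MeasureTheory Set Real
open scoped ENNReal NNReal

namespace Pool.Agent.H969

/-- hyperbolic cotangent of `kap l * c` -/
noncomputable def ct (c : ℝ) (l : ℕ) : ℝ := cosh (kap l * c) / sinh (kap l * c)

/-- the modes -/
noncomputable def mN (c : ℝ) (l : ℕ) (y : ℝ × ℝ) : ℝ :=
  cosh (kap l * y.1) * cos (kap l * y.2) / (kap l * sinh (kap l * c))

/-- interface profile -/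
noncomputable def prof (L : ℕ) (h0 : ℝ) (h : ℕ → ℝ) (t : ℝ) : ℝ :=
  h0 + ∑ l ∈ Finset.range L, h l * cos (kap l * t)

theorem sin_kap (l : ℕ) : sin (kap l * 1) = 0 := by
  have := sin_nat_mul_pi (l + 1)
  rw [mul_one, kap, mul_comm]
  exact_mod_cast this

theorem ct_pos {c : ℝ} (hc : 0 < c) (l : ℕ) : 0 < ct c l := by
  have := kap_pos l
  have hS : 0 < sinh (kap l * c) := sinh_pos_iff.2 (by positivity)
  exact div_pos (cosh_pos _) hS

theorem int_mN {c : ℝ} (l : ℕ) : ∫ y in rect c 1, mN c l y = 0 := by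
  unfold mN
  have e : ∀ y : ℝ × ℝ, cosh (kap l * y.1) * cos (kap l * y.2) / (kap l * sinh (kap l * c)) =
      (cosh (kap l * y.1) / (kap l * sinh (kap l * c))) * cos (kap l * y.2) := fun y => by ring
  simp_rw [e]
  rw [int_prod_rect (fun s => cosh (kap l * s) / (kap l * sinh (kap l * c)))
    (fun t => cos (kap l * t)), int_c, mul_zero]

theorem continuous_mN (c : ℝ) (l : ℕ) : Continuous (mN c l) := by
  unfold mN
  fun_prop

theorem int_mN_sq {c : ℝ} (hc : 0 < c) (l : ℕ) : ∫ y in rect c 1, mN c l y ^ 2 =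
    (c / 2 / sinh (kap l * c) ^ 2 + ct c l / (2 * kap l)) / (2 * kap l ^ 2) := by
  have hk := kap_pos l
  have hS : 0 < sinh (kap l * c) := sinh_pos_iff.2 (by positivity)
  unfold mN ct
  have e : ∀ y : ℝ × ℝ, (cosh (kap l * y.1) * cos (kap l * y.2) / (kap l * sinh (kap l * c))) ^ 2 =
      (cosh (kap l * y.1) ^ 2 / (kap l * sinh (kap l * c)) ^ 2) * (cos (kap l * y.2) *
        cos (kap l * y.2)) := fun y => by ring
  simp_rw [e]
  rw [int_prod_rect (fun s => cosh (kap l * s) ^ 2 / (kap l * sinh (kap l * c)) ^ 2)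
    (fun t => cos (kap l * t) * cos (kap l * t)), int_cc, if_pos rfl, integral_div,
    int_cosh_sq hk hc.le]
  field_simp

theorem energyN {c : ℝ} (hc : 0 < c) (L : ℕ) (h0 : ℝ) (h : ℕ → ℝ) :
    ∫ y in rect c 1, ((h0 * (y.1 / c) + ∑ l ∈ Finset.range L,
      h l * (sinh (kap l * y.1) * cos (kap l * y.2) / sinh (kap l * c))) ^ 2 +
      (0 + ∑ l ∈ Finset.range L,
      h l * -(cosh (kap l * y.1) * sin (kap l * y.2) / sinh (kap l * c))) ^ 2) =
    h0 ^ 2 * c / 3 + ∑ l ∈ Finset.range L, h l ^ 2 * (ct c l / (2 * kap l)) := by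
  have e : ∀ y : ℝ × ℝ, ((h0 * (y.1 / c) + ∑ l ∈ Finset.range L,
      h l * (sinh (kap l * y.1) * cos (kap l * y.2) / sinh (kap l * c))) ^ 2 +
      (0 + ∑ l ∈ Finset.range L,
      h l * -(cosh (kap l * y.1) * sin (kap l * y.2) / sinh (kap l * c))) ^ 2) =
      ((h0 ^ 2 / c ^ 2 * y.1 ^ 2) * 1 + ∑ l ∈ Finset.range L,
        (2 * h0 / c * h l / sinh (kap l * c) * (y.1 * sinh (kap l * y.1))) * cos (kap l * y.2)) +
      ((∑ l ∈ Finset.range L, (h l / sinh (kap l * c) * sinh (kap l * y.1)) * cos (kap l * y.2)) ^ 2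
      + (∑ l ∈ Finset.range L, (h l / sinh (kap l * c) * cosh (kap l * y.1)) *
        sin (kap l * y.2)) ^ 2) := by
    intro y
    have e1 : ∑ l ∈ Finset.range L,
        h l * (sinh (kap l * y.1) * cos (kap l * y.2) / sinh (kap l * c)) =
        ∑ l ∈ Finset.range L, (h l / sinh (kap l * c) * sinh (kap l * y.1)) * cos (kap l * y.2) :=
      Finset.sum_congr rfl fun l _ => by ring
    have e2 : ∑ l ∈ Finset.range L,
        h l * -(cosh (kap l * y.1) * sin (kap l * y.2) / sinh (kap l * c)) =
        -∑ l ∈ Finset.range L, (h l / sinh (kap l * c) * cosh (kap l * y.1)) *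
          sin (kap l * y.2) := by
      rw [← Finset.sum_neg_distrib]
      exact Finset.sum_congr rfl fun l _ => by ring
    have e3 : ∑ l ∈ Finset.range L,
        (2 * h0 / c * h l / sinh (kap l * c) * (y.1 * sinh (kap l * y.1))) * cos (kap l * y.2) =
        2 * (h0 * (y.1 / c)) * ∑ l ∈ Finset.range L,
          (h l / sinh (kap l * c) * sinh (kap l * y.1)) * cos (kap l * y.2) := by
      rw [Finset.mul_sum]
      exact Finset.sum_congr rfl fun l _ => by ring
    rw [e1, e2, e3]
    ring
  simp_rw [e]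
  rw [integral_add (intOn_rect (by fun_prop)) (intOn_rect (by fun_prop)),
    integral_add (intOn_rect (by fun_prop)) (intOn_rect (by fun_prop)),
    integral_add (intOn_rect (by fun_prop)) (intOn_rect (by fun_prop)),
    int_sq_sum L (fun l s => h l / sinh (kap l * c) * sinh (kap l * s))
      (fun l t => cos (kap l * t)) (fun l => by fun_prop) (fun l => by fun_prop) int_cc,
    int_sq_sum L (fun l s => h l / sinh (kap l * c) * cosh (kap l * s))
      (fun l t => sin (kap l * t)) (fun l => by fun_prop) (fun l => by fun_prop) int_ss,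
    int_prod_rect (fun s => h0 ^ 2 / c ^ 2 * s ^ 2) (fun _ => 1), integral_finsetSum]
  · have z : ∀ l ∈ Finset.range L, ∫ y in rect c 1,
        (2 * h0 / c * h l / sinh (kap l * c) * (y.1 * sinh (kap l * y.1))) * cos (kap l * y.2) = 0 := by
      intro l _
      rw [int_prod_rect (fun s => 2 * h0 / c * h l / sinh (kap l * c) * (s * sinh (kap l * s)))
        (fun t => cos (kap l * t)), int_c, mul_zero]
    rw [Finset.sum_eq_zero z, add_zero, integral_const_mul, int_quad1 hc.le,
      ← Finset.sum_add_distrib]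
    congr 1
    · simp
      field_simp
    · apply Finset.sum_congr rfl
      intro l _
      have hk := kap_pos l
      have hS : 0 < sinh (kap l * c) := sinh_pos_iff.2 (by positivity)
      simp_rw [mul_pow]
      rw [integral_const_mul, integral_const_mul, int_cosh_sq hk hc.le, int_sinh_sq hk hc.le, ct]
      field_simp
      ring
  · intro l _
    exact intOn_rect (by fun_prop)

theorem meanN {c : ℝ} (hc : 0 < c) (L : ℕ) (h0 : ℝ) (h : ℕ → ℝ) :
    ∫ y in rect c 1, (h0 * (y.1 ^ 2 / (2 * c)) + ∑ l ∈ Finset.range L,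
      h l * (cosh (kap l * y.1) * cos (kap l * y.2) / (kap l * sinh (kap l * c)))) =
      h0 * (c ^ 2 / 6) := by
  rw [integral_add (intOn_rect (by fun_prop)), integral_finsetSum]
  · rw [Finset.sum_eq_zero, add_zero]
    · have e : ∀ y : ℝ × ℝ, h0 * (y.1 ^ 2 / (2 * c)) = (h0 / (2 * c) * y.1 ^ 2) * 1 :=
        fun y => by ring
      simp_rw [e]
      rw [int_prod_rect (fun s => h0 / (2 * c) * s ^ 2) (fun _ => 1), integral_const_mul,
        int_quad1 hc.le]
      simp
      field_simp
      ring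
    · intro l _
      rw [integral_const_mul]
      have := int_mN (c := c) l
      unfold mN at this
      rw [this, mul_zero]
  · intro l _
    have := continuous_mN c l
    unfold mN at this
    exact intOn_rect (continuous_const.mul this)
  · apply intOn_rect
    apply continuous_finsetSum
    intro l _
    have := continuous_mN c l
    unfold mN at this
    exact continuous_const.mul this

/-- Deformation by the explicit potentials. -/
theorem deformN {ι : Type*} [Fintype ι] [Nonempty ι] {c ρ δ : ℝ} (hc : 0 < c)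
    (hδ : δ ≤ 1 / 20) (L : ℕ) (h0 : ℝ) (h : ℕ → ℝ)
    (hle : |h0| / c + ∑ l ∈ Finset.range L, |h l| * (kap l * ct c l) ≤ δ)
    (hρ : 0 < ρ) (hmass : ρ * c = Fintype.card ι)
    (z : ι → ℝ × ℝ) (hz : ∀ i, z i ∈ rect c 1) :
    costR z (ENNReal.ofReal (ρ / (1 - h0 / c)) •
        volume.restrict (region 1 (fun t => c - prof L h0 h t))) ≤
      (1 + 12 * δ) * costR z (unif c 1 ρ) +
      (2 * (h0 * (∑ i, (z i).1 ^ 2 / (2 * c) - ρ * (c ^ 2 / 6)) +
          ∑ l ∈ Finset.range L, h l * ∑ i, mN c l (z i)) +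
        (1 + 12 * δ) * ρ * (h0 ^ 2 * c / 3 + ∑ l ∈ Finset.range L,
          h l ^ 2 * (ct c l / (2 * kap l)))) ∧
    (ENNReal.ofReal (ρ / (1 - h0 / c)) •
        volume.restrict (region 1 (fun t => c - prof L h0 h t)))
      (univ : Set (ℝ × ℝ)) = Fintype.card ι := by
  have hP := ((pot_quad hc h0).add (Pot.sum (Finset.range L) h
    (fun l => kap l * (cosh (kap l * c) / sinh (kap l * c)))
    (fun l _ => pot_modeN (kap_pos l) hc))).mono hle
  have hd := deform (b := 1) (κ := h0 / c) (ρ := ρ) hc one_pos hδ hP ?_ ?_ ?_ ?_ hρ ?_ z hz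
  · rw [meanN hc, energyN hc] at hd
    have e1 : (fun t => c - (h0 * (c / c) + ∑ l ∈ Finset.range L,
        h l * (sinh (kap l * c) * cos (kap l * t) / sinh (kap l * c)))) =
        fun t => c - prof L h0 h t := by
      ext t
      unfold prof
      rw [div_self hc.ne', mul_one]
      congr 2
      apply Finset.sum_congr rfl
      intro l _
      have hk := kap_pos l
      have hS : 0 < sinh (kap l * c) := sinh_pos_iff.2 (by positivity)
      field_simp
    rw [e1] at hd
    refine ⟨hd.1.trans (le_of_eq ?_), hd.2⟩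
    congr 3
    rw [Finset.sum_add_distrib]
    have e2 : ∑ i, ∑ l ∈ Finset.range L, h l * (cosh (kap l * (z i).1) * cos (kap l * (z i).2) /
        (kap l * sinh (kap l * c))) = ∑ l ∈ Finset.range L, h l * ∑ i, mN c l (z i) := by
      rw [Finset.sum_comm]
      apply Finset.sum_congr rfl
      intro l _
      rw [Finset.mul_sum]
      rfl
    rw [e2, ← Finset.mul_sum]
    ring
  · intro s t
    rw [zero_add, add_assoc, ← Finset.sum_add_distrib, Finset.sum_eq_zero, add_zero]
    intro l _
    ring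
  · intro t
    simp
  · intro s
    simp
  · intro s
    simp only [sin_kap]
    simp
  · rw [mul_one, hmass]

end Pool.Agent.H969
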