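import Mathlib
import Pool.Agent.H969.DefN

/-! Gluing two deformed rectangles. -/

set_option autoImplicit false

open MeasureTheory Set Real
open scoped ENNReal NNReal

namespace Pool.Agent.H969

/-- reflection in the first coordinate -/
def rfl1 (a : ℝ) (y : ℝ × ℝ) : ℝ × ℝ := (a - y.1, y.2)

theorem continuous_rfl1 (a : ℝ) : Continuous (rfl1 a) := by
  unfold rfl1; fun_prop

theorem sqd_rfl1 (a : ℝ) (x y : ℝ × ℝ) : sqd (rfl1 a x) (rfl1 a y) = sqd x y := by
  unfold sqd rfl1
  simp only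
  ring

theorem glue_cost {ι κ : Type*} [Fintype ι] [Fintype κ] (a : ℝ) (z : ι → ℝ × ℝ)
    (z' : κ → ℝ × ℝ) {lam1 lam2 : Measure (ℝ × ℝ)} (h1 : ∃ p : ι → Measure (ℝ × ℝ), IsPlan lam1 p)
    (h2 : ∃ p : κ → Measure (ℝ × ℝ), IsPlan lam2 p) :
    costR (Sum.elim z (fun j => rfl1 a (z' j))) (lam1 + lam2.map (rfl1 a)) ≤
      costR z lam1 + costR z' lam2 := by
  have key : ∀ p : ι → Measure (ℝ × ℝ), IsPlan lam1 p → ∀ p' : κ → Measure (ℝ × ℝ),
      IsPlan lam2 p' → costR (Sum.elim z (fun j => rfl1 a (z' j))) (lam1 + lam2.map (rfl1 a)) ≤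
        planCost z p + planCost z' p' := by
    intro p hp p' hp'
    have hm := hp'.map (continuous_rfl1 a).measurable
    have hq : IsPlan (lam1 + lam2.map (rfl1 a)) (Sum.elim p (fun j => (p' j).map (rfl1 a))) := by
      refine ⟨?_, ?_⟩
      · rintro (i | j)
        · exact hp.mass i
        · exact hm.mass j
      · rw [Fintype.sum_sum_type]
        simp only [Sum.elim_inl, Sum.elim_inr]
        rw [hp.sum, hm.sum]
    refine (costR_le _ hq).trans (le_of_eq ?_)
    unfold planCost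
    rw [Fintype.sum_sum_type]
    simp only [Sum.elim_inl, Sum.elim_inr]
    congr 1
    apply Finset.sum_congr rfl
    intro j _
    rw [integral_map (continuous_rfl1 a).measurable.aemeasurable
      (continuous_sqd _).aestronglyMeasurable]
    simp_rw [sqd_rfl1]
  have k1 : ∀ p : ι → Measure (ℝ × ℝ), IsPlan lam1 p →
      costR (Sum.elim z (fun j => rfl1 a (z' j))) (lam1 + lam2.map (rfl1 a)) - planCost z p ≤
        costR z' lam2 := by
    intro p hp
    apply le_costR z' h2
    intro p' hp'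
    linarith [key p hp p' hp']
  have k2 : costR (Sum.elim z (fun j => rfl1 a (z' j))) (lam1 + lam2.map (rfl1 a)) -
      costR z' lam2 ≤ costR z lam1 := by
    apply le_costR z h1
    intro p hp
    linarith [k1 p hp]
  linarith

theorem lint_reflect (a T : ℝ) (F : ℝ → ℝ≥0∞) :
    ∫⁻ s in Icc 0 (a - T), F (a - s) = ∫⁻ u in Icc T a, F u := by
  rw [← lintegral_indicator measurableSet_Icc, ← lintegral_indicator measurableSet_Icc,
    ← lintegral_sub_left_eq_self ((Icc T a).indicator F) a]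
  congr 1
  ext s
  by_cases hs : s ∈ Icc 0 (a - T)
  · rw [indicator_of_mem hs, indicator_of_mem (s := Icc T a)]
    exact ⟨by linarith [hs.2], by linarith [hs.1]⟩
  · rw [indicator_of_notMem hs, indicator_of_notMem (s := Icc T a)]
    rintro ⟨h1, h2⟩
    exact hs ⟨by linarith, by linarith⟩

theorem glue_measure {a : ℝ} (r : ℝ≥0∞) {T : ℝ → ℝ} (hT : Measurable T)
    (h : ∀ t, 0 ≤ T t ∧ T t ≤ a) :
    r • volume.restrict (region 1 T) +
      (r • volume.restrict (region 1 (fun t => a - T t))).map (rfl1 a) =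
      r • volume.restrict (rect a 1) := by
  apply Measure.ext_of_lintegral
  intro F hF
  have hrf := (continuous_rfl1 a).measurable
  have hr2 := lint_region (b := 1) (T := fun t => a - T t) (measurable_const.sub hT)
    (fun y => F (rfl1 a y)) (hF.comp hrf)
  rw [lintegral_add_measure, lintegral_map hF hrf, lintegral_smul_measure, lintegral_smul_measure,
    lintegral_smul_measure, ← smul_add, lint_region hT F hF, hr2]
  congr 1
  unfold rect
  rw [lint_prod' _ _ _ hF, ← lintegral_add_left]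
  · apply setLIntegral_congr_fun measurableSet_Icc
    intro t _
    have e := lint_reflect a (T t) (fun s => F (s, t))
    simp only [rfl1]
    rw [e]
    have e2 : ∫⁻ u in Icc (T t) a, F (u, t) = ∫⁻ u in Ioc (T t) a, F (u, t) :=
      setLIntegral_congr Ioc_ae_eq_Icc.symm
    rw [e2, ← lintegral_union measurableSet_Ioc, Icc_union_Ioc_eq_Icc (h t).1 (h t).2]
    rw [Set.disjoint_left]
    intro u hu hu'
    exact absurd hu.2 (not_le.2 hu'.1)
  · have : (fun t => ∫⁻ s in Icc 0 (T t), F (s, t)) =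
        fun t => ∫⁻ s, (Icc 0 (T t)).indicator (fun s => F (s, t)) s := by
      ext t
      rw [lintegral_indicator measurableSet_Icc]
    rw [this]
    apply Measurable.lintegral_prod_right'
      (f := fun y : ℝ × ℝ => (Icc 0 (T y.1)).indicator (fun s => F (s, y.1)) y.2)
    have e3 : (fun y : ℝ × ℝ => (Icc 0 (T y.1)).indicator (fun s => F (s, y.1)) y.2) =
        {y : ℝ × ℝ | 0 ≤ y.2 ∧ y.2 ≤ T y.1}.indicator (fun y => F (y.2, y.1)) := by
      ext y
      by_cases hy : y.2 ∈ Icc 0 (T y.1)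
      · rw [indicator_of_mem hy, indicator_of_mem]
        exact hy
      · rw [indicator_of_notMem hy, indicator_of_notMem]
        exact hy
    rw [e3]
    apply Measurable.indicator
    · exact hF.comp (measurable_snd.prodMk measurable_fst)
    · exact (measurableSet_le measurable_const measurable_snd).inter
        (measurableSet_le measurable_snd (hT.comp measurable_fst))

theorem sinh_le_mul_cosh {x : ℝ} (hx : 0 ≤ x) : sinh x ≤ x * cosh x := by
  have h := lip_of_deriv (convex_Icc 0 x) (f := sinh) (f' := cosh) (C := cosh x)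
    (fun y _ => hasDerivAt_sinh y) (fun y hy => (sinh_le_cosh_of hy.1 hy.2).2)
    (left_mem_Icc.2 hx) (right_mem_Icc.2 hx)
  rw [sinh_zero, sub_zero, sub_zero, abs_of_nonneg (sinh_nonneg_iff.2 hx), abs_of_nonneg hx] at h
  linarith

theorem one_le_ct {c : ℝ} (hc : 0 < c) (l : ℕ) : 1 ≤ c * (kap l * ct c l) := by
  have hk := kap_pos l
  have hS : 0 < sinh (kap l * c) := sinh_pos_iff.2 (by positivity)
  have h := sinh_le_mul_cosh (x := kap l * c) (by positivity)
  unfold ct
  rw [← mul_assoc, ← mul_div_assoc, le_div_iff₀ hS]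
  linarith

theorem abs_prof_le {c δ : ℝ} (hc : 0 < c) (L : ℕ) (h0 : ℝ) (h : ℕ → ℝ)
    (hle : |h0| / c + ∑ l ∈ Finset.range L, |h l| * (kap l * ct c l) ≤ δ) (t : ℝ) :
    |prof L h0 h t| ≤ c * δ := by
  unfold prof
  calc |h0 + ∑ l ∈ Finset.range L, h l * cos (kap l * t)|
      ≤ |h0| + ∑ l ∈ Finset.range L, |h l * cos (kap l * t)| :=
        (abs_add_le _ _).trans (add_le_add le_rfl (Finset.abs_sum_le_sum_abs _ _))
    _ ≤ |h0| + ∑ l ∈ Finset.range L, c * (|h l| * (kap l * ct c l)) := by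
        gcongr with l _
        rw [abs_mul]
        calc |h l| * |cos (kap l * t)| ≤ |h l| * 1 :=
              mul_le_mul_of_nonneg_left (abs_cos_le_one _) (abs_nonneg _)
          _ ≤ |h l| * (c * (kap l * ct c l)) :=
              mul_le_mul_of_nonneg_left (one_le_ct hc l) (abs_nonneg _)
          _ = _ := by ring
    _ = c * (|h0| / c + ∑ l ∈ Finset.range L, |h l| * (kap l * ct c l)) := by
        rw [mul_add, ← Finset.mul_sum]
        field_simp
    _ ≤ c * δ := mul_le_mul_of_nonneg_left hle hc.le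

theorem prof_neg (L : ℕ) (h0 : ℝ) (h : ℕ → ℝ) (t : ℝ) :
    prof L (-h0) (fun l => -h l) t = -prof L h0 h t := by
  unfold prof
  rw [neg_add, ← Finset.sum_neg_distrib]
  congr 1
  exact Finset.sum_congr rfl fun l _ => by ring

theorem glueN {ι κ : Type*} [Fintype ι] [Nonempty ι] [Fintype κ] [Nonempty κ] {a1 a2 δ k l n : ℝ}
    (ha1 : 0 < a1) (ha2 : 0 < a2) (hδ : δ ≤ 1 / 20) (L : ℕ) (h0 : ℝ) (h : ℕ → ℝ)
    (hk : k = Fintype.card ι) (hl : l = Fintype.card κ) (hn : n = k + l)
    (hh0 : h0 = (a1 * l - a2 * k) / n)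
    (hle1 : |h0| / a1 + ∑ i ∈ Finset.range L, |h i| * (kap i * ct a1 i) ≤ δ)
    (hle2 : |h0| / a2 + ∑ i ∈ Finset.range L, |h i| * (kap i * ct a2 i) ≤ δ)
    (z : ι → ℝ × ℝ) (hz : ∀ i, z i ∈ rect a1 1) (z' : κ → ℝ × ℝ) (hz' : ∀ i, z' i ∈ rect a2 1) :
    costR (Sum.elim z (fun j => rfl1 (a1 + a2) (z' j))) (unif (a1 + a2) 1 (n / (a1 + a2))) ≤
      (1 + 12 * δ) * (costR z (unif a1 1 (k / a1)) + costR z' (unif a2 1 (l / a2))) +
      2 * h0 * ((∑ i, (z i).1 ^ 2 / (2 * a1) - k * a1 / 6) -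
        (∑ i, (z' i).1 ^ 2 / (2 * a2) - l * a2 / 6)) +
      ∑ i ∈ Finset.range L, (2 * h i * (∑ j, mN a1 i (z j) - ∑ j, mN a2 i (z' j)) +
        (1 + 12 * δ) * h i ^ 2 * ((k / a1 * ct a1 i + l / a2 * ct a2 i) / (2 * kap i))) +
      (1 + 12 * δ) * (n * h0 ^ 2 / 3) := by
  have hkpos : 0 < k := by rw [hk]; exact_mod_cast Fintype.card_pos
  have hlpos : 0 < l := by rw [hl]; exact_mod_cast Fintype.card_pos
  have hnpos : 0 < n := by linarith
  have hδ0 : 0 ≤ δ := by
    refine le_trans ?_ hle1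
    apply add_nonneg (by positivity)
    apply Finset.sum_nonneg
    intro i _
    have := ct_pos ha1 i
    have := kap_pos i
    positivity
  have d1 := deformN (ι := ι) (ρ := k / a1) ha1 hδ L h0 h hle1 (by positivity)
    (by rw [hk]; field_simp) z hz
  have hle2' : |-h0| / a2 + ∑ i ∈ Finset.range L, |-h i| * (kap i * ct a2 i) ≤ δ := by
    simpa only [abs_neg] using hle2
  have d2 := deformN (ι := κ) (ρ := l / a2) ha2 hδ L (-h0) (fun i => -h i) hle2' (by positivity)
    (by rw [hl]; field_simp) z' hz'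
  have r1 : k / a1 / (1 - h0 / a1) = n / (a1 + a2) := by
    have : 1 - h0 / a1 = (a1 + a2) * k / (a1 * n) := by
      rw [hh0, hn]
      have : k + l ≠ 0 := by linarith
      field_simp
      ring
    rw [this]
    field_simp
  have r2 : l / a2 / (1 - -h0 / a2) = n / (a1 + a2) := by
    have : 1 - -h0 / a2 = (a1 + a2) * l / (a2 * n) := by
      rw [hh0, hn]
      have : k + l ≠ 0 := by linarith
      field_simp
      ring
    rw [this]
    field_simp
  rw [r1] at d1
  rw [r2] at d2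
  have e2 : (fun t => a2 - prof L (-h0) (fun i => -h i) t) =
      fun t => (a1 + a2) - (a1 - prof L h0 h t) := by
    ext t
    rw [prof_neg]
    ring
  rw [e2] at d2
  have p1 := exists_plan (ι := ι) d1.2
  have p2 := exists_plan (ι := κ) d2.2
  have hT : Continuous fun t => a1 - prof L h0 h t := by
    unfold prof
    fun_prop
  have g := glue_cost (a1 + a2) z z' p1 p2
  rw [glue_measure _ hT.measurable] at g
  · change costR _ (unif (a1 + a2) 1 (n / (a1 + a2))) ≤ _ at g
    have d1' := d1.1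
    have d2' := d2.1
    have s1 : ∑ i ∈ Finset.range L, (2 * h i * (∑ j, mN a1 i (z j) - ∑ j, mN a2 i (z' j)) +
        (1 + 12 * δ) * h i ^ 2 * ((k / a1 * ct a1 i + l / a2 * ct a2 i) / (2 * kap i))) =
        2 * ∑ i ∈ Finset.range L, h i * ∑ j, mN a1 i (z j) +
        2 * ∑ i ∈ Finset.range L, -h i * ∑ j, mN a2 i (z' j) +
        (1 + 12 * δ) * (k / a1) * ∑ i ∈ Finset.range L, h i ^ 2 * (ct a1 i / (2 * kap i)) +
        (1 + 12 * δ) * (l / a2) * ∑ i ∈ Finset.range L, (-h i) ^ 2 * (ct a2 i / (2 * kap i)) := by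
      rw [Finset.mul_sum, Finset.mul_sum, Finset.mul_sum, Finset.mul_sum,
        ← Finset.sum_add_distrib, ← Finset.sum_add_distrib, ← Finset.sum_add_distrib]
      apply Finset.sum_congr rfl
      intro i _
      ring
    have f1 : (1 + 12 * δ) * (k / a1) * (h0 ^ 2 * a1 / 3) = (1 + 12 * δ) * (k * h0 ^ 2 / 3) := by
      field_simp
    have f2 : (1 + 12 * δ) * (l / a2) * ((-h0) ^ 2 * a2 / 3) = (1 + 12 * δ) * (l * h0 ^ 2 / 3) := by
      field_simp
    have f3 : k / a1 * (a1 ^ 2 / 6) = k * a1 / 6 := by field_simp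
    have f4 : l / a2 * (a2 ^ 2 / 6) = l * a2 / 6 := by field_simp
    rw [mul_add ((1 + 12 * δ) * (k / a1)), f1, f3] at d1'
    rw [mul_add ((1 + 12 * δ) * (l / a2)), f2, f4] at d2'
    rw [s1]
    have f5 : (1 + 12 * δ) * (n * h0 ^ 2 / 3) = (1 + 12 * δ) * (k * h0 ^ 2 / 3) +
        (1 + 12 * δ) * (l * h0 ^ 2 / 3) := by rw [hn]; ring
    rw [f5]
    linarith
  · intro t
    have b1 := abs_le.1 (abs_prof_le ha1 L h0 h hle1 t)
    have b2 := abs_le.1 (abs_prof_le ha2 L h0 h hle2 t)
    constructor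
    · nlinarith
    · nlinarith

end Pool.Agent.H969
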