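import Mathlib
import Pool.Agent.H969.Mix

/-! Poisson averages and a fourth moment bound. -/

set_option autoImplicit false

open MeasureTheory ProbabilityTheory
open scoped ENNReal NNReal

namespace Pool.Agent.H969

/-- Poisson measure with a real parameter -/
noncomputable def P (r : ℝ) : Measure ℕ := poissonMeasure (Real.toNNReal r)

instance (r : ℝ) : IsProbabilityMeasure (P r) := by unfold P; infer_instance

/-- the weights -/
noncomputable def wt (r : ℝ) (n : ℕ) : ℝ := Real.exp (-r) * r ^ n / (n.factorial : ℝ)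

theorem wt_nonneg {r : ℝ} (hr : 0 ≤ r) (n : ℕ) : 0 ≤ wt r n := by unfold wt; positivity

theorem wt_succ (r : ℝ) (n : ℕ) : wt r (n + 1) * ((n + 1 : ℕ) : ℝ) = r * wt r n := by
  unfold wt
  rw [Nat.factorial_succ]
  push_cast
  have h1 : (n.factorial : ℝ) ≠ 0 := by positivity
  have h2 : (n : ℝ) + 1 ≠ 0 := by positivity
  field_simp
  ring

theorem integrable_P_iff {r : ℝ} (hr : 0 ≤ r) {f : ℕ → ℝ} :
    Integrable f (P r) ↔ Summable (fun n => wt r n * |f n|) := by
  unfold P wt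
  rw [integrable_poissonMeasure_iff]
  simp only [Real.coe_toNNReal r hr, Real.norm_eq_abs]

theorem integral_P {r : ℝ} (hr : 0 ≤ r) (f : ℕ → ℝ) :
    ∫ n, f n ∂(P r) = ∑' n, wt r n * f n := by
  unfold P wt
  rw [integral_poissonMeasure]
  simp only [Real.coe_toNNReal r hr, smul_eq_mul]

theorem P_shift {r : ℝ} (hr : 0 ≤ r) {f : ℕ → ℝ} (hf : Integrable (fun n => f (n + 1)) (P r)) :
    Integrable (fun n : ℕ => (n : ℝ) * f n) (P r) ∧
      ∫ n, (n : ℝ) * f n ∂(P r) = r * ∫ n, f (n + 1) ∂(P r) := by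
  have hs : Summable (fun n => wt r n * |f (n + 1)|) := (integrable_P_iff hr).1 hf
  have e : ∀ n : ℕ, wt r (n + 1) * (((n + 1 : ℕ) : ℝ) * f (n + 1)) = r * (wt r n * f (n + 1)) := by
    intro n
    rw [← mul_assoc, wt_succ]
    ring
  have e' : ∀ n : ℕ, wt r (n + 1) * |((n + 1 : ℕ) : ℝ) * f (n + 1)| =
      r * (wt r n * |f (n + 1)|) := by
    intro n
    rw [abs_mul, abs_of_nonneg (Nat.cast_nonneg _), ← mul_assoc, wt_succ]
    ring
  have hint : Integrable (fun n : ℕ => (n : ℝ) * f n) (P r) := by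
    rw [integrable_P_iff hr, ← summable_nat_add_iff 1]
    simp_rw [e']
    exact hs.mul_left r
  refine ⟨hint, ?_⟩
  rw [integral_P hr, integral_P hr, ← tsum_mul_left]
  have hs2 : Summable (fun n : ℕ => wt r n * ((n : ℝ) * f n)) := by
    have := (integrable_P_iff hr).1 hint
    apply Summable.of_norm
    refine this.congr fun n => ?_
    rw [Real.norm_eq_abs, abs_mul (wt r n), abs_of_nonneg (wt_nonneg hr n)]
  rw [hs2.tsum_eq_zero_add]
  simp_rw [e]
  simp

theorem integrable_pow_P {r : ℝ} (hr : 0 ≤ r) (j : ℕ) :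
    ∀ a : ℝ, Integrable (fun n : ℕ => ((n : ℝ) + a) ^ j) (P r) := by
  induction j with
  | zero => intro a; simp
  | succ j ih =>
    intro a
    have h1 := (P_shift hr (f := fun n : ℕ => ((n : ℝ) + a) ^ j) (by
      have := ih (1 + a)
      refine this.congr (Filter.Eventually.of_forall fun n => ?_)
      simp only
      push_cast
      ring)).1
    have h2 := (ih a).const_mul a
    refine (h1.add h2).congr (Filter.Eventually.of_forall fun n => ?_)
    simp only [Pi.add_apply]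
    ring

theorem integrable_sub_P {r : ℝ} (hr : 0 ≤ r) (j : ℕ) (a : ℝ) :
    Integrable (fun n : ℕ => ((n : ℝ) - a) ^ j) (P r) := by
  simpa only [sub_eq_add_neg] using integrable_pow_P hr j (-a)

/-- central moments -/
noncomputable def Mo (r : ℝ) (j : ℕ) : ℝ := ∫ n : ℕ, ((n : ℝ) - r) ^ j ∂(P r)

theorem Mo_succ {r : ℝ} (hr : 0 ≤ r) (j : ℕ) :
    Mo r (j + 1) = r * (∫ n : ℕ, (((n : ℝ) + 1 - r) ^ j - ((n : ℝ) - r) ^ j) ∂(P r)) := by
  have i0 := integrable_sub_P hr j r
  have i1 : Integrable (fun n : ℕ => ((n : ℝ) + 1 - r) ^ j) (P r) := by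
    refine (integrable_sub_P hr j (r - 1)).congr (Filter.Eventually.of_forall fun n => ?_)
    simp only
    ring
  have h := P_shift hr (f := fun n : ℕ => ((n : ℝ) - r) ^ j) (by
    refine i1.congr (Filter.Eventually.of_forall fun n => ?_)
    simp only
    push_cast
    ring)
  have e : Mo r (j + 1) = ∫ n : ℕ, ((n : ℝ) * ((n : ℝ) - r) ^ j - r * ((n : ℝ) - r) ^ j) ∂(P r) := by
    unfold Mo
    congr 1
    ext n
    ring
  rw [e, integral_sub h.1 (i0.const_mul r), h.2, integral_const_mul, integral_sub i1 i0]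
  push_cast
  ring

theorem Mo_zero (r : ℝ) : Mo r 0 = 1 := by
  unfold Mo
  simp

theorem Mo_one {r : ℝ} (hr : 0 ≤ r) : Mo r 1 = 0 := by
  rw [Mo_succ hr 0]
  simp

theorem Mo_two {r : ℝ} (hr : 0 ≤ r) : Mo r 2 = r := by
  rw [Mo_succ hr 1]
  have e : ∀ n : ℕ, ((n : ℝ) + 1 - r) ^ 1 - ((n : ℝ) - r) ^ 1 = 1 := fun n => by ring
  simp_rw [e]
  simp

theorem Mo_three {r : ℝ} (hr : 0 ≤ r) : Mo r 3 = r := by
  rw [Mo_succ hr 2]
  have e : ∀ n : ℕ, ((n : ℝ) + 1 - r) ^ 2 - ((n : ℝ) - r) ^ 2 = 2 * ((n : ℝ) - r) ^ 1 + 1 :=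
    fun n => by ring
  simp_rw [e]
  rw [integral_add ((integrable_sub_P hr 1 r).const_mul 2) (integrable_const _),
    integral_const_mul]
  change r * (2 * Mo r 1 + _) = r
  rw [Mo_one hr]
  simp

theorem Mo_four {r : ℝ} (hr : 0 ≤ r) : Mo r 4 = 3 * r ^ 2 + r := by
  rw [Mo_succ hr 3]
  have e : ∀ n : ℕ, ((n : ℝ) + 1 - r) ^ 3 - ((n : ℝ) - r) ^ 3 =
      3 * ((n : ℝ) - r) ^ 2 + (3 * ((n : ℝ) - r) ^ 1 + 1) :=
    fun n => by ring
  simp_rw [e]
  have j1 : Integrable (fun n : ℕ => 3 * ((n : ℝ) - r) ^ 1 + 1) (P r) :=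
    ((integrable_sub_P hr 1 r).const_mul 3).add (integrable_const _)
  rw [integral_add ((integrable_sub_P hr 2 r).const_mul 3) j1,
    integral_add ((integrable_sub_P hr 1 r).const_mul 3) (integrable_const _),
    integral_const_mul, integral_const_mul]
  change r * (3 * Mo r 2 + (3 * Mo r 1 + _)) = _
  rw [Mo_one hr, Mo_two hr]
  simp
  ring

theorem Mo_five {r : ℝ} (hr : 0 ≤ r) : Mo r 5 = 10 * r ^ 2 + r := by
  rw [Mo_succ hr 4]
  have e : ∀ n : ℕ, ((n : ℝ) + 1 - r) ^ 4 - ((n : ℝ) - r) ^ 4 =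
      4 * ((n : ℝ) - r) ^ 3 + (6 * ((n : ℝ) - r) ^ 2 + (4 * ((n : ℝ) - r) ^ 1 + 1)) :=
    fun n => by ring
  simp_rw [e]
  have j1 : Integrable (fun n : ℕ => 4 * ((n : ℝ) - r) ^ 1 + 1) (P r) :=
    ((integrable_sub_P hr 1 r).const_mul 4).add (integrable_const _)
  have j2 : Integrable (fun n : ℕ => 6 * ((n : ℝ) - r) ^ 2 + (4 * ((n : ℝ) - r) ^ 1 + 1)) (P r) :=
    ((integrable_sub_P hr 2 r).const_mul 6).add j1
  rw [integral_add ((integrable_sub_P hr 3 r).const_mul 4) j2,
    integral_add ((integrable_sub_P hr 2 r).const_mul 6) j1,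
    integral_add ((integrable_sub_P hr 1 r).const_mul 4) (integrable_const _),
    integral_const_mul, integral_const_mul, integral_const_mul]
  change r * (4 * Mo r 3 + (6 * Mo r 2 + (4 * Mo r 1 + _))) = _
  rw [Mo_one hr, Mo_two hr, Mo_three hr]
  simp
  ring

theorem integrable_nat_P {r : ℝ} (hr : 0 ≤ r) : Integrable (fun n : ℕ => (n : ℝ)) (P r) := by
  simpa using integrable_pow_P hr 1 0

theorem mean_P {r : ℝ} (hr : 0 ≤ r) : ∫ n : ℕ, (n : ℝ) ∂(P r) = r := by
  have h := Mo_one hr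
  unfold Mo at h
  simp only [pow_one] at h
  rw [integral_sub (integrable_nat_P hr) (integrable_const _)] at h
  simp at h
  linarith

/-- the basic tail quantity -/
theorem tail_P {r η : ℝ} (hr : 1 ≤ r) (hη : 0 < η) :
    ∫ n : ℕ, (1 + (n : ℝ)) * (if |(n : ℝ) - r| ≤ η * r then 0 else 1) ∂(P r) ≤
      20 / (η ^ 4 * r) := by
  have hr0 : 0 ≤ r := by linarith
  have i4 := integrable_sub_P hr0 4 r
  have i5 := integrable_sub_P hr0 5 r
  have hI : Integrable (fun n : ℕ => (((n : ℝ) - r) ^ 5 + (1 + r) * ((n : ℝ) - r) ^ 4) /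
      (η * r) ^ 4) (P r) := (i5.add (i4.const_mul (1 + r))).div_const _
  have hpos : 0 < (η * r) ^ 4 := by positivity
  calc ∫ n : ℕ, (1 + (n : ℝ)) * (if |(n : ℝ) - r| ≤ η * r then 0 else 1) ∂(P r)
      ≤ ∫ n : ℕ, (((n : ℝ) - r) ^ 5 + (1 + r) * ((n : ℝ) - r) ^ 4) / (η * r) ^ 4 ∂(P r) := by
        apply integral_mono_of_nonneg _ hI
        · refine Filter.Eventually.of_forall fun n => ?_
          simp only
          rw [le_div_iff₀ hpos]
          have e : ((n : ℝ) - r) ^ 5 + (1 + r) * ((n : ℝ) - r) ^ 4 =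
              (1 + (n : ℝ)) * ((n : ℝ) - r) ^ 4 := by ring
          rw [e]
          split_ifs with h
          · rw [mul_zero, zero_mul]
            positivity
          · push Not at h
            rw [mul_one]
            apply mul_le_mul_of_nonneg_left _ (by positivity)
            have := pow_le_pow_left₀ (by positivity) h.le 4
            rwa [← abs_pow, abs_of_nonneg (by positivity)] at this
        · refine Filter.Eventually.of_forall fun n => ?_
          simp only [Pi.zero_apply]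
          split_ifs
          · simp
          · positivity
    _ = (Mo r 5 + (1 + r) * Mo r 4) / (η * r) ^ 4 := by
        rw [integral_div, integral_add i5 (i4.const_mul _), integral_const_mul]
        rfl
    _ ≤ 20 / (η ^ 4 * r) := by
        rw [Mo_four hr0, Mo_five hr0, div_le_div_iff₀ hpos (by positivity)]
        have h1 : 10 * r ^ 2 + r + (1 + r) * (3 * r ^ 2 + r) ≤ 20 * r ^ 3 := by
          nlinarith [mul_nonneg hr0 (sub_nonneg.2 hr), mul_nonneg (mul_nonneg hr0 hr0) (sub_nonneg.2 hr)]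
        calc (10 * r ^ 2 + r + (1 + r) * (3 * r ^ 2 + r)) * (η ^ 4 * r)
            ≤ (20 * r ^ 3) * (η ^ 4 * r) := mul_le_mul_of_nonneg_right h1 (by positivity)
          _ = 20 * (η * r) ^ 4 := by ring

/-- splitting of a Poisson variable -/
theorem poisson_split {r p q : ℝ} (hr : 0 ≤ r) (hp : 0 ≤ p) (hq : 0 ≤ q) (hpq : p + q = 1)
    (A : ℕ → ℕ → ℝ≥0∞) :
    ∫⁻ n, ∑ x ∈ Finset.HasAntidiagonal.antidiagonal n, ENNReal.ofReal ((n.choose x.1 : ℝ) * p ^ x.1 * q ^ x.2) *
      A x.1 x.2 ∂(P r) = ∫⁻ k, ∫⁻ l, A k l ∂(P (r * q)) ∂(P (r * p)) := by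
  have hP : ∀ {s : ℝ}, 0 ≤ s → ∀ f : ℕ → ℝ≥0∞, ∫⁻ n, f n ∂(P s) =
      ∑' n, ENNReal.ofReal (wt s n) * f n := by
    intro s hs f
    unfold P poissonMeasure wt
    rw [lintegral_sum_measure]
    simp only [lintegral_smul_measure, lintegral_dirac, smul_eq_mul, Real.coe_toNNReal s hs]
  rw [hP hr, hP (mul_nonneg hr hp)]
  simp_rw [hP (mul_nonneg hr hq), ← ENNReal.tsum_mul_left]
  rw [← ENNReal.tsum_prod (f := fun k l => ENNReal.ofReal (wt (r * p) k) *
    (ENNReal.ofReal (wt (r * q) l) * A k l)), ← (Finset.HasAntidiagonal.sigmaAntidiagonalEquivProd (A := ℕ)).tsum_eq,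
    ENNReal.tsum_sigma']
  congr 1
  ext n
  rw [Finset.mul_sum, ← Finset.tsum_subtype]
  congr 1
  ext ⟨⟨k, l⟩, hkl⟩
  rw [Finset.HasAntidiagonal.mem_antidiagonal] at hkl
  simp only [Finset.HasAntidiagonal.sigmaAntidiagonalEquivProd_apply]
  rw [← mul_assoc, ← mul_assoc, ← ENNReal.ofReal_mul (wt_nonneg hr n),
    ← ENNReal.ofReal_mul (wt_nonneg (mul_nonneg hr hp) k)]
  congr 2
  simp only at hkl
  subst hkl
  unfold wt
  rw [Nat.choose_symm_add, Nat.add_choose, Nat.cast_div (Nat.factorial_mul_factorial_dvd_factorial_add k l)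
    (by positivity)]
  have e : Real.exp (-(r * p)) * Real.exp (-(r * q)) = Real.exp (-r) := by
    rw [← Real.exp_add]
    congr 1
    rw [← neg_add, ← mul_add, hpq, mul_one]
  have h1 : (k.factorial : ℝ) ≠ 0 := by positivity
  have h2 : (l.factorial : ℝ) ≠ 0 := by positivity
  have h3 : ((k + l).factorial : ℝ) ≠ 0 := by positivity
  calc Real.exp (-r) * r ^ (k + l) / ((k + l).factorial : ℝ) *
        (((k + l).factorial : ℝ) / ((k.factorial * l.factorial : ℕ) : ℝ) * p ^ k * q ^ l)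
      = Real.exp (-r) * ((r * p) ^ k * (r * q) ^ l / (k.factorial * l.factorial)) := by
        push_cast
        field_simp
        ring
    _ = _ := by
        rw [← e]
        field_simp

end Pool.Agent.H969
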