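import Mathlib
import Pool.Agent.H969.Four
import Pool.Agent.H969.Poi
import Pool.Agent.H969.Glue

/-! Expected costs and their splitting. -/

set_option autoImplicit false

open MeasureTheory
open scoped ENNReal NNReal

namespace Pool.Agent.H969

/-- uniform probability on `[0, c] × [0, 1]` -/
noncomputable def U (c : ℝ) : Measure (ℝ × ℝ) := unif c 1 (1 / c)

theorem isProb_U {c : ℝ} (hc : 0 < c) : IsProbabilityMeasure (U c) := by
  refine ⟨?_⟩
  unfold U
  rw [unif_univ hc.le (by positivity), mul_one, one_div_mul_cancel hc.ne', ENNReal.ofReal_one]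

theorem U_ae (c : ℝ) : ∀ᵐ y ∂(U c), y ∈ rect c 1 := unif_ae c 1 _

/-- expected cost of `n` points -/
noncomputable def eN (n : ℕ) (c : ℝ) : ℝ :=
  ∫ z, costR z (unif c 1 (n / c)) ∂(Measure.pi fun _ : Fin n => U c)

/-- expected cost of `k` points in the left part and `l` points in the right part -/
noncomputable def AN (a1 a2 : ℝ) (k l : ℕ) : ℝ :=
  ∫ w, costR (Sum.elim w.1 (fun j => rfl1 (a1 + a2) (w.2 j)))
    (unif (a1 + a2) 1 ((k + l) / (a1 + a2)))
    ∂((Measure.pi fun _ : Fin k => U a1).prod (Measure.pi fun _ : Fin l => U a2))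

theorem sqd_le {c : ℝ} {x y : ℝ × ℝ} (hx : x ∈ rect c 1) (hy : y ∈ rect c 1) :
    sqd x y ≤ c ^ 2 + 1 := by
  unfold sqd
  obtain ⟨⟨x1, x2⟩, ⟨x3, x4⟩⟩ := hx
  obtain ⟨⟨y1, y2⟩, ⟨y3, y4⟩⟩ := hy
  have h1 : (x.1 - y.1) ^ 2 ≤ c ^ 2 := by
    apply sq_le_sq'
    · linarith
    · linarith
  have h2 : (x.2 - y.2) ^ 2 ≤ 1 := by
    have : (x.2 - y.2) ^ 2 ≤ 1 ^ 2 := by
      apply sq_le_sq'
      · linarith
      · linarith
    simpa using this
  linarith

theorem costR_unif_le {ι : Type*} [Fintype ι] {c : ℝ} (hc : 0 < c) {z : ι → ℝ × ℝ}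
    (hz : ∀ i, z i ∈ rect c 1) :
    costR z (unif c 1 (Fintype.card ι / c)) ≤ Fintype.card ι * (c ^ 2 + 1) := by
  rcases isEmpty_or_nonempty ι with h | h
  · rw [costR_empty]
    positivity
  · apply costR_le_crude
    · rw [unif_univ hc.le (by positivity), mul_one, div_mul_cancel₀ _ hc.ne',
        ENNReal.ofReal_natCast]
    · intro i
      filter_upwards [unif_ae c 1 (Fintype.card ι / c)] with y hy
      exact sqd_le (hz i) hy

theorem measurable_cost {ι : Type*} [Fintype ι] (c r : ℝ) :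
    Measurable (fun z : ι → ℝ × ℝ => costR z (unif c 1 r)) :=
  measurable_costR (isCompact_rect c 1) (unif_ae c 1 r)

theorem integrable_cost {ι : Type*} [Fintype ι] {c : ℝ} (hc : 0 < c)
    {m : Measure (ι → ℝ × ℝ)} [IsFiniteMeasure m] (hm : ∀ᵐ z ∂m, ∀ i, z i ∈ rect c 1) :
    Integrable (fun z : ι → ℝ × ℝ => costR z (unif c 1 (Fintype.card ι / c))) m := by
  apply Integrable.of_bound (measurable_cost c _).aestronglyMeasurable
    (Fintype.card ι * (c ^ 2 + 1))
  filter_upwards [hm] with z hz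
  rw [Real.norm_eq_abs, abs_of_nonneg (costR_nonneg _ _)]
  exact costR_unif_le hc hz

theorem U_split {a1 a2 : ℝ} (ha1 : 0 < a1) (ha2 : 0 < a2) :
    U (a1 + a2) = ENNReal.ofReal (a1 / (a1 + a2)) • U a1 +
      ENNReal.ofReal (a2 / (a1 + a2)) • (U a2).map (rfl1 (a1 + a2)) := by
  have h := glue_measure (a := a1 + a2) (ENNReal.ofReal (1 / (a1 + a2))) (T := fun _ => a1)
    measurable_const (fun _ => ⟨ha1.le, by linarith⟩)
  have e : ∀ c : ℝ, region 1 (fun _ => c) = rect c 1 := by
    intro c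
    ext y
    exact and_comm
  have e2 : (fun _ : ℝ => a1 + a2 - a1) = fun _ => a2 := by
    ext; ring
  rw [e2, e, e] at h
  unfold U unif
  have f1 : ENNReal.ofReal (a1 / (a1 + a2)) * ENNReal.ofReal (1 / a1) =
      ENNReal.ofReal (1 / (a1 + a2)) := by
    rw [← ENNReal.ofReal_mul (by positivity)]
    congr 1
    field_simp
  have f2 : ENNReal.ofReal (a2 / (a1 + a2)) * ENNReal.ofReal (1 / a2) =
      ENNReal.ofReal (1 / (a1 + a2)) := by
    rw [← ENNReal.ofReal_mul (by positivity)]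
    congr 1
    field_simp
  rw [← h, Measure.map_smul, Measure.map_smul, smul_smul, smul_smul, f1, f2]

theorem rfl1_mem {a1 a2 : ℝ} (ha1 : 0 < a1) {y : ℝ × ℝ} (hy : y ∈ rect a2 1) :
    rfl1 (a1 + a2) y ∈ rect (a1 + a2) 1 := by
  obtain ⟨⟨h1, h2⟩, h3⟩ := hy
  refine ⟨⟨?_, ?_⟩, h3⟩
  · simp only [rfl1]; linarith
  · simp only [rfl1]; linarith

theorem rect_mono {a b : ℝ} (h : a ≤ b) {y : ℝ × ℝ} (hy : y ∈ rect a 1) : y ∈ rect b 1 :=
  ⟨⟨hy.1.1, hy.1.2.trans h⟩, hy.2⟩

/-- conditional expectation given the labels -/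
theorem label_integral {a1 a2 : ℝ} (ha1 : 0 < a1) (ha2 : 0 < a2) {n k l : ℕ} (S : Finset (Fin n))
    (hk : S.card = k) (hl : n - S.card = l) (hn : n = k + l) :
    ∫ z, costR z (unif (a1 + a2) 1 (n / (a1 + a2)))
      ∂(Measure.pi fun i => if i ∈ S then U a1 else (U a2).map (rfl1 (a1 + a2))) =
    AN a1 a2 k l := by
  have p1 := isProb_U ha1
  have p2 := isProb_U ha2
  have hr : Measurable (rfl1 (a1 + a2)) := (continuous_rfl1 _).measurable
  have p3 : IsProbabilityMeasure ((U a2).map (rfl1 (a1 + a2))) :=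
    Measure.isProbabilityMeasure_map hr.aemeasurable
  obtain ⟨e, h1, h2⟩ := exists_sort S hk hl
  rw [← map_sort S (U a1) ((U a2).map (rfl1 (a1 + a2))) e h1 h2]
  have hpm : (Measure.pi fun _ : Fin l => (U a2).map (rfl1 (a1 + a2))) =
      (Measure.pi fun _ : Fin l => U a2).map (fun z i => rfl1 (a1 + a2) (z i)) :=
    (Measure.pi_map_pi (f := fun _ : Fin l => rfl1 (a1 + a2)) (fun _ => hr.aemeasurable)).symm
  have hm1 : Measurable (fun w : (Fin k → ℝ × ℝ) × (Fin l → ℝ × ℝ) => fun i =>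
      Sum.elim w.1 w.2 (e.symm i)) := by
    apply measurable_pi_lambda
    intro i
    rcases e.symm i with a | b
    · exact (measurable_pi_apply a).comp measurable_fst
    · exact (measurable_pi_apply b).comp measurable_snd
  have hm2 : Measurable (fun z : Fin l → ℝ × ℝ => fun i => rfl1 (a1 + a2) (z i)) := by
    apply measurable_pi_lambda
    intro i
    exact hr.comp (measurable_pi_apply i)
  rw [integral_map hm1.aemeasurable (measurable_cost _ _).aestronglyMeasurable, hpm]
  have e3 : ((Measure.pi fun _ : Fin k => U a1).prod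
      ((Measure.pi fun _ : Fin l => U a2).map (fun z i => rfl1 (a1 + a2) (z i)))) =
      ((Measure.pi fun _ : Fin k => U a1).prod (Measure.pi fun _ : Fin l => U a2)).map
        (Prod.map id (fun z i => rfl1 (a1 + a2) (z i))) := by
    rw [← Measure.map_prod_map _ _ measurable_id hm2, Measure.map_id]
  have hm3 : Measurable (fun w : (Fin k → ℝ × ℝ) × (Fin l → ℝ × ℝ) =>
      costR (fun i => Sum.elim w.1 w.2 (e.symm i)) (unif (a1 + a2) 1 (n / (a1 + a2)))) :=
    (measurable_cost _ _).comp hm1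
  rw [e3, integral_map (measurable_id.prodMap hm2).aemeasurable hm3.aestronglyMeasurable]
  unfold AN
  congr 1
  ext w
  simp only [Function.comp_apply, Prod.map_fst, Prod.map_snd, id]
  rw [costR_comp e.symm (Sum.elim w.1 (fun j => rfl1 (a1 + a2) (w.2 j)))]
  congr 2
  rw [hn]
  push_cast
  ring

theorem eN_split {a1 a2 : ℝ} (ha1 : 0 < a1) (ha2 : 0 < a2) (n : ℕ) :
    eN n (a1 + a2) = ∑ x ∈ Finset.HasAntidiagonal.antidiagonal n,
      ((n.choose x.1 : ℝ) * (a1 / (a1 + a2)) ^ x.1 * (a2 / (a1 + a2)) ^ x.2) *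
        AN a1 a2 x.1 x.2 := by
  have p1 := isProb_U ha1
  have p2 := isProb_U ha2
  have ha : 0 < a1 + a2 := by linarith
  have hr : Measurable (rfl1 (a1 + a2)) := (continuous_rfl1 _).measurable
  have p3 : IsProbabilityMeasure ((U a2).map (rfl1 (a1 + a2))) :=
    Measure.isProbabilityMeasure_map hr.aemeasurable
  have ae1 : ∀ᵐ y ∂(U a1), y ∈ rect (a1 + a2) 1 :=
    (U_ae a1).mono fun y hy => rect_mono (by linarith) hy
  have ae2 : ∀ᵐ y ∂((U a2).map (rfl1 (a1 + a2))), y ∈ rect (a1 + a2) 1 := by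
    refine (ae_map_iff (p := fun y => y ∈ rect (a1 + a2) 1) hr.aemeasurable
      (measurableSet_rect _ _)).2 ?_
    exact (U_ae a2).mono fun y hy => rfl1_mem ha1 hy
  have hI : ∀ S : Finset (Fin n), Integrable (fun z : Fin n → ℝ × ℝ =>
      costR z (unif (a1 + a2) 1 (n / (a1 + a2))))
      (Measure.pi fun i => if i ∈ S then U a1 else (U a2).map (rfl1 (a1 + a2))) := by
    intro S
    have f3 : ∀ i : Fin n, IsProbabilityMeasure
        (if i ∈ S then U a1 else (U a2).map (rfl1 (a1 + a2))) := by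
      intro i
      split_ifs <;> infer_instance
    have := integrable_cost (ι := Fin n) ha
      (m := Measure.pi fun i => if i ∈ S then U a1 else (U a2).map (rfl1 (a1 + a2))) ?_
    · simpa using this
    · rw [ae_all_iff]
      intro i
      apply (measurePreserving_eval (fun i => if i ∈ S then U a1 else
        (U a2).map (rfl1 (a1 + a2))) i).quasiMeasurePreserving.ae
      split_ifs
      · exact ae1
      · exact ae2
  unfold eN
  rw [U_split ha1 ha2, pi_mix _ _ _ _ ENNReal.ofReal_ne_top ENNReal.ofReal_ne_top,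
    integral_finsetSum_measure]
  · have e1 : ∀ S : Finset (Fin n), ∫ z, costR z (unif (a1 + a2) 1 (n / (a1 + a2)))
        ∂((ENNReal.ofReal (a1 / (a1 + a2)) ^ S.card * ENNReal.ofReal (a2 / (a1 + a2)) ^
          (n - S.card)) • (Measure.pi fun i => if i ∈ S then U a1 else
            (U a2).map (rfl1 (a1 + a2)))) =
        (a1 / (a1 + a2)) ^ S.card * (a2 / (a1 + a2)) ^ (n - S.card) *
          AN a1 a2 S.card (n - S.card) := by
      intro S
      have hS : S.card ≤ n := by simpa using Finset.card_le_univ S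
      rw [integral_smul_measure, label_integral ha1 ha2 S rfl rfl (by omega), smul_eq_mul]
      congr 1
      rw [ENNReal.toReal_mul, ENNReal.toReal_pow, ENNReal.toReal_pow,
        ENNReal.toReal_ofReal (by positivity), ENNReal.toReal_ofReal (by positivity)]
    rw [Finset.sum_congr rfl fun S _ => e1 S]
    have e2 := Finset.sum_powerset_apply_card (fun k => (a1 / (a1 + a2)) ^ k *
      (a2 / (a1 + a2)) ^ (n - k) * AN a1 a2 k (n - k)) (x := (Finset.univ : Finset (Fin n)))
    rw [Finset.powerset_univ] at e2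
    rw [e2, Finset.card_univ, Fintype.card_fin,
      Finset.Nat.sum_antidiagonal_eq_sum_range_succ_mk]
    apply Finset.sum_congr rfl
    intro k _
    rw [nsmul_eq_mul]
    ring
  · intro S _
    exact (hI S).smul_measure (ENNReal.mul_ne_top (by finiteness) (by finiteness))

/-- Poisson average -/
noncomputable def bN (c x : ℝ) : ℝ := ∫ n, eN n c ∂(P (x * c))

theorem eN_nonneg (n : ℕ) (c : ℝ) : 0 ≤ eN n c := integral_nonneg fun _ => costR_nonneg _ _

theorem AN_nonneg (a1 a2 : ℝ) (k l : ℕ) : 0 ≤ AN a1 a2 k l :=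
  integral_nonneg fun _ => costR_nonneg _ _

theorem eN_le {c : ℝ} (hc : 0 < c) (n : ℕ) : eN n c ≤ n * (c ^ 2 + 1) := by
  have p1 := isProb_U hc
  unfold eN
  have h : ∀ᵐ z ∂(Measure.pi fun _ : Fin n => U c), costR z (unif c 1 (n / c)) ≤
      n * (c ^ 2 + 1) := by
    filter_upwards [ae_pi (ι := Fin n) (U c) (U_ae c)] with z hz
    simpa using costR_unif_le (ι := Fin n) hc hz
  calc ∫ z, costR z (unif c 1 (n / c)) ∂(Measure.pi fun _ : Fin n => U c)
      ≤ ∫ _z, (n : ℝ) * (c ^ 2 + 1) ∂(Measure.pi fun _ : Fin n => U c) :=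
        integral_mono_of_nonneg (Filter.Eventually.of_forall fun _ => costR_nonneg _ _)
          (integrable_const _) h
    _ = _ := by simp

theorem integrable_elim {a1 a2 : ℝ} (ha1 : 0 < a1) (ha2 : 0 < a2) (k l : ℕ) :
    Integrable (fun w : (Fin k → ℝ × ℝ) × (Fin l → ℝ × ℝ) =>
      costR (Sum.elim w.1 (fun j => rfl1 (a1 + a2) (w.2 j)))
      (unif (a1 + a2) 1 ((k + l) / (a1 + a2))))
      ((Measure.pi fun _ : Fin k => U a1).prod (Measure.pi fun _ : Fin l => U a2)) ∧
    ∀ᵐ w ∂((Measure.pi fun _ : Fin k => U a1).prod (Measure.pi fun _ : Fin l => U a2)),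
      (∀ i, w.1 i ∈ rect a1 1) ∧ ∀ i, w.2 i ∈ rect a2 1 := by
  have p1 := isProb_U ha1
  have p2 := isProb_U ha2
  have ha : 0 < a1 + a2 := by linarith
  have hae : ∀ᵐ w ∂((Measure.pi fun _ : Fin k => U a1).prod (Measure.pi fun _ : Fin l => U a2)),
      (∀ i, w.1 i ∈ rect a1 1) ∧ ∀ i, w.2 i ∈ rect a2 1 := by
    have h1 := (Measure.quasiMeasurePreserving_fst (μ := Measure.pi fun _ : Fin k => U a1)
      (ν := Measure.pi fun _ : Fin l => U a2)).ae (ae_pi (ι := Fin k) (U a1) (U_ae a1))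
    have h2 := (Measure.quasiMeasurePreserving_snd (μ := Measure.pi fun _ : Fin k => U a1)
      (ν := Measure.pi fun _ : Fin l => U a2)).ae (ae_pi (ι := Fin l) (U a2) (U_ae a2))
    filter_upwards [h1, h2] with w hw1 hw2
    exact ⟨hw1, hw2⟩
  refine ⟨?_, hae⟩
  have hr : Measurable (rfl1 (a1 + a2)) := (continuous_rfl1 _).measurable
  have hm : Measurable (fun w : (Fin k → ℝ × ℝ) × (Fin l → ℝ × ℝ) =>
      Sum.elim w.1 (fun j => rfl1 (a1 + a2) (w.2 j))) := by
    apply measurable_pi_lambda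
    rintro (i | j)
    · exact (measurable_pi_apply i).comp measurable_fst
    · exact hr.comp ((measurable_pi_apply j).comp measurable_snd)
  apply Integrable.of_bound ((measurable_cost _ _).comp hm).aestronglyMeasurable
    ((k + l) * ((a1 + a2) ^ 2 + 1))
  filter_upwards [hae] with w hw
  simp only [Function.comp_apply]
  rw [Real.norm_eq_abs, abs_of_nonneg (costR_nonneg _ _)]
  have := costR_unif_le (ι := Fin k ⊕ Fin l) ha
    (z := Sum.elim w.1 (fun j => rfl1 (a1 + a2) (w.2 j))) ?_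
  · simpa using this
  · rintro (i | j)
    · exact rect_mono (by linarith) (hw.1 i)
    · exact rfl1_mem ha1 (hw.2 j)

theorem AN_le {a1 a2 : ℝ} (ha1 : 0 < a1) (ha2 : 0 < a2) (k l : ℕ) :
    AN a1 a2 k l ≤ (k + l) * ((a1 + a2) ^ 2 + 1) := by
  have p1 := isProb_U ha1
  have p2 := isProb_U ha2
  have ha : 0 < a1 + a2 := by linarith
  unfold AN
  calc _ ≤ ∫ _w, ((k : ℝ) + l) * ((a1 + a2) ^ 2 + 1) ∂((Measure.pi fun _ : Fin k => U a1).prod
        (Measure.pi fun _ : Fin l => U a2)) := by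
        apply integral_mono_of_nonneg (Filter.Eventually.of_forall fun _ => costR_nonneg _ _)
          (integrable_const _)
        filter_upwards [(integrable_elim ha1 ha2 k l).2] with w hw
        have := costR_unif_le (ι := Fin k ⊕ Fin l) ha
          (z := Sum.elim w.1 (fun j => rfl1 (a1 + a2) (w.2 j))) ?_
        · simpa using this
        · rintro (i | j)
          · exact rect_mono (by linarith) (hw.1 i)
          · exact rfl1_mem ha1 (hw.2 j)
    _ = _ := by simp

theorem bN_split {a1 a2 x : ℝ} (ha1 : 0 < a1) (ha2 : 0 < a2) (hx : 0 ≤ x) :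
    bN (a1 + a2) x = ∫ n, AN a1 a2 n.1 n.2 ∂((P (x * a1)).prod (P (x * a2))) := by
  have ha : 0 < a1 + a2 := by linarith
  have h := poisson_split (r := x * (a1 + a2)) (p := a1 / (a1 + a2)) (q := a2 / (a1 + a2))
    (by positivity) (by positivity) (by positivity) (by field_simp)
    (fun k l => ENNReal.ofReal (AN a1 a2 k l))
  have e1 : x * (a1 + a2) * (a1 / (a1 + a2)) = x * a1 := by field_simp
  have e2 : x * (a1 + a2) * (a2 / (a1 + a2)) = x * a2 := by field_simp
  rw [e1, e2] at h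
  unfold bN
  rw [integral_eq_lintegral_of_nonneg_ae (Filter.Eventually.of_forall fun n => eN_nonneg n _)
    (Measurable.of_discrete.aestronglyMeasurable),
    integral_eq_lintegral_of_nonneg_ae (Filter.Eventually.of_forall fun n => AN_nonneg _ _ _ _)
    (Measurable.of_discrete.aestronglyMeasurable), lintegral_prod _
    (Measurable.of_discrete.aemeasurable), ← h]
  congr 2
  ext n
  rw [eN_split ha1 ha2, ENNReal.ofReal_sum_of_nonneg]
  · apply Finset.sum_congr rfl
    intro x _
    rw [ENNReal.ofReal_mul (by positivity)]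
  · intro x _
    have := AN_nonneg a1 a2 x.1 x.2
    positivity

end Pool.Agent.H969
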