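import Mathlib
import Pool.Agent.H969.Exp

/-! The inequality for given numbers of points. -/

set_option autoImplicit false

open MeasureTheory
open scoped ENNReal NNReal

namespace Pool.Agent.H969

noncomputable def clamp (τ y : ℝ) : ℝ := max (-τ) (min τ y)

theorem abs_clamp_le {τ : ℝ} (hτ : 0 ≤ τ) (y : ℝ) : |clamp τ y| ≤ τ := by
  unfold clamp
  rw [abs_le]
  exact ⟨le_max_left _ _, max_le (by linarith) (min_le_left _ _)⟩

theorem clamp_ineq {X τ ε C Y : ℝ} (hX : 0 < X) (hτ : 0 < τ) (hε0 : 0 ≤ ε) (hε : ε ≤ 1)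
    (hC : C ≤ 1 + ε) :
    2 * (-clamp τ (Y / X)) * Y + C * X * (-clamp τ (Y / X)) ^ 2 ≤
      -(1 - ε) * (Y ^ 2 / X) + Y ^ 4 / (X ^ 3 * τ ^ 2) := by
  have h4 : 0 ≤ Y ^ 4 / (X ^ 3 * τ ^ 2) := by positivity
  have hC' : ∀ u : ℝ, C * X * u ^ 2 ≤ (1 + ε) * X * u ^ 2 := fun u =>
    mul_le_mul_of_nonneg_right (mul_le_mul_of_nonneg_right hC hX.le) (sq_nonneg _)
  by_cases h : |Y / X| ≤ τ
  · have hc : clamp τ (Y / X) = Y / X := by
      unfold clamp
      rw [abs_le] at h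
      rw [min_eq_right h.2, max_eq_right h.1]
    rw [hc]
    have := hC' (-(Y / X))
    have e1 : 2 * (-(Y / X)) * Y = -2 * (Y ^ 2 / X) := by ring
    have e2 : (1 + ε) * X * (-(Y / X)) ^ 2 = (1 + ε) * (Y ^ 2 / X) := by
      field_simp
    rw [e2] at this
    rw [e1]
    linarith
  · push Not at h
    have hY : τ * X < |Y| := by
      rwa [abs_div, abs_of_pos hX, lt_div_iff₀ hX] at h
    have hu : ∀ u : ℝ, u ^ 2 = τ ^ 2 → u * Y = -(τ * |Y|) →
        2 * u * Y + C * X * u ^ 2 ≤ -(1 - ε) * (Y ^ 2 / X) + Y ^ 4 / (X ^ 3 * τ ^ 2) := by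
      intro u hu1 hu2
      have t1 : 2 * u * Y + C * X * u ^ 2 ≤ 0 := by
        have t2 := hC' u
        rw [hu1] at t2 ⊢
        have t3 : 2 * u * Y = -(2 * (τ * |Y|)) := by rw [mul_assoc, hu2]; ring
        rw [t3]
        have t4 : (1 + ε) * X * τ ^ 2 ≤ 2 * (τ * |Y|) := by
          calc (1 + ε) * X * τ ^ 2 = (1 + ε) * (τ * (τ * X)) := by ring
            _ ≤ 2 * (τ * |Y|) := by
              apply mul_le_mul (by linarith) _ (by positivity) (by norm_num)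
              exact mul_le_mul_of_nonneg_left hY.le hτ.le
        linarith
      refine t1.trans ?_
      have t5 : Y ^ 2 / X ≤ Y ^ 4 / (X ^ 3 * τ ^ 2) := by
        rw [div_le_div_iff₀ hX (by positivity)]
        have t6 : (τ * X) ^ 2 ≤ Y ^ 2 := by
          rw [← sq_abs Y]
          exact pow_le_pow_left₀ (by positivity) hY.le 2
        calc Y ^ 2 * (X ^ 3 * τ ^ 2) = (Y ^ 2 * X) * (τ * X) ^ 2 := by ring
          _ ≤ (Y ^ 2 * X) * Y ^ 2 := mul_le_mul_of_nonneg_left t6 (by positivity)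
          _ = Y ^ 4 * X := by ring
      have t7 : 0 ≤ ε * (Y ^ 2 / X) := by positivity
      linarith
    rcases le_or_gt 0 Y with hY0 | hY0
    · have hpos : τ < Y / X := by
        rw [lt_div_iff₀ hX]
        rwa [abs_of_nonneg hY0] at hY
      have hc : clamp τ (Y / X) = τ := by
        unfold clamp
        rw [min_eq_left hpos.le, max_eq_right (by linarith)]
      rw [hc]
      apply hu
      · ring
      · rw [abs_of_nonneg hY0]; ring
    · have hneg : Y / X < -τ := by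
        rw [div_lt_iff₀ hX]
        rw [abs_of_neg hY0] at hY
        linarith
      have hc : clamp τ (Y / X) = -τ := by
        unfold clamp
        rw [min_eq_right (by linarith), max_eq_left hneg.le]
      rw [hc]
      apply hu
      · ring
      · rw [abs_of_neg hY0]; ring

/-- second moments of the modes -/
noncomputable def sg (c : ℝ) (l : ℕ) : ℝ := ∫ y, mN c l y ^ 2 ∂(U c)

/-- energy of the modes -/
noncomputable def El (a1 a2 : ℝ) (l : ℕ) : ℝ := (ct a1 l + ct a2 l) / (2 * kap l)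

theorem El_pos {a1 a2 : ℝ} (ha1 : 0 < a1) (ha2 : 0 < a2) (l : ℕ) : 0 < El a1 a2 l := by
  have := ct_pos ha1 l
  have := ct_pos ha2 l
  have := kap_pos l
  unfold El
  positivity

theorem integral_U {c : ℝ} (hc : 0 < c) (f : ℝ × ℝ → ℝ) :
    ∫ y, f y ∂(U c) = (1 / c) * ∫ y in rect c 1, f y := by
  unfold U unif
  rw [integral_smul_measure, ENNReal.toReal_ofReal (by positivity), smul_eq_mul]

theorem mean_mN {c : ℝ} (hc : 0 < c) (l : ℕ) : ∫ y, mN c l y ∂(U c) = 0 := by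
  rw [integral_U hc, int_mN, mul_zero]

theorem sg_eq {c : ℝ} (hc : 0 < c) (l : ℕ) :
    sg c l = (1 / c) * ((c / 2 / Real.sinh (kap l * c) ^ 2 + ct c l / (2 * kap l)) /
      (2 * kap l ^ 2)) := by
  unfold sg
  rw [integral_U hc, int_mN_sq hc]

theorem sg_nonneg (c : ℝ) (l : ℕ) : 0 ≤ sg c l := integral_nonneg fun _ => sq_nonneg _

theorem abs_mN_le {c : ℝ} (hc : 0 < c) (l : ℕ) {y : ℝ × ℝ} (hy : y ∈ rect c 1) :
    |mN c l y| ≤ ct c l / kap l := by
  have hk := kap_pos l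
  have hS : 0 < Real.sinh (kap l * c) := Real.sinh_pos_iff.2 (by positivity)
  unfold mN ct
  rw [abs_div, abs_mul, abs_of_pos (mul_pos hk hS), div_div, mul_comm (Real.sinh _) (kap l)]
  gcongr
  have h1 := (sinh_le_cosh_of (mul_nonneg hk.le hy.1.1)
    (mul_le_mul_of_nonneg_left hy.1.2 hk.le)).2
  calc |Real.cosh (kap l * y.1)| * |Real.cos (kap l * y.2)| ≤ Real.cosh (kap l * c) * 1 :=
        mul_le_mul h1 (Real.abs_cos_le_one _) (abs_nonneg _) (Real.cosh_pos _).le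
    _ = _ := mul_one _

theorem integrable_cont {ι : Type*} [Fintype ι] {c : ℝ} {m : Measure (ι → ℝ × ℝ)}
    [IsFiniteMeasure m] (hm : ∀ᵐ z ∂m, ∀ i, z i ∈ rect c 1) {f : (ι → ℝ × ℝ) → ℝ}
    (hf : Continuous f) : Integrable f m := by
  have hK : IsCompact (Set.univ.pi fun _ : ι => rect c 1) :=
    isCompact_univ_pi fun _ => isCompact_rect c 1
  obtain ⟨C, hC⟩ := hK.exists_bound_of_continuousOn hf.continuousOn
  exact Integrable.of_bound hf.aestronglyMeasurable C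
    (hm.mono fun z hz => hC z (Set.mem_univ_pi.2 hz))

theorem int_fst {A B : Type*} [MeasurableSpace A] [MeasurableSpace B] (μ : Measure A)
    (ν : Measure B) [SFinite μ] [IsProbabilityMeasure ν] {f : A → ℝ}
    (hf : AEStronglyMeasurable f μ) : ∫ w, f w.1 ∂(μ.prod ν) = ∫ y, f y ∂μ := by
  have h := (measurePreserving_fst (μ := μ) (ν := ν)).map_eq
  conv_rhs => rw [← h]
  rw [integral_map measurable_fst.aemeasurable (by rwa [h])]

theorem int_snd {A B : Type*} [MeasurableSpace A] [MeasurableSpace B] (μ : Measure A)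
    (ν : Measure B) [IsProbabilityMeasure μ] [SFinite ν] {f : B → ℝ}
    (hf : AEStronglyMeasurable f ν) : ∫ w, f w.2 ∂(μ.prod ν) = ∫ y, f y ∂ν := by
  have h := (measurePreserving_snd (μ := μ) (ν := ν)).map_eq
  conv_rhs => rw [← h]
  rw [integral_map measurable_snd.aemeasurable (by rwa [h])]

theorem pow4_sub_le (s t : ℝ) : (s - t) ^ 4 ≤ 8 * (s ^ 4 + t ^ 4) := by
  have h1 : (s - t) ^ 2 ≤ 2 * (s ^ 2 + t ^ 2) := by nlinarith [sq_nonneg (s + t)]
  have h2 : (s - t) ^ 4 ≤ (2 * (s ^ 2 + t ^ 2)) ^ 2 := by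
    have := pow_le_pow_left₀ (sq_nonneg (s - t)) h1 2
    calc (s - t) ^ 4 = ((s - t) ^ 2) ^ 2 := by ring
      _ ≤ _ := this
  nlinarith [sq_nonneg (s ^ 2 - t ^ 2)]

theorem mean_quad {c : ℝ} (hc : 0 < c) (k : ℕ) :
    ∫ z, (∑ i, (z i).1 ^ 2 / (2 * c)) ∂(Measure.pi fun _ : Fin k => U c) = k * c / 6 := by
  have p1 := isProb_U hc
  rw [pi_mean (U c) (f := fun y => y.1 ^ 2 / (2 * c))]
  · rw [integral_U hc]
    have e : ∫ y in rect c 1, y.1 ^ 2 / (2 * c) = ∫ y in rect c 1, (y.1 ^ 2 / (2 * c)) * 1 := by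
      congr 1
      ext y
      ring
    rw [e, int_prod_rect (fun s => s ^ 2 / (2 * c)) (fun _ => 1), integral_div, int_quad1 hc.le]
    simp
    field_simp
    ring
  · exact integrable_of_carried (isCompact_rect c 1) (U_ae c) (by fun_prop)

/-- the inequality for `k` and `l` points -/
theorem AN_good {a1 a2 x δ η ε τ : ℝ} {k l L : ℕ} (ha1 : 0 < a1) (ha2 : 0 < a2) (hx : 0 < x)
    (hk : 0 < k) (hl : 0 < l) (hδ : δ ≤ 1 / 20) (hτ : 0 < τ) (hε0 : 0 ≤ ε) (hε : ε ≤ 1)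
    (hη : 0 ≤ η)
    (hC : (1 + 12 * δ) * (1 + η) ≤ 1 + ε) (hk1 : (k : ℝ) ≤ (1 + η) * (x * a1))
    (hl1 : (l : ℝ) ≤ (1 + η) * (x * a2))
    (hle1 : |(a1 * l - a2 * k) / (k + l)| / a1 + ∑ i ∈ Finset.range L, τ * (kap i * ct a1 i) ≤ δ)
    (hle2 : |(a1 * l - a2 * k) / (k + l)| / a2 + ∑ i ∈ Finset.range L, τ * (kap i * ct a2 i) ≤ δ) :
    AN a1 a2 k l ≤ (1 + 12 * δ) * (eN k a1 + eN l a2) +
      (1 + 12 * δ) * ((a1 * l - a2 * k) ^ 2 / (3 * (k + l))) +
      ∑ i ∈ Finset.range L, (-(1 - ε) * ((k * sg a1 i + l * sg a2 i) / (x * El a1 a2 i)) +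
        19200 * El a1 a2 i * (k + l) ^ 2 / (x ^ 3 * τ ^ 2)) := by
  have p1 := isProb_U ha1
  have p2 := isProb_U ha2
  have hk0 : (0 : ℝ) < k := by exact_mod_cast hk
  have hl0 : (0 : ℝ) < l := by exact_mod_cast hl
  have hδ0 : 0 ≤ δ := by
    refine le_trans ?_ hle1
    apply add_nonneg (by positivity)
    apply Finset.sum_nonneg
    intro i _
    have := ct_pos ha1 i
    have := kap_pos i
    positivity
  set m := (Measure.pi fun _ : Fin k => U a1).prod (Measure.pi fun _ : Fin l => U a2) with hm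
  set h0 : ℝ := (a1 * l - a2 * k) / (k + l) with hh0
  have hN1 : Nonempty (Fin k) := ⟨⟨0, hk⟩⟩
  have hN2 : Nonempty (Fin l) := ⟨⟨0, hl⟩⟩
  obtain ⟨hInt, hae⟩ := integrable_elim ha1 ha2 k l
  -- names
  let S1 : ℕ → (Fin k → ℝ × ℝ) → ℝ := fun i z => ∑ j, mN a1 i (z j)
  let S2 : ℕ → (Fin l → ℝ × ℝ) → ℝ := fun i z => ∑ j, mN a2 i (z j)
  have hS1c : ∀ i, Continuous (S1 i) := fun i =>
    continuous_finsetSum _ fun j _ => (continuous_mN a1 i).comp (continuous_apply j)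
  have hS2c : ∀ i, Continuous (S2 i) := fun i =>
    continuous_finsetSum _ fun j _ => (continuous_mN a2 i).comp (continuous_apply j)
  have hae1 : ∀ᵐ z ∂(Measure.pi fun _ : Fin k => U a1), ∀ i, z i ∈ rect a1 1 :=
    ae_pi (U a1) (U_ae a1)
  have hae2 : ∀ᵐ z ∂(Measure.pi fun _ : Fin l => U a2), ∀ i, z i ∈ rect a2 1 :=
    ae_pi (U a2) (U_ae a2)
  let C1 : (Fin k → ℝ × ℝ) → ℝ := fun z => costR z (unif a1 1 (k / a1))
  let C2 : (Fin l → ℝ × ℝ) → ℝ := fun z => costR z (unif a2 1 (l / a2))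
  have hC1i : Integrable C1 (Measure.pi fun _ : Fin k => U a1) := by
    have := integrable_cost (ι := Fin k) ha1 hae1
    simpa using this
  have hC2i : Integrable C2 (Measure.pi fun _ : Fin l => U a2) := by
    have := integrable_cost (ι := Fin l) ha2 hae2
    simpa using this
  let Q1 : (Fin k → ℝ × ℝ) → ℝ := fun z => ∑ i, (z i).1 ^ 2 / (2 * a1) - k * a1 / 6
  let Q2 : (Fin l → ℝ × ℝ) → ℝ := fun z => ∑ i, (z i).1 ^ 2 / (2 * a2) - l * a2 / 6
  have hQ1c : Continuous Q1 := by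
    simp only [Q1]
    fun_prop
  have hQ2c : Continuous Q2 := by
    simp only [Q2]
    fun_prop
  have hQ1i := integrable_cont hae1 hQ1c
  have hQ2i := integrable_cont hae2 hQ2c
  have hQ10 : ∫ z, Q1 z ∂(Measure.pi fun _ : Fin k => U a1) = 0 := by
    simp only [Q1]
    rw [integral_sub (integrable_cont hae1 (by fun_prop)) (integrable_const _), mean_quad ha1]
    simp
  have hQ20 : ∫ z, Q2 z ∂(Measure.pi fun _ : Fin l => U a2) = 0 := by
    simp only [Q2]
    rw [integral_sub (integrable_cont hae2 (by fun_prop)) (integrable_const _), mean_quad ha2]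
    simp
  -- the pointwise bound
  have hpt : ∀ᵐ w ∂m, costR (Sum.elim w.1 (fun j => rfl1 (a1 + a2) (w.2 j)))
      (unif (a1 + a2) 1 ((k + l) / (a1 + a2))) ≤
      ((1 + 12 * δ) * (C1 w.1 + C2 w.2) + 2 * h0 * (Q1 w.1 - Q2 w.2)) +
      (∑ i ∈ Finset.range L, (-(1 - ε) * ((S1 i w.1 - S2 i w.2) ^ 2 / (x * El a1 a2 i)) +
        8 * (S1 i w.1 ^ 4 + S2 i w.2 ^ 4) / ((x * El a1 a2 i) ^ 3 * τ ^ 2)) +
      (1 + 12 * δ) * ((k + l) * h0 ^ 2 / 3)) := by
    filter_upwards [hae] with w hw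
    have g := glueN (ι := Fin k) (κ := Fin l) (k := k) (l := l) (n := k + l) ha1 ha2 hδ L h0
      (fun i => -clamp τ ((S1 i w.1 - S2 i w.2) / (x * El a1 a2 i))) (by simp) (by simp) rfl hh0
      ?_ ?_ w.1 hw.1 w.2 hw.2
    · refine g.trans ?_
      have hsum : ∑ i ∈ Finset.range L, (2 * (-clamp τ ((S1 i w.1 - S2 i w.2) / (x * El a1 a2 i))) *
          (∑ j, mN a1 i (w.1 j) - ∑ j, mN a2 i (w.2 j)) +
        (1 + 12 * δ) * (-clamp τ ((S1 i w.1 - S2 i w.2) / (x * El a1 a2 i))) ^ 2 *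
          ((k / a1 * ct a1 i + l / a2 * ct a2 i) / (2 * kap i))) ≤
        ∑ i ∈ Finset.range L, (-(1 - ε) * ((S1 i w.1 - S2 i w.2) ^ 2 / (x * El a1 a2 i)) +
        8 * (S1 i w.1 ^ 4 + S2 i w.2 ^ 4) / ((x * El a1 a2 i) ^ 3 * τ ^ 2)) := by
        apply Finset.sum_le_sum
        intro i _
        have hE := El_pos ha1 ha2 i
        have hX : 0 < x * El a1 a2 i := by positivity
        have hc := clamp_ineq (Y := S1 i w.1 - S2 i w.2) hX hτ hε0 hε hC
        have hden : (k / a1 * ct a1 i + l / a2 * ct a2 i) / (2 * kap i) ≤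
            (1 + η) * (x * El a1 a2 i) := by
          have hkp := kap_pos i
          have c1 := ct_pos ha1 i
          have c2 := ct_pos ha2 i
          have d1 : (k : ℝ) / a1 ≤ (1 + η) * x := by
            rw [div_le_iff₀ ha1]; linarith
          have d2 : (l : ℝ) / a2 ≤ (1 + η) * x := by
            rw [div_le_iff₀ ha2]; linarith
          unfold El
          rw [div_le_iff₀ (by positivity)]
          calc k / a1 * ct a1 i + l / a2 * ct a2 i
              ≤ (1 + η) * x * ct a1 i + (1 + η) * x * ct a2 i := by gcongr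
            _ = _ := by field_simp
        have h8 : (S1 i w.1 - S2 i w.2) ^ 4 / ((x * El a1 a2 i) ^ 3 * τ ^ 2) ≤
            8 * (S1 i w.1 ^ 4 + S2 i w.2 ^ 4) / ((x * El a1 a2 i) ^ 3 * τ ^ 2) := by
          gcongr
          exact pow4_sub_le _ _
        set u := -clamp τ ((S1 i w.1 - S2 i w.2) / (x * El a1 a2 i))
        have h9 : (1 + 12 * δ) * u ^ 2 * ((k / a1 * ct a1 i + l / a2 * ct a2 i) / (2 * kap i)) ≤
            (1 + 12 * δ) * (1 + η) * (x * El a1 a2 i) * u ^ 2 := by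
          calc _ ≤ (1 + 12 * δ) * u ^ 2 * ((1 + η) * (x * El a1 a2 i)) :=
                mul_le_mul_of_nonneg_left hden (by positivity)
            _ = _ := by ring
        change 2 * u * (S1 i w.1 - S2 i w.2) + _ ≤ _
        linarith
      simp only [C1, C2, Q1, Q2]
      linarith
    · refine le_trans ?_ hle1
      gcongr with i _
      · have := ct_pos ha1 i
        have := kap_pos i
        positivity
      · rw [abs_neg]
        exact abs_clamp_le hτ.le _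
    · refine le_trans ?_ hle2
      gcongr with i _
      · have := ct_pos ha2 i
        have := kap_pos i
        positivity
      · rw [abs_neg]
        exact abs_clamp_le hτ.le _
  -- integrability
  have mC1 : Integrable (fun w : (Fin k → ℝ × ℝ) × (Fin l → ℝ × ℝ) => C1 w.1) m :=
    hC1i.comp_fst _
  have mC2 : Integrable (fun w : (Fin k → ℝ × ℝ) × (Fin l → ℝ × ℝ) => C2 w.2) m :=
    hC2i.comp_snd _
  have mQ1 : Integrable (fun w : (Fin k → ℝ × ℝ) × (Fin l → ℝ × ℝ) => Q1 w.1) m :=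
    hQ1i.comp_fst _
  have mQ2 : Integrable (fun w : (Fin k → ℝ × ℝ) × (Fin l → ℝ × ℝ) => Q2 w.2) m :=
    hQ2i.comp_snd _
  have s1i : ∀ i, Integrable (S1 i) (Measure.pi fun _ : Fin k => U a1) := fun i =>
    integrable_cont hae1 (hS1c i)
  have s2i : ∀ i, Integrable (S2 i) (Measure.pi fun _ : Fin l => U a2) := fun i =>
    integrable_cont hae2 (hS2c i)
  have s12i : ∀ i, Integrable (fun z => S1 i z ^ 2) (Measure.pi fun _ : Fin k => U a1) := fun i =>
    integrable_cont hae1 ((hS1c i).pow 2)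
  have s22i : ∀ i, Integrable (fun z => S2 i z ^ 2) (Measure.pi fun _ : Fin l => U a2) := fun i =>
    integrable_cont hae2 ((hS2c i).pow 2)
  have s14i : ∀ i, Integrable (fun z => S1 i z ^ 4) (Measure.pi fun _ : Fin k => U a1) := fun i =>
    integrable_cont hae1 ((hS1c i).pow 4)
  have s24i : ∀ i, Integrable (fun z => S2 i z ^ 4) (Measure.pi fun _ : Fin l => U a2) := fun i =>
    integrable_cont hae2 ((hS2c i).pow 4)
  have mY2 : ∀ i, Integrable (fun w : (Fin k → ℝ × ℝ) × (Fin l → ℝ × ℝ) =>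
      (S1 i w.1 - S2 i w.2) ^ 2) m ∧ ∫ w, (S1 i w.1 - S2 i w.2) ^ 2 ∂m =
        k * sg a1 i + l * sg a2 i := by
    intro i
    have j1 : Integrable (fun w : (Fin k → ℝ × ℝ) × (Fin l → ℝ × ℝ) => S1 i w.1 ^ 2) m :=
      (s12i i).comp_fst _
    have j2 : Integrable (fun w : (Fin k → ℝ × ℝ) × (Fin l → ℝ × ℝ) => S2 i w.2 ^ 2) m :=
      (s22i i).comp_snd _
    have j3 : Integrable (fun w : (Fin k → ℝ × ℝ) × (Fin l → ℝ × ℝ) => S1 i w.1 * S2 i w.2) m :=
      (s1i i).mul_prod (s2i i)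
    have e : ∀ w : (Fin k → ℝ × ℝ) × (Fin l → ℝ × ℝ), (S1 i w.1 - S2 i w.2) ^ 2 =
        (S1 i w.1 ^ 2 + S2 i w.2 ^ 2) - 2 * (S1 i w.1 * S2 i w.2) := fun w => by ring
    have j4 : Integrable (fun w : (Fin k → ℝ × ℝ) × (Fin l → ℝ × ℝ) =>
        S1 i w.1 ^ 2 + S2 i w.2 ^ 2) m := j1.add j2
    refine ⟨?_, ?_⟩
    · simp_rw [e]
      exact j4.sub (j3.const_mul 2)
    · simp_rw [e]
      rw [integral_sub j4 (j3.const_mul 2), integral_add j1 j2, integral_const_mul,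
        integral_prod_mul, hm, int_fst _ _ (s12i i).aestronglyMeasurable,
        int_snd _ _ (s22i i).aestronglyMeasurable]
      have v1 := pi_var (ι := Fin k) (U a1) (f := mN a1 i) ?_ (mean_mN ha1 i)
      · have v2 := pi_var (ι := Fin l) (U a2) (f := mN a2 i) ?_ (mean_mN ha2 i)
        · have v3 := pi_mean (ι := Fin k) (U a1) (f := mN a1 i)
            (integrable_of_carried (isCompact_rect a1 1) (U_ae a1) (continuous_mN a1 i))
          simp only [S1, S2]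
          rw [v1, v2, v3, mean_mN ha1]
          simp [sg]
        · exact MemLp.of_bound (continuous_mN a2 i).aestronglyMeasurable (ct a2 i / kap i)
            ((U_ae a2).mono fun y hy => abs_mN_le ha2 i hy)
      · exact MemLp.of_bound (continuous_mN a1 i).aestronglyMeasurable (ct a1 i / kap i)
          ((U_ae a1).mono fun y hy => abs_mN_le ha1 i hy)
  have mY4 : ∀ i, Integrable (fun w : (Fin k → ℝ × ℝ) × (Fin l → ℝ × ℝ) =>
      S1 i w.1 ^ 4 + S2 i w.2 ^ 4) m ∧ ∫ w, (S1 i w.1 ^ 4 + S2 i w.2 ^ 4) ∂m ≤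
        2400 * El a1 a2 i ^ 4 * (k + l) ^ 2 := by
    intro i
    have j1 : Integrable (fun w : (Fin k → ℝ × ℝ) × (Fin l → ℝ × ℝ) => S1 i w.1 ^ 4) m :=
      (s14i i).comp_fst _
    have j2 : Integrable (fun w : (Fin k → ℝ × ℝ) × (Fin l → ℝ × ℝ) => S2 i w.2 ^ 4) m :=
      (s24i i).comp_snd _
    refine ⟨j1.add j2, ?_⟩
    rw [integral_add j1 j2, hm, int_fst _ _ (s14i i).aestronglyMeasurable,
        int_snd _ _ (s24i i).aestronglyMeasurable]
    have hkp := kap_pos i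
    have c1 := ct_pos ha1 i
    have c2 := ct_pos ha2 i
    have f1 := pi_fourth (ι := Fin k) (U a1) (f := mN a1 i) (M := ct a1 i / kap i)
      (by positivity) (continuous_mN a1 i).aestronglyMeasurable
      ((U_ae a1).mono fun y hy => abs_mN_le ha1 i hy) (mean_mN ha1 i)
    have f2 := pi_fourth (ι := Fin l) (U a2) (f := mN a2 i) (M := ct a2 i / kap i)
      (by positivity) (continuous_mN a2 i).aestronglyMeasurable
      ((U_ae a2).mono fun y hy => abs_mN_le ha2 i hy) (mean_mN ha2 i)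
    rw [Fintype.card_fin] at f1 f2
    have g1 : ct a1 i / kap i ≤ 2 * El a1 a2 i := by
      unfold El
      rw [div_le_iff₀ hkp]
      have : 2 * ((ct a1 i + ct a2 i) / (2 * kap i)) * kap i = ct a1 i + ct a2 i := by
        field_simp
      rw [this]
      linarith
    have g2 : ct a2 i / kap i ≤ 2 * El a1 a2 i := by
      unfold El
      rw [div_le_iff₀ hkp]
      have : 2 * ((ct a1 i + ct a2 i) / (2 * kap i)) * kap i = ct a1 i + ct a2 i := by
        field_simp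
      rw [this]
      linarith
    have g3 := pow_le_pow_left₀ (by positivity) g1 4
    have g4 := pow_le_pow_left₀ (by positivity) g2 4
    have g5 := mul_le_mul_of_nonneg_left g3 (by positivity : 0 ≤ 150 * (k : ℝ) ^ 2)
    have g6 := mul_le_mul_of_nonneg_left g4 (by positivity : 0 ≤ 150 * (l : ℝ) ^ 2)
    have g7 : 0 ≤ 4800 * El a1 a2 i ^ 4 * (k * l) := by
      have := El_pos ha1 ha2 i
      positivity
    have f1' : ∫ z, S1 i z ^ 4 ∂(Measure.pi fun _ : Fin k => U a1) ≤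
      150 * (k : ℝ) ^ 2 * (ct a1 i / kap i) ^ 4 := f1
    have f2' : ∫ z, S2 i z ^ 4 ∂(Measure.pi fun _ : Fin l => U a2) ≤
      150 * (l : ℝ) ^ 2 * (ct a2 i / kap i) ^ 4 := f2
    calc _ ≤ 150 * (k : ℝ) ^ 2 * (2 * El a1 a2 i) ^ 4 +
          150 * (l : ℝ) ^ 2 * (2 * El a1 a2 i) ^ 4 := by linarith
      _ = 2400 * El a1 a2 i ^ 4 * (k + l) ^ 2 - 4800 * El a1 a2 i ^ 4 * (k * l) := by ring
      _ ≤ _ := by linarith
  have j1 : Integrable (fun w : (Fin k → ℝ × ℝ) × (Fin l → ℝ × ℝ) =>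
      (1 + 12 * δ) * (C1 w.1 + C2 w.2)) m := (mC1.add mC2).const_mul _
  have j2 : Integrable (fun w : (Fin k → ℝ × ℝ) × (Fin l → ℝ × ℝ) =>
      2 * h0 * (Q1 w.1 - Q2 w.2)) m := (mQ1.sub mQ2).const_mul _
  have j12 : Integrable (fun w : (Fin k → ℝ × ℝ) × (Fin l → ℝ × ℝ) =>
      (1 + 12 * δ) * (C1 w.1 + C2 w.2) + 2 * h0 * (Q1 w.1 - Q2 w.2)) m := j1.add j2
  have j3 : ∀ i, Integrable (fun w : (Fin k → ℝ × ℝ) × (Fin l → ℝ × ℝ) =>
      -(1 - ε) * ((S1 i w.1 - S2 i w.2) ^ 2 / (x * El a1 a2 i)) +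
        8 * (S1 i w.1 ^ 4 + S2 i w.2 ^ 4) / ((x * El a1 a2 i) ^ 3 * τ ^ 2)) m := fun i =>
    (((mY2 i).1.div_const _).const_mul _).add (((mY4 i).1.const_mul 8).div_const _)
  have j4 : Integrable (fun w : (Fin k → ℝ × ℝ) × (Fin l → ℝ × ℝ) =>
      ∑ i ∈ Finset.range L, (-(1 - ε) * ((S1 i w.1 - S2 i w.2) ^ 2 / (x * El a1 a2 i)) +
        8 * (S1 i w.1 ^ 4 + S2 i w.2 ^ 4) / ((x * El a1 a2 i) ^ 3 * τ ^ 2))) m :=
    integrable_finsetSum _ fun i _ => j3 i
  have j5 : Integrable (fun w : (Fin k → ℝ × ℝ) × (Fin l → ℝ × ℝ) =>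
      ∑ i ∈ Finset.range L, (-(1 - ε) * ((S1 i w.1 - S2 i w.2) ^ 2 / (x * El a1 a2 i)) +
        8 * (S1 i w.1 ^ 4 + S2 i w.2 ^ 4) / ((x * El a1 a2 i) ^ 3 * τ ^ 2)) +
      (1 + 12 * δ) * ((k + l) * h0 ^ 2 / 3)) m := j4.add (integrable_const _)
  have hmain : AN a1 a2 k l ≤ _ := integral_mono_ae hInt (j12.add j5) hpt
  refine hmain.trans ?_
  have eI : ∫ w, (((1 + 12 * δ) * (C1 w.1 + C2 w.2) + 2 * h0 * (Q1 w.1 - Q2 w.2)) +
      (∑ i ∈ Finset.range L, (-(1 - ε) * ((S1 i w.1 - S2 i w.2) ^ 2 / (x * El a1 a2 i)) +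
        8 * (S1 i w.1 ^ 4 + S2 i w.2 ^ 4) / ((x * El a1 a2 i) ^ 3 * τ ^ 2)) +
      (1 + 12 * δ) * ((k + l) * h0 ^ 2 / 3))) ∂m =
      (1 + 12 * δ) * (eN k a1 + eN l a2) + (∑ i ∈ Finset.range L,
        (-(1 - ε) * ((k * sg a1 i + l * sg a2 i) / (x * El a1 a2 i)) +
        8 * (∫ w, (S1 i w.1 ^ 4 + S2 i w.2 ^ 4) ∂m) / ((x * El a1 a2 i) ^ 3 * τ ^ 2)) +
      (1 + 12 * δ) * ((k + l) * h0 ^ 2 / 3)) := by
    rw [integral_add j12 j5, integral_add j1 j2, integral_const_mul, integral_const_mul,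
      integral_add mC1 mC2, integral_sub mQ1 mQ2, integral_add j4 (integrable_const _),
      integral_finsetSum _ (fun i _ => j3 i)]
    have q1 : ∫ w, Q1 w.1 ∂m = 0 := by
      rw [hm, int_fst _ _ hQ1i.aestronglyMeasurable, hQ10]
    have q2 : ∫ w, Q2 w.2 ∂m = 0 := by
      rw [hm, int_snd _ _ hQ2i.aestronglyMeasurable, hQ20]
    have q3 : ∫ w, C1 w.1 ∂m = eN k a1 := by
      rw [hm, int_fst _ _ hC1i.aestronglyMeasurable]
      rfl
    have q4 : ∫ w, C2 w.2 ∂m = eN l a2 := by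
      rw [hm, int_snd _ _ hC2i.aestronglyMeasurable]
      rfl
    rw [q1, q2, q3, q4, sub_zero, mul_zero, add_zero]
    congr 2
    · apply Finset.sum_congr rfl
      intro i _
      rw [integral_add (((mY2 i).1.div_const _).const_mul _)
        (((mY4 i).1.const_mul 8).div_const _), integral_const_mul, integral_div, integral_div,
        integral_const_mul, (mY2 i).2]
    · simp
  have eI' := eI
  refine (le_of_eq eI').trans ?_
  have e1 : (1 + 12 * δ) * ((k + l) * h0 ^ 2 / 3) =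
      (1 + 12 * δ) * ((a1 * l - a2 * k) ^ 2 / (3 * (k + l))) := by
    rw [hh0]
    field_simp
  rw [e1]
  have e2 : ∑ i ∈ Finset.range L,
        (-(1 - ε) * ((k * sg a1 i + l * sg a2 i) / (x * El a1 a2 i)) +
        8 * (∫ w, (S1 i w.1 ^ 4 + S2 i w.2 ^ 4) ∂m) / ((x * El a1 a2 i) ^ 3 * τ ^ 2)) ≤
      ∑ i ∈ Finset.range L, (-(1 - ε) * ((k * sg a1 i + l * sg a2 i) / (x * El a1 a2 i)) +
        19200 * El a1 a2 i * (k + l) ^ 2 / (x ^ 3 * τ ^ 2)) := by
    apply Finset.sum_le_sum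
    intro i _
    have hE := El_pos ha1 ha2 i
    have : 8 * (∫ w, (S1 i w.1 ^ 4 + S2 i w.2 ^ 4) ∂m) / ((x * El a1 a2 i) ^ 3 * τ ^ 2) ≤
        19200 * El a1 a2 i * (k + l) ^ 2 / (x ^ 3 * τ ^ 2) := by
      rw [div_le_div_iff₀ (by positivity) (by positivity)]
      calc 8 * (∫ w, (S1 i w.1 ^ 4 + S2 i w.2 ^ 4) ∂m) * (x ^ 3 * τ ^ 2)
          ≤ 8 * (2400 * El a1 a2 i ^ 4 * (k + l) ^ 2) * (x ^ 3 * τ ^ 2) := by
            have := (mY4 i).2
            gcongr
        _ = _ := by ring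
    linarith
  linarith

end Pool.Agent.H969
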