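import Mathlib
import Pool.Agent.H969.Fixed

/-! The problem with exchange at the boundary. -/

set_option autoImplicit false

open MeasureTheory
open scoped ENNReal NNReal Real

namespace Pool.Agent.H969

/-- A sub-plan: masses at most one, sum at most `m`. -/
structure IsSub {ι : Type*} [Fintype ι] (m : Measure (ℝ × ℝ)) (p : ι → Measure (ℝ × ℝ)) :
    Prop where
  mass : ∀ i, p i Set.univ ≤ 1
  sum : ∑ i, p i ≤ m

/-- reduced kernel -/
def kd (d : ℝ × ℝ → ℝ) (w y : ℝ × ℝ) : ℝ := sqd w y - d w ^ 2 - d y ^ 2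

/-- reduced cost of a sub-plan -/
noncomputable def subCost {ι : Type*} [Fintype ι] (z : ι → ℝ × ℝ) (d : ℝ × ℝ → ℝ)
    (p : ι → Measure (ℝ × ℝ)) : ℝ := ∑ i, ∫ y, kd d (z i) y ∂(p i)

/-- the cost with exchange at the boundary -/
noncomputable def costD {ι : Type*} [Fintype ι] (z : ι → ℝ × ℝ) (d : ℝ × ℝ → ℝ)
    (m : Measure (ℝ × ℝ)) : ℝ :=
  ∑ i, d (z i) ^ 2 + ∫ y, d y ^ 2 ∂m +
    ⨅ p : {p : ι → Measure (ℝ × ℝ) // IsSub m p}, subCost z d p.1

theorem isSub_zero {ι : Type*} [Fintype ι] (m : Measure (ℝ × ℝ)) :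
    IsSub m (fun _ : ι => (0 : Measure (ℝ × ℝ))) := by
  refine ⟨fun i => by simp, ?_⟩
  rw [Finset.sum_const_zero]
  exact Measure.zero_le _

instance {ι : Type*} [Fintype ι] (m : Measure (ℝ × ℝ)) :
    Nonempty {p : ι → Measure (ℝ × ℝ) // IsSub m p} := ⟨⟨_, isSub_zero m⟩⟩

theorem IsSub.le {ι : Type*} [Fintype ι] {m : Measure (ℝ × ℝ)} {p : ι → Measure (ℝ × ℝ)}
    (hp : IsSub m p) (i : ι) : p i ≤ m :=
  (Finset.single_le_sum (f := p) (fun j _ => Measure.zero_le _) (Finset.mem_univ i)).trans hp.sum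

theorem IsSub.fin {ι : Type*} [Fintype ι] {m : Measure (ℝ × ℝ)} {p : ι → Measure (ℝ × ℝ)}
    (hp : IsSub m p) (i : ι) : IsFiniteMeasure (p i) :=
  ⟨(hp.mass i).trans_lt ENNReal.one_lt_top⟩

theorem IsSub.real_le {ι : Type*} [Fintype ι] {m : Measure (ℝ × ℝ)} {p : ι → Measure (ℝ × ℝ)}
    (hp : IsSub m p) (i : ι) : (p i Set.univ).toReal ≤ 1 := by
  have := ENNReal.toReal_mono ENNReal.one_ne_top (hp.mass i)
  simpa using this

theorem IsSub.ae {ι : Type*} [Fintype ι] {m : Measure (ℝ × ℝ)} {p : ι → Measure (ℝ × ℝ)}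
    (hp : IsSub m p) (i : ι) {Q : ℝ × ℝ → Prop} (h : ∀ᵐ y ∂m, Q y) : ∀ᵐ y ∂(p i), Q y :=
  (Measure.absolutelyContinuous_of_le (hp.le i)).ae_le h

/-- data: a bounded continuous distance function and a finite measure carried by a compact set -/
structure DD (d : ℝ × ℝ → ℝ) (m : Measure (ℝ × ℝ)) (K : Set (ℝ × ℝ)) (C : ℝ) : Prop where
  cont : Continuous d
  nonneg : ∀ y, 0 ≤ d y
  le : ∀ y, d y ^ 2 ≤ C
  comp : IsCompact K
  carr : ∀ᵐ y ∂m, y ∈ K
  fin : IsFiniteMeasure m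

theorem continuous_kd {d : ℝ × ℝ → ℝ} (hd : Continuous d) (w : ℝ × ℝ) : Continuous (kd d w) := by
  unfold kd
  exact ((continuous_sqd w).sub continuous_const).sub (hd.pow 2)

theorem DD.intg {ι : Type*} [Fintype ι] {d : ℝ × ℝ → ℝ} {m : Measure (ℝ × ℝ)} {K : Set (ℝ × ℝ)}
    {C : ℝ} (h : DD d m K C) {p : ι → Measure (ℝ × ℝ)} (hp : IsSub m p) (i : ι)
    {f : ℝ × ℝ → ℝ} (hf : Continuous f) : Integrable f (p i) := by
  have := hp.fin i
  exact integrable_of_carried h.comp (hp.ae i h.carr) hf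

theorem DD.C_nonneg {d : ℝ × ℝ → ℝ} {m : Measure (ℝ × ℝ)} {K : Set (ℝ × ℝ)}
    {C : ℝ} (h : DD d m K C) : 0 ≤ C := (sq_nonneg _).trans (h.le 0)

theorem DD.subCost_ge {ι : Type*} [Fintype ι] {d : ℝ × ℝ → ℝ} {m : Measure (ℝ × ℝ)}
    {K : Set (ℝ × ℝ)} {C : ℝ} (h : DD d m K C) {p : ι → Measure (ℝ × ℝ)} (hp : IsSub m p)
    (z : ι → ℝ × ℝ) : -(Fintype.card ι * (2 * C)) ≤ subCost z d p := by
  have hC := h.C_nonneg
  unfold subCost
  calc -((Fintype.card ι : ℝ) * (2 * C)) = ∑ _i : ι, -(2 * C) := by simp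
    _ ≤ _ := by
        apply Finset.sum_le_sum
        intro i _
        have := hp.fin i
        calc -(2 * C) ≤ (p i Set.univ).toReal * (-(2 * C)) := by
              have := hp.real_le i
              nlinarith
          _ = ∫ _y, -(2 * C) ∂(p i) := by
              rw [integral_const]
              simp [Measure.real]
          _ ≤ _ := by
              apply integral_mono (integrable_const _) (h.intg hp i (continuous_kd h.cont _))
              intro y
              simp only [kd]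
              have h1 := h.le (z i)
              have h2 := h.le y
              have h3 := sqd_nonneg (z i) y
              linarith

theorem DD.bdd {ι : Type*} [Fintype ι] {d : ℝ × ℝ → ℝ} {m : Measure (ℝ × ℝ)}
    {K : Set (ℝ × ℝ)} {C : ℝ} (h : DD d m K C) (z : ι → ℝ × ℝ) :
    BddBelow (Set.range fun p : {p : ι → Measure (ℝ × ℝ) // IsSub m p} => subCost z d p.1) :=
  ⟨-(Fintype.card ι * (2 * C)), by rintro _ ⟨p, rfl⟩; exact h.subCost_ge p.2 z⟩

theorem DD.costD_le {ι : Type*} [Fintype ι] {d : ℝ × ℝ → ℝ} {m : Measure (ℝ × ℝ)}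
    {K : Set (ℝ × ℝ)} {C : ℝ} (h : DD d m K C) (z : ι → ℝ × ℝ) {p : ι → Measure (ℝ × ℝ)}
    (hp : IsSub m p) : costD z d m ≤ ∑ i, d (z i) ^ 2 + ∫ y, d y ^ 2 ∂m + subCost z d p := by
  unfold costD
  have := ciInf_le (h.bdd z) (⟨p, hp⟩ : {p : ι → Measure (ℝ × ℝ) // IsSub m p})
  simp only at this
  linarith

theorem le_costD {ι : Type*} [Fintype ι] {d : ℝ × ℝ → ℝ} {m : Measure (ℝ × ℝ)}
    (z : ι → ℝ × ℝ) {X : ℝ} (h : ∀ p : ι → Measure (ℝ × ℝ), IsSub m p →
      X ≤ ∑ i, d (z i) ^ 2 + ∫ y, d y ^ 2 ∂m + subCost z d p) : X ≤ costD z d m := by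
  unfold costD
  have : X - (∑ i, d (z i) ^ 2 + ∫ y, d y ^ 2 ∂m) ≤
      ⨅ p : {p : ι → Measure (ℝ × ℝ) // IsSub m p}, subCost z d p.1 := by
    apply le_ciInf
    rintro ⟨p, hp⟩
    have := h p hp
    simp only
    linarith
  linarith

/-- splitting off the unused part of the target -/
theorem IsSub.exists_rest {ι : Type*} [Fintype ι] {m : Measure (ℝ × ℝ)} [IsFiniteMeasure m]
    {p : ι → Measure (ℝ × ℝ)} (hp : IsSub m p) : ∃ m' : Measure (ℝ × ℝ), ∑ i, p i + m' = m := by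
  have : IsFiniteMeasure (∑ i, p i) := isFiniteMeasure_of_le m hp.sum
  exact ⟨m - ∑ i, p i, by rw [add_comm]; exact Measure.sub_add_cancel_of_le hp.sum⟩

/-- the full cost of a sub-plan written with nonnegative terms -/
theorem DD.full {ι : Type*} [Fintype ι] {d : ℝ × ℝ → ℝ} {m m' : Measure (ℝ × ℝ)}
    {K : Set (ℝ × ℝ)} {C : ℝ} (h : DD d m K C) (z : ι → ℝ × ℝ) {p : ι → Measure (ℝ × ℝ)}
    (hp : IsSub m p) (hm' : ∑ i, p i + m' = m) :
    ∑ i, d (z i) ^ 2 + ∫ y, d y ^ 2 ∂m + subCost z d p =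
      ∑ i, ((∫ y, sqd (z i) y ∂(p i)) + (1 - (p i Set.univ).toReal) * d (z i) ^ 2) +
        ∫ y, d y ^ 2 ∂m' := by
  have hfin := h.fin
  have hd2 : Continuous fun y => d y ^ 2 := h.cont.pow 2
  have hm'le : m' ≤ m := by rw [← hm']; exact Measure.le_add_left le_rfl
  have hfm' : IsFiniteMeasure m' := isFiniteMeasure_of_le m hm'le
  have hi' : Integrable (fun y => d y ^ 2) m' :=
    integrable_of_carried h.comp ((Measure.absolutelyContinuous_of_le hm'le).ae_le h.carr) hd2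
  have e1 : ∫ y, d y ^ 2 ∂m = ∑ i, ∫ y, d y ^ 2 ∂(p i) + ∫ y, d y ^ 2 ∂m' := by
    conv_lhs => rw [← hm']
    rw [integral_add_measure (integrable_finsetSum_measure.2 fun i _ => h.intg hp i hd2) hi',
      integral_finsetSum_measure fun i _ => h.intg hp i hd2]
  have e2 : ∀ i, ∫ y, kd d (z i) y ∂(p i) = ∫ y, sqd (z i) y ∂(p i) -
      (p i Set.univ).toReal * d (z i) ^ 2 - ∫ y, d y ^ 2 ∂(p i) := by
    intro i
    have := hp.fin i
    unfold kd
    have j1 : Integrable (fun y => sqd (z i) y) (p i) := h.intg hp i (continuous_sqd (z i))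
    have j2 : Integrable (fun y => sqd (z i) y - d (z i) ^ 2) (p i) :=
      j1.sub (integrable_const _)
    rw [integral_sub j2 (h.intg hp i hd2), integral_sub j1 (integrable_const _), integral_const]
    simp [Measure.real]
  unfold subCost
  simp_rw [e2]
  rw [e1, Finset.sum_sub_distrib, Finset.sum_sub_distrib, Finset.sum_add_distrib]
  have e3 : ∑ i, (1 - (p i Set.univ).toReal) * d (z i) ^ 2 = ∑ i, d (z i) ^ 2 -
      ∑ i, (p i Set.univ).toReal * d (z i) ^ 2 := by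
    rw [← Finset.sum_sub_distrib]
    exact Finset.sum_congr rfl fun i _ => by ring
  rw [e3]
  ring

theorem DD.costD_nonneg {ι : Type*} [Fintype ι] {d : ℝ × ℝ → ℝ} {m : Measure (ℝ × ℝ)}
    {K : Set (ℝ × ℝ)} {C : ℝ} (h : DD d m K C) (z : ι → ℝ × ℝ) : 0 ≤ costD z d m := by
  have hfin := h.fin
  apply le_costD
  intro p hp
  obtain ⟨m', hm'⟩ := hp.exists_rest
  rw [h.full z hp hm']
  apply add_nonneg
  · apply Finset.sum_nonneg
    intro i _
    have h1 : 0 ≤ ∫ y, sqd (z i) y ∂(p i) := integral_nonneg fun _ => sqd_nonneg _ _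
    have h2 := hp.real_le i
    have h3 : 0 ≤ (1 - (p i Set.univ).toReal) * d (z i) ^ 2 :=
      mul_nonneg (by linarith) (sq_nonneg _)
    linarith
  · exact integral_nonneg fun _ => sq_nonneg _

theorem DD.costD_le_crude {ι : Type*} [Fintype ι] {d : ℝ × ℝ → ℝ} {m : Measure (ℝ × ℝ)}
    {K : Set (ℝ × ℝ)} {C : ℝ} (h : DD d m K C) (z : ι → ℝ × ℝ) :
    costD z d m ≤ Fintype.card ι * C + ∫ y, d y ^ 2 ∂m := by
  have h1 := h.costD_le z (isSub_zero (ι := ι) m)
  have h2 : subCost z d (fun _ : ι => (0 : Measure (ℝ × ℝ))) = 0 := by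
    unfold subCost
    simp
  have h3 : ∑ i, d (z i) ^ 2 ≤ ∑ _i : ι, C := Finset.sum_le_sum fun i _ => h.le _
  have h4 : ∑ _i : ι, C = Fintype.card ι * C := by simp
  linarith

theorem DD.measurable_costD {ι : Type*} [Fintype ι] {d : ℝ × ℝ → ℝ} {m : Measure (ℝ × ℝ)}
    {K : Set (ℝ × ℝ)} {C : ℝ} (h : DD d m K C) :
    Measurable (fun z : ι → ℝ × ℝ => costD z d m) := by
  have hd2 : Continuous fun y => d y ^ 2 := h.cont.pow 2
  unfold costD
  have hmc : Measurable fun z : ι → ℝ × ℝ => ∑ i, d (z i) ^ 2 := by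
    have hdm := h.cont.measurable
    fun_prop
  refine (hmc.add measurable_const).add ?_
  apply UpperSemicontinuous.measurable
  apply upperSemicontinuous_ciInf
  · intro z
    exact h.bdd z
  · rintro ⟨p, hp⟩
    apply Continuous.upperSemicontinuous
    unfold subCost
    apply continuous_finsetSum
    intro i _
    have hfi := hp.fin i
    have e : ∀ z : ι → ℝ × ℝ, ∫ y, kd d (z i) y ∂(p i) =
        (p i Set.univ).toReal * ((z i).1 ^ 2 + (z i).2 ^ 2 - d (z i) ^ 2) -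
        2 * (z i).1 * ∫ y, y.1 ∂(p i) - 2 * (z i).2 * ∫ y, y.2 ∂(p i) +
        ∫ y, (y.1 ^ 2 + y.2 ^ 2 - d y ^ 2) ∂(p i) := by
      intro z
      have i1 := h.intg hp i continuous_fst
      have i2 := h.intg hp i continuous_snd
      have i3 := h.intg hp i (f := fun y : ℝ × ℝ => y.1 ^ 2 + y.2 ^ 2 - d y ^ 2)
        ((by fun_prop : Continuous fun y : ℝ × ℝ => y.1 ^ 2 + y.2 ^ 2).sub hd2)
      have e : ∀ y : ℝ × ℝ, kd d (z i) y = (((z i).1 ^ 2 + (z i).2 ^ 2 - d (z i) ^ 2) -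
          2 * (z i).1 * y.1 - 2 * (z i).2 * y.2) + (y.1 ^ 2 + y.2 ^ 2 - d y ^ 2) := by
        intro y
        unfold kd sqd
        ring
      simp_rw [e]
      have j1 : Integrable (fun y : ℝ × ℝ => ((z i).1 ^ 2 + (z i).2 ^ 2 - d (z i) ^ 2) -
          2 * (z i).1 * y.1) (p i) := (integrable_const _).sub (i1.const_mul _)
      have j2 : Integrable (fun y : ℝ × ℝ => ((z i).1 ^ 2 + (z i).2 ^ 2 - d (z i) ^ 2) -
          2 * (z i).1 * y.1 - 2 * (z i).2 * y.2) (p i) := j1.sub (i2.const_mul _)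
      rw [integral_add j2 i3, integral_sub j1 (i2.const_mul _),
        integral_sub (integrable_const _) (i1.const_mul _), integral_const_mul,
        integral_const_mul, integral_const]
      simp [Measure.real]
    simp_rw [e]
    have hdc := h.cont
    fun_prop

theorem IsSub.comp {ι κ : Type*} [Fintype ι] [Fintype κ] (e : κ ≃ ι) {m : Measure (ℝ × ℝ)}
    {p : ι → Measure (ℝ × ℝ)} (hp : IsSub m p) : IsSub m (fun j => p (e j)) := by
  refine ⟨fun j => hp.mass _, ?_⟩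
  refine le_trans (le_of_eq ?_) hp.sum
  exact e.sum_comp p

theorem costD_comp {ι κ : Type*} [Fintype ι] [Fintype κ] (e : κ ≃ ι) (z : ι → ℝ × ℝ)
    (d : ℝ × ℝ → ℝ) (m : Measure (ℝ × ℝ)) : costD (fun j => z (e j)) d m = costD z d m := by
  unfold costD
  congr 1
  · congr 1
    exact e.sum_comp (fun i => d (z i) ^ 2)
  · refine Function.Surjective.iInf_congr
      (fun p : {p : κ → Measure (ℝ × ℝ) // IsSub m p} =>
        (⟨fun i => p.1 (e.symm i), p.2.comp e.symm⟩ :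
          {p : ι → Measure (ℝ × ℝ) // IsSub m p})) ?_ ?_
    · intro p
      refine ⟨⟨fun j => p.1 (e j), p.2.comp e⟩, ?_⟩
      ext1
      simp
    · intro p
      simp only [subCost]
      rw [← e.sum_comp]
      simp

/-- dropping points at which the reduced kernel is nonnegative -/
theorem DD.costD_drop {ι κ : Type*} [Fintype ι] [Fintype κ] {d : ℝ × ℝ → ℝ}
    {m : Measure (ℝ × ℝ)} {K : Set (ℝ × ℝ)} {C : ℝ} (h : DD d m K C) (z : ι → ℝ × ℝ)
    (z' : κ → ℝ × ℝ) (h0 : ∀ j, ∀ᵐ y ∂m, 0 ≤ kd d (z' j) y) :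
    costD z d m ≤ costD (Sum.elim z z') d m := by
  apply le_costD
  intro p hp
  have hsub : IsSub m (fun i => p (Sum.inl i)) := by
    refine ⟨fun i => hp.mass _, ?_⟩
    refine le_trans ?_ hp.sum
    rw [Fintype.sum_sum_type]
    exact Measure.le_add_right le_rfl
  refine (h.costD_le z hsub).trans ?_
  unfold subCost
  rw [Fintype.sum_sum_type, Fintype.sum_sum_type]
  simp only [Sum.elim_inl, Sum.elim_inr]
  have h1 : 0 ≤ ∑ j, d (z' j) ^ 2 := Finset.sum_nonneg fun j _ => sq_nonneg _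
  have h2 : 0 ≤ ∑ j, ∫ y, kd d (z' j) y ∂(p (Sum.inr j)) := by
    apply Finset.sum_nonneg
    intro j _
    apply integral_nonneg_of_ae
    exact hp.ae _ (h0 j)
  linarith

/-- behaviour under similarities, one direction -/
theorem DD.costD_sim_le {ι : Type*} [Fintype ι] {d d' : ℝ × ℝ → ℝ} {m m' : Measure (ℝ × ℝ)}
    {K K' : Set (ℝ × ℝ)} {C C' : ℝ} (h : DD d m K C) (h' : DD d' m' K' C')
    {φ : ℝ × ℝ → ℝ × ℝ} (hφ : Continuous φ) {s : ℝ}
    (hsq : ∀ x y, sqd (φ x) (φ y) = s ^ 2 * sqd x y) (hd : ∀ y, d' (φ y) = s * d y)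
    (hm : m' = m.map φ) (z : ι → ℝ × ℝ) :
    costD (fun i => φ (z i)) d' m' ≤ s ^ 2 * costD z d m := by
  have key : ∀ p : ι → Measure (ℝ × ℝ), IsSub m p →
      costD (fun i => φ (z i)) d' m' ≤
        s ^ 2 * (∑ i, d (z i) ^ 2 + ∫ y, d y ^ 2 ∂m + subCost z d p) := by
    intro p hp
    have hsub : IsSub m' (fun i => (p i).map φ) := by
      refine ⟨fun i => ?_, ?_⟩
      · rw [Measure.map_apply hφ.measurable MeasurableSet.univ, Set.preimage_univ]
        exact hp.mass i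
      · rw [hm, ← Measure.map_finset_sum' hφ.measurable.aemeasurable]
        exact Measure.map_mono hp.sum hφ.measurable
    refine (h'.costD_le _ hsub).trans (le_of_eq ?_)
    have hk : ∀ x y, kd d' (φ x) (φ y) = s ^ 2 * kd d x y := by
      intro x y
      unfold kd
      rw [hsq, hd, hd]
      ring
    have hd2 : Continuous fun y => d' y ^ 2 := h'.cont.pow 2
    unfold subCost
    rw [hm, integral_map hφ.measurable.aemeasurable hd2.aestronglyMeasurable]
    have e : ∀ i, ∫ y, kd d' (φ (z i)) y ∂((p i).map φ) = s ^ 2 * ∫ y, kd d (z i) y ∂(p i) := by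
      intro i
      rw [integral_map hφ.measurable.aemeasurable
        (continuous_kd h'.cont _).aestronglyMeasurable]
      simp_rw [hk]
      rw [integral_const_mul]
    simp_rw [e, hd, mul_pow]
    rw [integral_const_mul, ← Finset.mul_sum, ← Finset.mul_sum]
    ring
  rcases eq_or_ne s 0 with hs | hs
  · have := key _ (isSub_zero (ι := ι) m)
    rw [hs] at this ⊢
    simpa using this
  · have hs2 : 0 < s ^ 2 := by positivity
    have : costD (fun i => φ (z i)) d' m' / s ^ 2 ≤ costD z d m := by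
      apply le_costD
      intro p hp
      rw [div_le_iff₀ hs2]
      linarith [key p hp]
    rw [div_le_iff₀ hs2] at this
    linarith

end Pool.Agent.H969
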