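import Mathlib
import Pool.Agent.H969.DCost

/-! The area preserving map and pointwise estimates. -/

set_option autoImplicit false

open MeasureTheory
open scoped ENNReal NNReal Real

namespace Pool.Agent.H969

variable {c δ : ℝ} {w w1 w2 w11 w12 w22 : ℝ → ℝ → ℝ}

/-- harmonic potentials vanishing on three sides -/
structure PotD (c δ : ℝ) (w w1 w2 w11 w12 w22 : ℝ → ℝ → ℝ) : Prop where
  pot : Pot c δ w w1 w2 w11 w12 w22
  lap : ∀ s t, w11 s t + w22 s t = 0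
  b1 : ∀ s ∈ Set.Icc 0 c, ∀ t, |w1 s t| ≤ δ
  b2 : ∀ s ∈ Set.Icc 0 c, ∀ t, |w2 s t| ≤ δ
  z0 : ∀ t, w 0 t = 0
  z1 : ∀ s, w s 0 = 0
  z2 : ∀ s, w s 1 = 0

theorem PotD.abs_le (hP : PotD c δ w w1 w2 w11 w12 w22) {s t : ℝ} (hs : s ∈ Set.Icc 0 c)
    (ht : t ∈ Set.Icc (0:ℝ) 1) : |w s t| ≤ δ * min s (min t (1 - t)) := by
  have hc : 0 ≤ c := hs.1.trans hs.2
  have hδ := hP.pot.delta_nonneg hc
  have e1 := lip_of_deriv (convex_Icc 0 c) (fun x _ => hP.pot.h1 x t)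
    (fun x hx => hP.b1 x hx t) (Set.left_mem_Icc.2 hc) hs
  have e2 := lip_of_deriv convex_univ (fun x _ => hP.pot.h2 s x)
    (fun x _ => hP.b2 s hs x) (Set.mem_univ 0) (Set.mem_univ t)
  have e3 := lip_of_deriv convex_univ (fun x _ => hP.pot.h2 s x)
    (fun x _ => hP.b2 s hs x) (Set.mem_univ 1) (Set.mem_univ t)
  rw [hP.z0, sub_zero, sub_zero, abs_of_nonneg hs.1] at e1
  rw [hP.z1, sub_zero, sub_zero, abs_of_nonneg ht.1] at e2
  rw [hP.z2, sub_zero, abs_sub_comm t 1, abs_of_nonneg (sub_nonneg.2 ht.2)] at e3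
  rcases min_choice s (min t (1 - t)) with h | h <;> rw [h]
  · exact e1
  · rcases min_choice t (1 - t) with h' | h' <;> rw [h']
    · exact e2
    · exact e3

theorem PotD.lip (hP : PotD c δ w w1 w2 w11 w12 w22) {s s' : ℝ} (hs : s ∈ Set.Icc 0 c)
    (hs' : s' ∈ Set.Icc 0 c) (t t' : ℝ) : |w s t - w s' t'| ≤ δ * |s - s'| + δ * |t - t'| := by
  have e1 := lip_of_deriv (convex_Icc 0 c) (fun x _ => hP.pot.h1 x t)
    (fun x hx => hP.b1 x hx t) hs' hs
  have e2 := lip_of_deriv convex_univ (fun x _ => hP.pot.h2 s' x)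
    (fun x _ => hP.b2 s' hs' x) (Set.mem_univ t') (Set.mem_univ t)
  calc |w s t - w s' t'| = |(w s t - w s' t) + (w s' t - w s' t')| := by congr 1; ring
    _ ≤ _ := (abs_add_le _ _).trans (add_le_add e1 e2)

/-- data for the shear -/
structure IsShear (c : ℝ) (w2 : ℝ → ℝ → ℝ) (S : (ℝ × ℝ) ≃ₜ (ℝ × ℝ)) : Prop where
  eq : ∀ z, S z = (z.1, z.2 + w2 (clip c z.1) z.2)

theorem PotD.exists_S (hP : PotD c δ w w1 w2 w11 w12 w22) (hc : 0 ≤ c) (hδ : δ ≤ 1 / 20) :
    ∃ S : (ℝ × ℝ) ≃ₜ (ℝ × ℝ), IsShear c w2 S := by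
  obtain ⟨S, hS⟩ := hP.pot.exists_shear hc (α := 1) zero_le_one (by linarith)
  exact ⟨S, ⟨fun z => by rw [hS, one_mul]⟩⟩

theorem IsShear.symm_eq {S : (ℝ × ℝ) ≃ₜ (ℝ × ℝ)} (hS : IsShear c w2 S) {y : ℝ × ℝ}
    (hy : y.1 ∈ Set.Icc 0 c) : (S.symm y).1 = y.1 ∧ y.2 = (S.symm y).2 + w2 y.1 (S.symm y).2 := by
  have h := hS.eq (S.symm y)
  rw [S.apply_symm_apply] at h
  have h1 : y.1 = (S.symm y).1 := (Prod.ext_iff.1 h).1
  have h2 : y.2 = (S.symm y).2 + w2 (clip c (S.symm y).1) (S.symm y).2 := (Prod.ext_iff.1 h).2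
  rw [← h1, clip_of_mem hy] at h2
  exact ⟨h1.symm, h2⟩

/-- the map -/
noncomputable def TT (w1 : ℝ → ℝ → ℝ) (S : (ℝ × ℝ) ≃ₜ (ℝ × ℝ)) (y : ℝ × ℝ) : ℝ × ℝ :=
  ((S.symm y).1 - w1 (S.symm y).1 (S.symm y).2, (S.symm y).2)

theorem PotD.continuous_TT (hP : PotD c δ w w1 w2 w11 w12 w22) (S : (ℝ × ℝ) ≃ₜ (ℝ × ℝ)) :
    Continuous (TT w1 S) := by
  unfold TT
  have h1 := hP.pot.c1
  have h2 := S.symm.continuous
  have h3 : Continuous fun y => w1 (S.symm y).1 (S.symm y).2 := h1.comp h2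
  fun_prop

theorem PotD.disp (hP : PotD c δ w w1 w2 w11 w12 w22) {S : (ℝ × ℝ) ≃ₜ (ℝ × ℝ)}
    (hS : IsShear c w2 S) {y : ℝ × ℝ} (hy : y.1 ∈ Set.Icc 0 c) :
    |(TT w1 S y).1 - y.1| ≤ δ ∧ |(TT w1 S y).2 - y.2| ≤ δ := by
  obtain ⟨h1, h2⟩ := hS.symm_eq hy
  have k1 := hP.b1 y.1 hy (S.symm y).2
  have k2 := hP.b2 y.1 hy (S.symm y).2
  unfold TT
  simp only
  rw [h1]
  constructor
  · have e : y.1 - w1 y.1 (S.symm y).2 - y.1 = -w1 y.1 (S.symm y).2 := by ring
    rw [e, abs_neg]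
    exact k1
  · have e : (S.symm y).2 - y.2 = -w2 y.1 (S.symm y).2 := by
      conv_lhs => rw [h2]
      ring
    rw [e, abs_neg]
    exact k2

/-- gradient at the preimage -/
noncomputable def GG (w1 w2 : ℝ → ℝ → ℝ) (S : (ℝ × ℝ) ≃ₜ (ℝ × ℝ)) (y : ℝ × ℝ) : ℝ :=
  w1 (S.symm y).1 (S.symm y).2 ^ 2 + w2 (S.symm y).1 (S.symm y).2 ^ 2

theorem grad_real {δ A B A0 B0 : ℝ} (hδ0 : 0 ≤ δ) (hδ : δ ≤ 1 / 20) (h1 : |A - A0| ≤ δ * |B|)
    (h2 : |B - B0| ≤ δ * |B|) : A ^ 2 + B ^ 2 ≤ (1 + 5 * δ) * (A0 ^ 2 + B0 ^ 2) := by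
  have hB := abs_nonneg B
  have g1 : (A - A0) ^ 2 ≤ δ ^ 2 * B ^ 2 := by
    rw [← sq_abs, ← sq_abs B]
    calc |A - A0| ^ 2 ≤ (δ * |B|) ^ 2 := pow_le_pow_left₀ (abs_nonneg _) h1 2
      _ = _ := by ring
  have g2 : (B - B0) ^ 2 ≤ δ ^ 2 * B ^ 2 := by
    rw [← sq_abs, ← sq_abs B]
    calc |B - B0| ^ 2 ≤ (δ * |B|) ^ 2 := pow_le_pow_left₀ (abs_nonneg _) h2 2
      _ = _ := by ring
  rcases eq_or_lt_of_le hδ0 with h0 | h0
  · have e1 : A = A0 := by
      have : (A - A0) ^ 2 ≤ 0 := by rw [← h0] at g1; simpa using g1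
      nlinarith [sq_nonneg (A - A0)]
    have e2 : B = B0 := by
      have : (B - B0) ^ 2 ≤ 0 := by rw [← h0] at g2; simpa using g2
      nlinarith [sq_nonneg (B - B0)]
    rw [e1, e2, ← h0]
    linarith
  · -- Young
    have y1 : A ^ 2 ≤ (1 + δ) * A0 ^ 2 + (1 + 1 / δ) * (A - A0) ^ 2 := by
      have : 0 ≤ (δ * A0 - (A - A0)) ^ 2 / δ := by positivity
      have e : (δ * A0 - (A - A0)) ^ 2 / δ = δ * A0 ^ 2 - 2 * A0 * (A - A0) + (A - A0) ^ 2 / δ := by
        field_simp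
        ring
      have e2 : (1 + 1 / δ) * (A - A0) ^ 2 = (A - A0) ^ 2 + (A - A0) ^ 2 / δ := by ring
      rw [e2]
      rw [e] at this
      nlinarith
    have y2 : B ^ 2 ≤ (1 + δ) * B0 ^ 2 + (1 + 1 / δ) * (B - B0) ^ 2 := by
      have : 0 ≤ (δ * B0 - (B - B0)) ^ 2 / δ := by positivity
      have e : (δ * B0 - (B - B0)) ^ 2 / δ = δ * B0 ^ 2 - 2 * B0 * (B - B0) + (B - B0) ^ 2 / δ := by
        field_simp
        ring
      have e2 : (1 + 1 / δ) * (B - B0) ^ 2 = (B - B0) ^ 2 + (B - B0) ^ 2 / δ := by ring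
      rw [e2]
      rw [e] at this
      nlinarith
    have y3 : (1 + 1 / δ) * (A - A0) ^ 2 ≤ (δ ^ 2 + δ) * B ^ 2 := by
      calc (1 + 1 / δ) * (A - A0) ^ 2 ≤ (1 + 1 / δ) * (δ ^ 2 * B ^ 2) := by gcongr
        _ = _ := by field_simp
    have y4 : (1 + 1 / δ) * (B - B0) ^ 2 ≤ (δ ^ 2 + δ) * B ^ 2 := by
      calc (1 + 1 / δ) * (B - B0) ^ 2 ≤ (1 + 1 / δ) * (δ ^ 2 * B ^ 2) := by gcongr
        _ = _ := by field_simp
    have hs : A ^ 2 + (1 - 2 * (δ ^ 2 + δ)) * B ^ 2 ≤ (1 + δ) * (A0 ^ 2 + B0 ^ 2) := by linarith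
    have hc : 0 < 1 - 2 * (δ ^ 2 + δ) := by nlinarith
    have hA : (1 - 2 * (δ ^ 2 + δ)) * A ^ 2 ≤ A ^ 2 := by nlinarith [sq_nonneg A]
    have hs2 : (1 - 2 * (δ ^ 2 + δ)) * (A ^ 2 + B ^ 2) ≤ (1 + δ) * (A0 ^ 2 + B0 ^ 2) := by linarith
    have hs3 : (1 + δ) ≤ (1 - 2 * (δ ^ 2 + δ)) * (1 + 5 * δ) := by nlinarith
    have hn : 0 ≤ A0 ^ 2 + B0 ^ 2 := by positivity
    have hs4 : (1 - 2 * (δ ^ 2 + δ)) * (A ^ 2 + B ^ 2) ≤
        (1 - 2 * (δ ^ 2 + δ)) * ((1 + 5 * δ) * (A0 ^ 2 + B0 ^ 2)) := by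
      calc _ ≤ (1 + δ) * (A0 ^ 2 + B0 ^ 2) := hs2
        _ ≤ ((1 - 2 * (δ ^ 2 + δ)) * (1 + 5 * δ)) * (A0 ^ 2 + B0 ^ 2) :=
            mul_le_mul_of_nonneg_right hs3 hn
        _ = _ := by ring
    exact le_of_mul_le_mul_left hs4 hc

theorem PotD.GG_le (hP : PotD c δ w w1 w2 w11 w12 w22) (hδ : δ ≤ 1 / 20)
    {S : (ℝ × ℝ) ≃ₜ (ℝ × ℝ)} (hS : IsShear c w2 S) {y : ℝ × ℝ} (hy : y.1 ∈ Set.Icc 0 c) :
    GG w1 w2 S y ≤ (1 + 5 * δ) * (w1 y.1 y.2 ^ 2 + w2 y.1 y.2 ^ 2) := by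
  obtain ⟨h1, h2⟩ := hS.symm_eq hy
  have hδ0 := hP.pot.delta_nonneg (hy.1.trans hy.2)
  unfold GG
  rw [h1]
  have l1 := hP.pot.lip1 hy hy (S.symm y).2 y.2
  have l2 := hP.pot.lip2 hy hy (S.symm y).2 y.2
  have e : (S.symm y).2 - y.2 = -w2 y.1 (S.symm y).2 := by
    conv_lhs => rw [h2]
    ring
  rw [e, abs_neg, sub_self, abs_zero, mul_zero, zero_add] at l1 l2
  exact grad_real hδ0 hδ l1 l2

/-- the main pointwise inequality for points in the same half -/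
theorem PotD.same (hP : PotD c δ w w1 w2 w11 w12 w22) (hδ : δ ≤ 1 / 20)
    {S : (ℝ × ℝ) ≃ₜ (ℝ × ℝ)} (hS : IsShear c w2 S) {x y : ℝ × ℝ} (hx : x.1 ∈ Set.Icc 0 c)
    (hy : y.1 ∈ Set.Icc 0 c) :
    sqd x (TT w1 S y) ≤ (1 + 12 * δ) * sqd x y + 2 * (w x.1 x.2 - w y.1 y.2) +
      (1 + 10 * δ) * GG w1 w2 S y := by
  obtain ⟨h1, h2⟩ := hS.symm_eq hy
  have hδ0 := hP.pot.delta_nonneg (hy.1.trans hy.2)
  have ht := hP.pot.taylor hx hy x.2 y.2
  have t1 := (_root_.abs_le.1 ht).1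
  have l1 := hP.pot.lip1 hy hy (S.symm y).2 y.2
  have l2 := hP.pot.lip2 hy hy (S.symm y).2 y.2
  have e : (S.symm y).2 - y.2 = -w2 y.1 (S.symm y).2 := by
    conv_lhs => rw [h2]
    ring
  rw [e, abs_neg, sub_self, abs_zero, mul_zero, zero_add] at l1 l2
  unfold TT GG
  rw [h1]
  set u := w1 y.1 (S.symm y).2
  set v := w2 y.1 (S.symm y).2
  have hsq : sqd x (y.1 - u, (S.symm y).2) = (x.1 - y.1 + u) ^ 2 + (x.2 - y.2 + 1 * v) ^ 2 := by
    unfold sqd
    simp only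
    have e' : y.2 = (S.symm y).2 + v := h2
    rw [e']
    ring
  have hsq' : sqd x y = (x.1 - y.1) ^ 2 + (x.2 - y.2) ^ 2 := rfl
  rw [hsq, hsq']
  exact shear_real (α := 1) hδ0 hδ (by linarith) (by linarith) (by rwa [one_mul])
    (by rwa [one_mul]) t1

/-- change of variables -/
theorem PotD.lint_T (hP : PotD c δ w w1 w2 w11 w12 w22) (hc : 0 ≤ c) (hδ : δ ≤ 1 / 20)
    {S : (ℝ × ℝ) ≃ₜ (ℝ × ℝ)} (hS : IsShear c w2 S) {F : ℝ × ℝ → ℝ≥0∞} (hF : Measurable F)
    (hsupp : ∀ y, F y ≠ 0 → y.1 ∈ Set.Icc δ (c - δ) ∧ y.2 ∈ Set.Icc δ (1 - δ)) :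
    ∫⁻ y in rect c 1, F (TT w1 S y) = ∫⁻ y, F y := by
  have hT := (hP.continuous_TT S).measurable
  have hm1 := hP.pot.c1
  have hm11 := hP.pot.c11
  have hm22 := hP.pot.c22
  -- from the rectangle to the strip
  have e1 : ∫⁻ y in rect c 1, F (TT w1 S y) = ∫⁻ y in Set.Icc 0 c ×ˢ Set.univ, F (TT w1 S y) := by
    rw [← lintegral_indicator (measurableSet_rect c 1), ← lintegral_indicator
      (measurableSet_Icc.prod MeasurableSet.univ)]
    congr 1
    ext y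
    by_cases hy : y ∈ rect c 1
    · have hy1 : y ∈ Set.Icc 0 c ×ˢ (Set.univ : Set ℝ) := ⟨hy.1, Set.mem_univ _⟩
      rw [Set.indicator_of_mem hy, Set.indicator_of_mem hy1]
    · rw [Set.indicator_of_notMem hy]
      by_cases hy1 : y ∈ Set.Icc 0 c ×ˢ (Set.univ : Set ℝ)
      · rw [Set.indicator_of_mem hy1]
        by_contra hne
        have hs := hsupp (TT w1 S y) (Ne.symm hne)
        obtain ⟨d1, d2⟩ := hP.disp hS hy1.1
        apply hy
        refine ⟨hy1.1, ?_⟩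
        have d3 := _root_.abs_le.1 d2
        exact ⟨by linarith [hs.2.1], by linarith [hs.2.2]⟩
      · rw [Set.indicator_of_notMem hy1]
  -- first shear
  have e2 : ∫⁻ y in Set.Icc 0 c ×ˢ Set.univ, F (TT w1 S y) =
      ∫⁻ s in Set.Icc 0 c, ∫⁻ t, ENNReal.ofReal (1 + w22 s t) * F (s - w1 s t, t) := by
    rw [lint_prod _ _ (fun y => F (TT w1 S y)) (hF.comp hT)]
    apply setLIntegral_congr_fun measurableSet_Icc
    intro s hs
    simp only [Measure.restrict_univ]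
    have hmono : MonotoneOn (fun t => t + w2 s t) Set.univ := by
      apply Monotone.monotoneOn
      apply monotone_of_deriv_nonneg
      · intro t
        exact ((hasDerivAt_id t).fun_add (hP.pot.h22 s t)).differentiableAt
      · intro t
        have hd := (hasDerivAt_id t).fun_add (hP.pot.h22 s t)
        have hb := hP.pot.b22 s hs t
        have : deriv (fun t => t + w2 s t) t = 1 + w22 s t := hd.deriv
        rw [this]
        have := neg_abs_le (w22 s t)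
        linarith
    have himg : (fun t => t + w2 s t) '' Set.univ = Set.univ := by
      apply Set.eq_univ_of_forall
      intro t
      have h := hS.symm_eq (y := (s, t)) hs
      exact ⟨(S.symm (s, t)).2, Set.mem_univ _, h.2.symm⟩
    have h := lintegral_image_eq_lintegral_deriv_mul_of_monotoneOn (s := Set.univ)
      (f := fun t => t + w2 s t) (f' := fun t => 1 + w22 s t) MeasurableSet.univ
      (fun t _ => ((hasDerivAt_id t).fun_add (hP.pot.h22 s t)).hasDerivWithinAt) hmono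
      (fun t => F (TT w1 S (s, t)))
    rw [himg] at h
    simp only [Measure.restrict_univ] at h
    rw [h]
    congr 1
    ext t
    congr 2
    unfold TT
    have hSs : S.symm (s, t + w2 s t) = (s, t) := by
      rw [S.symm_apply_eq, hS.eq]
      simp only
      rw [clip_of_mem hs]
    rw [hSs]
  -- exchange and second shear
  have e3 : ∫⁻ s in Set.Icc 0 c, ∫⁻ t, ENNReal.ofReal (1 + w22 s t) * F (s - w1 s t, t) =
      ∫⁻ t, ∫⁻ s in Set.Icc 0 c, ENNReal.ofReal (1 - w11 s t) * F (s - w1 s t, t) := by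
    rw [lintegral_lintegral_swap]
    · congr 1
      ext t
      apply lintegral_congr
      intro s
      have := hP.lap s t
      have e : w22 s t = -w11 s t := by linarith
      rw [e, ← sub_eq_add_neg]
    · apply Measurable.aemeasurable
      have hF2 : Measurable fun y : ℝ × ℝ => F (y.1 - w1 y.1 y.2, y.2) :=
        hF.comp (by fun_prop)
      have : Measurable fun y : ℝ × ℝ => ENNReal.ofReal (1 + w22 y.1 y.2) := by fun_prop
      exact this.mul hF2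
  rw [e1, e2, e3, Measure.volume_eq_prod, lintegral_prod_symm _ hF.aemeasurable]
  congr 1
  ext t
  have h := lint_Icc (α := 0) (β := c) hc (f := fun s => s - w1 s t) (f' := fun s => 1 - w11 s t)
    (fun s _ => (hasDerivAt_id s).fun_sub (hP.pot.h11 s t))
    (fun s hs => by
      have := hP.pot.b11 s hs t
      have := le_abs_self (w11 s t)
      linarith) (fun u => F (u, t))
  rw [h, ← lintegral_indicator measurableSet_Icc]
  congr 1
  ext u
  by_cases hu : u ∈ Set.Icc (0 - w1 0 t) (c - w1 c t)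
  · rw [Set.indicator_of_mem hu]
  · rw [Set.indicator_of_notMem hu]
    by_contra hne
    have hs := hsupp (u, t) (Ne.symm hne)
    apply hu
    have k1 := _root_.abs_le.1 (hP.b1 0 (Set.left_mem_Icc.2 hc) t)
    have k2 := _root_.abs_le.1 (hP.b1 c (Set.right_mem_Icc.2 hc) t)
    have hs1 := hs.1
    simp only [Set.mem_Icc] at hs1 ⊢
    constructor <;> linarith

/-! ### Distance functions -/

/-- distance to the sides of `[0, c] × [0, 1]` -/
noncomputable def dR (c : ℝ) (y : ℝ × ℝ) : ℝ :=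
  max 0 (min (min y.1 (c - y.1)) (min y.2 (1 - y.2)))

/-- the same for the smaller rectangle -/
noncomputable def dC (a σ : ℝ) (y : ℝ × ℝ) : ℝ :=
  max 0 (min (min (y.1 - a * σ) (a - a * σ - y.1)) (min (y.2 - σ) (1 - σ - y.2)))

theorem continuous_dR (c : ℝ) : Continuous (dR c) := by unfold dR; fun_prop

theorem continuous_dC (a σ : ℝ) : Continuous (dC a σ) := by unfold dC; fun_prop

theorem dR_nonneg (c : ℝ) (y : ℝ × ℝ) : 0 ≤ dR c y := le_max_left _ _

theorem dC_nonneg (a σ : ℝ) (y : ℝ × ℝ) : 0 ≤ dC a σ y := le_max_left _ _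

theorem dR_le (c : ℝ) (y : ℝ × ℝ) : dR c y ^ 2 ≤ 1 := by
  have h : dR c y ≤ 1 := by
    unfold dR
    apply max_le zero_le_one
    rcases le_total y.2 1 with h | h
    · exact (min_le_right _ _).trans ((min_le_left _ _).trans h)
    · exact (min_le_right _ _).trans ((min_le_right _ _).trans (by linarith))
  have := dR_nonneg c y
  nlinarith

theorem dC_le {σ : ℝ} (hσ : 0 ≤ σ) (a : ℝ) (y : ℝ × ℝ) : dC a σ y ^ 2 ≤ 1 := by
  have h : dC a σ y ≤ 1 := by
    unfold dC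
    apply max_le zero_le_one
    rcases le_total y.2 1 with h | h
    · exact (min_le_right _ _).trans ((min_le_left _ _).trans (by linarith))
    · exact (min_le_right _ _).trans ((min_le_right _ _).trans (by linarith))
  have := dC_nonneg a σ y
  nlinarith

/-- folding the right half onto the left half -/
noncomputable def fold (a : ℝ) (y : ℝ × ℝ) : ℝ × ℝ := (a - |y.1 - a|, y.2)

theorem continuous_fold (a : ℝ) : Continuous (fold a) := by unfold fold; fun_prop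

theorem fold_left {a : ℝ} {y : ℝ × ℝ} (h : y.1 ≤ a) : fold a y = y := by
  unfold fold
  rw [abs_of_nonpos (by linarith)]
  ext <;> simp

theorem fold_right {a : ℝ} {y : ℝ × ℝ} (h : a ≤ y.1) : fold a y = rfl1 (2 * a) y := by
  unfold fold rfl1
  rw [abs_of_nonneg (by linarith)]
  ext
  · simp only; ring
  · rfl

theorem fold_mem {a : ℝ} {y : ℝ × ℝ} (hy : y ∈ rect (2 * a) 1) : fold a y ∈ rect a 1 := by
  rcases le_total y.1 a with h | h
  · rw [fold_left h]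
    exact ⟨⟨hy.1.1, h⟩, hy.2⟩
  · rw [fold_right h]
    refine ⟨⟨?_, ?_⟩, hy.2⟩
    · simp only [rfl1]; linarith [hy.1.2]
    · simp only [rfl1]; linarith

theorem dR_fold {a : ℝ} {y : ℝ × ℝ} (hy : y ∈ rect (2 * a) 1) :
    dR (2 * a) y = min (fold a y).1 (min (fold a y).2 (1 - (fold a y).2)) := by
  have hm := fold_mem hy
  have h0 : 0 ≤ min (fold a y).1 (min (fold a y).2 (1 - (fold a y).2)) :=
    le_min hm.1.1 (le_min hm.2.1 (by linarith [hm.2.2]))
  unfold dR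
  have e : min (min y.1 (2 * a - y.1)) (min y.2 (1 - y.2)) =
      min (fold a y).1 (min (fold a y).2 (1 - (fold a y).2)) := by
    rcases le_total y.1 a with h | h
    · rw [fold_left h, min_eq_left (by linarith : y.1 ≤ 2 * a - y.1)]
    · rw [fold_right h, min_eq_right (by linarith : 2 * a - y.1 ≤ y.1)]
      rfl
  rw [e, max_eq_right h0]

theorem dC_le_dist {a σ M : ℝ} (h1 : M ≤ a * σ) (h2 : M ≤ σ) (y : ℝ × ℝ) :
    dC a σ y ≤ max 0 (min y.1 (min y.2 (1 - y.2)) - M) ∧ dC a σ y ≤ max 0 (a - y.1 - M) := by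
  unfold dC
  constructor
  · apply max_le_max le_rfl
    rw [le_sub_iff_add_le]
    apply le_min
    · have := min_le_left (min (y.1 - a * σ) (a - a * σ - y.1)) (min (y.2 - σ) (1 - σ - y.2))
      have := min_le_left (y.1 - a * σ) (a - a * σ - y.1)
      linarith
    · apply le_min
      · have := min_le_right (min (y.1 - a * σ) (a - a * σ - y.1)) (min (y.2 - σ) (1 - σ - y.2))
        have := min_le_left (y.2 - σ) (1 - σ - y.2)
        linarith
      · have := min_le_right (min (y.1 - a * σ) (a - a * σ - y.1)) (min (y.2 - σ) (1 - σ - y.2))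
        have := min_le_right (y.2 - σ) (1 - σ - y.2)
        linarith
  · apply max_le_max le_rfl
    have := min_le_left (min (y.1 - a * σ) (a - a * σ - y.1)) (min (y.2 - σ) (1 - σ - y.2))
    have := min_le_right (y.1 - a * σ) (a - a * σ - y.1)
    linarith

theorem margin1 {d D W M δ : ℝ} (hδ : 0 ≤ δ) (hd : 0 ≤ d) (hD : 0 ≤ D) (hDd : D ≤ max 0 (d - M))
    (hM : 2 * δ ≤ M) (hW : |W| ≤ δ * d) :
    D ^ 2 ≤ d ^ 2 + 2 * W + (if d < 2 * δ then δ ^ 2 else 0) := by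
  have hW' := (abs_le.1 hW).1
  rcases le_total d M with h | h
  · rw [max_eq_left (by linarith)] at hDd
    have : D = 0 := le_antisymm hDd hD
    rw [this]
    split_ifs with h2
    · nlinarith [sq_nonneg (d - δ)]
    · push Not at h2
      nlinarith
  · rw [max_eq_right (by linarith)] at hDd
    have h3 : D ^ 2 ≤ (d - M) ^ 2 := pow_le_pow_left₀ hD hDd 2
    have h4 : 0 ≤ (if d < 2 * δ then δ ^ 2 else 0) := by split_ifs <;> positivity
    nlinarith

theorem margin2 {p q τ D1 D2 W M δ : ℝ} (hδ : 0 ≤ δ) (hp : 0 ≤ p) (hq : 0 ≤ q)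
    (hD1 : 0 ≤ D1) (hD2 : 0 ≤ D2) (h1 : D1 ≤ max 0 (p - M)) (h2 : D2 ≤ max 0 (q - M))
    (hM : 3 * δ ≤ M) (hW : |W| ≤ δ * (p + q) + δ * τ) :
    D1 ^ 2 + D2 ^ 2 ≤ (p + q) ^ 2 + τ ^ 2 + 2 * W + (if q < 3 * δ then 2 * δ ^ 2 else 0) := by
  have hW' := (abs_le.1 hW).1
  have hτ : 2 * (δ * τ) ≤ τ ^ 2 + δ ^ 2 := by nlinarith [sq_nonneg (τ - δ)]
  have herr : 0 ≤ (if q < 3 * δ then 2 * δ ^ 2 else 0) := by split_ifs <;> positivity
  have key : D1 ^ 2 + D2 ^ 2 ≤ (p + q) ^ 2 - 2 * δ * (p + q) - δ ^ 2 +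
      (if q < 3 * δ then 2 * δ ^ 2 else 0) := by
    rcases le_total (p + q) M with h | h
    · rw [max_eq_left (by linarith)] at h1 h2
      have e1 : D1 = 0 := le_antisymm h1 hD1
      have e2 : D2 = 0 := le_antisymm h2 hD2
      rw [e1, e2]
      split_ifs with h3
      · nlinarith [sq_nonneg (p + q - δ)]
      · push Not at h3
        have : 3 * δ ≤ p + q := by linarith
        nlinarith
    · have hs : D1 ^ 2 + D2 ^ 2 ≤ (p + q - M) ^ 2 := by
        rcases le_total p M with hpM | hpM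
        · rw [max_eq_left (by linarith)] at h1
          have e1 : D1 = 0 := le_antisymm h1 hD1
          have : D2 ≤ p + q - M := h2.trans (max_le (by linarith) (by linarith))
          rw [e1]
          have := pow_le_pow_left₀ hD2 this 2
          linarith
        · rw [max_eq_right (by linarith)] at h1
          rcases le_total q M with hqM | hqM
          · rw [max_eq_left (by linarith)] at h2
            have e2 : D2 = 0 := le_antisymm h2 hD2
            have : D1 ≤ p + q - M := by linarith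
            rw [e2]
            have := pow_le_pow_left₀ hD1 this 2
            linarith
          · rw [max_eq_right (by linarith)] at h2
            have hs1 : D1 + D2 ≤ p + q - M := by linarith
            have := pow_le_pow_left₀ (by positivity) hs1 2
            nlinarith [mul_nonneg hD1 hD2]
      nlinarith
  linarith

end Pool.Agent.H969
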