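import Mathlib
import Pool.Agent.H969.DMap

/-! The deterministic inequality between a rectangle and two smaller ones. -/

set_option autoImplicit false

open MeasureTheory
open scoped ENNReal NNReal Real

namespace Pool.Agent.H969

variable {a δ σ x : ℝ} {w w1 w2 w11 w12 w22 : ℝ → ℝ → ℝ}

theorem map_rfl1 (c : ℝ) : (volume : Measure (ℝ × ℝ)).map (rfl1 c) = volume := by
  apply Measure.ext_of_lintegral
  intro F hF
  have hr := (continuous_rfl1 c).measurable
  have hFr : Measurable fun y => F (rfl1 c y) := hF.comp hr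
  rw [lintegral_map hF hr, Measure.volume_eq_prod, lintegral_prod_symm _ hFr.aemeasurable,
    lintegral_prod_symm _ hF.aemeasurable]
  congr 1
  ext t
  exact lintegral_sub_left_eq_self (fun s => F (s, t)) c

/-- the smaller rectangle -/
def QQ (a σ : ℝ) : Set (ℝ × ℝ) := Set.Icc (a * σ) (a - a * σ) ×ˢ Set.Icc σ (1 - σ)

theorem measurableSet_QQ (a σ : ℝ) : MeasurableSet (QQ a σ) :=
  measurableSet_Icc.prod measurableSet_Icc

theorem isCompact_QQ (a σ : ℝ) : IsCompact (QQ a σ) := isCompact_Icc.prod isCompact_Icc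

/-- uniform measure on the smaller rectangle -/
noncomputable def mQ (a σ x : ℝ) : Measure (ℝ × ℝ) :=
  ENNReal.ofReal x • volume.restrict (QQ a σ)

instance (a σ x : ℝ) : IsFiniteMeasure (mQ a σ x) := by
  unfold mQ
  have : IsFiniteMeasure (volume.restrict (QQ a σ)) :=
    ⟨by rw [Measure.restrict_apply_univ]; exact (isCompact_QQ a σ).measure_lt_top⟩
  exact Measure.smul_finite _ ENNReal.ofReal_ne_top

theorem mQ_ae (a σ x : ℝ) : ∀ᵐ y ∂(mQ a σ x), y ∈ QQ a σ := by
  unfold mQ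
  exact Measure.ae_smul_measure (ae_restrict_mem (measurableSet_QQ a σ)) _

theorem dC_zero {y : ℝ × ℝ} (hy : y ∉ QQ a σ) : dC a σ y = 0 := by
  unfold dC
  rw [max_eq_left]
  by_contra h
  push Not at h
  apply hy
  rw [lt_min_iff, lt_min_iff, lt_min_iff] at h
  obtain ⟨⟨h1, h2⟩, h3, h4⟩ := h
  exact ⟨⟨by linarith, by linarith⟩, ⟨by linarith, by linarith⟩⟩

theorem dC_out {y z : ℝ × ℝ} (hy : y ∉ QQ a σ) : dC a σ z ^ 2 ≤ sqd z y := by
  by_cases hz : z ∈ QQ a σ
  · have h0 := dC_nonneg a σ z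
    obtain ⟨⟨z1, z2⟩, ⟨z3, z4⟩⟩ := hz
    have hd : dC a σ z ≤ z.1 - a * σ ∧ dC a σ z ≤ a - a * σ - z.1 ∧ dC a σ z ≤ z.2 - σ ∧
        dC a σ z ≤ 1 - σ - z.2 := by
      unfold dC
      refine ⟨?_, ?_, ?_, ?_⟩
      · exact max_le (by linarith) ((min_le_left _ _).trans (min_le_left _ _))
      · exact max_le (by linarith) ((min_le_left _ _).trans (min_le_right _ _))
      · exact max_le (by linarith) ((min_le_right _ _).trans (min_le_left _ _))
      · exact max_le (by linarith) ((min_le_right _ _).trans (min_le_right _ _))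
    obtain ⟨d1, d2, d3, d4⟩ := hd
    unfold sqd
    by_cases h1 : y.1 < a * σ
    · have : dC a σ z ^ 2 ≤ (z.1 - y.1) ^ 2 := pow_le_pow_left₀ h0 (by linarith) 2
      nlinarith [sq_nonneg (z.2 - y.2)]
    by_cases h2 : a - a * σ < y.1
    · have : dC a σ z ^ 2 ≤ (y.1 - z.1) ^ 2 := pow_le_pow_left₀ h0 (by linarith) 2
      nlinarith [sq_nonneg (z.2 - y.2)]
    by_cases h3 : y.2 < σ
    · have : dC a σ z ^ 2 ≤ (z.2 - y.2) ^ 2 := pow_le_pow_left₀ h0 (by linarith) 2
      nlinarith [sq_nonneg (z.1 - y.1)]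
    by_cases h4 : 1 - σ < y.2
    · have : dC a σ z ^ 2 ≤ (y.2 - z.2) ^ 2 := pow_le_pow_left₀ h0 (by linarith) 2
      nlinarith [sq_nonneg (z.1 - y.1)]
    push Not at h1 h2 h3 h4
    exact absurd ⟨⟨h1, h2⟩, ⟨h3, h4⟩⟩ hy
  · rw [dC_zero hz]
    simpa using sqd_nonneg z y

theorem DD_C (hσ : 0 ≤ σ) : DD (dC a σ) (mQ a σ x) (QQ a σ) 1 where
  cont := continuous_dC a σ
  nonneg := dC_nonneg a σ
  le := dC_le hσ a
  comp := isCompact_QQ a σ
  carr := mQ_ae a σ x
  fin := inferInstance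

theorem DD_R (c x : ℝ) : DD (dR c) (unif c 1 x) (rect c 1) 1 where
  cont := continuous_dR c
  nonneg := dR_nonneg c
  le := dR_le c
  comp := isCompact_rect c 1
  carr := unif_ae c 1 x
  fin := inferInstance

/-- error functions -/
noncomputable def chi1 (a δ : ℝ) (y : ℝ × ℝ) : ℝ := if |y.1 - a| < 3 * δ then 2 * δ ^ 2 else 0

noncomputable def chi2 (c δ : ℝ) (y : ℝ × ℝ) : ℝ := if dR c y < 2 * δ then δ ^ 2 else 0

theorem chi1_nonneg (a δ : ℝ) (y : ℝ × ℝ) : 0 ≤ chi1 a δ y := by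
  unfold chi1; split_ifs <;> positivity

theorem chi2_nonneg (c δ : ℝ) (y : ℝ × ℝ) : 0 ≤ chi2 c δ y := by
  unfold chi2; split_ifs <;> positivity

theorem measurable_chi1 (a δ : ℝ) : Measurable (chi1 a δ) := by
  unfold chi1
  apply Measurable.ite
  · exact measurableSet_lt (by fun_prop) measurable_const
  · exact measurable_const
  · exact measurable_const

theorem measurable_chi2 (c δ : ℝ) : Measurable (chi2 c δ) := by
  unfold chi2
  apply Measurable.ite
  · exact measurableSet_lt (continuous_dR c).measurable measurable_const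
  · exact measurable_const
  · exact measurable_const

theorem integrable_chi1 (a δ : ℝ) (m : Measure (ℝ × ℝ)) [IsFiniteMeasure m] :
    Integrable (chi1 a δ) m := by
  apply Integrable.of_bound (measurable_chi1 a δ).aestronglyMeasurable (2 * δ ^ 2)
  refine Filter.Eventually.of_forall fun y => ?_
  rw [Real.norm_eq_abs, abs_of_nonneg (chi1_nonneg _ _ _)]
  unfold chi1
  split_ifs
  · exact le_rfl
  · positivity

theorem integrable_chi2 (c δ : ℝ) (m : Measure (ℝ × ℝ)) [IsFiniteMeasure m] :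
    Integrable (chi2 c δ) m := by
  apply Integrable.of_bound (measurable_chi2 c δ).aestronglyMeasurable (δ ^ 2)
  refine Filter.Eventually.of_forall fun y => ?_
  rw [Real.norm_eq_abs, abs_of_nonneg (chi2_nonneg _ _ _)]
  unfold chi2
  split_ifs
  · exact le_rfl
  · positivity

/-- estimate for one point and the boundary -/
theorem PotD.beta (hP : PotD a δ w w1 w2 w11 w12 w22) (ha : 0 < a) (h1 : 4 * δ ≤ a * σ)
    (h2 : 4 * δ ≤ σ) {y : ℝ × ℝ} (hy : y ∈ rect (2 * a) 1) :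
    dC a σ (fold a y) ^ 2 ≤ dR (2 * a) y ^ 2 + 2 * w (fold a y).1 (fold a y).2 +
      chi2 (2 * a) δ y := by
  have hδ := hP.pot.delta_nonneg ha.le
  have hm := fold_mem hy
  unfold chi2
  apply margin1 (M := 2 * δ) hδ (dR_nonneg _ _) (dC_nonneg _ _ _) _ le_rfl
  · rw [dR_fold hy]
    exact hP.abs_le hm.1 hm.2
  · refine (dC_le_dist (M := 2 * δ) (by linarith) (by linarith) (fold a y)).1.trans ?_
    rw [dR_fold hy]

theorem PotD.gamma (hP : PotD a δ w w1 w2 w11 w12 w22) (ha : 0 < a) (h1 : 4 * δ ≤ a * σ)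
    (h2 : 4 * δ ≤ σ) {S : (ℝ × ℝ) ≃ₜ (ℝ × ℝ)} (hS : IsShear a w2 S) {y : ℝ × ℝ}
    (hy : y ∈ rect (2 * a) 1) :
    dC a σ (TT w1 S (fold a y)) ^ 2 ≤ dR (2 * a) y ^ 2 - 2 * w (fold a y).1 (fold a y).2 +
      chi2 (2 * a) δ y := by
  have hδ := hP.pot.delta_nonneg ha.le
  have hm := fold_mem hy
  have hd := hP.disp hS hm.1
  have h := margin1 (M := 2 * δ) (d := dR (2 * a) y) (D := dC a σ (TT w1 S (fold a y)))
    (W := -w (fold a y).1 (fold a y).2) hδ (dR_nonneg _ _) (dC_nonneg _ _ _) ?_ le_rfl ?_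
  · unfold chi2
    linarith
  · refine (dC_le_dist (M := 3 * δ) (by linarith) (by linarith) _).1.trans ?_
    apply max_le_max le_rfl
    rw [dR_fold hy]
    obtain ⟨d1, d2⟩ := hd
    have d1' := _root_.abs_le.1 d1
    have d2' := _root_.abs_le.1 d2
    set s := (fold a y).1
    set t := (fold a y).2
    set s' := (TT w1 S (fold a y)).1
    set t' := (TT w1 S (fold a y)).2
    have : min s' (min t' (1 - t')) ≤ min s (min t (1 - t)) + δ := by
      rw [← sub_le_iff_le_add]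
      apply le_min
      · have := min_le_left s' (min t' (1 - t'))
        linarith
      · apply le_min
        · have := min_le_right s' (min t' (1 - t'))
          have := min_le_left t' (1 - t')
          linarith
        · have := min_le_right s' (min t' (1 - t'))
          have := min_le_right t' (1 - t')
          linarith
    linarith
  · rw [abs_neg, dR_fold hy]
    exact hP.abs_le hm.1 hm.2

/-- estimate for pairs in different halves -/
theorem PotD.crossing (hP : PotD a δ w w1 w2 w11 w12 w22) (ha : 0 < a) (h1 : 4 * δ ≤ a * σ)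
    (h2 : 4 * δ ≤ σ) {S : (ℝ × ℝ) ≃ₜ (ℝ × ℝ)} (hS : IsShear a w2 S) {z y : ℝ × ℝ}
    (hz : z ∈ rect (2 * a) 1) (hy : y ∈ rect (2 * a) 1)
    (hzy : (z.1 ≤ a ∧ a ≤ y.1) ∨ (a ≤ z.1 ∧ y.1 ≤ a)) :
    dC a σ (fold a z) ^ 2 + dC a σ (TT w1 S (fold a y)) ^ 2 ≤ sqd z y +
      2 * (w (fold a z).1 (fold a z).2 - w (fold a y).1 (fold a y).2) + chi1 a δ y := by
  have hδ := hP.pot.delta_nonneg ha.le
  have hm := fold_mem hy
  have hmz := fold_mem hz
  have hd := hP.disp hS hm.1
  have e1 : (fold a z).1 = a - |z.1 - a| := rfl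
  have e2 : (fold a y).1 = a - |y.1 - a| := rfl
  have e3 : (fold a z).2 = z.2 := rfl
  have e4 : (fold a y).2 = y.2 := rfl
  have hsq : sqd z y = (|z.1 - a| + |y.1 - a|) ^ 2 + |z.2 - y.2| ^ 2 := by
    unfold sqd
    rw [sq_abs]
    congr 1
    rcases hzy with ⟨g1, g2⟩ | ⟨g1, g2⟩
    · rw [abs_of_nonpos (by linarith : z.1 - a ≤ 0), abs_of_nonneg (by linarith : 0 ≤ y.1 - a)]
      ring
    · rw [abs_of_nonneg (by linarith : 0 ≤ z.1 - a), abs_of_nonpos (by linarith : y.1 - a ≤ 0)]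
      ring
  rw [hsq]
  unfold chi1
  apply margin2 (M := 3 * δ) hδ (abs_nonneg _) (abs_nonneg _) (dC_nonneg _ _ _)
    (dC_nonneg _ _ _) _ _ le_rfl _
  · refine (dC_le_dist (M := 3 * δ) (by linarith) (by linarith) _).2.trans ?_
    rw [e1]
    apply max_le_max le_rfl
    linarith
  · refine (dC_le_dist (M := 4 * δ) (by linarith) (by linarith) _).2.trans ?_
    apply max_le_max le_rfl
    have d1' := _root_.abs_le.1 hd.1
    rw [e2] at d1'
    linarith
  · have := hP.lip hmz.1 hm.1 (fold a z).2 (fold a y).2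
    refine this.trans ?_
    rw [e3, e4]
    gcongr
    rw [e1, e2]
    have e5 : a - |z.1 - a| - (a - |y.1 - a|) = |y.1 - a| - |z.1 - a| := by ring
    rw [e5]
    have := abs_nonneg (z.1 - a)
    have := abs_nonneg (y.1 - a)
    rw [_root_.abs_le]
    constructor <;> linarith

open Classical in
/-- the combined kernel -/
noncomputable def NN (a σ : ℝ) (w1 : ℝ → ℝ → ℝ) (S : (ℝ × ℝ) ≃ₜ (ℝ × ℝ)) (z y : ℝ × ℝ) : ℝ :=
  if (z.1 ≤ a ↔ y.1 ≤ a) ∧ TT w1 S (fold a y) ∈ QQ a σ then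
    kd (dC a σ) (fold a z) (TT w1 S (fold a y)) else 0

theorem PotD.alpha (hP : PotD a δ w w1 w2 w11 w12 w22) (ha : 0 < a) (hδ : δ ≤ 1 / 20)
    (h1 : 4 * δ ≤ a * σ)
    (h2 : 4 * δ ≤ σ) {S : (ℝ × ℝ) ≃ₜ (ℝ × ℝ)} (hS : IsShear a w2 S) {z y : ℝ × ℝ}
    (hz : z ∈ rect (2 * a) 1) (hy : y ∈ rect (2 * a) 1) :
    dC a σ (fold a z) ^ 2 + dC a σ (TT w1 S (fold a y)) ^ 2 + NN a σ w1 S z y ≤
      (1 + 12 * δ) * sqd z y +
      2 * (w (fold a z).1 (fold a z).2 - w (fold a y).1 (fold a y).2) +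
      (1 + 10 * δ) * GG w1 w2 S (fold a y) + chi1 a δ y := by
  have hδ0 := hP.pot.delta_nonneg ha.le
  have hm := fold_mem hy
  have hmz := fold_mem hz
  have hchi := chi1_nonneg a δ y
  have hGG : 0 ≤ (1 + 10 * δ) * GG w1 w2 S (fold a y) := by
    unfold GG
    positivity
  have hsq0 := sqd_nonneg z y
  by_cases hh : (z.1 ≤ a ↔ y.1 ≤ a)
  · have hsame := hP.same hδ hS hmz.1 hm.1
    have hsq : sqd (fold a z) (fold a y) = sqd z y := by
      by_cases hz1 : z.1 ≤ a
      · rw [fold_left hz1, fold_left (hh.1 hz1)]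
      · have hy1 : ¬ y.1 ≤ a := fun h => hz1 (hh.2 h)
        rw [fold_right (not_le.1 hz1).le, fold_right (not_le.1 hy1).le, sqd_rfl1]
    rw [hsq] at hsame
    unfold NN
    by_cases hQ : TT w1 S (fold a y) ∈ QQ a σ
    · rw [if_pos ⟨hh, hQ⟩]
      unfold kd
      linarith
    · rw [if_neg (fun h => hQ h.2), dC_zero hQ]
      have := dC_out (z := fold a z) hQ
      linarith
  · have hN : NN a σ w1 S z y = 0 := by
      unfold NN
      rw [if_neg (fun h => hh h.1)]
    have hcr : (z.1 ≤ a ∧ a ≤ y.1) ∨ (a ≤ z.1 ∧ y.1 ≤ a) := by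
      by_cases hz1 : z.1 ≤ a
      · left
        refine ⟨hz1, ?_⟩
        by_contra h
        push Not at h
        exact hh ⟨fun _ => h.le, fun _ => hz1⟩
      · right
        refine ⟨(not_le.1 hz1).le, ?_⟩
        by_contra h
        exact hh ⟨fun h' => absurd h' hz1, fun h' => absurd h' h⟩
    have := hP.crossing ha h1 h2 hS hz hy hcr
    rw [hN]
    have : 0 ≤ 12 * δ * sqd z y := by positivity
    linarith

end Pool.Agent.H969
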