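import Mathlib
import Pool.Agent.H969.DIneq

/-! The deterministic inequality, assembled. -/

set_option autoImplicit false

open MeasureTheory
open scoped ENNReal NNReal Real

namespace Pool.Agent.H969

variable {a δ σ x : ℝ} {w w1 w2 w11 w12 w22 : ℝ → ℝ → ℝ}

theorem PotD.lint_Q (hP : PotD a δ w w1 w2 w11 w12 w22) (ha : 0 < a) (hδ : δ ≤ 1 / 20)
    (h1 : 4 * δ ≤ a * σ) (h2 : 4 * δ ≤ σ) {S : (ℝ × ℝ) ≃ₜ (ℝ × ℝ)} (hS : IsShear a w2 S)
    {F : ℝ × ℝ → ℝ≥0∞} (hF : Measurable F) (hsupp : ∀ y, y ∉ QQ a σ → F y = 0) :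
    ∫⁻ y, F (TT w1 S y) ∂(unif a 1 x) = ∫⁻ y, F y ∂(mQ a σ x) := by
  have hδ0 := hP.pot.delta_nonneg ha.le
  unfold unif mQ
  rw [lintegral_smul_measure, lintegral_smul_measure, hP.lint_T ha.le hδ hS hF]
  · congr 1
    rw [← lintegral_indicator (measurableSet_QQ a σ)]
    congr 1
    ext y
    by_cases hy : y ∈ QQ a σ
    · rw [Set.indicator_of_mem hy]
    · rw [Set.indicator_of_notMem hy, hsupp y hy]
  · intro y hy
    have hyQ : y ∈ QQ a σ := by
      by_contra h
      exact hy (hsupp y h)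
    obtain ⟨⟨y1, y2⟩, ⟨y3, y4⟩⟩ := hyQ
    exact ⟨⟨by linarith, by linarith⟩, ⟨by linarith, by linarith⟩⟩

theorem PotD.map_Q (hP : PotD a δ w w1 w2 w11 w12 w22) (ha : 0 < a) (hδ : δ ≤ 1 / 20)
    (h1 : 4 * δ ≤ a * σ) (h2 : 4 * δ ≤ σ) {S : (ℝ × ℝ) ≃ₜ (ℝ × ℝ)} (hS : IsShear a w2 S) :
    ((unif a 1 x).map (TT w1 S)).restrict (QQ a σ) ≤ mQ a σ x := by
  apply Measure.le_iff.2
  intro B hB
  have hT := (hP.continuous_TT S).measurable
  have hBQ : MeasurableSet (B ∩ QQ a σ) := hB.inter (measurableSet_QQ a σ)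
  have h := hP.lint_Q (x := x) ha hδ h1 h2 hS (F := (B ∩ QQ a σ).indicator 1)
    (measurable_one.indicator hBQ) (fun y hy => by
      rw [Set.indicator_of_notMem]
      exact fun h => hy h.2)
  rw [lintegral_indicator_one hBQ] at h
  rw [Measure.restrict_apply hB, Measure.map_apply hT hBQ]
  have e : ∫⁻ y, (B ∩ QQ a σ).indicator 1 (TT w1 S y) ∂(unif a 1 x) =
      unif a 1 x (TT w1 S ⁻¹' (B ∩ QQ a σ)) := by
    rw [← lintegral_indicator_one (hT hBQ)]
    rfl
  rw [← e, h]
  exact measure_mono Set.inter_subset_left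

theorem PotD.int_dC (hP : PotD a δ w w1 w2 w11 w12 w22) (ha : 0 < a) (hδ : δ ≤ 1 / 20)
    (h1 : 4 * δ ≤ a * σ) (h2 : 4 * δ ≤ σ) {S : (ℝ × ℝ) ≃ₜ (ℝ × ℝ)} (hS : IsShear a w2 S) :
    ∫ y, dC a σ (TT w1 S y) ^ 2 ∂(unif a 1 x) = ∫ y, dC a σ y ^ 2 ∂(mQ a σ x) := by
  have hT := hP.continuous_TT S
  have hc : Continuous fun y => dC a σ y ^ 2 := (continuous_dC a σ).pow 2
  have hc2 : Continuous fun y => dC a σ (TT w1 S y) ^ 2 := hc.comp hT
  rw [integral_eq_lintegral_of_nonneg_ae (Filter.Eventually.of_forall fun y => sq_nonneg _)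
    hc2.aestronglyMeasurable, integral_eq_lintegral_of_nonneg_ae
    (Filter.Eventually.of_forall fun y => sq_nonneg _) hc.aestronglyMeasurable]
  congr 1
  exact hP.lint_Q (x := x) ha hδ h1 h2 hS (F := fun y => ENNReal.ofReal (dC a σ y ^ 2))
    hc.measurable.ennreal_ofReal (fun y hy => by simp [dC_zero hy])

theorem restrict_fsum {ι : Type*} [Fintype ι] (p : ι → Measure (ℝ × ℝ)) {A : Set (ℝ × ℝ)} :
    (∑ i, p i).restrict A = ∑ i, (p i).restrict A := by
  rw [← Measure.sum_fintype, Measure.restrict_sum_of_countable, Measure.sum_fintype]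

theorem unif_fold (ha : 0 < a) (x : ℝ) :
    unif (2 * a) 1 x = unif a 1 x + (unif a 1 x).map (rfl1 (2 * a)) := by
  have h := glue_measure (a := 2 * a) (ENNReal.ofReal x) (T := fun _ => a)
    measurable_const (fun _ => ⟨ha.le, by linarith⟩)
  have e : ∀ c : ℝ, region 1 (fun _ => c) = rect c 1 := by
    intro c
    ext y
    exact and_comm
  have e2 : (fun _ : ℝ => 2 * a - a) = fun _ => a := by
    ext; ring
  rw [e2, e] at h
  unfold unif
  exact h.symm

theorem fold_integral (ha : 0 < a) (x : ℝ) {f : ℝ × ℝ → ℝ} (hf : Continuous f) :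
    ∫ y, f (fold a y) ∂(unif (2 * a) 1 x) = 2 * ∫ y, f y ∂(unif a 1 x) := by
  have hr := continuous_rfl1 (2 * a)
  have hff : Continuous fun y => f (fold a y) := hf.comp (continuous_fold a)
  have hffr : Continuous fun y => f (fold a (rfl1 (2 * a) y)) := hff.comp hr
  have hmapae : ∀ᵐ y ∂((unif a 1 x).map (rfl1 (2 * a))), y ∈ rect (2 * a) 1 := by
    refine (ae_map_iff (p := fun y => y ∈ rect (2 * a) 1) hr.measurable.aemeasurable
      (measurableSet_rect _ _)).2 ?_
    filter_upwards [unif_ae a 1 x] with y hy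
    have := rfl1_mem (a1 := a) (a2 := a) ha hy
    rwa [← two_mul] at this
  have hfm : IsFiniteMeasure ((unif a 1 x).map (rfl1 (2 * a))) :=
    Measure.isFiniteMeasure_map _ _
  rw [unif_fold ha, integral_add_measure
    (integrable_of_carried (isCompact_rect a 1) (unif_ae a 1 x) hff)
    (integrable_of_carried (isCompact_rect (2 * a) 1) hmapae hff),
    integral_map hr.measurable.aemeasurable hff.aestronglyMeasurable]
  have e1 : ∫ y, f (fold a y) ∂(unif a 1 x) = ∫ y, f y ∂(unif a 1 x) := by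
    apply integral_congr_ae
    filter_upwards [unif_ae a 1 x] with y hy
    rw [fold_left hy.1.2]
  have e2 : ∫ y, f (fold a (rfl1 (2 * a) y)) ∂(unif a 1 x) = ∫ y, f y ∂(unif a 1 x) := by
    apply integral_congr_ae
    filter_upwards [unif_ae a 1 x] with y hy
    have h1 : a ≤ (rfl1 (2 * a) y).1 := by
      simp only [rfl1]
      linarith [hy.1.2]
    rw [fold_right h1]
    congr 1
    unfold rfl1
    ext
    · simp
    · rfl
  rw [e1, e2]
  ring

theorem restrict_left (ha : 0 < a) (x : ℝ) :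
    (unif (2 * a) 1 x).restrict {y | y.1 ≤ a} = unif a 1 x := by
  have hm : MeasurableSet {y : ℝ × ℝ | y.1 ≤ a} := measurableSet_le measurable_fst measurable_const
  unfold unif
  rw [Measure.restrict_smul, Measure.restrict_restrict hm]
  congr 2
  ext y
  constructor
  · rintro ⟨h1, h2⟩
    exact ⟨⟨h2.1.1, h1⟩, h2.2⟩
  · intro h
    exact ⟨h.1.2, ⟨⟨h.1.1, by linarith [h.1.2]⟩, h.2⟩⟩

theorem restrict_right (ha : 0 < a) (x : ℝ) :
    ((unif (2 * a) 1 x).restrict {y | ¬ y.1 ≤ a}).map (rfl1 (2 * a)) ≤ unif a 1 x := by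
  have hr := (continuous_rfl1 (2 * a)).measurable
  have hm : MeasurableSet {y : ℝ × ℝ | ¬ y.1 ≤ a} :=
    (measurableSet_le measurable_fst measurable_const).compl
  apply Measure.le_iff.2
  intro B hB
  rw [Measure.map_apply hr hB, Measure.restrict_apply (hr hB)]
  unfold unif
  rw [Measure.smul_apply, Measure.smul_apply, Measure.restrict_apply ((hr hB).inter hm),
    Measure.restrict_apply hB]
  refine smul_le_smul_of_nonneg_left ?_ zero_le
  have h : volume (rfl1 (2 * a) ⁻¹' (B ∩ rect a 1)) = volume (B ∩ rect a 1) := by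
    conv_rhs => rw [← map_rfl1 (2 * a)]
    rw [Measure.map_apply hr (hB.inter (measurableSet_rect a 1))]
  rw [← h]
  apply measure_mono
  rintro y ⟨⟨hy1, hy2⟩, hy3⟩
  refine ⟨hy1, ⟨⟨?_, ?_⟩, hy3.2⟩⟩
  · simp only [rfl1]
    linarith [hy3.1.2]
  · have : a < y.1 := not_le.1 hy2
    simp only [rfl1]
    linarith

/-- **The deterministic inequality.** -/
theorem det_ineq {ι : Type*} [Fintype ι] (hP : PotD a δ w w1 w2 w11 w12 w22) (ha : 0 < a)
    (hδ : δ ≤ 1 / 20) (h1 : 4 * δ ≤ a * σ) (h2 : 4 * δ ≤ σ) (z : ι → ℝ × ℝ)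
    (hz : ∀ i, z i ∈ rect (2 * a) 1) :
    costD z (dC a σ) (mQ a σ x) + costD (fun i => rfl1 (2 * a) (z i)) (dC a σ) (mQ a σ x) ≤
      (1 + 12 * δ) * costD z (dR (2 * a)) (unif (2 * a) 1 x) +
      (2 * (∑ i, w (fold a (z i)).1 (fold a (z i)).2 - 2 * ∫ y, w y.1 y.2 ∂(unif a 1 x)) +
      (1 + 18 * δ) * (2 * ∫ y, (w1 y.1 y.2 ^ 2 + w2 y.1 y.2 ^ 2) ∂(unif a 1 x))) +
      (∑ i, chi2 (2 * a) δ (z i) + ∫ y, chi2 (2 * a) δ y ∂(unif (2 * a) 1 x) +
        ∫ y, chi1 a δ y ∂(unif (2 * a) 1 x)) := by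
  have hδ0 := hP.pot.delta_nonneg ha.le
  have hσ : 0 ≤ σ := by linarith
  obtain ⟨S, hS⟩ := hP.exists_S ha.le hδ
  have hDC := DD_C (a := a) (σ := σ) (x := x) hσ
  have hDR := DD_R (2 * a) x
  set m := unif (2 * a) 1 x with hmdef
  have hT := hP.continuous_TT S
  have hTm := hT.measurable
  have hr := continuous_rfl1 (2 * a)
  have hA : MeasurableSet {y : ℝ × ℝ | y.1 ≤ a} := measurableSet_le measurable_fst measurable_const
  have hA' : MeasurableSet {y : ℝ × ℝ | ¬ y.1 ≤ a} := hA.compl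
  have hQm := measurableSet_QQ a σ
  have hfold := continuous_fold a
  have hTf : Continuous fun y => TT w1 S (fold a y) := hT.comp hfold
  have hcw := hP.pot.cw
  have hwf : Continuous fun y => w (fold a y).1 (fold a y).2 := hcw.comp hfold
  have hDTc : Continuous fun y => dC a σ (TT w1 S (fold a y)) ^ 2 :=
    ((continuous_dC a σ).comp hTf).pow 2
  have hGGc : Continuous (GG w1 w2 S) := by
    unfold GG
    have k1 : Continuous fun y => w1 (S.symm y).1 (S.symm y).2 := hP.pot.c1.comp S.symm.continuous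
    have k2 : Continuous fun y => w2 (S.symm y).1 (S.symm y).2 := hP.pot.c2.comp S.symm.continuous
    exact (k1.pow 2).add (k2.pow 2)
  have hGGf : Continuous fun y => GG w1 w2 S (fold a y) := hGGc.comp hfold
  have hdR2 : Continuous fun y => dR (2 * a) y ^ 2 := (continuous_dR _).pow 2
  -- pass to a plan
  have hpos : 0 < 1 + 12 * δ := by linarith
  suffices key : ∀ p : ι → Measure (ℝ × ℝ), IsSub m p →
      costD z (dC a σ) (mQ a σ x) + costD (fun i => rfl1 (2 * a) (z i)) (dC a σ) (mQ a σ x) ≤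
      (1 + 12 * δ) * (∑ i, dR (2 * a) (z i) ^ 2 + ∫ y, dR (2 * a) y ^ 2 ∂m +
        subCost z (dR (2 * a)) p) +
      (2 * (∑ i, w (fold a (z i)).1 (fold a (z i)).2 - 2 * ∫ y, w y.1 y.2 ∂(unif a 1 x)) +
      (1 + 18 * δ) * (2 * ∫ y, (w1 y.1 y.2 ^ 2 + w2 y.1 y.2 ^ 2) ∂(unif a 1 x))) +
      (∑ i, chi2 (2 * a) δ (z i) + ∫ y, chi2 (2 * a) δ y ∂m + ∫ y, chi1 a δ y ∂m) by
    have : (costD z (dC a σ) (mQ a σ x) +
        costD (fun i => rfl1 (2 * a) (z i)) (dC a σ) (mQ a σ x) -
        ((2 * (∑ i, w (fold a (z i)).1 (fold a (z i)).2 - 2 * ∫ y, w y.1 y.2 ∂(unif a 1 x)) +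
        (1 + 18 * δ) * (2 * ∫ y, (w1 y.1 y.2 ^ 2 + w2 y.1 y.2 ^ 2) ∂(unif a 1 x))) +
        (∑ i, chi2 (2 * a) δ (z i) + ∫ y, chi2 (2 * a) δ y ∂m + ∫ y, chi1 a δ y ∂m))) /
        (1 + 12 * δ) ≤ costD z (dR (2 * a)) m := by
      apply le_costD
      intro p hp
      rw [div_le_iff₀ hpos]
      linarith [key p hp]
    rw [div_le_iff₀ hpos] at this
    linarith
  intro p hp
  obtain ⟨m', hm'⟩ := hp.exists_rest
  have hpfin : ∀ i, IsFiniteMeasure (p i) := fun i => hp.fin i
  -- the two plans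
  let p1 : ι → Measure (ℝ × ℝ) := fun i =>
    if (z i).1 ≤ a then (((p i).restrict {y | y.1 ≤ a}).map (TT w1 S)).restrict (QQ a σ) else 0
  let p2 : ι → Measure (ℝ × ℝ) := fun i =>
    if (z i).1 ≤ a then 0 else
      ((((p i).restrict {y | ¬ y.1 ≤ a}).map (rfl1 (2 * a))).map (TT w1 S)).restrict (QQ a σ)
  have hp1 : IsSub (mQ a σ x) p1 := by
    refine ⟨fun i => ?_, ?_⟩
    · simp only [p1]
      split_ifs
      · calc _ ≤ (((p i).restrict {y | y.1 ≤ a}).map (TT w1 S)) Set.univ :=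
              Measure.restrict_le_self _
          _ = ((p i).restrict {y | y.1 ≤ a}) Set.univ := by
              rw [Measure.map_apply hTm MeasurableSet.univ, Set.preimage_univ]
          _ ≤ p i Set.univ := Measure.restrict_le_self _
          _ ≤ 1 := hp.mass i
      · simp
    · calc ∑ i, p1 i ≤ ∑ i, (((p i).restrict {y | y.1 ≤ a}).map (TT w1 S)).restrict (QQ a σ) := by
            apply Finset.sum_le_sum
            intro i _
            simp only [p1]
            split_ifs
            · exact le_rfl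
            · exact Measure.zero_le _
        _ = (((∑ i, p i).restrict {y | y.1 ≤ a}).map (TT w1 S)).restrict (QQ a σ) := by
            rw [restrict_fsum, Measure.map_finset_sum' hTm.aemeasurable,
              restrict_fsum]
        _ ≤ ((m.restrict {y | y.1 ≤ a}).map (TT w1 S)).restrict (QQ a σ) := by
            apply Measure.restrict_mono le_rfl
            apply Measure.map_mono _ hTm
            exact Measure.restrict_mono le_rfl hp.sum
        _ ≤ mQ a σ x := by
            rw [hmdef, restrict_left ha]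
            exact hP.map_Q ha hδ h1 h2 hS
  have hp2 : IsSub (mQ a σ x) p2 := by
    refine ⟨fun i => ?_, ?_⟩
    · simp only [p2]
      split_ifs
      · simp
      · calc _ ≤ ((((p i).restrict {y | ¬ y.1 ≤ a}).map (rfl1 (2 * a))).map (TT w1 S)) Set.univ :=
              Measure.restrict_le_self _
          _ = ((p i).restrict {y | ¬ y.1 ≤ a}) Set.univ := by
              rw [Measure.map_apply hTm MeasurableSet.univ, Set.preimage_univ,
                Measure.map_apply hr.measurable MeasurableSet.univ, Set.preimage_univ]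
          _ ≤ p i Set.univ := Measure.restrict_le_self _
          _ ≤ 1 := hp.mass i
    · calc ∑ i, p2 i ≤ ∑ i, ((((p i).restrict {y | ¬ y.1 ≤ a}).map (rfl1 (2 * a))).map
            (TT w1 S)).restrict (QQ a σ) := by
            apply Finset.sum_le_sum
            intro i _
            simp only [p2]
            split_ifs
            · exact Measure.zero_le _
            · exact le_rfl
        _ = ((((∑ i, p i).restrict {y | ¬ y.1 ≤ a}).map (rfl1 (2 * a))).map
            (TT w1 S)).restrict (QQ a σ) := by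
            rw [restrict_fsum, Measure.map_finset_sum' hr.measurable.aemeasurable,
              Measure.map_finset_sum' hTm.aemeasurable, restrict_fsum]
        _ ≤ ((unif a 1 x).map (TT w1 S)).restrict (QQ a σ) := by
            apply Measure.restrict_mono le_rfl
            apply Measure.map_mono _ hTm
            refine le_trans ?_ (restrict_right ha x)
            apply Measure.map_mono _ hr.measurable
            exact Measure.restrict_mono le_rfl hp.sum
        _ ≤ mQ a σ x := hP.map_Q ha hδ h1 h2 hS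
  have c1 := hDC.costD_le z hp1
  have c2 := hDC.costD_le (fun i => rfl1 (2 * a) (z i)) hp2
  -- reduced costs
  have hNmeas : ∀ z0 : ℝ × ℝ, Measurable (NN a σ w1 S z0) := by
    intro z0
    unfold NN
    apply Measurable.ite
    · apply MeasurableSet.inter
      · by_cases h0 : z0.1 ≤ a
        · simp only [h0, true_iff]
          exact hA
        · simp only [h0, false_iff]
          exact hA'
      · exact hTf.measurable hQm
    · exact ((continuous_kd hDC.cont _).comp hTf).measurable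
    · exact measurable_const
  have hNint : ∀ i, Integrable (NN a σ w1 S (z i)) (p i) := by
    intro i
    have hb := hDC.cont
    have hI : Integrable (fun y => kd (dC a σ) (fold a (z i)) (TT w1 S (fold a y))) (p i) :=
      hDR.intg hp i ((continuous_kd hDC.cont _).comp hTf)
    apply hI.norm.mono' (hNmeas _).aestronglyMeasurable
    refine Filter.Eventually.of_forall fun y => ?_
    unfold NN
    split_ifs
    · exact le_rfl
    · rw [norm_zero]; exact norm_nonneg _
  have hNN : subCost z (dC a σ) p1 + subCost (fun i => rfl1 (2 * a) (z i)) (dC a σ) p2 =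
      ∑ i, ∫ y, NN a σ w1 S (z i) y ∂(p i) := by
    unfold subCost
    rw [← Finset.sum_add_distrib]
    apply Finset.sum_congr rfl
    intro i _
    simp only [p1, p2]
    have hkm : ∀ u : ℝ × ℝ, AEStronglyMeasurable ((QQ a σ).indicator (kd (dC a σ) u))
        (((p i).restrict {y | y.1 ≤ a}).map (TT w1 S)) := fun u =>
      ((continuous_kd hDC.cont u).measurable.indicator hQm).aestronglyMeasurable
    have hkm' : ∀ u : ℝ × ℝ, AEStronglyMeasurable ((QQ a σ).indicator (kd (dC a σ) u))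
        ((((p i).restrict {y | ¬ y.1 ≤ a}).map (rfl1 (2 * a))).map (TT w1 S)) := fun u =>
      ((continuous_kd hDC.cont u).measurable.indicator hQm).aestronglyMeasurable
    by_cases h0 : (z i).1 ≤ a
    · rw [if_pos h0, if_pos h0, integral_zero_measure, add_zero, ← integral_indicator hQm,
        integral_map hTm.aemeasurable (hkm _), ← integral_indicator hA]
      congr 1
      ext y
      unfold NN
      by_cases hy : y.1 ≤ a
      · rw [Set.indicator_of_mem (show y ∈ {y : ℝ × ℝ | y.1 ≤ a} from hy), fold_left hy,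
          fold_left h0]
        by_cases hQ : TT w1 S y ∈ QQ a σ
        · rw [Set.indicator_of_mem hQ, if_pos ⟨⟨fun _ => hy, fun _ => h0⟩, hQ⟩]
        · rw [Set.indicator_of_notMem hQ, if_neg (fun h => hQ h.2)]
      · rw [Set.indicator_of_notMem (show y ∉ {y : ℝ × ℝ | y.1 ≤ a} from hy),
          if_neg (fun h => hy (h.1.1 h0))]
    · rw [if_neg h0, if_neg h0, integral_zero_measure, zero_add, ← integral_indicator hQm,
        integral_map hTm.aemeasurable (hkm' _)]
      have hm3 : Measurable fun y => (QQ a σ).indicator (kd (dC a σ) (rfl1 (2 * a) (z i)))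
          (TT w1 S y) := ((continuous_kd hDC.cont _).measurable.indicator hQm).comp hTm
      rw [integral_map hr.measurable.aemeasurable hm3.aestronglyMeasurable,
        ← integral_indicator hA']
      congr 1
      ext y
      unfold NN
      by_cases hy : y.1 ≤ a
      · rw [Set.indicator_of_notMem (show y ∉ {y : ℝ × ℝ | ¬ y.1 ≤ a} from fun h => h hy),
          if_neg (fun h => h0 (h.1.2 hy))]
      · rw [Set.indicator_of_mem (show y ∈ {y : ℝ × ℝ | ¬ y.1 ≤ a} from hy),
          fold_right (not_le.1 hy).le, fold_right (not_le.1 h0).le]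
        by_cases hQ : TT w1 S (rfl1 (2 * a) y) ∈ QQ a σ
        · rw [Set.indicator_of_mem hQ,
            if_pos ⟨⟨fun h => absurd h h0, fun h => absurd h hy⟩, hQ⟩]
        · rw [Set.indicator_of_notMem hQ, if_neg (fun h => hQ h.2)]
  -- distances of the points
  have hD : ∀ i, dC a σ (z i) ^ 2 + dC a σ (rfl1 (2 * a) (z i)) ^ 2 = dC a σ (fold a (z i)) ^ 2 := by
    intro i
    have haσ : 0 ≤ a * σ := by positivity
    have hz0 : ∀ u : ℝ × ℝ, a ≤ u.1 → dC a σ u = 0 := by
      intro u hu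
      unfold dC
      apply max_eq_left
      refine (min_le_left _ _).trans ((min_le_right _ _).trans ?_)
      linarith
    by_cases h0 : (z i).1 ≤ a
    · rw [fold_left h0, hz0 (rfl1 (2 * a) (z i)) (by simp only [rfl1]; linarith)]
      ring
    · have h0' : a ≤ (z i).1 := (not_le.1 h0).le
      rw [fold_right h0', hz0 (z i) h0']
      ring
  -- integral of the target distances
  have hDT : 2 * ∫ y, dC a σ y ^ 2 ∂(mQ a σ x) =
      ∫ y, dC a σ (TT w1 S (fold a y)) ^ 2 ∂m := by
    rw [← hP.int_dC ha hδ h1 h2 hS, hmdef,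
      fold_integral ha x (f := fun y => dC a σ (TT w1 S y) ^ 2) (((continuous_dC a σ).comp hT).pow 2)]
  have hfm : IsFiniteMeasure m := hDR.fin
  have hm'le : m' ≤ m := by rw [← hm']; exact Measure.le_add_left le_rfl
  have hfm' : IsFiniteMeasure m' := isFiniteMeasure_of_le m hm'le
  have hm'ae : ∀ᵐ y ∂m', y ∈ rect (2 * a) 1 :=
    (Measure.absolutelyContinuous_of_le hm'le).ae_le hDR.carr
  have split : ∀ {f : ℝ × ℝ → ℝ}, (∀ i, Integrable f (p i)) → Integrable f m' →
      ∫ y, f y ∂m = ∑ i, ∫ y, f y ∂(p i) + ∫ y, f y ∂m' := by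
    intro f hf hf'
    conv_lhs => rw [← hm']
    rw [integral_add_measure (integrable_finsetSum_measure.2 fun i _ => hf i) hf',
      integral_finsetSum_measure fun i _ => hf i]
  have ic : ∀ {f : ℝ × ℝ → ℝ}, Continuous f → Integrable f m' := fun hf =>
    integrable_of_carried (isCompact_rect (2 * a) 1) hm'ae hf
  -- terms for each point
  have term : ∀ i, ∫ y, (dC a σ (fold a (z i)) ^ 2 + dC a σ (TT w1 S (fold a y)) ^ 2 +
      NN a σ w1 S (z i) y) ∂(p i) ≤
      ∫ y, ((1 + 12 * δ) * sqd (z i) y +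
      2 * (w (fold a (z i)).1 (fold a (z i)).2 - w (fold a y).1 (fold a y).2) +
      (1 + 10 * δ) * GG w1 w2 S (fold a y) + chi1 a δ y) ∂(p i) := by
    intro i
    apply integral_mono_ae
    · exact ((integrable_const _).add (hDR.intg hp i hDTc)).add (hNint i)
    · exact (((hDR.intg hp i (continuous_sqd _)).const_mul _).add
        (((integrable_const _).sub (hDR.intg hp i hwf)).const_mul _)).add
        ((hDR.intg hp i hGGf).const_mul _) |>.add (integrable_chi1 a δ (p i))
    · filter_upwards [hp.ae i hDR.carr] with y hy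
      exact hP.alpha ha hδ h1 h2 hS (hz i) hy
  have term1 : ∀ i, ∫ y, (dC a σ (fold a (z i)) ^ 2 + dC a σ (TT w1 S (fold a y)) ^ 2 +
      NN a σ w1 S (z i) y) ∂(p i) = (p i Set.univ).toReal * dC a σ (fold a (z i)) ^ 2 +
      ∫ y, dC a σ (TT w1 S (fold a y)) ^ 2 ∂(p i) + ∫ y, NN a σ w1 S (z i) y ∂(p i) := by
    intro i
    have j1 : Integrable (fun y => dC a σ (fold a (z i)) ^ 2 +
      dC a σ (TT w1 S (fold a y)) ^ 2) (p i) := (integrable_const _).add (hDR.intg hp i hDTc)
    rw [integral_add j1 (hNint i), integral_add (integrable_const _) (hDR.intg hp i hDTc),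
      integral_const]
    simp [Measure.real]
  have term2 : ∀ i, ∫ y, ((1 + 12 * δ) * sqd (z i) y +
      2 * (w (fold a (z i)).1 (fold a (z i)).2 - w (fold a y).1 (fold a y).2) +
      (1 + 10 * δ) * GG w1 w2 S (fold a y) + chi1 a δ y) ∂(p i) =
      (1 + 12 * δ) * ∫ y, sqd (z i) y ∂(p i) +
      2 * ((p i Set.univ).toReal * w (fold a (z i)).1 (fold a (z i)).2 -
        ∫ y, w (fold a y).1 (fold a y).2 ∂(p i)) +
      (1 + 10 * δ) * ∫ y, GG w1 w2 S (fold a y) ∂(p i) + ∫ y, chi1 a δ y ∂(p i) := by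
    intro i
    have k1 : Integrable (fun y => (1 + 12 * δ) * sqd (z i) y) (p i) :=
      (hDR.intg hp i (continuous_sqd _)).const_mul _
    have k2 : Integrable (fun y => 2 * (w (fold a (z i)).1 (fold a (z i)).2 -
        w (fold a y).1 (fold a y).2)) (p i) :=
      ((integrable_const _).sub (hDR.intg hp i hwf)).const_mul _
    have k3 : Integrable (fun y => (1 + 10 * δ) * GG w1 w2 S (fold a y)) (p i) :=
      (hDR.intg hp i hGGf).const_mul _
    have k12 : Integrable (fun y => (1 + 12 * δ) * sqd (z i) y +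
        2 * (w (fold a (z i)).1 (fold a (z i)).2 - w (fold a y).1 (fold a y).2)) (p i) := k1.add k2
    have k123 : Integrable (fun y => (1 + 12 * δ) * sqd (z i) y +
        2 * (w (fold a (z i)).1 (fold a (z i)).2 - w (fold a y).1 (fold a y).2) +
        (1 + 10 * δ) * GG w1 w2 S (fold a y)) (p i) := k12.add k3
    rw [integral_add k123 (integrable_chi1 a δ (p i)), integral_add k12 k3, integral_add k1 k2,
      integral_const_mul, integral_const_mul, integral_const_mul,
      integral_sub (integrable_const _) (hDR.intg hp i hwf), integral_const]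
    simp [Measure.real]
  -- remaining target
  have rest : ∫ y, dC a σ (TT w1 S (fold a y)) ^ 2 ∂m' ≤ ∫ y, dR (2 * a) y ^ 2 ∂m' -
      2 * ∫ y, w (fold a y).1 (fold a y).2 ∂m' + ∫ y, chi2 (2 * a) δ y ∂m' := by
    have k1 : Integrable (fun y => dR (2 * a) y ^ 2) m' := ic hdR2
    have k2 : Integrable (fun y => 2 * w (fold a y).1 (fold a y).2) m' := (ic hwf).const_mul 2
    have k12 : Integrable (fun y => dR (2 * a) y ^ 2 - 2 * w (fold a y).1 (fold a y).2) m' :=
      k1.sub k2
    calc ∫ y, dC a σ (TT w1 S (fold a y)) ^ 2 ∂m'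
        ≤ ∫ y, (dR (2 * a) y ^ 2 - 2 * w (fold a y).1 (fold a y).2 + chi2 (2 * a) δ y) ∂m' := by
          apply integral_mono_ae (ic hDTc) (k12.add (integrable_chi2 _ _ m'))
          filter_upwards [hm'ae] with y hy
          exact hP.gamma ha h1 h2 hS hy
      _ = _ := by
          rw [integral_add k12 (integrable_chi2 _ _ m'), integral_sub k1 k2, integral_const_mul]
  -- remaining mass of the points
  have restz : ∀ i, (1 - (p i Set.univ).toReal) * dC a σ (fold a (z i)) ^ 2 ≤
      (1 - (p i Set.univ).toReal) * dR (2 * a) (z i) ^ 2 +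
      2 * ((1 - (p i Set.univ).toReal) * w (fold a (z i)).1 (fold a (z i)).2) +
      chi2 (2 * a) δ (z i) := by
    intro i
    have hb := hP.beta ha h1 h2 (hz i)
    have hle := hp.real_le i
    have h0 : 0 ≤ (p i Set.univ).toReal := ENNReal.toReal_nonneg
    have hchi := chi2_nonneg (2 * a) δ (z i)
    have := mul_le_mul_of_nonneg_left hb (by linarith : 0 ≤ 1 - (p i Set.univ).toReal)
    have h3 : (1 - (p i Set.univ).toReal) * chi2 (2 * a) δ (z i) ≤ chi2 (2 * a) δ (z i) :=
      mul_le_of_le_one_left hchi (by linarith)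
    linarith
  -- gradient term
  have hG : ∫ y, GG w1 w2 S (fold a y) ∂m ≤
      (1 + 5 * δ) * (2 * ∫ y, (w1 y.1 y.2 ^ 2 + w2 y.1 y.2 ^ 2) ∂(unif a 1 x)) := by
    rw [hmdef, fold_integral ha x hGGc]
    have hgc : Continuous fun y : ℝ × ℝ => w1 y.1 y.2 ^ 2 + w2 y.1 y.2 ^ 2 :=
      (hP.pot.c1.pow 2).add (hP.pot.c2.pow 2)
    have : ∫ y, GG w1 w2 S y ∂(unif a 1 x) ≤
        ∫ y, (1 + 5 * δ) * (w1 y.1 y.2 ^ 2 + w2 y.1 y.2 ^ 2) ∂(unif a 1 x) := by
      apply integral_mono_ae
      · exact integrable_of_carried (isCompact_rect a 1) (unif_ae a 1 x) hGGc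
      · exact (integrable_of_carried (isCompact_rect a 1) (unif_ae a 1 x) hgc).const_mul _
      · filter_upwards [unif_ae a 1 x] with y hy
        exact hP.GG_le hδ hS hy.1
    rw [integral_const_mul] at this
    linarith
  have hE0 : 0 ≤ 2 * ∫ y, (w1 y.1 y.2 ^ 2 + w2 y.1 y.2 ^ 2) ∂(unif a 1 x) := by
    have : 0 ≤ ∫ y, (w1 y.1 y.2 ^ 2 + w2 y.1 y.2 ^ 2) ∂(unif a 1 x) :=
      integral_nonneg fun _ => by positivity
    linarith
  have hG2 : (1 + 10 * δ) * ∫ y, GG w1 w2 S (fold a y) ∂m ≤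
      (1 + 18 * δ) * (2 * ∫ y, (w1 y.1 y.2 ^ 2 + w2 y.1 y.2 ^ 2) ∂(unif a 1 x)) := by
    calc _ ≤ (1 + 10 * δ) * ((1 + 5 * δ) *
          (2 * ∫ y, (w1 y.1 y.2 ^ 2 + w2 y.1 y.2 ^ 2) ∂(unif a 1 x))) := by gcongr
      _ = ((1 + 10 * δ) * (1 + 5 * δ)) *
          (2 * ∫ y, (w1 y.1 y.2 ^ 2 + w2 y.1 y.2 ^ 2) ∂(unif a 1 x)) := by ring
      _ ≤ _ := by
          apply mul_le_mul_of_nonneg_right _ hE0
          nlinarith
  -- splittings
  have sDT := split (f := fun y => dC a σ (TT w1 S (fold a y)) ^ 2)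
    (fun i => hDR.intg hp i hDTc) (ic hDTc)
  have sW := split (f := fun y => w (fold a y).1 (fold a y).2)
    (fun i => hDR.intg hp i hwf) (ic hwf)
  have sG := split (f := fun y => GG w1 w2 S (fold a y))
    (fun i => hDR.intg hp i hGGf) (ic hGGf)
  have sC1 := split (f := chi1 a δ) (fun i => integrable_chi1 a δ (p i)) (integrable_chi1 a δ m')
  have sC2 := split (f := chi2 (2 * a) δ) (fun i => integrable_chi2 _ δ (p i))
    (integrable_chi2 _ δ m')
  have nG : 0 ≤ ∫ y, GG w1 w2 S (fold a y) ∂m' := integral_nonneg fun _ => by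
    unfold GG
    positivity
  have nC1 : 0 ≤ ∫ y, chi1 a δ y ∂m' := integral_nonneg fun _ => chi1_nonneg _ _ _
  have nC2 : 0 ≤ ∑ i, ∫ y, chi2 (2 * a) δ y ∂(p i) :=
    Finset.sum_nonneg fun i _ => integral_nonneg fun _ => chi2_nonneg _ _ _
  have sWf : ∫ y, w (fold a y).1 (fold a y).2 ∂m = 2 * ∫ y, w y.1 y.2 ∂(unif a 1 x) := by
    rw [hmdef, fold_integral ha x (f := fun y => w y.1 y.2) hcw]
  have hfull := hDR.full z hp hm'
  rw [hfull]
  -- sum up
  have hS1 : ∑ i, ((p i Set.univ).toReal * dC a σ (fold a (z i)) ^ 2 +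
      ∫ y, dC a σ (TT w1 S (fold a y)) ^ 2 ∂(p i) + ∫ y, NN a σ w1 S (z i) y ∂(p i)) ≤
      ∑ i, ((1 + 12 * δ) * ∫ y, sqd (z i) y ∂(p i) +
      2 * ((p i Set.univ).toReal * w (fold a (z i)).1 (fold a (z i)).2 -
        ∫ y, w (fold a y).1 (fold a y).2 ∂(p i)) +
      (1 + 10 * δ) * ∫ y, GG w1 w2 S (fold a y) ∂(p i) + ∫ y, chi1 a δ y ∂(p i)) := by
    apply Finset.sum_le_sum
    intro i _
    rw [← term1 i, ← term2 i]
    exact term i
  have hS2 := Finset.sum_le_sum (fun i (_ : i ∈ Finset.univ) => restz i)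
  have hDsum : ∑ i, dC a σ (z i) ^ 2 + ∑ i, dC a σ (rfl1 (2 * a) (z i)) ^ 2 =
      ∑ i, (p i Set.univ).toReal * dC a σ (fold a (z i)) ^ 2 +
      ∑ i, (1 - (p i Set.univ).toReal) * dC a σ (fold a (z i)) ^ 2 := by
    rw [← Finset.sum_add_distrib, ← Finset.sum_add_distrib]
    apply Finset.sum_congr rfl
    intro i _
    rw [hD i]
    ring
  have hWsum : ∑ i, w (fold a (z i)).1 (fold a (z i)).2 =
      ∑ i, (p i Set.univ).toReal * w (fold a (z i)).1 (fold a (z i)).2 +
      ∑ i, (1 - (p i Set.univ).toReal) * w (fold a (z i)).1 (fold a (z i)).2 := by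
    rw [← Finset.sum_add_distrib]
    apply Finset.sum_congr rfl
    intro i _
    ring
  simp only [Finset.sum_add_distrib, Finset.sum_sub_distrib, ← Finset.mul_sum] at hS1 hS2
  rw [Finset.sum_add_distrib]
  have hdR0 : 0 ≤ ∑ i, (1 - (p i Set.univ).toReal) * dR (2 * a) (z i) ^ 2 :=
    Finset.sum_nonneg fun i _ => mul_nonneg (by linarith [hp.real_le i]) (sq_nonneg _)
  have hdR1 : 0 ≤ ∫ y, dR (2 * a) y ^ 2 ∂m' := integral_nonneg fun _ => sq_nonneg _
  have t1 : 0 ≤ 12 * δ * ∑ i, (1 - (p i Set.univ).toReal) * dR (2 * a) (z i) ^ 2 := by positivity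
  have t2 : 0 ≤ 12 * δ * ∫ y, dR (2 * a) y ^ 2 ∂m' := by positivity
  have t3 : 0 ≤ (1 + 10 * δ) * ∫ y, GG w1 w2 S (fold a y) ∂m' := by positivity
  rw [sG] at hG2
  linarith

end Pool.Agent.H969
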