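import Mathlib
import Pool.Agent.H969.DDet
import Pool.Agent.H969.DefN

/-! The explicit potentials vanishing on three sides. -/

set_option autoImplicit false

open MeasureTheory Set Real
open scoped ENNReal NNReal

namespace Pool.Agent.H969

theorem pot_modeD {k c : ℝ} (hk : 0 < k) (hc : 0 < c) :
    Pot c (k ^ 2 * (cosh (k * c) / sinh (k * c)))
      (fun s t => sinh (k * s) * sin (k * t) / sinh (k * c))
      (fun s t => k * (cosh (k * s) * sin (k * t) / sinh (k * c)))
      (fun s t => k * (sinh (k * s) * cos (k * t) / sinh (k * c)))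
      (fun s t => k ^ 2 * (sinh (k * s) * sin (k * t) / sinh (k * c)))
      (fun s t => k ^ 2 * (cosh (k * s) * cos (k * t) / sinh (k * c)))
      (fun s t => -(k ^ 2 * (sinh (k * s) * sin (k * t) / sinh (k * c)))) := by
  have hS : 0 < sinh (k * c) := sinh_pos_iff.2 (by positivity)
  have key : ∀ {x y : ℝ}, |x| ≤ cosh (k * c) → |y| ≤ 1 →
      |k ^ 2 * (x * y / sinh (k * c))| ≤ k ^ 2 * (cosh (k * c) / sinh (k * c)) := by
    intro x y hx hy
    rw [abs_mul, abs_of_pos (pow_pos hk 2), abs_div, abs_of_pos hS, abs_mul]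
    gcongr
    calc |x| * |y| ≤ cosh (k * c) * 1 := by
          apply mul_le_mul hx hy (abs_nonneg _) (cosh_pos _).le
      _ = _ := mul_one _
  have hcs : ∀ s ∈ Icc 0 c, |sinh (k * s)| ≤ cosh (k * c) ∧ |cosh (k * s)| ≤ cosh (k * c) :=
    fun s hs => sinh_le_cosh_of (mul_nonneg hk.le hs.1) (mul_le_mul_of_nonneg_left hs.2 hk.le)
  exact
  { h1 := fun s t => by
      have h := ((hda_sinh k s).mul_const (sin (k * t))).div_const (sinh (k * c))
      exact h.congr_deriv (by ring)
    h2 := fun s t => by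
      have h := ((hda_sin k t).const_mul (sinh (k * s))).div_const (sinh (k * c))
      exact h.congr_deriv (by ring)
    h11 := fun s t => by
      have h := (((hda_cosh k s).mul_const (sin (k * t))).div_const (sinh (k * c))).const_mul k
      exact h.congr_deriv (by ring)
    h12 := fun s t => by
      have h := (((hda_sin k t).const_mul (cosh (k * s))).div_const (sinh (k * c))).const_mul k
      exact h.congr_deriv (by ring)
    h21 := fun s t => by
      have h := (((hda_sinh k s).mul_const (cos (k * t))).div_const (sinh (k * c))).const_mul k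
      exact h.congr_deriv (by ring)
    h22 := fun s t => by
      have h := (((hda_cos k t).const_mul (sinh (k * s))).div_const (sinh (k * c))).const_mul k
      exact h.congr_deriv (by ring)
    cw := by fun_prop
    c1 := by fun_prop
    c2 := by fun_prop
    c11 := by fun_prop
    c22 := by fun_prop
    b11 := fun s hs t => key (hcs s hs).1 (abs_sin_le_one _)
    b12 := fun s hs t => key (hcs s hs).2 (abs_cos_le_one _)
    b22 := fun s hs t => by rw [abs_neg]; exact key (hcs s hs).1 (abs_sin_le_one _) }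

/-- the modes -/
noncomputable def mD (c : ℝ) (l : ℕ) (y : ℝ × ℝ) : ℝ :=
  sinh (kap l * y.1) * sin (kap l * y.2) / sinh (kap l * c)

theorem continuous_mD (c : ℝ) (l : ℕ) : Continuous (mD c l) := by
  unfold mD
  fun_prop

theorem one_le_kap (l : ℕ) : 1 ≤ kap l := by
  unfold kap
  have h1 := pi_gt_three
  have h2 : (0 : ℝ) ≤ l := Nat.cast_nonneg l
  nlinarith

theorem potD_sum {a δ : ℝ} (ha : 0 < a) (L : ℕ) (h : ℕ → ℝ)
    (hle : ∑ l ∈ Finset.range L, |h l| * (kap l ^ 2 * ct a l) ≤ δ) :
    PotD a δ (fun s t => ∑ l ∈ Finset.range L,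
        h l * (sinh (kap l * s) * sin (kap l * t) / sinh (kap l * a)))
      (fun s t => ∑ l ∈ Finset.range L,
        h l * (kap l * (cosh (kap l * s) * sin (kap l * t) / sinh (kap l * a))))
      (fun s t => ∑ l ∈ Finset.range L,
        h l * (kap l * (sinh (kap l * s) * cos (kap l * t) / sinh (kap l * a))))
      (fun s t => ∑ l ∈ Finset.range L,
        h l * (kap l ^ 2 * (sinh (kap l * s) * sin (kap l * t) / sinh (kap l * a))))
      (fun s t => ∑ l ∈ Finset.range L,
        h l * (kap l ^ 2 * (cosh (kap l * s) * cos (kap l * t) / sinh (kap l * a))))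
      (fun s t => ∑ l ∈ Finset.range L,
        h l * -(kap l ^ 2 * (sinh (kap l * s) * sin (kap l * t) / sinh (kap l * a)))) := by
  have key : ∀ {x y : ℝ} (l : ℕ), |x| ≤ cosh (kap l * a) → |y| ≤ 1 →
      |kap l * (x * y / sinh (kap l * a))| ≤ kap l ^ 2 * ct a l := by
    intro x y l hx hy
    have hk := kap_pos l
    have hk1 := one_le_kap l
    have hS : 0 < sinh (kap l * a) := sinh_pos_iff.2 (by positivity)
    have hct := ct_pos ha l
    rw [abs_mul, abs_of_pos hk, abs_div, abs_of_pos hS, abs_mul]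
    calc kap l * (|x| * |y| / sinh (kap l * a)) ≤ kap l * ct a l := by
          unfold ct
          gcongr
          calc |x| * |y| ≤ cosh (kap l * a) * 1 :=
                mul_le_mul hx hy (abs_nonneg _) (cosh_pos _).le
            _ = _ := mul_one _
      _ ≤ kap l ^ 2 * ct a l := by
          apply mul_le_mul_of_nonneg_right _ hct.le
          nlinarith
  have hcs : ∀ (l : ℕ), ∀ s ∈ Icc 0 a, |sinh (kap l * s)| ≤ cosh (kap l * a) ∧
      |cosh (kap l * s)| ≤ cosh (kap l * a) := fun l s hs =>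
    sinh_le_cosh_of (mul_nonneg (kap_pos l).le hs.1)
      (mul_le_mul_of_nonneg_left hs.2 (kap_pos l).le)
  exact
  { pot := (Pot.sum (Finset.range L) h
      (fun l => kap l ^ 2 * (cosh (kap l * a) / sinh (kap l * a)))
      (fun l _ => pot_modeD (kap_pos l) ha)).mono hle
    lap := fun s t => by
      rw [← Finset.sum_add_distrib, Finset.sum_eq_zero]
      intro l _
      ring
    b1 := fun s hs t => by
      refine le_trans ?_ hle
      refine (Finset.abs_sum_le_sum_abs _ _).trans (Finset.sum_le_sum fun l _ => ?_)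
      rw [abs_mul]
      exact mul_le_mul_of_nonneg_left (key l (hcs l s hs).2 (abs_sin_le_one _)) (abs_nonneg _)
    b2 := fun s hs t => by
      refine le_trans ?_ hle
      refine (Finset.abs_sum_le_sum_abs _ _).trans (Finset.sum_le_sum fun l _ => ?_)
      rw [abs_mul]
      exact mul_le_mul_of_nonneg_left (key l (hcs l s hs).1 (abs_cos_le_one _)) (abs_nonneg _)
    z0 := fun t => by simp
    z1 := fun s => by simp
    z2 := fun s => by
      simp only [sin_kap]
      simp }

/-- energy of the modes -/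
noncomputable def ElD (a : ℝ) (l : ℕ) : ℝ := kap l * ct a l

theorem ElD_pos {a : ℝ} (ha : 0 < a) (l : ℕ) : 0 < ElD a l := mul_pos (kap_pos l) (ct_pos ha l)

theorem energyD {a : ℝ} (ha : 0 < a) (L : ℕ) (h : ℕ → ℝ) :
    2 * ∫ y in rect a 1, ((∑ l ∈ Finset.range L,
        h l * (kap l * (cosh (kap l * y.1) * sin (kap l * y.2) / sinh (kap l * a)))) ^ 2 +
      (∑ l ∈ Finset.range L,
        h l * (kap l * (sinh (kap l * y.1) * cos (kap l * y.2) / sinh (kap l * a)))) ^ 2) =
    ∑ l ∈ Finset.range L, h l ^ 2 * ElD a l := by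
  have e : ∀ y : ℝ × ℝ, ((∑ l ∈ Finset.range L,
        h l * (kap l * (cosh (kap l * y.1) * sin (kap l * y.2) / sinh (kap l * a)))) ^ 2 +
      (∑ l ∈ Finset.range L,
        h l * (kap l * (sinh (kap l * y.1) * cos (kap l * y.2) / sinh (kap l * a)))) ^ 2) =
      (∑ l ∈ Finset.range L, (h l * kap l / sinh (kap l * a) * cosh (kap l * y.1)) *
        sin (kap l * y.2)) ^ 2 +
      (∑ l ∈ Finset.range L, (h l * kap l / sinh (kap l * a) * sinh (kap l * y.1)) *
        cos (kap l * y.2)) ^ 2 := by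
    intro y
    congr 2
    · exact Finset.sum_congr rfl fun l _ => by ring
    · exact Finset.sum_congr rfl fun l _ => by ring
  simp_rw [e]
  rw [integral_add (intOn_rect (by fun_prop)) (intOn_rect (by fun_prop)),
    int_sq_sum L (fun l s => h l * kap l / sinh (kap l * a) * cosh (kap l * s))
      (fun l t => sin (kap l * t)) (fun l => by fun_prop) (fun l => by fun_prop) int_ss,
    int_sq_sum L (fun l s => h l * kap l / sinh (kap l * a) * sinh (kap l * s))
      (fun l t => cos (kap l * t)) (fun l => by fun_prop) (fun l => by fun_prop) int_cc,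
    ← Finset.sum_add_distrib, Finset.mul_sum]
  apply Finset.sum_congr rfl
  intro l _
  have hk := kap_pos l
  have hS : 0 < sinh (kap l * a) := sinh_pos_iff.2 (by positivity)
  simp_rw [mul_pow]
  rw [integral_const_mul, integral_const_mul, int_cosh_sq hk ha.le, int_sinh_sq hk ha.le, ElD, ct]
  field_simp
  ring

theorem int_mD_sq {a : ℝ} (ha : 0 < a) (l : ℕ) : 2 * ∫ y in rect a 1, mD a l y ^ 2 =
    ct a l / (2 * kap l) - a / (2 * sinh (kap l * a) ^ 2) := by
  have hk := kap_pos l
  have hS : 0 < sinh (kap l * a) := sinh_pos_iff.2 (by positivity)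
  unfold mD ct
  have e : ∀ y : ℝ × ℝ, (sinh (kap l * y.1) * sin (kap l * y.2) / (sinh (kap l * a))) ^ 2 =
      (sinh (kap l * y.1) ^ 2 / (sinh (kap l * a)) ^ 2) * (sin (kap l * y.2) *
        sin (kap l * y.2)) := fun y => by ring
  simp_rw [e]
  rw [int_prod_rect (fun s => sinh (kap l * s) ^ 2 / (sinh (kap l * a)) ^ 2)
    (fun t => sin (kap l * t) * sin (kap l * t)), int_ss, if_pos rfl, integral_div,
    int_sinh_sq hk ha.le]
  field_simp
  ring

theorem abs_mD_le {a : ℝ} (ha : 0 < a) (l : ℕ) {y : ℝ × ℝ} (hy : y ∈ rect a 1) :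
    |mD a l y| ≤ 1 := by
  have hk := kap_pos l
  have hS : 0 < sinh (kap l * a) := sinh_pos_iff.2 (by positivity)
  unfold mD
  rw [abs_div, abs_mul, abs_of_pos hS, div_le_one hS]
  have h0 : 0 ≤ sinh (kap l * y.1) := sinh_nonneg_iff.2 (mul_nonneg hk.le hy.1.1)
  have h1 : sinh (kap l * y.1) ≤ sinh (kap l * a) :=
    sinh_le_sinh.2 (mul_le_mul_of_nonneg_left hy.1.2 hk.le)
  rw [abs_of_nonneg h0]
  calc sinh (kap l * y.1) * |sin (kap l * y.2)| ≤ sinh (kap l * a) * 1 :=
        mul_le_mul h1 (abs_sin_le_one _) (abs_nonneg _) hS.le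
    _ = _ := mul_one _

/-- gain of the modes -/
noncomputable def gainD (a : ℝ) (l : ℕ) : ℝ := (2 * ∫ y in rect a 1, mD a l y ^ 2) / ElD a l

theorem gainD_nonneg {a : ℝ} (ha : 0 < a) (l : ℕ) : 0 ≤ gainD a l := by
  have h1 := ElD_pos ha l
  have h2 : 0 ≤ ∫ y in rect a 1, mD a l y ^ 2 := integral_nonneg fun _ => sq_nonneg _
  unfold gainD
  positivity

/-- The deterministic inequality with explicit potentials. -/
theorem det_mode {ι : Type*} [Fintype ι] {a δ σ x : ℝ} (ha : 0 < a) (hδ : δ ≤ 1 / 20)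
    (hx : 0 ≤ x) (h1 : 4 * δ ≤ a * σ) (h2 : 4 * δ ≤ σ) (L : ℕ) (h : ℕ → ℝ)
    (hle : ∑ l ∈ Finset.range L, |h l| * (kap l ^ 2 * ct a l) ≤ δ) (z : ι → ℝ × ℝ)
    (hz : ∀ i, z i ∈ rect (2 * a) 1) :
    costD z (dC a σ) (mQ a σ x) + costD (fun i => rfl1 (2 * a) (z i)) (dC a σ) (mQ a σ x) ≤
      (1 + 12 * δ) * costD z (dR (2 * a)) (unif (2 * a) 1 x) +
      ∑ l ∈ Finset.range L, (2 * h l * (∑ i, mD a l (fold a (z i)) -
        x * (2 * ∫ y in rect a 1, mD a l y)) + (1 + 18 * δ) * (x * ElD a l) * h l ^ 2) +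
      (∑ i, chi2 (2 * a) δ (z i) + ∫ y, chi2 (2 * a) δ y ∂(unif (2 * a) 1 x) +
        ∫ y, chi1 a δ y ∂(unif (2 * a) 1 x)) := by
  have hd := det_ineq (x := x) (potD_sum ha L h hle) ha hδ h1 h2 z hz
  refine hd.trans (le_of_eq ?_)
  congr 2
  unfold unif
  rw [integral_smul_measure, integral_smul_measure, ENNReal.toReal_ofReal hx, smul_eq_mul,
    smul_eq_mul]
  have e1 := energyD ha L h
  have e2 : ∀ A : ℝ, (1 + 18 * δ) * (2 * (x * A)) = (1 + 18 * δ) * x * (2 * A) := fun A => by ring
  rw [e2, e1]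
  have e3 : ∫ y in rect a 1, ∑ l ∈ Finset.range L,
      h l * (sinh (kap l * y.1) * sin (kap l * y.2) / sinh (kap l * a)) =
      ∑ l ∈ Finset.range L, h l * ∫ y in rect a 1, mD a l y := by
    rw [integral_finsetSum]
    · apply Finset.sum_congr rfl
      intro l _
      rw [integral_const_mul]
      rfl
    · intro l _
      exact intOn_rect (continuous_const.mul (continuous_mD a l))
  rw [e3, Finset.sum_comm, Finset.sum_add_distrib]
  have e4 : ∑ l ∈ Finset.range L, ∑ i, h l * (sinh (kap l * (fold a (z i)).1) *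
      sin (kap l * (fold a (z i)).2) / sinh (kap l * a)) =
      ∑ l ∈ Finset.range L, h l * ∑ i, mD a l (fold a (z i)) := by
    apply Finset.sum_congr rfl
    intro l _
    rw [Finset.mul_sum]
    rfl
  rw [e4]
  congr 1
  · rw [Finset.mul_sum (Finset.range L) _ x, Finset.mul_sum (Finset.range L) _ 2,
      ← Finset.sum_sub_distrib, Finset.mul_sum]
    apply Finset.sum_congr rfl
    intro l _
    ring
  · rw [Finset.mul_sum]
    apply Finset.sum_congr rfl
    intro l _
    ring

end Pool.Agent.H969
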