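import Mathlib
import Pool.Agent.H969.DMode

/-! The inequality for a given number of points, in expectation. -/

set_option autoImplicit false

open MeasureTheory
open scoped ENNReal NNReal

namespace Pool.Agent.H969

/-- expected cost with exchange, `n` points, target density `x` -/
noncomputable def eD (n : ℕ) (c x : ℝ) : ℝ :=
  ∫ z, costD z (dR c) (unif c 1 x) ∂(Measure.pi fun _ : Fin n => U c)

/-- expected cost in the smaller rectangle -/
noncomputable def FC (n : ℕ) (a σ x : ℝ) : ℝ :=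
  ∫ z, costD z (dC a σ) (mQ a σ x) ∂(Measure.pi fun _ : Fin n => U (2 * a))

theorem DD.integrable_costD {ι : Type*} [Fintype ι] {d : ℝ × ℝ → ℝ} {m : Measure (ℝ × ℝ)}
    {K : Set (ℝ × ℝ)} {C : ℝ} (h : DD d m K C) (M : Measure (ι → ℝ × ℝ)) [IsFiniteMeasure M] :
    Integrable (fun z : ι → ℝ × ℝ => costD z d m) M := by
  apply Integrable.of_bound h.measurable_costD.aestronglyMeasurable
    (Fintype.card ι * C + ∫ y, d y ^ 2 ∂m)
  refine Filter.Eventually.of_forall fun z => ?_
  rw [Real.norm_eq_abs, abs_of_nonneg (h.costD_nonneg z)]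
  exact h.costD_le_crude z

theorem rfl1_rfl1 (c : ℝ) (y : ℝ × ℝ) : rfl1 c (rfl1 c y) = y := by
  unfold rfl1
  ext
  · simp
  · rfl

theorem map_U {a : ℝ} (ha : 0 < a) : (U (2 * a)).map (rfl1 (2 * a)) = U (2 * a) := by
  have hr := (continuous_rfl1 (2 * a)).measurable
  unfold U
  rw [unif_fold ha, Measure.map_add _ _ hr, Measure.map_map hr hr]
  have : rfl1 (2 * a) ∘ rfl1 (2 * a) = id := by
    ext1 y
    exact rfl1_rfl1 _ y
  rw [this, Measure.map_id, add_comm]

theorem FC_rfl {a : ℝ} (ha : 0 < a) {σ : ℝ} (hσ : 0 ≤ σ) (n : ℕ) (x : ℝ) :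
    ∫ z, costD (fun i => rfl1 (2 * a) (z i)) (dC a σ) (mQ a σ x)
      ∂(Measure.pi fun _ : Fin n => U (2 * a)) = FC n a σ x := by
  have p := isProb_U (c := 2 * a) (by positivity)
  have hr := (continuous_rfl1 (2 * a)).measurable
  have hpm : (Measure.pi fun _ : Fin n => U (2 * a)).map (fun z i => rfl1 (2 * a) (z i)) =
      (Measure.pi fun _ : Fin n => U (2 * a)) := by
    have h := Measure.pi_map_pi (μ := fun _ : Fin n => U (2 * a))
      (f := fun _ : Fin n => rfl1 (2 * a)) (fun _ => hr.aemeasurable)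
    rw [map_U ha] at h
    exact h
  have hm2 : Measurable (fun z : Fin n → ℝ × ℝ => fun i => rfl1 (2 * a) (z i)) := by
    apply measurable_pi_lambda
    intro i
    exact hr.comp (measurable_pi_apply i)
  unfold FC
  conv_rhs => rw [← hpm]
  rw [integral_map hm2.aemeasurable]
  exact (DD_C (a := a) (x := x) hσ).measurable_costD.aestronglyMeasurable

/-- mean of the modes -/
noncomputable def muD (a : ℝ) (l : ℕ) : ℝ := ∫ y, mD a l (fold a y) ∂(U (2 * a))

/-- variance of the modes -/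
noncomputable def vaD (a : ℝ) (l : ℕ) : ℝ := ∫ y, (mD a l (fold a y) - muD a l) ^ 2 ∂(U (2 * a))

theorem muD_eq {a : ℝ} (ha : 0 < a) (l : ℕ) :
    2 * ∫ y in rect a 1, mD a l y = 2 * a * muD a l := by
  unfold muD U
  rw [fold_integral ha _ (continuous_mD a l)]
  unfold unif
  rw [integral_smul_measure, ENNReal.toReal_ofReal (by positivity), smul_eq_mul]
  field_simp

theorem sD_eq {a : ℝ} (ha : 0 < a) (l : ℕ) :
    2 * ∫ y in rect a 1, mD a l y ^ 2 = 2 * a * (vaD a l + muD a l ^ 2) := by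
  have p := isProb_U (c := 2 * a) (by positivity)
  have hc : Continuous fun y => mD a l (fold a y) := (continuous_mD a l).comp (continuous_fold a)
  have hi : Integrable (fun y => mD a l (fold a y)) (U (2 * a)) :=
    integrable_of_carried (isCompact_rect _ _) (U_ae (2 * a)) hc
  have hi2 : Integrable (fun y => mD a l (fold a y) ^ 2) (U (2 * a)) :=
    integrable_of_carried (isCompact_rect _ _) (U_ae (2 * a)) (hc.pow 2)
  have e1 : vaD a l = ∫ y, mD a l (fold a y) ^ 2 ∂(U (2 * a)) - muD a l ^ 2 := by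
    unfold vaD
    have e : ∀ y, (mD a l (fold a y) - muD a l) ^ 2 = (mD a l (fold a y) ^ 2 -
        2 * muD a l * mD a l (fold a y)) + muD a l ^ 2 := fun y => by ring
    simp_rw [e]
    have j1 : Integrable (fun y => mD a l (fold a y) ^ 2 - 2 * muD a l * mD a l (fold a y))
      (U (2 * a)) := hi2.sub (hi.const_mul _)
    rw [integral_add j1 (integrable_const _), integral_sub hi2 (hi.const_mul _),
      integral_const_mul]
    have e3 : ∫ y, mD a l (fold a y) ∂(U (2 * a)) = muD a l := rfl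
    rw [e3]
    simp
    ring
  have e2 : ∫ y, mD a l (fold a y) ^ 2 ∂(U (2 * a)) = (1 / (2 * a)) *
      (2 * ∫ y in rect a 1, mD a l y ^ 2) := by
    have := fold_integral ha (1 / (2 * a)) (f := fun y => mD a l y ^ 2) ((continuous_mD a l).pow 2)
    unfold U
    rw [this]
    unfold unif
    rw [integral_smul_measure, ENNReal.toReal_ofReal (by positivity), smul_eq_mul]
    ring
  rw [e1, e2]
  field_simp
  ring

theorem abs_mD_fold {a : ℝ} (ha : 0 < a) (l : ℕ) {y : ℝ × ℝ} (hy : y ∈ rect (2 * a) 1) :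
    |mD a l (fold a y)| ≤ 1 := abs_mD_le ha l (fold_mem hy)

theorem abs_muD {a : ℝ} (ha : 0 < a) (l : ℕ) : |muD a l| ≤ 1 := by
  have p := isProb_U (c := 2 * a) (by positivity)
  unfold muD
  have := norm_integral_le_of_norm_le_const (μ := U (2 * a)) (f := fun y => mD a l (fold a y))
    (C := 1) ((U_ae (2 * a)).mono fun y hy => abs_mD_fold ha l hy)
  simpa using this

/-- the inequality for `n` points -/
theorem fixed_D {a x δ σ τ : ℝ} {n L : ℕ} (ha : 0 < a) (hx : 0 < x)
    (hδ : δ ≤ 1 / 20) (h1 : 4 * δ ≤ a * σ) (h2 : 4 * δ ≤ σ) (hτ : 0 < τ)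
    (hle : τ * ∑ l ∈ Finset.range L, kap l ^ 2 * ct a l ≤ δ) :
    2 * FC n a σ x ≤ (1 + 12 * δ) * eD n (2 * a) x +
      ∑ l ∈ Finset.range L, (-(1 - 18 * δ) * ((n * vaD a l + ((n : ℝ) - x * (2 * a)) ^ 2 *
        muD a l ^ 2) / (x * ElD a l)) +
        8 * (2400 * (n : ℝ) ^ 2 + ((n : ℝ) - x * (2 * a)) ^ 4) / ((x * ElD a l) ^ 3 * τ ^ 2)) +
      (n * ∫ y, chi2 (2 * a) δ y ∂(U (2 * a)) + ∫ y, chi2 (2 * a) δ y ∂(unif (2 * a) 1 x) +
        ∫ y, chi1 a δ y ∂(unif (2 * a) 1 x)) := by
  have p := isProb_U (c := 2 * a) (by positivity)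
  have hS0 : 0 ≤ ∑ l ∈ Finset.range L, kap l ^ 2 * ct a l :=
    Finset.sum_nonneg fun l _ => mul_nonneg (sq_nonneg _) (ct_pos ha l).le
  have hδ0 : 0 ≤ δ := le_trans (mul_nonneg hτ.le hS0) hle
  have hσ : 0 ≤ σ := by linarith
  have hDC := DD_C (a := a) (σ := σ) (x := x) hσ
  have hDR := DD_R (2 * a) x
  set m := (Measure.pi fun _ : Fin n => U (2 * a)) with hm
  have hae : ∀ᵐ z ∂m, ∀ i, z i ∈ rect (2 * a) 1 := ae_pi (ι := Fin n) (U (2 * a)) (U_ae (2 * a))
  have hfc : ∀ l, Continuous fun y => mD a l (fold a y) := fun l =>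
    (continuous_mD a l).comp (continuous_fold a)
  let g : ℕ → ℝ × ℝ → ℝ := fun l y => mD a l (fold a y) - muD a l
  have hgc : ∀ l, Continuous (g l) := fun l => (hfc l).sub continuous_const
  let T : ℕ → (Fin n → ℝ × ℝ) → ℝ := fun l z => ∑ i, g l (z i)
  have hTc : ∀ l, Continuous (T l) := fun l =>
    continuous_finsetSum _ fun i _ => (hgc l).comp (continuous_apply i)
  set r : ℝ := (n : ℝ) - x * (2 * a) with hr
  have hY : ∀ l (z : Fin n → ℝ × ℝ), ∑ i, mD a l (fold a (z i)) -
      x * (2 * ∫ y in rect a 1, mD a l y) = T l z + r * muD a l := by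
    intro l z
    simp only [T, g]
    rw [muD_eq ha, Finset.sum_sub_distrib]
    simp only [Finset.sum_const, Finset.card_univ, Fintype.card_fin, nsmul_eq_mul]
    rw [hr]
    ring
  -- pointwise
  have hpt : ∀ᵐ z ∂m, costD z (dC a σ) (mQ a σ x) +
      costD (fun i => rfl1 (2 * a) (z i)) (dC a σ) (mQ a σ x) ≤
      (1 + 12 * δ) * costD z (dR (2 * a)) (unif (2 * a) 1 x) +
      ∑ l ∈ Finset.range L, (-(1 - 18 * δ) * ((T l z + r * muD a l) ^ 2 / (x * ElD a l)) +
        8 * (T l z ^ 4 + r ^ 4) / ((x * ElD a l) ^ 3 * τ ^ 2)) +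
      (∑ i, chi2 (2 * a) δ (z i) + (∫ y, chi2 (2 * a) δ y ∂(unif (2 * a) 1 x) +
        ∫ y, chi1 a δ y ∂(unif (2 * a) 1 x))) := by
    filter_upwards [hae] with z hz
    have hd := det_mode (x := x) ha hδ hx.le h1 h2 L
      (fun l => -clamp τ ((T l z + r * muD a l) / (x * ElD a l))) ?_ z hz
    · refine hd.trans ?_
      have hsum : ∑ l ∈ Finset.range L, (2 * (-clamp τ ((T l z + r * muD a l) / (x * ElD a l))) *
          (∑ i, mD a l (fold a (z i)) - x * (2 * ∫ y in rect a 1, mD a l y)) +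
          (1 + 18 * δ) * (x * ElD a l) *
          (-clamp τ ((T l z + r * muD a l) / (x * ElD a l))) ^ 2) ≤
          ∑ l ∈ Finset.range L, (-(1 - 18 * δ) * ((T l z + r * muD a l) ^ 2 / (x * ElD a l)) +
          8 * (T l z ^ 4 + r ^ 4) / ((x * ElD a l) ^ 3 * τ ^ 2)) := by
        apply Finset.sum_le_sum
        intro l _
        have hE := ElD_pos ha l
        have hX : 0 < x * ElD a l := by positivity
        have hc := clamp_ineq (Y := T l z + r * muD a l) (C := 1 + 18 * δ) hX hτ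
          (by positivity : 0 ≤ 18 * δ) (by linarith) le_rfl
        rw [hY]
        refine hc.trans ?_
        have h8 : (T l z + r * muD a l) ^ 4 / ((x * ElD a l) ^ 3 * τ ^ 2) ≤
            8 * (T l z ^ 4 + r ^ 4) / ((x * ElD a l) ^ 3 * τ ^ 2) := by
          gcongr
          have h9 := pow4_sub_le (T l z) (-(r * muD a l))
          rw [sub_neg_eq_add] at h9
          refine h9.trans ?_
          have h10 : (-(r * muD a l)) ^ 4 ≤ r ^ 4 := by
            have h11 : muD a l ^ 4 ≤ 1 := by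
              have := pow_le_pow_left₀ (abs_nonneg _) (abs_muD ha l) 4
              rw [one_pow, ← abs_pow, abs_of_nonneg (by positivity)] at this
              exact this
            calc (-(r * muD a l)) ^ 4 = r ^ 4 * muD a l ^ 4 := by ring
              _ ≤ r ^ 4 * 1 := mul_le_mul_of_nonneg_left h11 (by positivity)
              _ = _ := mul_one _
          linarith
        linarith
      linarith
    · refine le_trans ?_ hle
      rw [Finset.mul_sum]
      apply Finset.sum_le_sum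
      intro l _
      apply mul_le_mul_of_nonneg_right _ (mul_nonneg (sq_nonneg _) (ct_pos ha l).le)
      rw [abs_neg]
      exact abs_clamp_le hτ.le _
  -- integrability
  have hgb : ∀ l, ∀ᵐ y ∂(U (2 * a)), |g l y| ≤ 2 := fun l => (U_ae (2 * a)).mono fun y hy => by
    have := abs_mD_fold ha l hy
    have := abs_muD ha l
    calc |g l y| ≤ |mD a l (fold a y)| + |muD a l| := abs_sub _ _
      _ ≤ 2 := by linarith
  have hg0 : ∀ l, ∫ y, g l y ∂(U (2 * a)) = 0 := by
    intro l
    simp only [g]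
    rw [integral_sub (integrable_of_carried (isCompact_rect _ _) (U_ae (2 * a)) (hfc l))
      (integrable_const _)]
    have e3 : ∫ y, mD a l (fold a y) ∂(U (2 * a)) = muD a l := rfl
    rw [e3]
    simp
  have iT : ∀ l, Integrable (T l) m := fun l => integrable_cont hae (hTc l)
  have iT2 : ∀ l, Integrable (fun z => T l z ^ 2) m := fun l => integrable_cont hae ((hTc l).pow 2)
  have iT4 : ∀ l, Integrable (fun z => T l z ^ 4) m := fun l => integrable_cont hae ((hTc l).pow 4)
  have iY2 : ∀ l, Integrable (fun z => (T l z + r * muD a l) ^ 2) m := fun l =>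
    integrable_cont hae (((hTc l).add continuous_const).pow 2)
  have eT1 : ∀ l, ∫ z, T l z ∂m = 0 := by
    intro l
    have := pi_mean (ι := Fin n) (U (2 * a)) (f := g l)
      (integrable_of_carried (isCompact_rect _ _) (U_ae (2 * a)) (hgc l))
    rw [hg0, mul_zero] at this
    exact this
  have eT2 : ∀ l, ∫ z, T l z ^ 2 ∂m = n * vaD a l := by
    intro l
    have := pi_var (ι := Fin n) (U (2 * a)) (f := g l)
      (MemLp.of_bound (hgc l).aestronglyMeasurable 2 (hgb l)) (hg0 l)
    rw [Fintype.card_fin] at this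
    exact this
  have eT4 : ∀ l, ∫ z, T l z ^ 4 ∂m ≤ 2400 * (n : ℝ) ^ 2 := by
    intro l
    have := pi_fourth (ι := Fin n) (U (2 * a)) (f := g l) (M := 2) (by norm_num)
      (hgc l).aestronglyMeasurable (hgb l) (hg0 l)
    rw [Fintype.card_fin] at this
    calc _ ≤ _ := this
      _ = _ := by ring
  have eY2 : ∀ l, ∫ z, (T l z + r * muD a l) ^ 2 ∂m = n * vaD a l + r ^ 2 * muD a l ^ 2 := by
    intro l
    have e : ∀ z, (T l z + r * muD a l) ^ 2 = (T l z ^ 2 + (2 * (r * muD a l)) * T l z) +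
        r ^ 2 * muD a l ^ 2 := fun z => by ring
    simp_rw [e]
    have j : Integrable (fun z => T l z ^ 2 + (2 * (r * muD a l)) * T l z) m :=
      (iT2 l).add ((iT l).const_mul _)
    rw [integral_add j (integrable_const _), integral_add (iT2 l) ((iT l).const_mul _),
      integral_const_mul, eT1, eT2]
    simp
  have ic1 : Integrable (fun z : Fin n → ℝ × ℝ => costD z (dC a σ) (mQ a σ x)) m :=
    hDC.integrable_costD m
  have ic2 : Integrable (fun z : Fin n → ℝ × ℝ =>
      costD (fun i => rfl1 (2 * a) (z i)) (dC a σ) (mQ a σ x)) m := by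
    have hmr : Measurable (fun z : Fin n → ℝ × ℝ => fun i => rfl1 (2 * a) (z i)) := by
      apply measurable_pi_lambda
      intro i
      exact (continuous_rfl1 (2 * a)).measurable.comp (measurable_pi_apply i)
    apply Integrable.of_bound (hDC.measurable_costD.comp hmr).aestronglyMeasurable
      (n * 1 + ∫ y, dC a σ y ^ 2 ∂(mQ a σ x))
    refine Filter.Eventually.of_forall fun z => ?_
    simp only [Function.comp_apply]
    rw [Real.norm_eq_abs, abs_of_nonneg (hDC.costD_nonneg _)]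
    have := hDC.costD_le_crude (fun i => rfl1 (2 * a) (z i))
    rwa [Fintype.card_fin] at this
  have ic3 : Integrable (fun z : Fin n → ℝ × ℝ => (1 + 12 * δ) *
      costD z (dR (2 * a)) (unif (2 * a) 1 x)) m := (hDR.integrable_costD m).const_mul _
  have im : ∀ l, Integrable (fun z =>
      (-(1 - 18 * δ) * ((T l z + r * muD a l) ^ 2 / (x * ElD a l)) +
        8 * (T l z ^ 4 + r ^ 4) / ((x * ElD a l) ^ 3 * τ ^ 2))) m := fun l =>
    (((iY2 l).div_const _).const_mul _).add
      ((((iT4 l).add (integrable_const _)).const_mul 8).div_const _)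
  have ims : Integrable (fun z => ∑ l ∈ Finset.range L,
      (-(1 - 18 * δ) * ((T l z + r * muD a l) ^ 2 / (x * ElD a l)) +
        8 * (T l z ^ 4 + r ^ 4) / ((x * ElD a l) ^ 3 * τ ^ 2))) m :=
    integrable_finsetSum _ fun l _ => im l
  have ichi : Integrable (fun z : Fin n → ℝ × ℝ => ∑ i, chi2 (2 * a) δ (z i)) m :=
    integrable_finsetSum _ fun i _ => integrable_comp_eval (integrable_chi2 _ _ _)
  have ichi2 : Integrable (fun z : Fin n → ℝ × ℝ => ∑ i, chi2 (2 * a) δ (z i) +
      (∫ y, chi2 (2 * a) δ y ∂(unif (2 * a) 1 x) +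
        ∫ y, chi1 a δ y ∂(unif (2 * a) 1 x))) m := ichi.add (integrable_const _)
  have i34 : Integrable (fun z : Fin n → ℝ × ℝ => (1 + 12 * δ) *
      costD z (dR (2 * a)) (unif (2 * a) 1 x) + ∑ l ∈ Finset.range L,
      (-(1 - 18 * δ) * ((T l z + r * muD a l) ^ 2 / (x * ElD a l)) +
        8 * (T l z ^ 4 + r ^ 4) / ((x * ElD a l) ^ 3 * τ ^ 2))) m := ic3.add ims
  have hmain := integral_mono_ae (ic1.add ic2) (i34.add ichi2) hpt
  have eL : ∫ z, ((fun z : Fin n → ℝ × ℝ => costD z (dC a σ) (mQ a σ x)) +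
      fun z : Fin n → ℝ × ℝ => costD (fun i => rfl1 (2 * a) (z i)) (dC a σ) (mQ a σ x)) z ∂m =
      2 * FC n a σ x := by
    have : ∫ z, ((fun z : Fin n → ℝ × ℝ => costD z (dC a σ) (mQ a σ x)) +
      fun z : Fin n → ℝ × ℝ => costD (fun i => rfl1 (2 * a) (z i)) (dC a σ) (mQ a σ x)) z ∂m =
      ∫ z, costD z (dC a σ) (mQ a σ x) ∂m +
      ∫ z, costD (fun i => rfl1 (2 * a) (z i)) (dC a σ) (mQ a σ x) ∂m := integral_add ic1 ic2
    rw [this, FC_rfl ha hσ, two_mul]
    rfl
  rw [eL] at hmain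
  refine hmain.trans ?_
  have eR : ∫ z, (((1 + 12 * δ) *
      costD z (dR (2 * a)) (unif (2 * a) 1 x) + ∑ l ∈ Finset.range L,
      (-(1 - 18 * δ) * ((T l z + r * muD a l) ^ 2 / (x * ElD a l)) +
        8 * (T l z ^ 4 + r ^ 4) / ((x * ElD a l) ^ 3 * τ ^ 2))) +
      (∑ i, chi2 (2 * a) δ (z i) +
      (∫ y, chi2 (2 * a) δ y ∂(unif (2 * a) 1 x) +
        ∫ y, chi1 a δ y ∂(unif (2 * a) 1 x)))) ∂m =
      ((1 + 12 * δ) * eD n (2 * a) x + ∑ l ∈ Finset.range L,
      (-(1 - 18 * δ) * ((n * vaD a l + r ^ 2 * muD a l ^ 2) / (x * ElD a l)) +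
        8 * (∫ z, T l z ^ 4 ∂m + r ^ 4) / ((x * ElD a l) ^ 3 * τ ^ 2))) +
      (n * ∫ y, chi2 (2 * a) δ y ∂(U (2 * a)) +
      (∫ y, chi2 (2 * a) δ y ∂(unif (2 * a) 1 x) +
        ∫ y, chi1 a δ y ∂(unif (2 * a) 1 x))) := by
    rw [integral_add i34 ichi2, integral_add ic3 ims, integral_add ichi (integrable_const _),
      integral_const_mul, integral_finsetSum _ (fun l _ => im l),
      pi_mean (ι := Fin n) (U (2 * a)) (integrable_chi2 _ _ _)]
    congr 1
    · congr 1
      apply Finset.sum_congr rfl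
      intro l _
      have k1 : Integrable (fun z => -(1 - 18 * δ) *
          ((T l z + r * muD a l) ^ 2 / (x * ElD a l))) m := ((iY2 l).div_const _).const_mul _
      have k2 : Integrable (fun z => 8 * (T l z ^ 4 + r ^ 4) / ((x * ElD a l) ^ 3 * τ ^ 2)) m :=
        (((iT4 l).add (integrable_const _)).const_mul 8).div_const _
      rw [integral_add k1 k2, integral_const_mul,
        integral_div, integral_div, integral_const_mul, eY2,
        integral_add (iT4 l) (integrable_const _)]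
      simp
    · simp
  refine (le_of_eq eR).trans ?_
  have e2 : ∑ l ∈ Finset.range L,
      (-(1 - 18 * δ) * ((n * vaD a l + r ^ 2 * muD a l ^ 2) / (x * ElD a l)) +
        8 * (∫ z, T l z ^ 4 ∂m + r ^ 4) / ((x * ElD a l) ^ 3 * τ ^ 2)) ≤
      ∑ l ∈ Finset.range L,
      (-(1 - 18 * δ) * ((n * vaD a l + r ^ 2 * muD a l ^ 2) / (x * ElD a l)) +
        8 * (2400 * (n : ℝ) ^ 2 + r ^ 4) / ((x * ElD a l) ^ 3 * τ ^ 2)) := by
    apply Finset.sum_le_sum
    intro l _
    have hE := ElD_pos ha l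
    have := eT4 l
    gcongr
  linarith

end Pool.Agent.H969
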