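import Mathlib
import Pool.Agent.H969.DFix

/-! Thinning and similarity for the problem with exchange. -/

set_option autoImplicit false

open MeasureTheory
open scoped ENNReal NNReal

namespace Pool.Agent.H969

/-- Poisson average of the cost with exchange -/
noncomputable def bD (c x : ℝ) : ℝ := ∫ n, eD n c x ∂(P (x * c))

noncomputable def simF (a σ : ℝ) (y : ℝ × ℝ) : ℝ × ℝ :=
  ((1 - 2 * σ) * y.1 + a * σ, (1 - 2 * σ) * y.2 + σ)

noncomputable def simG (a σ : ℝ) (y : ℝ × ℝ) : ℝ × ℝ :=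
  ((y.1 - a * σ) / (1 - 2 * σ), (y.2 - σ) / (1 - 2 * σ))

theorem continuous_simF (a σ : ℝ) : Continuous (simF a σ) := by unfold simF; fun_prop

theorem continuous_simG (a σ : ℝ) : Continuous (simG a σ) := by unfold simG; fun_prop

theorem simG_simF {a σ : ℝ} (h : σ < 1 / 2) (y : ℝ × ℝ) : simG a σ (simF a σ y) = y := by
  have : (1 : ℝ) - 2 * σ ≠ 0 := by
    have : 0 < 1 - 2 * σ := by linarith
    exact this.ne'
  unfold simG simF
  ext
  · simp only; field_simp; ring
  · simp only; field_simp; ring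

theorem lint_aff {s b α : ℝ} (hs : 0 < s) (hα : 0 ≤ α) (G : ℝ → ℝ≥0∞) :
    ∫⁻ t in Set.Icc 0 α, G (s * t + b) =
      ENNReal.ofReal (1 / s) * ∫⁻ u in Set.Icc b (s * α + b), G u := by
  have h := lint_Icc (α := 0) (β := α) hα (f := fun t => s * t + b) (f' := fun _ => s)
    (fun t _ => by
      have := ((hasDerivAt_id t).const_mul s).add_const b
      simpa using this) (fun t _ => hs.le) G
  rw [mul_zero, zero_add] at h
  rw [← h, ← lintegral_const_mul' _ _ ENNReal.ofReal_ne_top]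
  congr 1
  ext t
  rw [← mul_assoc, ← ENNReal.ofReal_mul (by positivity), one_div_mul_cancel hs.ne',
    ENNReal.ofReal_one, one_mul]

theorem map_simF {a σ r : ℝ} (ha : 0 < a) (h : σ < 1 / 2) :
    (unif a 1 (r * (1 - 2 * σ) ^ 2)).map (simF a σ) = mQ a σ r := by
  have hs : 0 < 1 - 2 * σ := by linarith
  apply Measure.ext_of_lintegral
  intro F hF
  unfold unif mQ rect QQ
  rw [lintegral_map hF (continuous_simF a σ).measurable, lintegral_smul_measure,
    lintegral_smul_measure, smul_eq_mul, smul_eq_mul]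
  simp only [simF]
  rw [lint_prod _ _ (fun y : ℝ × ℝ => F ((1 - 2 * σ) * y.1 + a * σ, (1 - 2 * σ) * y.2 + σ))
    (by fun_prop), lint_prod _ _ _ hF]
  simp only
  have e1 : ∀ s : ℝ, ∫⁻ t in Set.Icc (0:ℝ) 1, F ((1 - 2 * σ) * s + a * σ, (1 - 2 * σ) * t + σ) =
      ENNReal.ofReal (1 / (1 - 2 * σ)) *
        ∫⁻ t in Set.Icc σ (1 - σ), F ((1 - 2 * σ) * s + a * σ, t) := fun s => by
    have := lint_aff (b := σ) hs zero_le_one (fun u => F ((1 - 2 * σ) * s + a * σ, u))
    rw [this, show (1 - 2 * σ) * 1 + σ = 1 - σ by ring]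
  simp_rw [e1]
  have e2 := lint_aff (b := a * σ) hs ha.le (fun v => ∫⁻ t in Set.Icc σ (1 - σ), F (v, t))
  have e3 : (1 - 2 * σ) * a + a * σ = a - a * σ := by ring
  rw [e3] at e2
  rw [lintegral_const_mul' _ _ ENNReal.ofReal_ne_top, e2, ← mul_assoc, ← mul_assoc]
  congr 1
  rw [mul_assoc, ← ENNReal.ofReal_mul (by positivity)]
  rcases le_or_gt 0 r with hr | hr
  · rw [← ENNReal.ofReal_mul (by positivity)]
    congr 1
    field_simp
  · rw [ENNReal.ofReal_of_nonpos hr.le, ENNReal.ofReal_of_nonpos (by nlinarith [sq_nonneg (1 - 2 * σ)]),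
      zero_mul]

theorem dR_simG {a σ : ℝ} (h : σ < 1 / 2) (y : ℝ × ℝ) :
    dR a (simG a σ y) = 1 / (1 - 2 * σ) * dC a σ y := by
  have hs : 0 < 1 - 2 * σ := by linarith
  have hs' : 0 ≤ 1 / (1 - 2 * σ) := by positivity
  unfold dR dC simG
  simp only
  have e1 : (y.1 - a * σ) / (1 - 2 * σ) = 1 / (1 - 2 * σ) * (y.1 - a * σ) := by ring
  have e2 : a - (y.1 - a * σ) / (1 - 2 * σ) = 1 / (1 - 2 * σ) * (a - a * σ - y.1) := by
    rw [one_div, ← div_eq_inv_mul, eq_div_iff hs.ne', sub_mul, div_mul_cancel₀ _ hs.ne']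
    ring
  have e3 : (y.2 - σ) / (1 - 2 * σ) = 1 / (1 - 2 * σ) * (y.2 - σ) := by ring
  have e4 : 1 - (y.2 - σ) / (1 - 2 * σ) = 1 / (1 - 2 * σ) * (1 - σ - y.2) := by
    rw [one_div, ← div_eq_inv_mul, eq_div_iff hs.ne', sub_mul, div_mul_cancel₀ _ hs.ne']
    ring
  rw [e2, e4, e1, e3, mul_max_of_nonneg _ _ hs', mul_min_of_nonneg _ _ hs',
    mul_min_of_nonneg _ _ hs', mul_min_of_nonneg _ _ hs', mul_zero]

theorem sqd_simG {a σ : ℝ} (h : σ < 1 / 2) (x y : ℝ × ℝ) :
    sqd (simG a σ x) (simG a σ y) = (1 / (1 - 2 * σ)) ^ 2 * sqd x y := by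
  have hs : 0 < 1 - 2 * σ := by linarith
  unfold sqd simG
  simp only
  field_simp
  ring

/-- uniform probability on the smaller rectangle -/
noncomputable def UQ (a σ : ℝ) : Measure (ℝ × ℝ) := (U a).map (simF a σ)

/-- the same outside -/
noncomputable def UR (a σ : ℝ) : Measure (ℝ × ℝ) :=
  ENNReal.ofReal (1 / (1 - (1 - 2 * σ) ^ 2 / 2)) • (U (2 * a)).restrict (QQ a σ)ᶜ

theorem UQ_eq {a σ : ℝ} (ha : 0 < a) (h : σ < 1 / 2) :
    UQ a σ = mQ a σ (1 / (a * (1 - 2 * σ) ^ 2)) := by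
  have hs : 0 < 1 - 2 * σ := by linarith
  rw [← map_simF ha h]
  unfold UQ U
  congr 2
  field_simp

theorem isProb_UQ {a σ : ℝ} (ha : 0 < a) : IsProbabilityMeasure (UQ a σ) := by
  have := isProb_U ha
  exact Measure.isProbabilityMeasure_map (continuous_simF a σ).measurable.aemeasurable

theorem U_restrict {a σ : ℝ} (ha : 0 < a) (hσ : 0 ≤ σ) (h : σ < 1 / 2) :
    (U (2 * a)).restrict (QQ a σ) = ENNReal.ofReal ((1 - 2 * σ) ^ 2 / 2) • UQ a σ := by
  have hs : 0 < 1 - 2 * σ := by linarith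
  rw [UQ_eq ha h]
  unfold U unif mQ
  rw [Measure.restrict_smul, Measure.restrict_restrict (measurableSet_QQ a σ), smul_smul,
    ← ENNReal.ofReal_mul (by positivity)]
  have e : QQ a σ ∩ rect (2 * a) 1 = QQ a σ := by
    apply Set.inter_eq_left.2
    rintro y ⟨⟨h1, h2⟩, ⟨h3, h4⟩⟩
    have : 0 ≤ a * σ := by positivity
    exact ⟨⟨by linarith, by linarith⟩, ⟨by linarith, by linarith⟩⟩
  rw [e]
  congr 2
  field_simp

theorem isProb_UR {a σ : ℝ} (ha : 0 < a) (hσ : 0 ≤ σ) (h : σ < 1 / 2) :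
    IsProbabilityMeasure (UR a σ) := by
  have p1 := isProb_U (c := 2 * a) (by positivity)
  have p2 := isProb_UQ (σ := σ) ha
  have hs : 0 < 1 - 2 * σ := by linarith
  have hs1 : (1 - 2 * σ) ^ 2 ≤ 1 := by nlinarith
  have hq : 0 < 1 - (1 - 2 * σ) ^ 2 / 2 := by linarith
  refine ⟨?_⟩
  unfold UR
  rw [Measure.smul_apply, Measure.restrict_apply_univ, prob_compl_eq_one_sub (measurableSet_QQ a σ)]
  have e1 : U (2 * a) (QQ a σ) = ENNReal.ofReal ((1 - 2 * σ) ^ 2 / 2) := by
    have := congrArg (fun m : Measure (ℝ × ℝ) => m Set.univ) (U_restrict ha hσ h)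
    simp only [Measure.restrict_apply_univ, Measure.smul_apply, measure_univ, smul_eq_mul,
      mul_one] at this
    exact this
  rw [e1, ← ENNReal.ofReal_one, ← ENNReal.ofReal_sub _ (by positivity), smul_eq_mul,
    ← ENNReal.ofReal_mul (by positivity), one_div_mul_cancel hq.ne']

theorem U_mix {a σ : ℝ} (ha : 0 < a) (hσ : 0 ≤ σ) (h : σ < 1 / 2) :
    U (2 * a) = ENNReal.ofReal ((1 - 2 * σ) ^ 2 / 2) • UQ a σ +
      ENNReal.ofReal (1 - (1 - 2 * σ) ^ 2 / 2) • UR a σ := by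
  have hs : 0 < 1 - 2 * σ := by linarith
  have hs1 : (1 - 2 * σ) ^ 2 ≤ 1 := by nlinarith
  have hq : 0 < 1 - (1 - 2 * σ) ^ 2 / 2 := by linarith
  rw [← U_restrict ha hσ h]
  unfold UR
  rw [smul_smul, ← ENNReal.ofReal_mul (by positivity), mul_one_div_cancel hq.ne',
    ENNReal.ofReal_one, one_smul, Measure.restrict_add_restrict_compl (measurableSet_QQ a σ)]

theorem UR_ae {a σ : ℝ} : ∀ᵐ y ∂(UR a σ), y ∉ QQ a σ := by
  unfold UR
  exact Measure.ae_smul_measure (ae_restrict_mem (measurableSet_QQ a σ).compl) _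

/-- expected cost in the smaller rectangle, points in the smaller rectangle -/
noncomputable def HC (n : ℕ) (a σ x : ℝ) : ℝ :=
  ∫ z, costD z (dC a σ) (mQ a σ x) ∂(Measure.pi fun _ : Fin n => UQ a σ)

theorem HC_nonneg {a σ : ℝ} (hσ : 0 ≤ σ) (n : ℕ) (x : ℝ) : 0 ≤ HC n a σ x :=
  integral_nonneg fun _ => (DD_C hσ).costD_nonneg _

theorem FC_nonneg {a σ : ℝ} (hσ : 0 ≤ σ) (n : ℕ) (x : ℝ) : 0 ≤ FC n a σ x :=
  integral_nonneg fun _ => (DD_C hσ).costD_nonneg _

theorem eD_nonneg (n : ℕ) (c x : ℝ) : 0 ≤ eD n c x :=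
  integral_nonneg fun _ => (DD_R c x).costD_nonneg _

theorem label_D {a σ x : ℝ} (ha : 0 < a) (hσ : 0 ≤ σ) (h : σ < 1 / 2) {n k l : ℕ}
    (S : Finset (Fin n)) (hk : S.card = k) (hl : n - S.card = l) :
    HC k a σ x ≤ ∫ z, costD z (dC a σ) (mQ a σ x)
      ∂(Measure.pi fun i => if i ∈ S then UQ a σ else UR a σ) := by
  have p1 := isProb_UQ (σ := σ) ha
  have p2 := isProb_UR ha hσ h
  have hDC := DD_C (a := a) (σ := σ) (x := x) hσ
  obtain ⟨e, h1, h2⟩ := exists_sort S hk hl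
  rw [← map_sort S (UQ a σ) (UR a σ) e h1 h2]
  have hm1 : Measurable (fun w : (Fin k → ℝ × ℝ) × (Fin l → ℝ × ℝ) => fun i =>
      Sum.elim w.1 w.2 (e.symm i)) := by
    apply measurable_pi_lambda
    intro i
    rcases e.symm i with a | b
    · exact (measurable_pi_apply a).comp measurable_fst
    · exact (measurable_pi_apply b).comp measurable_snd
  rw [integral_map hm1.aemeasurable hDC.measurable_costD.aestronglyMeasurable]
  have e1 : ∀ w : (Fin k → ℝ × ℝ) × (Fin l → ℝ × ℝ),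
      costD (fun i => Sum.elim w.1 w.2 (e.symm i)) (dC a σ) (mQ a σ x) =
      costD (Sum.elim w.1 w.2) (dC a σ) (mQ a σ x) := fun w => costD_comp e.symm _ _ _
  simp_rw [e1]
  have hm2 : Measurable (fun w : (Fin k → ℝ × ℝ) × (Fin l → ℝ × ℝ) => Sum.elim w.1 w.2) := by
    apply measurable_pi_lambda
    rintro (i | j)
    · exact (measurable_pi_apply i).comp measurable_fst
    · exact (measurable_pi_apply j).comp measurable_snd
  have e2 : HC k a σ x = ∫ w : (Fin k → ℝ × ℝ) × (Fin l → ℝ × ℝ),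
      costD w.1 (dC a σ) (mQ a σ x)
      ∂((Measure.pi fun _ : Fin k => UQ a σ).prod (Measure.pi fun _ : Fin l => UR a σ)) := by
    rw [int_fst _ _ (f := fun z : Fin k → ℝ × ℝ => costD z (dC a σ) (mQ a σ x))
      hDC.measurable_costD.aestronglyMeasurable]
    rfl
  rw [e2]
  apply integral_mono_ae
  · exact (hDC.integrable_costD _).comp_fst _
  · apply Integrable.of_bound (hDC.measurable_costD.comp hm2).aestronglyMeasurable
      (Fintype.card (Fin k ⊕ Fin l) * 1 + ∫ y, dC a σ y ^ 2 ∂(mQ a σ x))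
    refine Filter.Eventually.of_forall fun w => ?_
    simp only [Function.comp_apply]
    rw [Real.norm_eq_abs, abs_of_nonneg (hDC.costD_nonneg _)]
    exact hDC.costD_le_crude _
  · have hae := (Measure.quasiMeasurePreserving_snd (μ := Measure.pi fun _ : Fin k => UQ a σ)
      (ν := Measure.pi fun _ : Fin l => UR a σ)).ae (ae_pi (ι := Fin l) (UR a σ) UR_ae)
    filter_upwards [hae] with w hw
    apply hDC.costD_drop
    intro j
    refine Filter.Eventually.of_forall fun y => ?_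
    unfold kd
    rw [dC_zero (hw j)]
    have := dC_out (z := y) (hw j)
    have e3 : sqd (w.2 j) y = sqd y (w.2 j) := by unfold sqd; ring
    rw [e3]
    simp only [ne_eq, OfNat.ofNat_ne_zero, not_false_eq_true, zero_pow, sub_zero]
    linarith

theorem FC_ge {a σ x : ℝ} (ha : 0 < a) (hσ : 0 ≤ σ) (h : σ < 1 / 2) (n : ℕ) :
    ∑ y ∈ Finset.HasAntidiagonal.antidiagonal n,
      ((n.choose y.1 : ℝ) * ((1 - 2 * σ) ^ 2 / 2) ^ y.1 * (1 - (1 - 2 * σ) ^ 2 / 2) ^ y.2) *
        HC y.1 a σ x ≤ FC n a σ x := by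
  have p1 := isProb_UQ (σ := σ) ha
  have p2 := isProb_UR ha hσ h
  have hDC := DD_C (a := a) (σ := σ) (x := x) hσ
  have hs : 0 < 1 - 2 * σ := by linarith
  have hs1 : (1 - 2 * σ) ^ 2 ≤ 1 := by nlinarith
  have hq : 0 < 1 - (1 - 2 * σ) ^ 2 / 2 := by linarith
  have hp : 0 < (1 - 2 * σ) ^ 2 / 2 := by positivity
  have f3 : ∀ (S : Finset (Fin n)) (i : Fin n), IsProbabilityMeasure
      (if i ∈ S then UQ a σ else UR a σ) := by
    intro S i
    split_ifs <;> infer_instance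
  have hI : ∀ S : Finset (Fin n), Integrable (fun z : Fin n → ℝ × ℝ =>
      costD z (dC a σ) (mQ a σ x))
      (Measure.pi fun i => if i ∈ S then UQ a σ else UR a σ) := fun S =>
    hDC.integrable_costD _
  unfold FC
  rw [U_mix ha hσ h, pi_mix _ _ _ _ ENNReal.ofReal_ne_top ENNReal.ofReal_ne_top,
    integral_finsetSum_measure]
  · have e2 := Finset.sum_powerset_apply_card (fun k => ((1 - 2 * σ) ^ 2 / 2) ^ k *
      (1 - (1 - 2 * σ) ^ 2 / 2) ^ (n - k) * HC k a σ x) (x := (Finset.univ : Finset (Fin n)))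
    rw [Finset.powerset_univ, Finset.card_univ, Fintype.card_fin] at e2
    rw [Finset.Nat.sum_antidiagonal_eq_sum_range_succ_mk]
    have e3 : ∑ k ∈ Finset.range n.succ, ((n.choose (k, n - k).1 : ℝ) *
        ((1 - 2 * σ) ^ 2 / 2) ^ (k, n - k).1 *
        (1 - (1 - 2 * σ) ^ 2 / 2) ^ (k, n - k).2) * HC (k, n - k).1 a σ x =
        ∑ m ∈ Finset.range (n + 1), n.choose m • (((1 - 2 * σ) ^ 2 / 2) ^ m *
          (1 - (1 - 2 * σ) ^ 2 / 2) ^ (n - m) * HC m a σ x) := by
      apply Finset.sum_congr rfl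
      intro k _
      rw [nsmul_eq_mul]
      ring
    rw [e3, ← e2]
    apply Finset.sum_le_sum
    intro S _
    rw [integral_smul_measure, smul_eq_mul, ENNReal.toReal_mul, ENNReal.toReal_pow,
      ENNReal.toReal_pow, ENNReal.toReal_ofReal hp.le, ENNReal.toReal_ofReal hq.le]
    apply mul_le_mul_of_nonneg_left _ (by positivity)
    exact label_D ha hσ h S rfl rfl
  · intro S _
    exact (hI S).smul_measure (ENNReal.mul_ne_top (by finiteness) (by finiteness))

theorem eD_le (n : ℕ) {c : ℝ} (hc : 0 < c) (x : ℝ) :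
    eD n c x ≤ n + ∫ y, dR c y ^ 2 ∂(unif c 1 x) := by
  have p := isProb_U hc
  unfold eD
  calc _ ≤ ∫ _z, ((n : ℝ) + ∫ y, dR c y ^ 2 ∂(unif c 1 x)) ∂(Measure.pi fun _ : Fin n => U c) := by
        apply integral_mono ((DD_R c x).integrable_costD _) (integrable_const _)
        intro z
        have := (DD_R c x).costD_le_crude z
        rw [Fintype.card_fin, mul_one] at this
        exact this
    _ = _ := by simp

theorem FC_le (n : ℕ) {a σ : ℝ} (ha : 0 < a) (hσ : 0 ≤ σ) (x : ℝ) :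
    FC n a σ x ≤ n + ∫ y, dC a σ y ^ 2 ∂(mQ a σ x) := by
  have p := isProb_U (c := 2 * a) (by positivity)
  unfold FC
  calc _ ≤ ∫ _z, ((n : ℝ) + ∫ y, dC a σ y ^ 2 ∂(mQ a σ x))
        ∂(Measure.pi fun _ : Fin n => U (2 * a)) := by
        apply integral_mono ((DD_C hσ).integrable_costD _) (integrable_const _)
        intro z
        have := (DD_C (a := a) (x := x) hσ).costD_le_crude z
        rw [Fintype.card_fin, mul_one] at this
        exact this
    _ = _ := by simp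

theorem HC_le (n : ℕ) {a σ : ℝ} (ha : 0 < a) (hσ : 0 ≤ σ) (x : ℝ) :
    HC n a σ x ≤ n + ∫ y, dC a σ y ^ 2 ∂(mQ a σ x) := by
  have p := isProb_UQ (σ := σ) ha
  unfold HC
  calc _ ≤ ∫ _z, ((n : ℝ) + ∫ y, dC a σ y ^ 2 ∂(mQ a σ x))
        ∂(Measure.pi fun _ : Fin n => UQ a σ) := by
        apply integral_mono ((DD_C hσ).integrable_costD _) (integrable_const _)
        intro z
        have := (DD_C (a := a) (x := x) hσ).costD_le_crude z
        rw [Fintype.card_fin, mul_one] at this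
        exact this
    _ = _ := by simp

theorem integrable_of_le {r : ℝ} (hr : 0 ≤ r) {f : ℕ → ℝ} (h0 : ∀ n, 0 ≤ f n) {C : ℝ}
    (h : ∀ n, f n ≤ n + C) : Integrable f (P r) := by
  apply ((integrable_nat_P hr).add (integrable_const C)).mono'
    Measurable.of_discrete.aestronglyMeasurable
  refine Filter.Eventually.of_forall fun n => ?_
  rw [Real.norm_eq_abs, abs_of_nonneg (h0 n)]
  exact h n

theorem HC_ge {a σ x : ℝ} (ha : 0 < a) (hσ : 0 ≤ σ) (h : σ < 1 / 2) (n : ℕ) :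
    (1 - 2 * σ) ^ 2 * eD n a (x * (1 - 2 * σ) ^ 2) ≤ HC n a σ x := by
  have p := isProb_U ha
  have hs : 0 < 1 - 2 * σ := by linarith
  have hF := continuous_simF a σ
  have hG := continuous_simG a σ
  have hDC := DD_C (a := a) (σ := σ) (x := x) hσ
  have hDR := DD_R a (x * (1 - 2 * σ) ^ 2)
  have p3 : IsProbabilityMeasure ((U a).map (simF a σ)) :=
    Measure.isProbabilityMeasure_map hF.measurable.aemeasurable
  have hpm : (Measure.pi fun _ : Fin n => UQ a σ) =
      (Measure.pi fun _ : Fin n => U a).map (fun z i => simF a σ (z i)) :=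
    (Measure.pi_map_pi (f := fun _ : Fin n => simF a σ)
      (fun _ => hF.measurable.aemeasurable)).symm
  have hm2 : Measurable (fun z : Fin n → ℝ × ℝ => fun i => simF a σ (z i)) := by
    apply measurable_pi_lambda
    intro i
    exact hF.measurable.comp (measurable_pi_apply i)
  unfold HC eD
  rw [hpm, integral_map hm2.aemeasurable hDC.measurable_costD.aestronglyMeasurable,
    ← integral_const_mul]
  have hi1 : Integrable (fun z : Fin n → ℝ × ℝ => (1 - 2 * σ) ^ 2 *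
      costD z (dR a) (unif a 1 (x * (1 - 2 * σ) ^ 2))) (Measure.pi fun _ : Fin n => U a) :=
    (hDR.integrable_costD _).const_mul _
  have hi2 : Integrable (fun z : Fin n → ℝ × ℝ =>
      costD (fun i => simF a σ (z i)) (dC a σ) (mQ a σ x)) (Measure.pi fun _ : Fin n => U a) := by
    apply Integrable.of_bound (hDC.measurable_costD.comp hm2).aestronglyMeasurable
      (n * 1 + ∫ y, dC a σ y ^ 2 ∂(mQ a σ x))
    refine Filter.Eventually.of_forall fun z => ?_
    simp only [Function.comp_apply]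
    rw [Real.norm_eq_abs, abs_of_nonneg (hDC.costD_nonneg _)]
    have := hDC.costD_le_crude (fun i => simF a σ (z i))
    rwa [Fintype.card_fin] at this
  apply integral_mono hi1 hi2
  intro z
  simp only
  have hm : unif a 1 (x * (1 - 2 * σ) ^ 2) = (mQ a σ x).map (simG a σ) := by
    rw [← map_simF ha h, Measure.map_map hG.measurable hF.measurable]
    have : simG a σ ∘ simF a σ = id := by
      ext1 y
      exact simG_simF h y
    rw [this, Measure.map_id]
  have := hDC.costD_sim_le hDR hG (s := 1 / (1 - 2 * σ)) (sqd_simG h) (dR_simG h) hm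
    (fun i => simF a σ (z i))
  simp only [simG_simF h] at this
  have h2 : (1 - 2 * σ) ^ 2 * ((1 / (1 - 2 * σ)) ^ 2 *
      costD (fun i => simF a σ (z i)) (dC a σ) (mQ a σ x)) =
      costD (fun i => simF a σ (z i)) (dC a σ) (mQ a σ x) := by
    field_simp
  rw [← h2]
  exact mul_le_mul_of_nonneg_left this (by positivity)

/-- thinning -/
theorem thin {a σ x : ℝ} (ha : 0 < a) (hσ : 0 ≤ σ) (h : σ < 1 / 2) (hx : 0 ≤ x) :
    (1 - 2 * σ) ^ 2 * bD a (x * (1 - 2 * σ) ^ 2) ≤ ∫ n, FC n a σ x ∂(P (x * (2 * a))) := by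
  have hs : 0 < 1 - 2 * σ := by linarith
  have hs1 : (1 - 2 * σ) ^ 2 ≤ 1 := by nlinarith
  have hq : 0 < 1 - (1 - 2 * σ) ^ 2 / 2 := by linarith
  have hp : 0 < (1 - 2 * σ) ^ 2 / 2 := by positivity
  set r := x * (2 * a) with hr
  have hr0 : 0 ≤ r := by positivity
  have e1 : r * ((1 - 2 * σ) ^ 2 / 2) = x * (1 - 2 * σ) ^ 2 * a := by rw [hr]; ring
  have hr1 : 0 ≤ x * (1 - 2 * σ) ^ 2 * a := by positivity
  have hsplit := poisson_split (r := r) (p := (1 - 2 * σ) ^ 2 / 2)
    (q := 1 - (1 - 2 * σ) ^ 2 / 2) hr0 hp.le hq.le (by ring)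
    (fun k _ => ENNReal.ofReal (HC k a σ x))
  simp only [lintegral_const, measure_univ, mul_one] at hsplit
  rw [e1] at hsplit
  have iH : Integrable (fun n => HC n a σ x) (P (x * (1 - 2 * σ) ^ 2 * a)) :=
    integrable_of_le hr1 (fun n => HC_nonneg hσ n x) (fun n => HC_le n ha hσ x)
  have iF : Integrable (fun n => FC n a σ x) (P r) :=
    integrable_of_le hr0 (fun n => FC_nonneg hσ n x) (fun n => FC_le n ha hσ x)
  have ie : Integrable (fun n => eD n a (x * (1 - 2 * σ) ^ 2)) (P (x * (1 - 2 * σ) ^ 2 * a)) :=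
    integrable_of_le hr1 (fun n => eD_nonneg n _ _) (fun n => eD_le n ha _)
  have k1 : (1 - 2 * σ) ^ 2 * bD a (x * (1 - 2 * σ) ^ 2) ≤
      ∫ n, HC n a σ x ∂(P (x * (1 - 2 * σ) ^ 2 * a)) := by
    unfold bD
    rw [← integral_const_mul]
    exact integral_mono (ie.const_mul _) iH (fun n => HC_ge ha hσ h n)
  refine k1.trans ?_
  rw [← ENNReal.ofReal_le_ofReal_iff (integral_nonneg fun n => FC_nonneg hσ n x),
    ofReal_integral_eq_lintegral_ofReal iH (Filter.Eventually.of_forall fun n => HC_nonneg hσ n x),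
    ofReal_integral_eq_lintegral_ofReal iF (Filter.Eventually.of_forall fun n => FC_nonneg hσ n x),
    ← hsplit]
  apply lintegral_mono
  intro n
  have hn := FC_ge (x := x) ha hσ h n
  refine le_trans ?_ (ENNReal.ofReal_le_ofReal hn)
  have hw : ∀ y : ℕ × ℕ, 0 ≤ (n.choose y.1 : ℝ) * ((1 - 2 * σ) ^ 2 / 2) ^ y.1 *
      (1 - (1 - 2 * σ) ^ 2 / 2) ^ y.2 := fun y =>
    mul_nonneg (by positivity) (pow_nonneg hq.le _)
  rw [ENNReal.ofReal_sum_of_nonneg]
  · apply Finset.sum_le_sum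
    intro y _
    rw [ENNReal.ofReal_mul (hw y)]
  · intro y _
    exact mul_nonneg (hw y) (HC_nonneg (a := a) hσ y.1 x)

end Pool.Agent.H969
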