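import Mathlib
import Pool.Agent.H969.DThin

/-! The basic inequality for the problem with exchange. -/

set_option autoImplicit false

open MeasureTheory
open scoped ENNReal NNReal

namespace Pool.Agent.H969

theorem one_le_ElD {a : ℝ} (ha : 0 < a) (l : ℕ) : 1 ≤ ElD a l := by
  have hk := kap_pos l
  have hS : 0 < Real.sinh (kap l * a) := Real.sinh_pos_iff.2 (by positivity)
  have hct : 1 ≤ ct a l := by
    unfold ct
    rw [one_le_div hS]
    exact (Real.sinh_lt_cosh _).le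
  have := one_le_kap l
  unfold ElD
  nlinarith

theorem unif_eq_U {c x : ℝ} (hc : 0 < c) (hx : 0 ≤ x) :
    unif c 1 x = ENNReal.ofReal (x * c) • U c := by
  unfold U unif
  rw [smul_smul, ← ENNReal.ofReal_mul (by positivity)]
  congr 2
  field_simp

theorem unif_integral {c x : ℝ} (hc : 0 < c) (hx : 0 ≤ x) (f : ℝ × ℝ → ℝ) :
    ∫ y, f y ∂(unif c 1 x) = (x * c) * ∫ y, f y ∂(U c) := by
  rw [unif_eq_U hc hx, integral_smul_measure, ENNReal.toReal_ofReal (by positivity), smul_eq_mul]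

theorem unif_apply_le {c x V : ℝ} (hx : 0 ≤ x) {S T : Set (ℝ × ℝ)} (hS : MeasurableSet S)
    (hsub : S ∩ rect c 1 ⊆ T) (hT : volume T ≤ ENNReal.ofReal V) (hV : 0 ≤ V) :
    ((unif c 1 x) S).toReal ≤ x * V := by
  have h : (unif c 1 x) S ≤ ENNReal.ofReal (x * V) := by
    unfold unif
    rw [Measure.smul_apply, Measure.restrict_apply hS, smul_eq_mul, ENNReal.ofReal_mul hx]
    gcongr
    exact (measure_mono hsub).trans hT
  have := ENNReal.toReal_mono ENNReal.ofReal_ne_top h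
  rwa [ENNReal.toReal_ofReal (by positivity)] at this

theorem vol_box (a1 a2 b1 b2 : ℝ) :
    volume (Set.Icc a1 a2 ×ˢ Set.Icc b1 b2 : Set (ℝ × ℝ)) =
      ENNReal.ofReal (a2 - a1) * ENNReal.ofReal (b2 - b1) := by
  rw [Measure.volume_eq_prod, Measure.prod_prod, Real.volume_Icc, Real.volume_Icc]

theorem chi2_int {a δ x : ℝ} (ha : 0 < a) (ha1 : a ≤ 1) (hδ : 0 ≤ δ) (hx : 0 ≤ x) :
    ∫ y, chi2 (2 * a) δ y ∂(unif (2 * a) 1 x) ≤ 12 * x * δ ^ 3 := by
  have hS : MeasurableSet {y : ℝ × ℝ | dR (2 * a) y < 2 * δ} :=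
    measurableSet_lt (continuous_dR (2 * a)).measurable measurable_const
  have e : chi2 (2 * a) δ = {y : ℝ × ℝ | dR (2 * a) y < 2 * δ}.indicator (fun _ => δ ^ 2) := by
    ext y
    unfold chi2
    by_cases h : dR (2 * a) y < 2 * δ
    · rw [if_pos h, Set.indicator_of_mem (show y ∈ {y : ℝ × ℝ | dR (2 * a) y < 2 * δ} from h)]
    · rw [if_neg h, Set.indicator_of_notMem
        (show y ∉ {y : ℝ × ℝ | dR (2 * a) y < 2 * δ} from h)]
  rw [e, integral_indicator_const _ hS, smul_eq_mul, Measure.real]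
  have hT := unif_apply_le (c := 2 * a) (x := x) (V := 12 * δ) hx hS
    (T := (Set.Icc 0 (2 * δ) ×ˢ Set.Icc 0 1) ∪ (Set.Icc (2 * a - 2 * δ) (2 * a) ×ˢ Set.Icc 0 1) ∪
      (Set.Icc 0 (2 * a) ×ˢ Set.Icc 0 (2 * δ)) ∪ (Set.Icc 0 (2 * a) ×ˢ Set.Icc (1 - 2 * δ) 1))
    ?_ ?_ (by positivity)
  · calc _ ≤ (x * (12 * δ)) * δ ^ 2 := mul_le_mul_of_nonneg_right hT (sq_nonneg _)
      _ = _ := by ring
  · rintro y ⟨h1, ⟨⟨h2, h3⟩, ⟨h4, h5⟩⟩⟩
    have h1' : dR (2 * a) y < 2 * δ := h1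
    unfold dR at h1'
    rw [max_lt_iff, min_lt_iff, min_lt_iff, min_lt_iff] at h1'
    rcases h1'.2 with (h | h) | (h | h)
    · left; left; left
      exact ⟨⟨h2, h.le⟩, ⟨h4, h5⟩⟩
    · left; left; right
      exact ⟨⟨by linarith, h3⟩, ⟨h4, h5⟩⟩
    · left; right
      exact ⟨⟨h2, h3⟩, ⟨h4, h.le⟩⟩
    · right
      exact ⟨⟨h2, h3⟩, ⟨by linarith, h5⟩⟩
  · refine (measure_union_le _ _).trans ?_
    refine (add_le_add (measure_union_le _ _) le_rfl).trans ?_
    refine (add_le_add (add_le_add (measure_union_le _ _) le_rfl) le_rfl).trans ?_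
    rw [vol_box, vol_box, vol_box, vol_box]
    rw [← ENNReal.ofReal_mul (by linarith), ← ENNReal.ofReal_mul (by linarith),
      ← ENNReal.ofReal_mul (by linarith), ← ENNReal.ofReal_mul (by linarith),
      ← ENNReal.ofReal_add (by nlinarith) (by nlinarith),
      ← ENNReal.ofReal_add (by nlinarith) (by nlinarith),
      ← ENNReal.ofReal_add (by nlinarith) (by nlinarith)]
    apply ENNReal.ofReal_le_ofReal
    nlinarith

theorem chi1_int {a δ x : ℝ} (hδ : 0 ≤ δ) (hx : 0 ≤ x) :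
    ∫ y, chi1 a δ y ∂(unif (2 * a) 1 x) ≤ 12 * x * δ ^ 3 := by
  have hS : MeasurableSet {y : ℝ × ℝ | |y.1 - a| < 3 * δ} :=
    measurableSet_lt (by fun_prop) measurable_const
  have e : chi1 a δ = {y : ℝ × ℝ | |y.1 - a| < 3 * δ}.indicator (fun _ => 2 * δ ^ 2) := by
    ext y
    unfold chi1
    by_cases h : |y.1 - a| < 3 * δ
    · rw [if_pos h, Set.indicator_of_mem (show y ∈ {y : ℝ × ℝ | |y.1 - a| < 3 * δ} from h)]
    · rw [if_neg h, Set.indicator_of_notMem
        (show y ∉ {y : ℝ × ℝ | |y.1 - a| < 3 * δ} from h)]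
  rw [e, integral_indicator_const _ hS, smul_eq_mul, Measure.real]
  have hT := unif_apply_le (c := 2 * a) (x := x) (V := 6 * δ) hx hS
    (T := (Set.Icc (a - 3 * δ) (a + 3 * δ) ×ˢ Set.Icc 0 1)) ?_ ?_ (by positivity)
  · calc _ ≤ (x * (6 * δ)) * (2 * δ ^ 2) := mul_le_mul_of_nonneg_right hT (by positivity)
      _ = _ := by ring
  · rintro y ⟨h1, ⟨⟨h2, h3⟩, ⟨h4, h5⟩⟩⟩
    have h1' : |y.1 - a| < 3 * δ := h1
    rw [abs_lt] at h1'
    exact ⟨⟨by linarith, by linarith⟩, ⟨h4, h5⟩⟩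
  · rw [vol_box, ← ENNReal.ofReal_mul (by linarith)]
    apply ENNReal.ofReal_le_ofReal
    linarith

/-- the basic inequality -/
theorem lower_raw {a x δ σ τ : ℝ} {L : ℕ} (ha : 0 < a) (ha1 : a ≤ 1) (hx : 1 ≤ x * (2 * a))
    (hδ : δ ≤ 1 / 20) (h1 : 4 * δ ≤ a * σ) (h2 : 4 * δ ≤ σ) (hσ2 : σ < 1 / 2) (hτ : 0 < τ)
    (hle : τ * ∑ l ∈ Finset.range L, kap l ^ 2 * ct a l ≤ δ) :
    2 * ((1 - 2 * σ) ^ 2 * bD a (x * (1 - 2 * σ) ^ 2)) ≤ (1 + 12 * δ) * bD (2 * a) x -
      (1 - 18 * δ) * ∑ l ∈ Finset.range L, gainD a l + 160000 * L / (x * τ ^ 2) +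
      36 * x * δ ^ 3 := by
  have hx0 : 0 < x := by
    by_contra h
    push Not at h
    nlinarith
  have hS0 : 0 ≤ ∑ l ∈ Finset.range L, kap l ^ 2 * ct a l :=
    Finset.sum_nonneg fun l _ => mul_nonneg (sq_nonneg _) (ct_pos ha l).le
  have hδ0 : 0 ≤ δ := le_trans (mul_nonneg hτ.le hS0) hle
  have hσ : 0 ≤ σ := by linarith
  set r := x * (2 * a) with hr
  have hr0 : 0 ≤ r := by linarith
  have hth := thin ha hσ hσ2 hx0.le
  have iF : Integrable (fun n => FC n a σ x) (P r) :=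
    integrable_of_le hr0 (fun n => FC_nonneg hσ n x) (fun n => FC_le n ha hσ x)
  have ie : Integrable (fun n => eD n (2 * a) x) (P r) :=
    integrable_of_le hr0 (fun n => eD_nonneg n _ _) (fun n => eD_le n (by positivity) _)
  have in1 := integrable_nat_P hr0
  have ir2 := integrable_sub_P hr0 2 r
  have ir4 := integrable_sub_P hr0 4 r
  have in2 : Integrable (fun n : ℕ => (n : ℝ) ^ 2) (P r) := by
    simpa using integrable_pow_P hr0 2 0
  have m2 : ∫ n : ℕ, ((n : ℝ) - r) ^ 2 ∂(P r) = r := Mo_two hr0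
  have m4 : ∫ n : ℕ, ((n : ℝ) - r) ^ 4 ∂(P r) = 3 * r ^ 2 + r := Mo_four hr0
  have mn2 : ∫ n : ℕ, (n : ℝ) ^ 2 ∂(P r) = r ^ 2 + r := by
    have e : ∀ n : ℕ, (n : ℝ) ^ 2 = ((n : ℝ) - r) ^ 2 + (2 * r * n - r ^ 2) := fun n => by ring
    simp_rw [e]
    have j : Integrable (fun n : ℕ => 2 * r * (n : ℝ) - r ^ 2) (P r) :=
      (in1.const_mul _).sub (integrable_const _)
    rw [integral_add ir2 j, m2, integral_sub (in1.const_mul _) (integrable_const _),
      integral_const_mul, mean_P hr0]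
    simp
    ring
  have i1 : Integrable (fun n => (1 + 12 * δ) * eD n (2 * a) x) (P r) := ie.const_mul _
  have ia : ∀ l, Integrable (fun n : ℕ => (n * vaD a l + ((n : ℝ) - r) ^ 2 *
        muD a l ^ 2)) (P r) := fun l => (in1.mul_const _).add (ir2.mul_const _)
  have ib : Integrable (fun n : ℕ => 2400 * (n : ℝ) ^ 2 + ((n : ℝ) - r) ^ 4) (P r) :=
    (in2.const_mul _).add ir4
  have il : ∀ l, Integrable (fun n : ℕ => (-(1 - 18 * δ) * ((n * vaD a l + ((n : ℝ) - r) ^ 2 *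
        muD a l ^ 2) / (x * ElD a l)) +
        8 * (2400 * (n : ℝ) ^ 2 + ((n : ℝ) - r) ^ 4) / ((x * ElD a l) ^ 3 * τ ^ 2))) (P r) :=
    fun l => (((ia l).div_const _).const_mul _).add ((ib.const_mul 8).div_const _)
  have i2 : Integrable (fun n : ℕ => ∑ l ∈ Finset.range L,
      (-(1 - 18 * δ) * ((n * vaD a l + ((n : ℝ) - r) ^ 2 *
        muD a l ^ 2) / (x * ElD a l)) +
        8 * (2400 * (n : ℝ) ^ 2 + ((n : ℝ) - r) ^ 4) / ((x * ElD a l) ^ 3 * τ ^ 2))) (P r) :=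
    integrable_finsetSum _ fun l _ => il l
  have i12 : Integrable (fun n : ℕ => (1 + 12 * δ) * eD n (2 * a) x + ∑ l ∈ Finset.range L,
      (-(1 - 18 * δ) * ((n * vaD a l + ((n : ℝ) - r) ^ 2 *
        muD a l ^ 2) / (x * ElD a l)) +
        8 * (2400 * (n : ℝ) ^ 2 + ((n : ℝ) - r) ^ 4) / ((x * ElD a l) ^ 3 * τ ^ 2))) (P r) :=
    i1.add i2
  have ic1 : Integrable (fun n : ℕ => n * ∫ y, chi2 (2 * a) δ y ∂(U (2 * a))) (P r) :=
    in1.mul_const _
  have ic2 : Integrable (fun n : ℕ => n * ∫ y, chi2 (2 * a) δ y ∂(U (2 * a)) +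
      ∫ y, chi2 (2 * a) δ y ∂(unif (2 * a) 1 x)) (P r) := ic1.add (integrable_const _)
  have ic3 : Integrable (fun n : ℕ => n * ∫ y, chi2 (2 * a) δ y ∂(U (2 * a)) +
      ∫ y, chi2 (2 * a) δ y ∂(unif (2 * a) 1 x) + ∫ y, chi1 a δ y ∂(unif (2 * a) 1 x)) (P r) :=
    ic2.add (integrable_const _)
  have hmono := integral_mono (iF.const_mul 2) (i12.add ic3)
    (fun n => fixed_D (n := n) ha hx0 hδ h1 h2 hτ hle)
  rw [integral_const_mul] at hmono
  have hR : ∫ n : ℕ, (((1 + 12 * δ) * eD n (2 * a) x + ∑ l ∈ Finset.range L,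
      (-(1 - 18 * δ) * ((n * vaD a l + ((n : ℝ) - r) ^ 2 *
        muD a l ^ 2) / (x * ElD a l)) +
        8 * (2400 * (n : ℝ) ^ 2 + ((n : ℝ) - r) ^ 4) / ((x * ElD a l) ^ 3 * τ ^ 2))) +
      (n * ∫ y, chi2 (2 * a) δ y ∂(U (2 * a)) +
      ∫ y, chi2 (2 * a) δ y ∂(unif (2 * a) 1 x) + ∫ y, chi1 a δ y ∂(unif (2 * a) 1 x))) ∂(P r) =
      ((1 + 12 * δ) * bD (2 * a) x + ∑ l ∈ Finset.range L,
      (-(1 - 18 * δ) * gainD a l +
        8 * (2400 * (r ^ 2 + r) + (3 * r ^ 2 + r)) / ((x * ElD a l) ^ 3 * τ ^ 2))) +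
      (r * ∫ y, chi2 (2 * a) δ y ∂(U (2 * a)) +
      ∫ y, chi2 (2 * a) δ y ∂(unif (2 * a) 1 x) + ∫ y, chi1 a δ y ∂(unif (2 * a) 1 x)) := by
    rw [integral_add i12 ic3, integral_add i1 i2, integral_add ic2 (integrable_const _),
      integral_add ic1 (integrable_const _), integral_const_mul,
      integral_finsetSum _ (fun l _ => il l), integral_mul_const, mean_P hr0]
    congr 1
    · congr 1
      apply Finset.sum_congr rfl
      intro l _
      have hE := ElD_pos ha l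
      have k1 : Integrable (fun n : ℕ => -(1 - 18 * δ) * ((n * vaD a l + ((n : ℝ) - r) ^ 2 *
        muD a l ^ 2) / (x * ElD a l))) (P r) := ((ia l).div_const _).const_mul _
      have k2 : Integrable (fun n : ℕ => 8 * (2400 * (n : ℝ) ^ 2 + ((n : ℝ) - r) ^ 4) /
        ((x * ElD a l) ^ 3 * τ ^ 2)) (P r) := (ib.const_mul 8).div_const _
      rw [integral_add k1 k2, integral_const_mul, integral_div, integral_div, integral_const_mul,
        integral_add (in1.mul_const _) (ir2.mul_const _), integral_mul_const, integral_mul_const,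
        integral_add (in2.const_mul _) ir4, integral_const_mul, mn2, m4, m2, mean_P hr0]
      congr 2
      unfold gainD
      rw [sD_eq ha, hr]
      field_simp
    · simp
  have hmono2 := hmono.trans (le_of_eq hR)
  rw [Finset.sum_add_distrib, ← Finset.mul_sum, ← unif_integral (by positivity) hx0.le] at hmono2
  have hc2 := chi2_int ha ha1 hδ0 hx0.le
  have hc1 := chi1_int (a := a) hδ0 hx0.le
  have herr : ∑ l ∈ Finset.range L, 8 * (2400 * (r ^ 2 + r) + (3 * r ^ 2 + r)) /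
      ((x * ElD a l) ^ 3 * τ ^ 2) ≤ 160000 * L / (x * τ ^ 2) := by
    calc _ ≤ ∑ _l ∈ Finset.range L, 160000 / (x * τ ^ 2) := by
          apply Finset.sum_le_sum
          intro l _
          have hE := one_le_ElD ha l
          have hE3 : 1 ≤ ElD a l ^ 3 := one_le_pow₀ hE
          have hnum : 8 * (2400 * (r ^ 2 + r) + (3 * r ^ 2 + r)) ≤ 160000 * x ^ 2 := by
            have hrr : r ≤ r ^ 2 := by nlinarith
            have hr2 : r ^ 2 ≤ 4 * x ^ 2 := by
              rw [hr]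
              have : a ^ 2 ≤ 1 := by nlinarith
              calc (x * (2 * a)) ^ 2 = 4 * x ^ 2 * a ^ 2 := by ring
                _ ≤ 4 * x ^ 2 * 1 := mul_le_mul_of_nonneg_left this (by positivity)
                _ = _ := by ring
            nlinarith
          rw [div_le_div_iff₀ (by positivity) (by positivity)]
          calc 8 * (2400 * (r ^ 2 + r) + (3 * r ^ 2 + r)) * (x * τ ^ 2)
              ≤ (160000 * x ^ 2) * (x * τ ^ 2) := by gcongr
            _ = 160000 * (x ^ 3 * τ ^ 2 * 1) := by ring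
            _ ≤ 160000 * (x ^ 3 * τ ^ 2 * ElD a l ^ 3) := by gcongr
            _ = _ := by ring
      _ = _ := by
          rw [Finset.sum_const, Finset.card_range, nsmul_eq_mul]
          ring
  linarith

end Pool.Agent.H969
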