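import Mathlib
import Pool.Agent.H969.Fixed

/-! The map exchanging the variables. -/

set_option autoImplicit false

open MeasureTheory
open scoped ENNReal NNReal Real

namespace Pool.Agent.H969

/-- swap and scale -/
noncomputable def swp (c : ℝ) (hc : 0 < c) : (ℝ × ℝ) ≃ₜ (ℝ × ℝ) where
  toFun y := (y.2 / c, y.1 / c)
  invFun y := (y.2 * c, y.1 * c)
  left_inv y := by ext <;> simp [hc.ne']
  right_inv y := by ext <;> simp [hc.ne']
  continuous_toFun := by fun_prop
  continuous_invFun := by fun_prop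

theorem swp_apply (c : ℝ) (hc : 0 < c) (y : ℝ × ℝ) : swp c hc y = (y.2 / c, y.1 / c) := rfl

theorem lint_scale {c α : ℝ} (hc : 0 < c) (hα : 0 ≤ α) (G : ℝ → ℝ≥0∞) :
    ∫⁻ t in Set.Icc 0 α, G (t / c) = ENNReal.ofReal c * ∫⁻ t in Set.Icc 0 (α / c), G t := by
  have h := lint_Icc (α := 0) (β := α) hα (f := fun t => t / c) (f' := fun _ => 1 / c)
    (fun t _ => (hasDerivAt_id t).div_const c) (fun t _ => by positivity) G
  rw [zero_div] at h
  rw [← h, ← lintegral_const_mul' _ _ ENNReal.ofReal_ne_top]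
  congr 1
  ext t
  rw [← mul_assoc, ← ENNReal.ofReal_mul hc.le, mul_one_div_cancel hc.ne', ENNReal.ofReal_one,
    one_mul]

theorem map_swp {c r : ℝ} (hc : 0 < c) (hr : 0 ≤ r) :
    (unif c 1 r).map (swp c hc) = unif (1 / c) 1 (r * c ^ 2) := by
  apply Measure.ext_of_lintegral
  intro F hF
  unfold unif rect
  rw [lintegral_map hF (swp c hc).continuous.measurable, lintegral_smul_measure,
    lintegral_smul_measure, smul_eq_mul, smul_eq_mul]
  simp only [swp_apply]
  rw [lint_prod _ _ (fun y : ℝ × ℝ => F (y.2 / c, y.1 / c)) (by fun_prop), lint_prod' _ _ _ hF]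
  simp only
  have e1 : ∀ s : ℝ, ∫⁻ t in Set.Icc (0:ℝ) 1, F (t / c, s / c) =
      ENNReal.ofReal c * ∫⁻ t in Set.Icc 0 (1 / c), F (t, s / c) := fun s =>
    lint_scale hc zero_le_one (fun u => F (u, s / c))
  simp_rw [e1]
  rw [lintegral_const_mul' _ _ ENNReal.ofReal_ne_top,
    lint_scale hc hc.le (fun v => ∫⁻ t in Set.Icc 0 (1 / c), F (t, v)), div_self hc.ne',
    ← mul_assoc, ← mul_assoc]
  congr 1
  rw [mul_assoc, ← ENNReal.ofReal_mul hc.le, ← ENNReal.ofReal_mul hr]
  congr 1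
  ring

theorem exists_plan_unif {n : ℕ} {c : ℝ} (hc : 0 < c) :
    ∃ p : Fin n → Measure (ℝ × ℝ), IsPlan (unif c 1 (n / c)) p := by
  rcases Nat.eq_zero_or_pos n with h | h
  · subst h
    refine ⟨fun _ => 0, ⟨fun i => i.elim0, ?_⟩⟩
    simp [unif]
  · have : Nonempty (Fin n) := ⟨⟨0, h⟩⟩
    apply exists_plan
    rw [unif_univ hc.le (by positivity), mul_one, div_mul_cancel₀ _ hc.ne',
      ENNReal.ofReal_natCast, Fintype.card_fin]

end Pool.Agent.H969
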