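import Mathlib
import Pool.Agent.H969.DefN

/-! Explicit sums. -/

set_option autoImplicit false

open Filter Topology
open scoped Real

namespace Pool.Agent.H969

theorem coth_tendsto {y : ℝ} (hy : 0 < y) :
    Tendsto (fun n : ℕ => ∑ j ∈ Finset.range n, 2 * y / (y ^ 2 + ((j : ℝ) + 1) ^ 2)) atTop
      (𝓝 (π * (Real.cosh (π * y) / Real.sinh (π * y)) - 1 / y)) := by
  have hx : (y * Complex.I : ℂ) ∈ Complex.integerComplement := by
    rintro ⟨n, hn⟩
    have := congrArg Complex.im hn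
    simp at this
    exact hy.ne' this.symm
  have h := tendsto_logDeriv_euler_cot_sub hx
  have hS : Real.sinh (π * y) ≠ 0 := (Real.sinh_pos_iff.2 (by positivity)).ne'
  have e1 : ∀ j : ℕ, cotTerm (y * Complex.I) j =
      -Complex.I * ((2 * y / (y ^ 2 + ((j : ℝ) + 1) ^ 2) : ℝ) : ℂ) := by
    intro j
    rw [cotTerm_identity hx]
    have h1 : ((y : ℂ) ^ 2 + ((j : ℂ) + 1) ^ 2) ≠ 0 := by
      have : (y ^ 2 + ((j : ℝ) + 1) ^ 2 : ℝ) ≠ 0 := by positivity
      exact_mod_cast this
    have h2 : ((y : ℂ) * Complex.I + (j + 1)) * (y * Complex.I - (j + 1)) =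
        -((y : ℂ) ^ 2 + ((j : ℂ) + 1) ^ 2) := by
      ring_nf
      rw [Complex.I_sq]
      ring
    rw [h2]
    push_cast
    field_simp
  have e2 : (π * Complex.cot (π * (y * Complex.I)) - 1 / (y * Complex.I) : ℂ) =
      -Complex.I * ((π * (Real.cosh (π * y) / Real.sinh (π * y)) - 1 / y : ℝ) : ℂ) := by
    have hS' : Complex.sinh (π * y) ≠ 0 := by exact_mod_cast hS
    have hy' : (y : ℂ) ≠ 0 := by exact_mod_cast hy.ne'
    rw [Complex.cot, ← mul_assoc, Complex.cos_mul_I, Complex.sin_mul_I]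
    push_cast
    field_simp
    ring_nf
    rw [Complex.I_sq]
    ring
  simp_rw [e1] at h
  rw [e2] at h
  simp_rw [← Finset.mul_sum] at h
  have h3 := h.const_mul Complex.I
  simp_rw [← mul_assoc] at h3
  have e3 : Complex.I * -Complex.I = 1 := by
    rw [mul_neg, Complex.I_mul_I, neg_neg]
  simp_rw [e3, one_mul] at h3
  have h4 := (Complex.continuous_re.tendsto _).comp h3
  simp only [Function.comp_def, Complex.ofReal_re] at h4
  refine h4.congr fun n => ?_
  rw [← Complex.ofReal_sum, Complex.ofReal_re]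

/-- Dirichlet summand -/
noncomputable def psi (c : ℝ) (l : ℕ) : ℝ := c / (2 * kap l) * ct c l - 1 / (2 * kap l ^ 2)

/-- the kernel -/
noncomputable def gk (s t : ℝ) : ℝ := 1 / (π ^ 2 * (s ^ 2 + t ^ 2))

theorem gk_comm (s t : ℝ) : gk s t = gk t s := by unfold gk; rw [add_comm]

theorem gk_nonneg (s t : ℝ) : 0 ≤ gk s t := by unfold gk; positivity

theorem gk_anti {s s' t : ℝ} (ht : 0 < t) (hs : 0 ≤ s) (h : s ≤ s') : gk s' t ≤ gk s t := by
  unfold gk
  gcongr

theorem psi_tendsto {c : ℝ} (hc : 0 < c) (l : ℕ) :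
    Tendsto (fun n : ℕ => ∑ j ∈ Finset.range n, gk (((j : ℝ) + 1) / c) (l + 1)) atTop
      (𝓝 (psi c l)) := by
  have h := (coth_tendsto (y := ((l : ℝ) + 1) * c) (by positivity)).const_mul
    (c / (2 * π ^ 2 * ((l : ℝ) + 1)))
  have hl : ((l : ℝ) + 1) ≠ 0 := by positivity
  have e : c / (2 * π ^ 2 * ((l : ℝ) + 1)) * (π * (Real.cosh (π * (((l : ℝ) + 1) * c)) /
      Real.sinh (π * (((l : ℝ) + 1) * c))) - 1 / (((l : ℝ) + 1) * c)) = psi c l := by
    unfold psi ct kap
    rw [← mul_assoc π]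
    have hS : Real.sinh (π * ((l : ℝ) + 1) * c) ≠ 0 := (Real.sinh_pos_iff.2 (by positivity)).ne'
    field_simp
  rw [e] at h
  refine h.congr fun n => ?_
  rw [Finset.mul_sum]
  apply Finset.sum_congr rfl
  intro j _
  unfold gk
  field_simp
  ring

theorem sum_block (f : ℕ → ℝ) (m n : ℕ) :
    ∑ j ∈ Finset.range (m * n), f j = ∑ p ∈ Finset.range n, ∑ r ∈ Finset.range m, f (m * p + r) := by
  induction n with
  | zero => simp
  | succ n ih => rw [Nat.mul_succ, Finset.sum_range_add, ih, Finset.sum_range_succ]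

theorem block_le {m : ℕ} (hm : 0 < m) (p : ℕ) {t : ℝ} (ht : 0 < t) :
    ∑ r ∈ Finset.range m, gk ((((m * p + r : ℕ) : ℝ) + 1) / m) t ≤ m * gk p t := by
  have hm' : (0 : ℝ) < m := by exact_mod_cast hm
  calc ∑ r ∈ Finset.range m, gk ((((m * p + r : ℕ) : ℝ) + 1) / m) t
      ≤ ∑ _r ∈ Finset.range m, gk p t := by
        apply Finset.sum_le_sum
        intro r _
        apply gk_anti ht (by positivity)
        rw [le_div_iff₀ hm']
        push_cast
        nlinarith
    _ = _ := by simp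

theorem le_block {m : ℕ} (hm : 0 < m) (p : ℕ) {t : ℝ} (ht : 0 < t) :
    m * gk (p + 1) t ≤ ∑ r ∈ Finset.range m, gk ((((m * p + r : ℕ) : ℝ) + 1) / m) t := by
  have hm' : (0 : ℝ) < m := by exact_mod_cast hm
  calc (m : ℝ) * gk (p + 1) t = ∑ _r ∈ Finset.range m, gk (p + 1) t := by simp
    _ ≤ _ := by
        apply Finset.sum_le_sum
        intro r hr
        apply gk_anti ht (by positivity)
        rw [div_le_iff₀ hm']
        have : r + 1 ≤ m := Finset.mem_range.1 hr
        have : ((r : ℝ) + 1) ≤ m := by exact_mod_cast this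
        push_cast
        nlinarith

/-- finite version of the comparison of the two directions -/
theorem cross_fin {m L : ℕ} (hm : 0 < m) (hL : 0 < L) (T : ℕ) :
    |∑ l ∈ Finset.range L, ∑ j ∈ Finset.range (m * (L + T)), gk (((j : ℝ) + 1) / m) (l + 1) -
      ∑ i ∈ Finset.range (m * L), ∑ j ∈ Finset.range (L + T), gk (((i : ℝ) + 1) / m) (j + 1)| ≤
      m * (1 / (π ^ 2 * L)) := by
  have hm' : (0 : ℝ) < m := by exact_mod_cast hm
  have hL' : (0 : ℝ) < L := by exact_mod_cast hL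
  -- decomposition
  have e1 : ∑ l ∈ Finset.range L, ∑ j ∈ Finset.range (m * (L + T)),
      gk (((j : ℝ) + 1) / m) (l + 1) =
      ∑ l ∈ Finset.range L, ∑ j ∈ Finset.range (m * L), gk (((j : ℝ) + 1) / m) (l + 1) +
      ∑ l ∈ Finset.range L, ∑ p ∈ Finset.range T, ∑ r ∈ Finset.range m,
        gk ((((m * (L + p) + r : ℕ) : ℝ) + 1) / m) (l + 1) := by
    rw [← Finset.sum_add_distrib]
    apply Finset.sum_congr rfl
    intro l _
    rw [mul_add, Finset.sum_range_add, sum_block (fun j => gk ((((m * L + j : ℕ) : ℝ) + 1) / m) (l + 1))]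
    congr 1
    apply Finset.sum_congr rfl
    intro p _
    apply Finset.sum_congr rfl
    intro r _
    congr 4
    ring
  have e2 : ∑ i ∈ Finset.range (m * L), ∑ j ∈ Finset.range (L + T),
      gk (((i : ℝ) + 1) / m) (j + 1) =
      ∑ l ∈ Finset.range L, ∑ j ∈ Finset.range (m * L), gk (((j : ℝ) + 1) / m) (l + 1) +
      ∑ t ∈ Finset.range T, ∑ p ∈ Finset.range L, ∑ r ∈ Finset.range m,
        gk ((((m * p + r : ℕ) : ℝ) + 1) / m) (((L + t : ℕ) : ℝ) + 1) := by
    rw [Finset.sum_comm, Finset.sum_range_add]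
    congr 1
    apply Finset.sum_congr rfl
    intro t _
    rw [sum_block (fun i => gk ((((i : ℕ) : ℝ) + 1) / m) (((L + t : ℕ) : ℝ) + 1))]
  rw [e1, e2]
  have e3 : ∀ A B C : ℝ, A + B - (A + C) = B - C := fun A B C => by ring
  rw [e3]
  -- bounds
  have b1 : ∑ l ∈ Finset.range L, ∑ p ∈ Finset.range T, ∑ r ∈ Finset.range m,
        gk ((((m * (L + p) + r : ℕ) : ℝ) + 1) / m) (l + 1) ≤
      m * ∑ l ∈ Finset.range L, ∑ p ∈ Finset.range T, gk ((L + p : ℕ) : ℝ) (l + 1) := by
    simp_rw [Finset.mul_sum]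
    exact Finset.sum_le_sum fun l _ => Finset.sum_le_sum fun p _ =>
      block_le hm (L + p) (by positivity)
  have b2 : m * ∑ l ∈ Finset.range L, ∑ p ∈ Finset.range T, gk (((L + p : ℕ) : ℝ) + 1) (l + 1) ≤
      ∑ l ∈ Finset.range L, ∑ p ∈ Finset.range T, ∑ r ∈ Finset.range m,
        gk ((((m * (L + p) + r : ℕ) : ℝ) + 1) / m) (l + 1) := by
    simp_rw [Finset.mul_sum]
    exact Finset.sum_le_sum fun l _ => Finset.sum_le_sum fun p _ =>
      le_block hm (L + p) (by positivity)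
  have b3 : ∑ t ∈ Finset.range T, ∑ p ∈ Finset.range L, ∑ r ∈ Finset.range m,
        gk ((((m * p + r : ℕ) : ℝ) + 1) / m) (((L + t : ℕ) : ℝ) + 1) ≤
      m * ∑ t ∈ Finset.range T, ∑ p ∈ Finset.range L, gk p (((L + t : ℕ) : ℝ) + 1) := by
    simp_rw [Finset.mul_sum]
    exact Finset.sum_le_sum fun t _ => Finset.sum_le_sum fun p _ =>
      block_le hm p (by positivity)
  have b4 : m * ∑ t ∈ Finset.range T, ∑ p ∈ Finset.range L, gk ((p : ℝ) + 1) (((L + t : ℕ) : ℝ) + 1) ≤
      ∑ t ∈ Finset.range T, ∑ p ∈ Finset.range L, ∑ r ∈ Finset.range m,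
        gk ((((m * p + r : ℕ) : ℝ) + 1) / m) (((L + t : ℕ) : ℝ) + 1) := by
    simp_rw [Finset.mul_sum]
    exact Finset.sum_le_sum fun t _ => Finset.sum_le_sum fun p _ =>
      le_block hm p (by positivity)
  have sw : ∑ t ∈ Finset.range T, ∑ p ∈ Finset.range L,
      gk ((p : ℝ) + 1) (((L + t : ℕ) : ℝ) + 1) =
      ∑ l ∈ Finset.range L, ∑ p ∈ Finset.range T, gk (((L + p : ℕ) : ℝ) + 1) (l + 1) := by
    rw [Finset.sum_comm]
    exact Finset.sum_congr rfl fun l _ => Finset.sum_congr rfl fun p _ => gk_comm _ _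
  have tele1 : ∑ l ∈ Finset.range L, ∑ p ∈ Finset.range T, gk ((L + p : ℕ) : ℝ) (l + 1) -
      ∑ l ∈ Finset.range L, ∑ p ∈ Finset.range T, gk (((L + p : ℕ) : ℝ) + 1) (l + 1) ≤
      1 / (π ^ 2 * L) := by
    rw [← Finset.sum_sub_distrib]
    calc _ ≤ ∑ l ∈ Finset.range L, gk (L : ℝ) (l + 1) := by
          apply Finset.sum_le_sum
          intro l _
          rw [← Finset.sum_sub_distrib]
          have := Finset.sum_range_sub' (fun p : ℕ => gk ((L + p : ℕ) : ℝ) ((l : ℝ) + 1)) T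
          have e : ∀ p : ℕ, gk (((L + p : ℕ) : ℝ) + 1) ((l : ℝ) + 1) =
              gk ((L + (p + 1) : ℕ) : ℝ) ((l : ℝ) + 1) := by
            intro p
            congr 1
            push_cast
            ring
          simp_rw [e]
          rw [this]
          have := gk_nonneg ((L + T : ℕ) : ℝ) ((l : ℝ) + 1)
          simp only [add_zero]
          linarith
      _ ≤ ∑ _l ∈ Finset.range L, 1 / (π ^ 2 * (L : ℝ) ^ 2) := by
          apply Finset.sum_le_sum
          intro l _
          unfold gk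
          gcongr
          have : 0 ≤ ((l : ℝ) + 1) ^ 2 := by positivity
          linarith
      _ = 1 / (π ^ 2 * L) := by
          rw [Finset.sum_const, Finset.card_range, nsmul_eq_mul]
          field_simp
  have tele2 : ∑ t ∈ Finset.range T, ∑ p ∈ Finset.range L, gk p (((L + t : ℕ) : ℝ) + 1) -
      ∑ t ∈ Finset.range T, ∑ p ∈ Finset.range L, gk ((p : ℝ) + 1) (((L + t : ℕ) : ℝ) + 1) ≤
      1 / (π ^ 2 * L) := by
    rw [← Finset.sum_sub_distrib]
    calc _ ≤ ∑ t ∈ Finset.range T, gk 0 (((L + t : ℕ) : ℝ) + 1) := by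
          apply Finset.sum_le_sum
          intro t _
          rw [← Finset.sum_sub_distrib]
          have := Finset.sum_range_sub' (fun p : ℕ => gk (p : ℝ) (((L + t : ℕ) : ℝ) + 1)) L
          have e : ∀ p : ℕ, gk ((p : ℝ) + 1) (((L + t : ℕ) : ℝ) + 1) =
              gk ((p + 1 : ℕ) : ℝ) (((L + t : ℕ) : ℝ) + 1) := by
            intro p
            congr 1
            push_cast
            ring
          simp_rw [e]
          rw [this]
          have := gk_nonneg (L : ℝ) (((L + t : ℕ) : ℝ) + 1)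
          simp only [Nat.cast_zero]
          linarith
      _ ≤ ∑ t ∈ Finset.range T, (1 / π ^ 2) * (1 / ((L + t : ℕ) : ℝ) - 1 / ((L + (t + 1) : ℕ) : ℝ)) := by
          apply Finset.sum_le_sum
          intro t _
          unfold gk
          have h1 : (0 : ℝ) < ((L + t : ℕ) : ℝ) := by
            push_cast
            positivity
          have h2 : (((L + (t + 1) : ℕ) : ℝ)) = ((L + t : ℕ) : ℝ) + 1 := by push_cast; ring
          rw [h2]
          set u : ℝ := ((L + t : ℕ) : ℝ)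
          have e : (1 / π ^ 2) * (1 / u - 1 / (u + 1)) = 1 / (π ^ 2 * (u * (u + 1))) := by
            field_simp
            ring
          rw [e]
          gcongr
          nlinarith
      _ = (1 / π ^ 2) * (1 / (L : ℝ) - 1 / ((L + T : ℕ) : ℝ)) := by
          rw [← Finset.mul_sum, Finset.sum_range_sub' (fun t : ℕ => 1 / ((L + t : ℕ) : ℝ)) T]
          simp
      _ ≤ 1 / (π ^ 2 * L) := by
          have h1 : 0 ≤ 1 / ((L + T : ℕ) : ℝ) := by positivity
          have h2 : 0 ≤ 1 / π ^ 2 := by positivity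
          have e : 1 / (π ^ 2 * (L : ℝ)) = 1 / π ^ 2 * (1 / (L : ℝ)) := by
            field_simp
          rw [e]
          apply mul_le_mul_of_nonneg_left _ h2
          linarith
  have q1 := mul_le_mul_of_nonneg_left tele1 hm'.le
  have q2 := mul_le_mul_of_nonneg_left tele2 hm'.le
  rw [sw] at q2 b4
  rw [mul_sub] at q1 q2
  rw [abs_le]
  constructor
  · linarith
  · linarith

/-- comparison of the two directions -/
theorem cross {m L : ℕ} (hm : 0 < m) (hL : 0 < L) :
    |∑ l ∈ Finset.range L, psi m l -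
      ∑ i ∈ Finset.range (m * L), (m : ℝ) ^ 2 * psi (1 / m) i| ≤ m * (1 / (π ^ 2 * L)) := by
  have hm' : (0 : ℝ) < m := by exact_mod_cast hm
  have t1 : Tendsto (fun T : ℕ => m * (L + T)) atTop atTop := by
    apply Filter.tendsto_atTop_atTop.2
    intro b
    refine ⟨b, fun T hT => ?_⟩
    calc b ≤ 1 * (L + T) := by omega
      _ ≤ m * (L + T) := Nat.mul_le_mul_right _ hm
  have t2 : Tendsto (fun T : ℕ => L + T) atTop atTop := by
    apply Filter.tendsto_atTop_atTop.2
    intro b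
    exact ⟨b, fun T hT => by omega⟩
  have h1 : Tendsto (fun T : ℕ => ∑ l ∈ Finset.range L, ∑ j ∈ Finset.range (m * (L + T)),
      gk (((j : ℝ) + 1) / m) (l + 1)) atTop (𝓝 (∑ l ∈ Finset.range L, psi m l)) := by
    apply tendsto_finsetSum
    intro l _
    exact (psi_tendsto hm' l).comp t1
  have h2 : Tendsto (fun T : ℕ => ∑ i ∈ Finset.range (m * L), ∑ j ∈ Finset.range (L + T),
      gk (((i : ℝ) + 1) / m) (j + 1)) atTop
      (𝓝 (∑ i ∈ Finset.range (m * L), (m : ℝ) ^ 2 * psi (1 / m) i)) := by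
    apply tendsto_finsetSum
    intro i _
    have := ((psi_tendsto (c := 1 / (m : ℝ)) (by positivity) i).comp t2).const_mul ((m : ℝ) ^ 2)
    refine this.congr fun T => ?_
    simp only [Function.comp_apply]
    rw [Finset.mul_sum]
    apply Finset.sum_congr rfl
    intro j _
    unfold gk
    field_simp
    ring
  refine le_of_tendsto ((h1.sub h2).abs) (Eventually.of_forall fun T => ?_)
  exact cross_fin hm hL T

/-! zeta tail -/

noncomputable def Zt (n : ℕ) : ℝ := ∑ l ∈ Finset.range n, 1 / kap l ^ 2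

theorem Zt_tendsto : Tendsto Zt atTop (𝓝 (1 / 6)) := by
  have h := hasSum_zeta_two
  have h1 : HasSum (fun n : ℕ => 1 / ((n : ℝ) + 1) ^ 2) (π ^ 2 / 6) := by
    have := (hasSum_nat_add_iff' 1).2 h
    simpa using this
  have h2 := (h1.mul_left (1 / π ^ 2)).tendsto_sum_nat
  have e : 1 / π ^ 2 * (π ^ 2 / 6) = 1 / 6 := by
    have := Real.pi_ne_zero
    field_simp
  rw [e] at h2
  refine h2.congr fun n => ?_
  unfold Zt kap
  apply Finset.sum_congr rfl
  intro l _
  field_simp

theorem Zt_mono {n m : ℕ} (h : n ≤ m) : Zt n ≤ Zt m := by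
  unfold Zt
  apply Finset.sum_le_sum_of_subset_of_nonneg
  · intro i hi
    rw [Finset.mem_range] at *
    omega
  · intro i _ _
    positivity

theorem Zt_le (n : ℕ) : Zt n ≤ 1 / 6 :=
  ge_of_tendsto Zt_tendsto ((eventually_ge_atTop n).mono fun _ hm => Zt_mono hm)

theorem Zt_ge {n : ℕ} (hn : 0 < n) : 1 / 6 - 1 / (π ^ 2 * n) ≤ Zt n := by
  have key : ∀ T : ℕ, Zt (n + T) ≤ Zt n + (1 / π ^ 2) * (1 / (n : ℝ) - 1 / ((n + T : ℕ) : ℝ)) := by
    intro T
    unfold Zt
    rw [Finset.sum_range_add]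
    gcongr
    calc ∑ t ∈ Finset.range T, 1 / kap (n + t) ^ 2 ≤ ∑ t ∈ Finset.range T,
          (1 / π ^ 2) * (1 / ((n + t : ℕ) : ℝ) - 1 / ((n + (t + 1) : ℕ) : ℝ)) := by
          apply Finset.sum_le_sum
          intro t _
          have h1 : (0 : ℝ) < ((n + t : ℕ) : ℝ) := by
            exact_mod_cast Nat.add_pos_left hn t
          have h2 : (((n + (t + 1) : ℕ) : ℝ)) = ((n + t : ℕ) : ℝ) + 1 := by push_cast; ring
          rw [h2]
          unfold kap
          set u : ℝ := ((n + t : ℕ) : ℝ)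
          have e : (1 / π ^ 2) * (1 / u - 1 / (u + 1)) = 1 / (π ^ 2 * (u * (u + 1))) := by
            field_simp
            ring
          rw [e, mul_pow]
          gcongr
          nlinarith
      _ = _ := by
          rw [← Finset.mul_sum, Finset.sum_range_sub' (fun t : ℕ => 1 / ((n + t : ℕ) : ℝ)) T]
          simp
  have hlim : (1 / 6 : ℝ) ≤ Zt n + (1 / π ^ 2) * (1 / (n : ℝ)) := by
    have t2 : Tendsto (fun T : ℕ => n + T) atTop atTop := by
      apply Filter.tendsto_atTop_atTop.2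
      intro b
      exact ⟨b, fun T hT => by omega⟩
    refine le_of_tendsto (Zt_tendsto.comp t2) (Eventually.of_forall fun T => ?_)
    refine (key T).trans ?_
    have h1 : 0 ≤ 1 / ((n + T : ℕ) : ℝ) := by positivity
    have h2 : 0 ≤ 1 / π ^ 2 := by positivity
    gcongr
    linarith
  have e : 1 / (π ^ 2 * (n : ℝ)) = 1 / π ^ 2 * (1 / (n : ℝ)) := by
    field_simp
  rw [e]
  linarith

theorem harm_up {L : ℕ} (hL : 0 < L) (T : ℕ) :
    ∑ t ∈ Finset.range T, 1 / (((L + t : ℕ) : ℝ) + 1) ≤ Real.log ((L + T : ℕ) : ℝ) - Real.log L := by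
  induction T with
  | zero => simp
  | succ T ih =>
    rw [Finset.sum_range_succ]
    have h1 : (0 : ℝ) < ((L + T : ℕ) : ℝ) := by exact_mod_cast Nat.add_pos_left hL T
    have e : (((L + (T + 1) : ℕ) : ℝ)) = ((L + T : ℕ) : ℝ) + 1 := by push_cast; ring
    rw [e]
    set u : ℝ := ((L + T : ℕ) : ℝ)
    have := Real.one_sub_inv_le_log_of_pos (x := (u + 1) / u) (by positivity)
    rw [Real.log_div (by positivity) (by positivity), inv_div] at this
    have e2 : 1 - u / (u + 1) = 1 / (u + 1) := by field_simp; ring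
    linarith

theorem harm_low (L T : ℕ) :
    Real.log (((L + T : ℕ) : ℝ) + 1) - Real.log ((L : ℝ) + 1) ≤
      ∑ t ∈ Finset.range T, 1 / (((L + t : ℕ) : ℝ) + 1) := by
  induction T with
  | zero => simp
  | succ T ih =>
    rw [Finset.sum_range_succ]
    have e : (((L + (T + 1) : ℕ) : ℝ)) = ((L + T : ℕ) : ℝ) + 1 := by push_cast; ring
    rw [e]
    have h0 : (0 : ℝ) ≤ ((L + T : ℕ) : ℝ) := by positivity
    set u : ℝ := ((L + T : ℕ) : ℝ)
    have := Real.log_le_sub_one_of_pos (x := (u + 1 + 1) / (u + 1)) (by positivity)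
    rw [Real.log_div (by positivity) (by positivity)] at this
    have e2 : (u + 1 + 1) / (u + 1) - 1 = 1 / (u + 1) := by field_simp; ring
    linarith

/-- Neumann sums -/
noncomputable def Th (c : ℝ) (L : ℕ) : ℝ :=
  c ^ 2 / 6 + ∑ l ∈ Finset.range L, (psi c l + 1 / kap l ^ 2)

/-- Dirichlet sums -/
noncomputable def ThD (c : ℝ) (L : ℕ) : ℝ := ∑ l ∈ Finset.range L, psi c l

theorem pi_sq_gt : (9 : ℝ) < π ^ 2 := by nlinarith [Real.pi_gt_three]

theorem S2_eq {m L : ℕ} (hm : 0 < m) : ∑ i ∈ Finset.range (m * L), (m : ℝ) ^ 2 * psi (1 / m) i =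
    m * (m * ThD (1 / m) (m * L)) := by
  rw [← Finset.mul_sum]
  unfold ThD
  ring

theorem ThD_diff {m L : ℕ} (hm : 0 < m) : ThD 1 (m * L) - ThD 1 L =
    ∑ t ∈ Finset.range (m * L - L), psi 1 (L + t) := by
  have h : m * L = L + (m * L - L) := by
    have : 1 * L ≤ m * L := Nat.mul_le_mul_right _ hm
    omega
  unfold ThD
  conv_lhs => rw [h]
  rw [Finset.sum_range_add]
  ring

theorem ct_one_ge (l : ℕ) {c : ℝ} (hc : 0 < c) : 1 ≤ ct c l := by
  unfold ct
  have hk := kap_pos l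
  have hS : 0 < Real.sinh (kap l * c) := Real.sinh_pos_iff.2 (by positivity)
  rw [le_div_iff₀ hS, one_mul]
  exact (Real.sinh_lt_cosh _).le

theorem theta_up {m L : ℕ} (hm : 0 < m) (hL : 0 < L) :
    (1 / m) * Th m L - Th 1 L + Th 1 (m * L) - m * Th (1 / m) (m * L) ≤
      1 / (2 * π) * Real.log m + 1 / L := by
  have hm' : (0 : ℝ) < m := by exact_mod_cast hm
  have hL' : (0 : ℝ) < L := by exact_mod_cast hL
  have hmL : L ≤ m * L := by
    have : 1 * L ≤ m * L := Nat.mul_le_mul_right _ hm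
    omega
  have eTh : ∀ (c : ℝ) (n : ℕ), Th c n = c ^ 2 / 6 + (ThD c n + Zt n) := by
    intro c n
    unfold Th ThD Zt
    rw [Finset.sum_add_distrib]
  rw [eTh, eTh, eTh, eTh]
  have hc := (abs_le.1 (cross hm hL)).2
  rw [S2_eq hm] at hc
  have hS1 : ∑ l ∈ Finset.range L, psi m l = ThD m L := rfl
  rw [hS1] at hc
  have hd := ThD_diff (L := L) hm
  have hz1 := Zt_ge (n := m * L) (Nat.mul_pos hm hL)
  have hz2 := Zt_le L
  have hz3 := Zt_ge hL
  have hz4 := Zt_le (m * L)
  -- harmonic part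
  have hh : ∑ t ∈ Finset.range (m * L - L), psi 1 (L + t) + (Zt (m * L) - Zt L) ≤
      1 / (2 * π) * Real.log m + 1 / (π ^ 2 * L) := by
    have e1 : Zt (m * L) - Zt L = ∑ t ∈ Finset.range (m * L - L), 1 / kap (L + t) ^ 2 := by
      have h : m * L = L + (m * L - L) := by omega
      unfold Zt
      conv_lhs => rw [h]
      rw [Finset.sum_range_add]
      ring
    have e2 : ∑ t ∈ Finset.range (m * L - L), psi 1 (L + t) ≤
        ∑ t ∈ Finset.range (m * L - L), 1 / (2 * π) * (1 / (((L + t : ℕ) : ℝ) + 1)) := by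
      apply Finset.sum_le_sum
      intro t _
      have hk := kap_pos (L + t)
      have hct := coth_le (x := kap (L + t) * 1) (by positivity)
      unfold psi ct
      calc 1 / (2 * kap (L + t)) * (Real.cosh (kap (L + t) * 1) / Real.sinh (kap (L + t) * 1)) -
            1 / (2 * kap (L + t) ^ 2) ≤
            1 / (2 * kap (L + t)) * (1 + 1 / (kap (L + t) * 1)) - 1 / (2 * kap (L + t) ^ 2) := by
            gcongr
        _ = 1 / (2 * kap (L + t)) := by field_simp; ring
        _ = _ := by unfold kap; field_simp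
    have e3 := harm_up hL (m * L - L)
    have e4 : L + (m * L - L) = m * L := by omega
    rw [e4, Nat.cast_mul, Real.log_mul hm'.ne' hL'.ne'] at e3
    rw [← Finset.mul_sum] at e2
    have e5 : 0 < 1 / (2 * π) := by positivity
    have e6 := mul_le_mul_of_nonneg_left e3 e5.le
    have e7 : 1 / (2 * π) * (Real.log m + Real.log L - Real.log L) = 1 / (2 * π) * Real.log m := by
      ring
    linarith
  have k1 : m * (1 / 6 - Zt (m * L)) ≤ 1 / (π ^ 2 * L) := by
    have := mul_le_mul_of_nonneg_left (show 1 / 6 - Zt (m * L) ≤ 1 / (π ^ 2 * ((m * L : ℕ) : ℝ)) by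
      linarith) hm'.le
    refine this.trans (le_of_eq ?_)
    push_cast
    field_simp
  have k2 : 1 / m * (ThD m L - m * (m * ThD (1 / m) (m * L))) ≤ 1 / (π ^ 2 * L) := by
    have := mul_le_mul_of_nonneg_left hc (by positivity : 0 ≤ 1 / (m : ℝ))
    refine this.trans (le_of_eq ?_)
    field_simp
  have k3 : 1 / m * (Zt L - 1 / 6) ≤ 0 := by
    apply mul_nonpos_of_nonneg_of_nonpos (by positivity)
    linarith
  have k4 : 3 / (π ^ 2 * (L : ℝ)) ≤ 1 / L := by
    rw [div_le_div_iff₀ (by positivity) hL']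
    nlinarith [pi_sq_gt]
  have k5 : 3 / (π ^ 2 * (L : ℝ)) = 3 * (1 / (π ^ 2 * (L : ℝ))) := by ring
  have k6 : (1 / (m : ℝ)) * ((m : ℝ) ^ 2 / 6 + (ThD m L + Zt L)) - (1 ^ 2 / 6 + (ThD 1 L + Zt L)) +
      (1 ^ 2 / 6 + (ThD 1 (m * L) + Zt (m * L))) -
      m * ((1 / (m : ℝ)) ^ 2 / 6 + (ThD (1 / m) (m * L) + Zt (m * L))) =
      m * (1 / 6 - Zt (m * L)) + 1 / m * (ThD m L - m * (m * ThD (1 / m) (m * L))) +
      1 / m * (Zt L - 1 / 6) + ((ThD 1 (m * L) - ThD 1 L) + (Zt (m * L) - Zt L)) := by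
    field_simp
    ring
  rw [k6, hd]
  linarith

theorem theta_D {m L : ℕ} (hm : 0 < m) (hL : 0 < L) :
    1 / (2 * π) * Real.log m - 1 / L ≤
    (1 / m) * ThD m L - ThD 1 L + ThD 1 (m * L) - m * ThD (1 / m) (m * L) := by
  have hm' : (0 : ℝ) < m := by exact_mod_cast hm
  have hL' : (0 : ℝ) < L := by exact_mod_cast hL
  have hmL : L ≤ m * L := by
    have : 1 * L ≤ m * L := Nat.mul_le_mul_right _ hm
    omega
  have hc := (abs_le.1 (cross hm hL)).1
  rw [S2_eq hm] at hc
  have hS1 : ∑ l ∈ Finset.range L, psi m l = ThD m L := rfl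
  rw [hS1] at hc
  have hd := ThD_diff (L := L) hm
  have hz3 := Zt_ge hL
  have hz4 := Zt_le (m * L)
  have hh : 1 / (2 * π) * Real.log m - 1 / (2 * π) * (1 / L) - 1 / 2 * (1 / (π ^ 2 * L)) ≤
      ∑ t ∈ Finset.range (m * L - L), psi 1 (L + t) := by
    have e1 : Zt (m * L) - Zt L = ∑ t ∈ Finset.range (m * L - L), 1 / kap (L + t) ^ 2 := by
      have h : m * L = L + (m * L - L) := by omega
      unfold Zt
      conv_lhs => rw [h]
      rw [Finset.sum_range_add]
      ring
    have e2 : ∑ t ∈ Finset.range (m * L - L), (1 / (2 * π) * (1 / (((L + t : ℕ) : ℝ) + 1)) -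
        1 / 2 * (1 / kap (L + t) ^ 2)) ≤
        ∑ t ∈ Finset.range (m * L - L), psi 1 (L + t) := by
      apply Finset.sum_le_sum
      intro t _
      have hk := kap_pos (L + t)
      have hct := ct_one_ge (L + t) one_pos
      unfold psi
      calc 1 / (2 * π) * (1 / (((L + t : ℕ) : ℝ) + 1)) - 1 / 2 * (1 / kap (L + t) ^ 2)
          = 1 / (2 * kap (L + t)) * 1 - 1 / (2 * kap (L + t) ^ 2) := by
            unfold kap; field_simp
        _ ≤ _ := by gcongr
    rw [Finset.sum_sub_distrib, ← Finset.mul_sum, ← Finset.mul_sum, ← e1] at e2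
    have e3 := harm_low L (m * L - L)
    have e4 : L + (m * L - L) = m * L := by omega
    rw [e4] at e3
    have e5 : Real.log m - 1 / L ≤ Real.log (((m * L : ℕ) : ℝ) + 1) - Real.log ((L : ℝ) + 1) := by
      have f1 : Real.log ((m : ℝ) * L) ≤ Real.log (((m * L : ℕ) : ℝ) + 1) := by
        apply Real.log_le_log (by positivity)
        push_cast
        linarith
      have f2 : Real.log ((L : ℝ) + 1) ≤ Real.log L + 1 / L := by
        have := Real.log_le_sub_one_of_pos (x := ((L : ℝ) + 1) / L) (by positivity)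
        rw [Real.log_div (by positivity) (by positivity)] at this
        have e : ((L : ℝ) + 1) / L - 1 = 1 / L := by field_simp; ring
        linarith
      rw [Real.log_mul hm'.ne' hL'.ne'] at f1
      linarith
    have e6 : 0 < 1 / (2 * π) := by positivity
    have e7 := mul_le_mul_of_nonneg_left (e5.trans e3) e6.le
    linarith
  have k2 : -(1 / (π ^ 2 * L)) ≤ 1 / m * (ThD m L - m * (m * ThD (1 / m) (m * L))) := by
    have := mul_le_mul_of_nonneg_left hc (by positivity : 0 ≤ 1 / (m : ℝ))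
    refine le_trans (le_of_eq ?_) this
    field_simp
  have k4 : 1 / (2 * π) * (1 / (L : ℝ)) + 1 / 2 * (1 / (π ^ 2 * L)) + 1 / (π ^ 2 * L) ≤ 1 / L := by
    have g1 : 1 / (2 * π) ≤ 1 / 2 := by
      apply one_div_le_one_div_of_le (by norm_num)
      linarith [Real.pi_gt_three]
    have g2 : 1 / (π ^ 2 * (L : ℝ)) ≤ 1 / 9 * (1 / L) := by
      rw [one_div_mul_one_div]
      apply one_div_le_one_div_of_le (by positivity)
      have := pi_sq_gt
      gcongr
    have g3 : 0 < 1 / (L : ℝ) := by positivity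
    have g4 := mul_le_mul_of_nonneg_right g1 g3.le
    linarith
  have k6 : (1 / (m : ℝ)) * ThD m L - ThD 1 L + ThD 1 (m * L) - m * ThD (1 / m) (m * L) =
      1 / m * (ThD m L - m * (m * ThD (1 / m) (m * L))) + (ThD 1 (m * L) - ThD 1 L) := by
    field_simp
    ring
  rw [k6, hd]
  linarith

theorem ct_add {a1 a2 : ℝ} (ha1 : 0 < a1) (ha2 : 0 < a2) (l : ℕ) :
    ct (a1 + a2) l * (ct a1 l + ct a2 l) = 1 + ct a1 l * ct a2 l := by
  have hk := kap_pos l
  have s1 : Real.sinh (kap l * a1) ≠ 0 := (Real.sinh_pos_iff.2 (by positivity)).ne'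
  have s2 : Real.sinh (kap l * a2) ≠ 0 := (Real.sinh_pos_iff.2 (by positivity)).ne'
  have s3 : Real.sinh (kap l * (a1 + a2)) ≠ 0 := (Real.sinh_pos_iff.2 (by positivity)).ne'
  have e : kap l * (a1 + a2) = kap l * a1 + kap l * a2 := by ring
  unfold ct
  rw [e, Real.sinh_add] at s3
  rw [e, Real.sinh_add, Real.cosh_add]
  field_simp
  ring

end Pool.Agent.H969
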