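import Mathlib
import Pool.Agent.H969.DLow
import Pool.Agent.H969.Swap
import Pool.Agent.H969.Theta

/-! The recursion for the problem with exchange. -/

set_option autoImplicit false

open MeasureTheory
open scoped ENNReal NNReal Real

namespace Pool.Agent.H969

theorem gainD_eq {a : ℝ} (ha : 0 < a) (l : ℕ) : gainD a l = psi (2 * a) l - 2 * psi a l := by
  have hk := kap_pos l
  have hE := ElD_pos ha l
  have c1 := ct_pos ha l
  have hct := ct_add ha ha l
  rw [← two_mul a] at hct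
  have hS : 0 < Real.sinh (kap l * a) := Real.sinh_pos_iff.2 (by positivity)
  have e : a / (2 * Real.sinh (kap l * a) ^ 2) = (a / 2) * (ct a l ^ 2 - 1) := by
    unfold ct
    have := Real.cosh_sq (a * kap l)
    field_simp
    linarith
  unfold gainD
  rw [div_eq_iff hE.ne', int_mD_sq ha, e]
  have e2 : (psi (2 * a) l - 2 * psi a l) * ElD a l =
      a * (ct (2 * a) l * ct a l) - a * ct a l ^ 2 + ct a l / (2 * kap l) := by
    unfold psi ElD
    field_simp
    ring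
  rw [e2]
  linear_combination (-a / 2) * hct

theorem sum_gainD {a : ℝ} (ha : 0 < a) (L : ℕ) :
    ∑ l ∈ Finset.range L, gainD a l = ThD (2 * a) L - 2 * ThD a L := by
  unfold ThD
  rw [Finset.mul_sum, ← Finset.sum_sub_distrib]
  exact Finset.sum_congr rfl fun l _ => gainD_eq ha l

theorem dR_swp {c : ℝ} (hc : 0 < c) (y : ℝ × ℝ) :
    dR (1 / c) (swp c hc y) = 1 / c * dR c y := by
  have hs' : 0 ≤ 1 / c := by positivity
  unfold dR
  rw [swp_apply]
  simp only
  have e1 : y.2 / c = 1 / c * y.2 := by ring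
  have e2 : 1 / c - y.2 / c = 1 / c * (1 - y.2) := by ring
  have e3 : y.1 / c = 1 / c * y.1 := by ring
  have e4 : 1 - y.1 / c = 1 / c * (c - y.1) := by field_simp
  rw [e2, e4, e1, e3, mul_max_of_nonneg _ _ hs', mul_min_of_nonneg _ _ hs',
    mul_min_of_nonneg _ _ hs', mul_min_of_nonneg _ _ hs', mul_zero, min_comm (min _ _)]

theorem eD_swap_le {c r : ℝ} (hc : 0 < c) (hr : 0 ≤ r) (n : ℕ) :
    eD n (1 / c) (r * c ^ 2) ≤ (1 / c) ^ 2 * eD n c r := by
  have p1 := isProb_U hc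
  have hcont := (swp c hc).continuous
  have hm := hcont.measurable
  have hDR := DD_R c r
  have hDR' := DD_R (1 / c) (r * c ^ 2)
  have hU : U (1 / c) = (U c).map (swp c hc) := by
    unfold U
    rw [map_swp hc (by positivity)]
    congr 1
    field_simp
  have p2 : IsProbabilityMeasure ((U c).map (swp c hc)) :=
    Measure.isProbabilityMeasure_map hm.aemeasurable
  have hpm : (Measure.pi fun _ : Fin n => (U c).map (swp c hc)) =
      (Measure.pi fun _ : Fin n => U c).map (fun z i => swp c hc (z i)) :=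
    (Measure.pi_map_pi (f := fun _ : Fin n => (swp c hc : ℝ × ℝ → ℝ × ℝ))
      (fun _ => hm.aemeasurable)).symm
  have hm2 : Measurable (fun z : Fin n → ℝ × ℝ => fun i => swp c hc (z i)) := by
    apply measurable_pi_lambda
    intro i
    exact hm.comp (measurable_pi_apply i)
  unfold eD
  rw [hU, hpm, integral_map hm2.aemeasurable hDR'.measurable_costD.aestronglyMeasurable,
    ← integral_const_mul]
  have hi2 : Integrable (fun z : Fin n → ℝ × ℝ =>
      costD (fun i => swp c hc (z i)) (dR (1 / c)) (unif (1 / c) 1 (r * c ^ 2)))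
      (Measure.pi fun _ : Fin n => U c) := by
    apply Integrable.of_bound (hDR'.measurable_costD.comp hm2).aestronglyMeasurable
      (n * 1 + ∫ y, dR (1 / c) y ^ 2 ∂(unif (1 / c) 1 (r * c ^ 2)))
    refine Filter.Eventually.of_forall fun z => ?_
    simp only [Function.comp_apply]
    rw [Real.norm_eq_abs, abs_of_nonneg (hDR'.costD_nonneg _)]
    have := hDR'.costD_le_crude (fun i => swp c hc (z i))
    rwa [Fintype.card_fin] at this
  apply integral_mono hi2 ((hDR.integrable_costD _).const_mul _)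
  intro z
  simp only
  apply hDR.costD_sim_le hDR' hcont _ (dR_swp hc) (map_swp hc hr).symm z
  intro x y
  simp only [swp_apply, sqd]
  field_simp
  ring

theorem bD_swap_le {c r : ℝ} (hc : 0 < c) (hr : 0 ≤ r) :
    bD (1 / c) (r * c ^ 2) ≤ (1 / c) ^ 2 * bD c r := by
  unfold bD
  rw [← integral_const_mul]
  have e : r * c ^ 2 * (1 / c) = r * c := by field_simp
  rw [e]
  apply integral_mono
  · exact integrable_of_le (by positivity) (fun n => eD_nonneg n _ _)
      (fun n => eD_le n (by positivity) _)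
  · exact (integrable_of_le (by positivity) (fun n => eD_nonneg n _ _)
      (fun n => eD_le n hc _)).const_mul _
  · intro n
    exact eD_swap_le hc hr n

theorem bD_nonneg (c x : ℝ) : 0 ≤ bD c x := integral_nonneg fun _ => eD_nonneg _ _ _

theorem ct_half (l : ℕ) : ct (1 / 2) l ≤ 2 ∧ ct 1 l ≤ 2 := by
  have hk : 3 ≤ kap l := by
    unfold kap
    have := Real.pi_gt_three
    have h2 : (0 : ℝ) ≤ (l : ℝ) := by positivity
    nlinarith
  constructor
  · have h := coth_le (x := kap l * (1 / 2)) (by positivity)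
    have h2 : 1 / (kap l * (1 / 2)) ≤ 1 := by
      rw [div_le_iff₀ (by positivity)]
      linarith
    unfold ct
    linarith
  · have h := coth_le (x := kap l * 1) (by positivity)
    have h2 : 1 / (kap l * 1) ≤ 1 := by
      rw [div_le_iff₀ (by positivity)]
      linarith
    unfold ct
    linarith

theorem sum_kap {c : ℝ} (hc : 0 < c) (h : ∀ l, ct c l ≤ 2) (L : ℕ) :
    ∑ l ∈ Finset.range L, kap l ^ 2 * ct c l ≤ 32 * (L : ℝ) ^ 3 := by
  calc _ ≤ ∑ _l ∈ Finset.range L, 32 * (L : ℝ) ^ 2 := by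
        apply Finset.sum_le_sum
        intro l hl
        rw [Finset.mem_range] at hl
        have h1 : (l : ℝ) + 1 ≤ L := by exact_mod_cast hl
        have hk : kap l ≤ 4 * L := by
          unfold kap
          have := Real.pi_lt_four
          have h2 : (0 : ℝ) ≤ (l : ℝ) + 1 := by positivity
          nlinarith
        have h3 := pow_le_pow_left₀ (kap_pos l).le hk 2
        have h4 := (ct_pos hc l).le
        calc kap l ^ 2 * ct c l ≤ (4 * L) ^ 2 * 2 := mul_le_mul h3 (h l) h4 (by positivity)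
          _ = _ := by ring
    _ = _ := by
        rw [Finset.sum_const, Finset.card_range, nsmul_eq_mul]
        ring

theorem sq_bounds {δ s : ℝ} (hδ0 : 0 < δ) (hδ : δ ≤ 1 / 64) (hs : s = 1 - 2 * (8 * δ)) :
    3 / 4 ≤ s ∧ s ≤ 1 ∧ s ^ 2 ≤ 1 ∧ 1 / 2 ≤ s ^ 2 ∧ 1 - 32 * δ ≤ s ^ 2 ∧ 1 - 64 * δ ≤ s ^ 4 ∧
      1 - 64 * δ ≤ s ^ 2 * (1 - 18 * δ) ∧ (1 + 12 * δ) ^ 2 ≤ 1 + 32 * δ ∧
      (1 + 32 * δ) * (1 - 96 * δ) ≤ 1 - 64 * δ := by
  have h34 : 3 / 4 ≤ s := by rw [hs]; linarith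
  have h1 : s ≤ 1 := by rw [hs]; linarith
  have h2 : 1 - 32 * δ ≤ s ^ 2 := by
    have e : s ^ 2 = 1 - 32 * δ + 256 * δ ^ 2 := by rw [hs]; ring
    have := sq_nonneg δ
    linarith
  have h3 : 0 ≤ 1 - 32 * δ := by linarith
  have hd2 : δ ^ 2 ≤ δ * (1 / 64) := by
    have := mul_le_mul_of_nonneg_left hδ hδ0.le
    calc δ ^ 2 = δ * δ := sq δ
      _ ≤ _ := this
  have hsq := sq_nonneg δ
  refine ⟨h34, h1, pow_le_one₀ (by linarith) h1, by linarith, h2, ?_, ?_, ?_, ?_⟩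
  · have h4 := pow_le_pow_left₀ h3 h2 2
    have e : (1 - 32 * δ) ^ 2 = 1 - 64 * δ + 1024 * δ ^ 2 := by ring
    have e2 : (s ^ 2) ^ 2 = s ^ 4 := by ring
    rw [e, e2] at h4
    linarith
  · have h5 := mul_le_mul_of_nonneg_right h2 (by linarith : 0 ≤ 1 - 18 * δ)
    have e : (1 - 32 * δ) * (1 - 18 * δ) = 1 - 50 * δ + 576 * δ ^ 2 := by ring
    rw [e] at h5
    linarith
  · have e : (1 + 12 * δ) ^ 2 = 1 + 24 * δ + 144 * δ ^ 2 := by ring
    rw [e]
    linarith
  · have e : (1 + 32 * δ) * (1 - 96 * δ) = 1 - 64 * δ - 3072 * δ ^ 2 := by ring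
    rw [e]
    linarith

theorem combine {δ s B1 Bh B0 GA GB E1 E2 g il : ℝ} (hδ0 : 0 < δ) (hδ : δ ≤ 1 / 64)
    (hs : s = 1 - 2 * (8 * δ)) (n1 : 0 ≤ B1) (n0 : 0 ≤ B0) (gA : 0 ≤ GA)
    (gB : 0 ≤ GB) (hE1p : 0 ≤ E1) (hE2p : 0 ≤ E2) (hlog : 0 ≤ g) (hil : 0 ≤ il)
    (hgg : g - il ≤ GB / 2 + GA)
    (A' : 2 * (s ^ 2 * Bh) ≤ (1 + 12 * δ) * B0 - (1 - 18 * δ) * GA + E1)
    (B' : 2 * (s ^ 2 * B1) ≤ (1 + 12 * δ) * (4 * Bh) - (1 - 18 * δ) * GB + E2) :
    (1 - 96 * δ) * (B1 + g) - (il + 2 * E1 + E2) ≤ B0 := by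
  obtain ⟨hs34, hs1, hs2, hs2', hs2b, hs4, hs218, h12, h96⟩ := sq_bounds hδ0 hδ hs
  have C1 : s ^ 2 / 2 * (2 * (s ^ 2 * B1) + (1 - 18 * δ) * GB - E2) ≤
      (1 + 12 * δ) * (2 * (s ^ 2 * Bh)) := by
    have := mul_le_mul_of_nonneg_left B' (by positivity : 0 ≤ s ^ 2 / 2)
    linarith
  have C2 : (1 + 12 * δ) * (2 * (s ^ 2 * Bh)) ≤
      (1 + 12 * δ) * ((1 + 12 * δ) * B0 - (1 - 18 * δ) * GA + E1) :=
    mul_le_mul_of_nonneg_left A' (by positivity)
  have h18 : 0 ≤ 1 - 18 * δ := by linarith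
  have h64 : 0 ≤ 1 - 64 * δ := by linarith
  have C3 : s ^ 4 * B1 + s ^ 2 * (1 - 18 * δ) * (GB / 2 + GA) ≤
      (1 + 12 * δ) ^ 2 * B0 + 2 * E1 + E2 := by
    have k1 : s ^ 2 * (1 - 18 * δ) * GA ≤ (1 + 12 * δ) * ((1 - 18 * δ) * GA) := by
      have : s ^ 2 ≤ 1 + 12 * δ := by linarith
      have h := mul_le_mul_of_nonneg_right this (mul_nonneg h18 gA)
      linarith
    have k2 : (1 + 12 * δ) * E1 ≤ 2 * E1 := mul_le_mul_of_nonneg_right (by linarith) hE1p
    have k3 : s ^ 2 / 2 * E2 ≤ E2 := by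
      have := mul_le_mul_of_nonneg_right (by linarith : s ^ 2 / 2 ≤ 1) hE2p
      linarith
    have k4 : s ^ 2 / 2 * (2 * (s ^ 2 * B1) + (1 - 18 * δ) * GB - E2) =
      s ^ 4 * B1 + s ^ 2 * (1 - 18 * δ) * (GB / 2) - s ^ 2 / 2 * E2 := by ring
    have k5 := C1.trans C2
    rw [k4] at k5
    have k6 : (1 + 12 * δ) * ((1 + 12 * δ) * B0 - (1 - 18 * δ) * GA + E1) =
      (1 + 12 * δ) ^ 2 * B0 - (1 + 12 * δ) * ((1 - 18 * δ) * GA) + (1 + 12 * δ) * E1 := by ring
    rw [k6] at k5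
    linarith
  have C5 : (1 - 64 * δ) * (B1 + g) - il ≤ (1 + 12 * δ) ^ 2 * B0 + 2 * E1 + E2 := by
    have k0 : (1 - 64 * δ) * B1 ≤ s ^ 4 * B1 := mul_le_mul_of_nonneg_right hs4 n1
    rcases le_or_gt 0 (g - il) with h | h
    · have C4 : (1 - 64 * δ) * (g - il) ≤ s ^ 2 * (1 - 18 * δ) * (GB / 2 + GA) := by
        calc (1 - 64 * δ) * (g - il) ≤ (s ^ 2 * (1 - 18 * δ)) * (g - il) :=
              mul_le_mul_of_nonneg_right hs218 h
          _ ≤ _ := mul_le_mul_of_nonneg_left hgg (by positivity)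
      have : (1 - 64 * δ) * il ≤ il := by
        have := mul_le_mul_of_nonneg_right (by linarith : 1 - 64 * δ ≤ 1) hil
        linarith
      linarith
    · have k1 : 0 ≤ s ^ 2 * (1 - 18 * δ) * (GB / 2 + GA) := by positivity
      have k2 : (1 - 64 * δ) * g ≤ g := by
        have := mul_le_mul_of_nonneg_right (by linarith : 1 - 64 * δ ≤ 1) hlog
        linarith
      linarith
  have C7 : (1 - 64 * δ) * (B1 + g) - il ≤ (1 + 32 * δ) * B0 + 2 * E1 + E2 := by
    have := mul_le_mul_of_nonneg_right h12 n0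
    linarith
  have hW0 : 0 ≤ il + 2 * E1 + E2 := by positivity
  have C8 : (1 + 32 * δ) * ((1 - 96 * δ) * (B1 + g) - (il + 2 * E1 + E2)) ≤
      (1 + 32 * δ) * B0 := by
    have k1 : (1 + 32 * δ) * ((1 - 96 * δ) * (B1 + g)) ≤ (1 - 64 * δ) * (B1 + g) := by
      have := mul_le_mul_of_nonneg_right h96 (by positivity : 0 ≤ B1 + g)
      linarith
    have k2 : il + 2 * E1 + E2 ≤ (1 + 32 * δ) * (il + 2 * E1 + E2) := by
      have := mul_le_mul_of_nonneg_right (by linarith : 1 ≤ 1 + 32 * δ) hW0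
      linarith
    linarith
  exact le_of_mul_le_mul_left C8 (by positivity : 0 < 1 + 32 * δ)

/-- combination of two halvings -/
theorem two_steps {x δ τ : ℝ} {L : ℕ} (hL : 0 < L) (hx : 8 ≤ x) (hδ : δ ≤ 1 / 64) (hτ : 0 < τ)
    (hle : τ * (256 * (L : ℝ) ^ 3) ≤ δ) :
    (1 - 96 * δ) * (bD 1 (x * (1 - 16 * δ) ^ 4 / 4) + 1 / (2 * π) * Real.log 2) -
      (1 / L + 2 * (320000 * L / (x * τ ^ 2) + 36 * x * δ ^ 3) +
        (1280000 * L / (x * τ ^ 2) + 36 * x * δ ^ 3)) ≤ bD 1 x := by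
  have hL' : (0 : ℝ) < L := by exact_mod_cast hL
  have hx0 : 0 < x := by linarith
  have hδ0 : 0 < δ := lt_of_lt_of_le (by positivity) hle
  obtain ⟨s, hs⟩ : ∃ s : ℝ, s = 1 - 2 * (8 * δ) := ⟨_, rfl⟩
  obtain ⟨hs34, hs1, hs2, hs2', -, -, -, -, -⟩ := sq_bounds hδ0 hδ hs
  have e16 : 1 - 16 * δ = s := by rw [hs]; ring
  rw [e16]
  -- first halving
  have A := lower_raw (a := 1 / 2) (x := x) (δ := δ) (σ := 8 * δ) (τ := τ) (L := 2 * L)
    (by norm_num) (by norm_num) (by linarith) (by linarith) (by linarith) (by linarith)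
    (by linarith) hτ ?_
  swap
  · refine le_trans (mul_le_mul_of_nonneg_left (sum_kap (by norm_num) (fun l => (ct_half l).1) _)
      hτ.le) (le_trans (le_of_eq ?_) hle)
    push_cast
    ring
  obtain ⟨y, hy⟩ : ∃ y : ℝ, y = x * s ^ 2 / 4 := ⟨_, rfl⟩
  have hyx : x / 8 ≤ y := by
    have := mul_le_mul_of_nonneg_left hs2' hx0.le
    rw [hy]
    linarith
  have hyx2 : y ≤ x := by
    have := mul_le_mul_of_nonneg_left hs2 hx0.le
    rw [hy]
    linarith
  have hy0 : 0 < y := by linarith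
  have B := lower_raw (a := 1) (x := y) (δ := δ) (σ := 8 * δ) (τ := τ) (L := L)
    (by norm_num) (by norm_num) (by linarith) (by linarith) (by linarith) (by linarith)
    (by linarith) hτ ?_
  swap
  · refine le_trans (mul_le_mul_of_nonneg_left (sum_kap (by norm_num) (fun l => (ct_half l).2) _)
      hτ.le) (le_trans ?_ hle)
    apply mul_le_mul_of_nonneg_left _ hτ.le
    have : (0 : ℝ) ≤ (L : ℝ) ^ 3 := by positivity
    linarith
  rw [← hs] at A B
  have hsw := bD_swap_le (c := 1 / 2) (r := x * s ^ 2) (by norm_num) (by positivity)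
  have e1 : (1 : ℝ) / (1 / 2) = 2 := by norm_num
  have e2 : x * s ^ 2 * (1 / 2) ^ 2 = y := by rw [hy]; ring
  rw [e1, e2] at hsw
  have e3 : (2 : ℝ) * (1 / 2) = 1 := by norm_num
  have e4 : (2 : ℝ) * 1 = 2 := by norm_num
  have gA : 0 ≤ ThD 1 (2 * L) - 2 * ThD (1 / 2) (2 * L) := by
    have := sum_gainD (a := 1 / 2) (by norm_num) (2 * L)
    rw [e3] at this
    rw [← this]
    exact Finset.sum_nonneg fun l _ => gainD_nonneg (by norm_num) l
  have gB : 0 ≤ ThD 2 L - 2 * ThD 1 L := by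
    have := sum_gainD (a := 1) (by norm_num) L
    rw [e4] at this
    rw [← this]
    exact Finset.sum_nonneg fun l _ => gainD_nonneg (by norm_num) l
  rw [sum_gainD (by norm_num), e3] at A
  rw [sum_gainD (by norm_num), e4] at B
  have e5 : y * s ^ 2 = x * s ^ 4 / 4 := by rw [hy]; ring
  rw [e5] at B
  have hth := theta_D (m := 2) (L := L) (by norm_num) hL
  push_cast at hth A
  have hlog : 0 ≤ 1 / (2 * π) * Real.log 2 := by
    have := Real.log_nonneg (by norm_num : (1 : ℝ) ≤ 2)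
    positivity
  -- errors
  have hE1 : 160000 * (2 * (L : ℝ)) / (x * τ ^ 2) = 320000 * L / (x * τ ^ 2) := by ring
  rw [hE1] at A
  have hE2 : 160000 * (L : ℝ) / (y * τ ^ 2) ≤ 1280000 * L / (x * τ ^ 2) := by
    rw [div_le_div_iff₀ (by positivity) (by positivity)]
    have : x * (160000 * L * τ ^ 2) ≤ (8 * y) * (160000 * L * τ ^ 2) :=
      mul_le_mul_of_nonneg_right (by linarith) (by positivity)
    linarith
  have hE3 : 36 * y * δ ^ 3 ≤ 36 * x * δ ^ 3 := by gcongr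
  have hfin := combine (δ := δ) (s := s) (B1 := bD 1 (x * s ^ 4 / 4))
    (Bh := bD (1 / 2) (x * s ^ 2)) (B0 := bD 1 x)
    (GA := ThD 1 (2 * L) - 2 * ThD (1 / 2) (2 * L)) (GB := ThD 2 L - 2 * ThD 1 L)
    (E1 := 320000 * L / (x * τ ^ 2) + 36 * x * δ ^ 3)
    (E2 := 1280000 * L / (x * τ ^ 2) + 36 * x * δ ^ 3)
    (g := 1 / (2 * π) * Real.log 2) (il := 1 / L) hδ0 hδ hs (bD_nonneg _ _) (bD_nonneg _ _)
    gA gB (by positivity) (by positivity) hlog (by positivity) ?_ ?_ ?_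
  · exact hfin
  · linarith
  · linarith
  · have hsw' : bD 2 y ≤ 4 * bD (1 / 2) (x * s ^ 2) := by
      calc _ ≤ _ := hsw
        _ = _ := by ring
    have := mul_le_mul_of_nonneg_left hsw' (by positivity : 0 ≤ 1 + 12 * δ)
    linarith

end Pool.Agent.H969
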