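import Mathlib
import Pool.Agent.H969.DRec

/-! Lower bound along a sequence of densities. -/

set_option autoImplicit false

open MeasureTheory
open scoped ENNReal NNReal Real

namespace Pool.Agent.H969

/-- starting density -/
noncomputable def X0 : ℝ := 4 ^ 500

theorem X0_def : X0 = (4 : ℝ) ^ 500 := rfl

theorem X0_ge : 4 ≤ X0 := by
  rw [X0_def]
  exact le_self_pow₀ (by norm_num) (by norm_num)

theorem root_exists {x : ℝ} (hx : X0 ≤ x) : ∃ q : ℝ, 4 ≤ q ∧ q ^ 500 = x := by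
  have hx0 : 0 ≤ x := le_trans (by linarith [X0_ge]) hx
  refine ⟨x ^ (((500 : ℕ) : ℝ)⁻¹), ?_, Real.rpow_inv_natCast_pow hx0 (by norm_num)⟩
  have h1 := Real.rpow_inv_natCast_pow hx0 (by norm_num : (500 : ℕ) ≠ 0)
  by_contra h
  push Not at h
  have h2 : 0 ≤ x ^ (((500 : ℕ) : ℝ)⁻¹) := Real.rpow_nonneg hx0 _
  have h3 := pow_lt_pow_left₀ h h2 (by norm_num : (500 : ℕ) ≠ 0)
  rw [h1, ← X0_def] at h3
  linarith

theorem floor_L {q : ℝ} (hq : 4 ≤ q) : ∃ L : ℕ, 0 < L ∧ (L : ℝ) ≤ q ^ 5 ∧ 1 / (L : ℝ) ≤ 2 / q ^ 5 := by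
  have h5 : (2 : ℝ) ≤ q ^ 5 := by
    calc (2 : ℝ) ≤ 4 ^ 5 := by norm_num
      _ ≤ q ^ 5 := pow_le_pow_left₀ (by norm_num) hq 5
  have hfl := Nat.floor_le (by linarith : 0 ≤ q ^ 5)
  have hlt := Nat.lt_floor_add_one (q ^ 5)
  have hpos : (0 : ℝ) < ⌊q ^ 5⌋₊ := by linarith
  refine ⟨⌊q ^ 5⌋₊, by exact_mod_cast hpos, hfl, ?_⟩
  rw [div_le_div_iff₀ hpos (by linarith)]
  linarith

theorem step_q {q : ℝ} (hq : 4 ≤ q) :
    (1 - 96 * (1 / q ^ 180)) * (bD 1 (q ^ 500) + 1 / (2 * π) * Real.log 2) - 3 / q ^ 5 ≤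
      bD 1 (4 * q ^ 500 / (1 - 16 * (1 / q ^ 180)) ^ 4) := by
  have hq0 : 0 < q := by linarith
  have hq1 : 1 ≤ q := by linarith
  obtain ⟨L, hL, hL1, hL2⟩ := floor_L hq
  obtain ⟨δ, hδ⟩ : ∃ δ : ℝ, δ = 1 / q ^ 180 := ⟨_, rfl⟩
  rw [← hδ]
  have hp : ∀ n : ℕ, (4 : ℝ) ^ n ≤ q ^ n := fun n => pow_le_pow_left₀ (by norm_num) hq n
  have hδ0 : 0 < δ := by rw [hδ]; positivity
  have hδ64 : δ ≤ 1 / 64 := by
    rw [hδ]
    apply one_div_le_one_div_of_le (by norm_num)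
    exact le_trans (by norm_num) (hp 180)
  obtain ⟨-, -, -, -, -, hs4, -, -, -⟩ := sq_bounds hδ0 hδ64 rfl
  have e16 : 1 - 2 * (8 * δ) = 1 - 16 * δ := by ring
  rw [e16] at hs4
  have hs40 : 0 < (1 - 16 * δ) ^ 4 := by
    have : 0 < 1 - 16 * δ := by linarith
    positivity
  have hs41 : (1 - 16 * δ) ^ 4 ≤ 1 := pow_le_one₀ (by linarith) (by linarith)
  have hδ256 : δ ≤ 1 / 256 := by
    rw [hδ]
    apply one_div_le_one_div_of_le (by norm_num)
    exact le_trans (by norm_num) (hp 180)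
  have hs4' : 1 / 4 ≤ (1 - 16 * δ) ^ 4 := by linarith
  obtain ⟨x, hx⟩ : ∃ x : ℝ, x = 4 * q ^ 500 / (1 - 16 * δ) ^ 4 := ⟨_, rfl⟩
  have hq500 : (4 : ℝ) ≤ q ^ 500 := le_trans hq (le_self_pow₀ hq1 (by norm_num))
  have hxl : 4 * q ^ 500 ≤ x := by
    rw [hx, le_div_iff₀ hs40]
    have := mul_le_mul_of_nonneg_left hs41 (by positivity : 0 ≤ 4 * q ^ 500)
    linarith
  have hxu : x ≤ 16 * q ^ 500 := by
    rw [hx, div_le_iff₀ hs40]
    have := mul_le_mul_of_nonneg_left hs4' (by positivity : 0 ≤ 16 * q ^ 500)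
    linarith
  have hx0 : 0 < x := by linarith
  have hτle : 1 / q ^ 200 * (256 * (L : ℝ) ^ 3) ≤ δ := by
    rw [hδ, div_mul_eq_mul_div, one_mul, div_le_div_iff₀ (by positivity) (by positivity), one_mul]
    have h1 : (L : ℝ) ^ 3 ≤ (q ^ 5) ^ 3 := pow_le_pow_left₀ (by positivity) hL1 3
    have h2 : (256 : ℝ) ≤ q ^ 5 := le_trans (by norm_num) (hp 5)
    calc 256 * (L : ℝ) ^ 3 * q ^ 180 ≤ q ^ 5 * (q ^ 5) ^ 3 * q ^ 180 := by gcongr
      _ = q ^ 200 := by ring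
  have h := two_steps (x := x) (δ := δ) (τ := 1 / q ^ 200) hL (by linarith) hδ64
    (by positivity) hτle
  have ex : x * (1 - 16 * δ) ^ 4 / 4 = q ^ 500 := by
    rw [hx, div_mul_cancel₀ _ hs40.ne']
    ring
  rw [ex] at h
  rw [← hx]
  refine le_trans ?_ h
  -- errors
  have hE1 : (L : ℝ) / (x * (1 / q ^ 200) ^ 2) ≤ 1 / q ^ 95 := by
    rw [div_le_div_iff₀ (by positivity) (by positivity), one_mul]
    calc (L : ℝ) * q ^ 95 ≤ q ^ 5 * q ^ 95 := by gcongr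
      _ = q ^ 500 * (1 / q ^ 200) ^ 2 := by
          field_simp
      _ ≤ x * (1 / q ^ 200) ^ 2 := by
          apply mul_le_mul_of_nonneg_right _ (by positivity)
          linarith
  have hE2 : x * δ ^ 3 ≤ 16 / q ^ 40 := by
    rw [le_div_iff₀ (by positivity)]
    calc x * δ ^ 3 * q ^ 40 ≤ (16 * q ^ 500) * δ ^ 3 * q ^ 40 := by gcongr
      _ = 16 := by rw [hδ]; field_simp
  have hE1' : 1920000 * (1 / q ^ 95) ≤ 1 / 10 * (1 / q ^ 5) := by
    have h1 : (19200000 : ℝ) ≤ q ^ 90 := le_trans (by norm_num) (hp 90)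
    rw [mul_one_div, mul_one_div, div_le_div_iff₀ (by positivity) (by positivity)]
    calc 1920000 * q ^ 5 = 1 / 10 * (19200000 * q ^ 5) := by ring
      _ ≤ 1 / 10 * (q ^ 90 * q ^ 5) := by gcongr
      _ = 1 / 10 * q ^ 95 := by ring
  have hE2' : 1728 / q ^ 40 ≤ 1 / 10 * (1 / q ^ 5) := by
    have h1 : (17280 : ℝ) ≤ q ^ 35 := le_trans (by norm_num) (hp 35)
    rw [mul_one_div, div_le_div_iff₀ (by positivity) (by positivity)]
    calc 1728 * q ^ 5 = 1 / 10 * (17280 * q ^ 5) := by ring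
      _ ≤ 1 / 10 * (q ^ 35 * q ^ 5) := by gcongr
      _ = 1 / 10 * q ^ 40 := by ring
  have e1 : 2 * (320000 * (L : ℝ) / (x * (1 / q ^ 200) ^ 2) + 36 * x * δ ^ 3) +
        (1280000 * (L : ℝ) / (x * (1 / q ^ 200) ^ 2) + 36 * x * δ ^ 3) =
        1920000 * ((L : ℝ) / (x * (1 / q ^ 200) ^ 2)) + 108 * (x * δ ^ 3) := by ring
  have e2 : 3 / q ^ 5 = 3 * (1 / q ^ 5) := by ring
  have e3 : 2 / q ^ 5 = 2 * (1 / q ^ 5) := by ring
  have e4 : 16 / q ^ 40 * 108 = 1728 / q ^ 40 := by ring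
  have hpos5 : 0 < 1 / q ^ 5 := by positivity
  have k1 : 1 / (L : ℝ) + 2 * (320000 * (L : ℝ) / (x * (1 / q ^ 200) ^ 2) + 36 * x * δ ^ 3) +
        (1280000 * (L : ℝ) / (x * (1 / q ^ 200) ^ 2) + 36 * x * δ ^ 3) ≤ 3 / q ^ 5 := by
    rw [add_assoc, e1, e2]
    rw [e3] at hL2
    linarith
  linarith

/-- the invariant -/
def Inv (C x : ℝ) : Prop := ∃ q : ℝ, 4 ≤ q ∧ q ^ 500 = x ∧
  1 / (4 * π) * Real.log x - C + 400 / q ^ 5 ≤ bD 1 x

theorem log_two_eq : 1 / (2 * π) * Real.log 2 = 1 / (4 * π) * Real.log 4 := by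
  have : Real.log 4 = 2 * Real.log 2 := by
    rw [show (4 : ℝ) = 2 ^ 2 by norm_num, Real.log_pow]
    push_cast
    ring
  rw [this]
  field_simp
  ring

theorem g_bounds : 0 ≤ 1 / (2 * π) * Real.log 2 ∧ 1 / (2 * π) * Real.log 2 ≤ 1 := by
  have h3 := Real.log_nonneg (by norm_num : (1 : ℝ) ≤ 2)
  have h1 := Real.log_two_lt_d9
  have h2 : 1 / (2 * π) ≤ 1 := by
    rw [div_le_one (by positivity)]
    linarith [Real.pi_gt_three]
  refine ⟨by positivity, ?_⟩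
  have := mul_le_mul h2 h1.le h3 zero_le_one
  linarith

theorem pi_inv_le : 1 / (4 * π) ≤ 1 / 12 := by
  apply one_div_le_one_div_of_le (by norm_num)
  linarith [Real.pi_gt_three]

theorem inv_step {C x' : ℝ} (hC : 400 ≤ C) (h : Inv C x') : ∃ x, 4 * x' ≤ x ∧ Inv C x := by
  obtain ⟨q, hq, hqx, hB⟩ := h
  have hq0 : 0 < q := by linarith
  have hp : ∀ n : ℕ, (4 : ℝ) ^ n ≤ q ^ n := fun n => pow_le_pow_left₀ (by norm_num) hq n
  have hst := step_q hq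
  obtain ⟨δ, hδ⟩ : ∃ δ : ℝ, δ = 1 / q ^ 180 := ⟨_, rfl⟩
  rw [← hδ, hqx] at hst
  have hδ0 : 0 < δ := by rw [hδ]; positivity
  have hδ64 : δ ≤ 1 / 256 := by
    rw [hδ]
    apply one_div_le_one_div_of_le (by norm_num)
    exact le_trans (by norm_num) (hp 180)
  have hs0 : 1 / 2 ≤ 1 - 16 * δ := by linarith
  have hs40 : 0 < (1 - 16 * δ) ^ 4 := by positivity
  have hs41 : (1 - 16 * δ) ^ 4 ≤ 1 := pow_le_one₀ (by linarith) (by linarith)
  have hx'0 : 0 < x' := by rw [← hqx]; positivity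
  obtain ⟨x, hx⟩ : ∃ x : ℝ, x = 4 * x' / (1 - 16 * δ) ^ 4 := ⟨_, rfl⟩
  rw [← hx] at hst
  have hxl : 4 * x' ≤ x := by
    rw [hx, le_div_iff₀ hs40]
    have := mul_le_mul_of_nonneg_left hs41 (by positivity : 0 ≤ 4 * x')
    linarith
  have hx0 : 0 < x := by linarith
  have hx'4 : X0 ≤ x' := by rw [← hqx]; exact hp 500
  obtain ⟨q', hq', hqx'⟩ := root_exists (x := x) (by linarith)
  refine ⟨x, hxl, q', hq', hqx', ?_⟩
  have hq'0 : 0 < q' := by linarith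
  -- growth of q
  have hgrow : (1.0138 : ℝ) * q ^ 5 ≤ q' ^ 5 := by
    by_contra hcon
    push Not at hcon
    have h1 := pow_lt_pow_left₀ hcon (by positivity) (by norm_num : (100 : ℕ) ≠ 0)
    have h2 : (q' ^ 5) ^ 100 = x := by rw [← pow_mul]; exact hqx'
    have h3 : ((1.0138 : ℝ) * q ^ 5) ^ 100 = 1.0138 ^ 100 * x' := by
      rw [mul_pow, ← pow_mul, ← hqx]
    rw [h2, h3] at h1
    have h4 : (1.0138 : ℝ) ^ 100 ≤ 4 := by norm_num
    have := mul_le_mul_of_nonneg_right h4 hx'0.le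
    linarith
  have hinv : 400 / q' ^ 5 ≤ 395 * (1 / q ^ 5) := by
    rw [mul_one_div, div_le_div_iff₀ (by positivity) (by positivity)]
    have : 0 < q ^ 5 := by positivity
    linarith
  -- the logarithm
  have hlogx' : Real.log x' ≤ 500 * q := by
    rw [← hqx, Real.log_pow]
    have := Real.log_le_sub_one_of_pos hq0
    push_cast
    linarith
  have hlogx : Real.log x ≤ Real.log 4 + Real.log x' + 4 * (32 * δ) := by
    rw [hx, Real.log_div (by positivity) hs40.ne', Real.log_mul (by norm_num) hx'0.ne',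
      Real.log_pow]
    have h1 := Real.one_sub_inv_le_log_of_pos (x := 1 - 16 * δ) (by linarith)
    have h2 : (1 - 16 * δ)⁻¹ ≤ 1 + 32 * δ := by
      rw [inv_le_iff_one_le_mul₀ (by linarith)]
      have : 0 ≤ δ * (1 - 32 * δ) := mul_nonneg hδ0.le (by linarith)
      linarith
    push_cast
    linarith
  have hpi := pi_inv_le
  have hpi0 : 0 < 1 / (4 * π) := by positivity
  obtain ⟨hg0, hg1⟩ := g_bounds
  have hg4 := log_two_eq
  obtain ⟨g, hg⟩ : ∃ g : ℝ, g = 1 / (2 * π) * Real.log 2 := ⟨_, rfl⟩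
  rw [← hg] at hst hg0 hg1 hg4
  have hL1 : 1 / (4 * π) * Real.log x ≤ g + 1 / (4 * π) * Real.log x' + 11 * δ := by
    have h1 := mul_le_mul_of_nonneg_left hlogx hpi0.le
    have h2 := mul_le_mul_of_nonneg_right hpi (by positivity : 0 ≤ 4 * (32 * δ))
    linarith
  have hL2 : 1 / (4 * π) * Real.log x' ≤ 42 * q := by
    have h1 := mul_le_mul_of_nonneg_left hlogx' hpi0.le
    have h2 := mul_le_mul_of_nonneg_right hpi (by positivity : 0 ≤ 500 * q)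
    linarith
  obtain ⟨Λ, hΛ⟩ : ∃ Λ : ℝ, Λ = 1 / (4 * π) * Real.log x' := ⟨_, rfl⟩
  rw [← hΛ] at hL1 hL2 hB
  have h5 : 0 < 1 / q ^ 5 := by positivity
  have hq5 : 1 / q ^ 5 ≤ 1 := by
    rw [div_le_one (by positivity)]
    exact le_trans (by norm_num) (hp 5)
  have e400 : 400 / q ^ 5 = 400 * (1 / q ^ 5) := by ring
  have e3 : 3 / q ^ 5 = 3 * (1 / q ^ 5) := by ring
  rw [e400] at hB
  rw [e3] at hst
  have hδq : δ * q ≤ 1 / 100000 * (1 / q ^ 5) := by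
    rw [hδ, div_mul_eq_mul_div, one_mul, mul_one_div,
      div_le_div_iff₀ (by positivity) (by positivity)]
    have h1 : (100000 : ℝ) ≤ q ^ 174 := le_trans (by norm_num) (hp 174)
    calc q * q ^ 5 = 1 / 100000 * (100000 * q ^ 6) := by ring
      _ ≤ 1 / 100000 * (q ^ 174 * q ^ 6) := by gcongr
      _ = 1 / 100000 * q ^ 180 := by ring
  have hδq1 : δ ≤ δ * q := by
    have := mul_le_mul_of_nonneg_left (by linarith : 1 ≤ q) hδ0.le
    linarith
  -- main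
  have h96 : 0 ≤ 1 - 96 * δ := by linarith
  have m1 : (1 - 96 * δ) * (Λ - C + 400 * (1 / q ^ 5) + g) ≤ (1 - 96 * δ) * (bD 1 x' + g) :=
    mul_le_mul_of_nonneg_left (by linarith) h96
  have m2 : 96 * δ * (Λ - C + 400 * (1 / q ^ 5) + g) ≤ 96 * δ * (43 * q) := by
    apply mul_le_mul_of_nonneg_left _ (by positivity)
    linarith
  have m3 : 96 * δ * (43 * q) = 4128 * (δ * q) := by ring
  rw [m3] at m2
  linarith

/-- lower bound along a sequence -/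
theorem bD_lower : ∃ C : ℝ, ∀ X : ℝ, ∃ x, X ≤ x ∧ X0 ≤ x ∧
    1 / (4 * π) * Real.log x - C ≤ bD 1 x := by
  have hpi0 : 0 < 1 / (4 * π) := by positivity
  have hlog : 0 ≤ Real.log X0 := Real.log_nonneg (by linarith [X0_ge])
  refine ⟨1 / (4 * π) * Real.log X0 + 400, fun X => ?_⟩
  have key : ∀ n : ℕ, ∃ x, 4 ^ n * X0 ≤ x ∧
      Inv (1 / (4 * π) * Real.log X0 + 400) x := by
    intro n
    induction n with
    | zero =>
      refine ⟨X0, by rw [pow_zero, one_mul], 4, le_rfl, rfl, ?_⟩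
      have h1 : (400 : ℝ) / 4 ^ 5 ≤ 400 := div_le_self (by norm_num) (one_le_pow₀ (by norm_num))
      have h2 := bD_nonneg 1 X0
      linarith
    | succ n ih =>
      obtain ⟨x', hx', hI⟩ := ih
      obtain ⟨x, hx, hI'⟩ := inv_step (by linarith [mul_nonneg hpi0.le hlog]) hI
      refine ⟨x, le_trans ?_ hx, hI'⟩
      rw [pow_succ]
      linarith
  obtain ⟨n, hn⟩ := pow_unbounded_of_one_lt X (by norm_num : (1 : ℝ) < 4)
  obtain ⟨x, hx, q, hq, hqx, hB⟩ := key n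
  have h500 : (1 : ℝ) ≤ X0 := by linarith [X0_ge]
  have h4n : (1 : ℝ) ≤ 4 ^ n := one_le_pow₀ (by norm_num)
  refine ⟨x, ?_, ?_, ?_⟩
  · have := mul_le_mul_of_nonneg_left h500 (by positivity : (0 : ℝ) ≤ 4 ^ n)
    linarith
  · have := mul_le_mul_of_nonneg_right h4n (by linarith : (0 : ℝ) ≤ X0)
    linarith
  · have : 0 < 400 / q ^ 5 := by positivity
    linarith

end Pool.Agent.H969
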