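import Mathlib

/-! Existence of the limit: the abstract argument. -/

set_option autoImplicit false

open Filter Topology
open scoped Real

namespace Pool.Agent.H969

/-- the properties used -/
structure Hyp (b : ℝ → ℝ) (K : ℝ) : Prop where
  Kpos : 0 < K
  nonneg : ∀ x, 0 ≤ b x
  main : ∀ {q x : ℝ} {m : ℕ}, 4 ≤ q → 1 ≤ m → (m : ℝ) ≤ q → q ^ 110 ≤ x →
    b (m ^ 2 * x) ≤ b x + 1 / (2 * π) * Real.log m + K / q ^ 5 * (1 + b x)
  mono : ∀ {x y : ℝ}, 0 < x → x ≤ y → b y ≤ (y / x) * b x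

theorem exists_root {n : ℕ} (hn : n ≠ 0) {c x : ℝ} (hc : 0 ≤ c) (hx : c ^ n ≤ x) :
    ∃ q : ℝ, c ≤ q ∧ q ^ n = x := by
  have hx0 : 0 ≤ x := le_trans (by positivity) hx
  have h1 := Real.rpow_inv_natCast_pow hx0 hn
  refine ⟨x ^ ((n : ℝ)⁻¹), ?_, h1⟩
  by_contra h
  push Not at h
  have h2 : 0 ≤ x ^ ((n : ℝ)⁻¹) := Real.rpow_nonneg hx0 _
  have h3 := pow_lt_pow_left₀ h h2 hn
  rw [h1] at h3
  linarith

theorem exists_rho : ∃ ρ : ℝ, 1 < ρ ∧ ρ ^ 110 = 4 := by
  obtain ⟨q, hq, hq2⟩ := exists_root (n := 110) (by norm_num) (c := 1) (x := 4) (by norm_num)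
    (by norm_num)
  refine ⟨q, lt_of_le_of_ne hq ?_, hq2⟩
  rintro rfl
  norm_num at hq2

theorem geom_le {r : ℝ} (h0 : 0 ≤ r) (h1 : r < 1) (k : ℕ) :
    ∑ j ∈ Finset.range k, r ^ j ≤ 1 / (1 - r) := by
  have h := Summable.sum_le_tsum (Finset.range k) (fun i _ => pow_nonneg h0 i)
    (summable_geometric_of_lt_one h0 h1)
  rwa [tsum_geometric_of_lt_one h0 h1, ← one_div] at h

theorem half_log_two : 1 / (2 * π) * Real.log 2 ≤ 1 := by
  have h3 := Real.log_nonneg (by norm_num : (1 : ℝ) ≤ 2)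
  have h1 := Real.log_two_lt_d9
  have h2 : 1 / (2 * π) ≤ 1 := by
    rw [div_le_one (by positivity)]
    linarith [Real.pi_gt_three]
  have := mul_le_mul h2 h1.le h3 zero_le_one
  linarith

/-- starting point -/
noncomputable def X1 : ℝ := 4 ^ 110

theorem X1_ge : 4 ≤ X1 := by
  unfold X1
  exact le_self_pow₀ (by norm_num) (by norm_num)

variable {b : ℝ → ℝ} {K : ℝ}

theorem Hyp.apriori_seq (h : Hyp b K) : ∃ A : ℝ, 1 ≤ A ∧ ∀ k : ℕ,
    b (4 ^ k * X1) ≤ A * (1 + k) := by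
  obtain ⟨ρ, hρ, hρ4⟩ := exists_rho
  have hρ0 : 0 < ρ := by linarith
  have hK := h.Kpos
  obtain ⟨r, hr⟩ : ∃ r : ℝ, r = (ρ ^ 5)⁻¹ := ⟨_, rfl⟩
  have hr0 : 0 ≤ r := by rw [hr]; positivity
  have hr1 : r < 1 := by
    rw [hr]
    exact inv_lt_one_of_one_lt₀ (one_lt_pow₀ hρ (by norm_num))
  have hB0 := h.nonneg X1
  have key : ∀ k : ℕ, 1 + b (4 ^ k * X1) ≤
      Real.exp (K * ∑ j ∈ Finset.range k, r ^ j) * (1 + b X1 + k) := by
    intro k
    induction k with
    | zero => simp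
    | succ k ih =>
      have hρk : (1 : ℝ) ≤ ρ ^ k := one_le_pow₀ hρ.le
      have hm := h.main (q := 4 * ρ ^ k) (x := 4 ^ k * X1) (m := 2) (by linarith) (by norm_num)
        (by push_cast; linarith) (by
          have e : (4 * ρ ^ k) ^ 110 = 4 ^ k * X1 := by
            rw [mul_pow, ← pow_mul, mul_comm k 110, pow_mul, hρ4]
            unfold X1
            ring
          rw [e])
      have e1 : ((2 : ℕ) : ℝ) ^ 2 * (4 ^ k * X1) = 4 ^ (k + 1) * X1 := by
        push_cast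
        ring
      rw [e1] at hm
      have hlog := half_log_two
      push_cast at hm
      have hκ : K / (4 * ρ ^ k) ^ 5 ≤ K * r ^ k := by
        have e : K * r ^ k = K / (ρ ^ k) ^ 5 := by
          rw [hr, inv_pow, ← pow_mul, ← pow_mul, mul_comm k 5]
          rfl
        rw [e]
        gcongr
        linarith
      have hb := h.nonneg (4 ^ k * X1)
      have hrk : 0 ≤ r ^ k := pow_nonneg hr0 k
      have h1 : K / (4 * ρ ^ k) ^ 5 * (1 + b (4 ^ k * X1)) ≤
          K * r ^ k * (1 + b (4 ^ k * X1)) := mul_le_mul_of_nonneg_right hκ (by linarith)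
      have h2 : 1 + b (4 ^ (k + 1) * X1) ≤ (1 + K * r ^ k) * (1 + b (4 ^ k * X1) + 1) := by
        have : 0 ≤ K * r ^ k := by positivity
        linarith
      have h3 : 1 + K * r ^ k ≤ Real.exp (K * r ^ k) := by
        linarith [Real.add_one_le_exp (K * r ^ k)]
      have h4 : 1 ≤ Real.exp (K * ∑ j ∈ Finset.range k, r ^ j) := by
        rw [← Real.exp_zero]
        apply Real.exp_le_exp.2
        have : 0 ≤ ∑ j ∈ Finset.range k, r ^ j := Finset.sum_nonneg fun j _ => pow_nonneg hr0 j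
        positivity
      calc 1 + b (4 ^ (k + 1) * X1) ≤ (1 + K * r ^ k) * (1 + b (4 ^ k * X1) + 1) := h2
        _ ≤ Real.exp (K * r ^ k) * (Real.exp (K * ∑ j ∈ Finset.range k, r ^ j) *
            (1 + b X1 + k) + 1) := by
            apply mul_le_mul h3 (by linarith) (by linarith) (Real.exp_pos _).le
        _ ≤ Real.exp (K * r ^ k) * (Real.exp (K * ∑ j ∈ Finset.range k, r ^ j) *
            (1 + b X1 + k) + Real.exp (K * ∑ j ∈ Finset.range k, r ^ j)) := by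
            gcongr
        _ = Real.exp (K * ∑ j ∈ Finset.range (k + 1), r ^ j) * (1 + b X1 + (k + 1 : ℕ)) := by
            have e : K * ∑ j ∈ Finset.range (k + 1), r ^ j =
                K * ∑ j ∈ Finset.range k, r ^ j + K * r ^ k := by
              rw [Finset.sum_range_succ, mul_add]
            rw [e, Real.exp_add]
            push_cast
            ring
  obtain ⟨EE, hEE⟩ : ∃ EE : ℝ, EE = Real.exp (K * (1 / (1 - r))) := ⟨_, rfl⟩
  have hEE1 : 1 ≤ EE := by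
    rw [hEE]
    apply Real.one_le_exp
    have : 0 < 1 - r := by linarith
    positivity
  refine ⟨EE * (1 + b X1), by nlinarith, fun k => ?_⟩
  have h1 := key k
  have h2 : Real.exp (K * ∑ j ∈ Finset.range k, r ^ j) ≤ EE := by
    rw [hEE]
    apply Real.exp_le_exp.2
    exact mul_le_mul_of_nonneg_left (geom_le hr0 hr1 k) hK.le
  have hk : (0 : ℝ) ≤ k := Nat.cast_nonneg k
  calc b (4 ^ k * X1) ≤ 1 + b (4 ^ k * X1) := by linarith
    _ ≤ Real.exp (K * ∑ j ∈ Finset.range k, r ^ j) * (1 + b X1 + k) := h1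
    _ ≤ EE * (1 + b X1 + k) := mul_le_mul_of_nonneg_right h2 (by linarith)
    _ ≤ EE * ((1 + b X1) * (1 + k)) := by
        apply mul_le_mul_of_nonneg_left _ (by linarith)
        have : 0 ≤ b X1 * k := mul_nonneg hB0 hk
        linarith
    _ = _ := by ring

theorem one_le_log4 : 1 ≤ Real.log 4 := by
  have h1 := Real.log_two_gt_d9
  have : Real.log 4 = 2 * Real.log 2 := by
    rw [show (4 : ℝ) = 2 ^ 2 by norm_num, Real.log_pow]
    push_cast
    ring
  linarith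

theorem Hyp.apriori (h : Hyp b K) : ∃ A : ℝ, 1 ≤ A ∧ ∀ x : ℝ, X1 ≤ x →
    b x ≤ A * (1 + Real.log x) := by
  obtain ⟨A, hA, hB⟩ := h.apriori_seq
  refine ⟨4 * A, by linarith, fun x hx => ?_⟩
  have hX := X1_ge
  have hX0 : 0 < X1 := by linarith
  have hx0 : 0 < x := by linarith
  obtain ⟨k, hk1, hk2⟩ := exists_nat_pow_near (x := x / X1) (y := 4)
    (by rw [one_le_div hX0]; exact hx) (by norm_num)
  rw [le_div_iff₀ hX0] at hk1
  rw [div_lt_iff₀ hX0] at hk2
  have hpos : 0 < 4 ^ k * X1 := by positivity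
  have h1 := h.mono hpos hk1
  have h2 : x / (4 ^ k * X1) ≤ 4 := by
    rw [div_le_iff₀ hpos]
    rw [pow_succ] at hk2
    linarith
  have h3 : (k : ℝ) ≤ Real.log x := by
    have h4 : (4 : ℝ) ^ k ≤ x := by
      have := mul_le_mul_of_nonneg_left (by linarith : 1 ≤ X1) (by positivity : (0 : ℝ) ≤ 4 ^ k)
      linarith
    have h5 := Real.log_le_log (by positivity) h4
    rw [Real.log_pow] at h5
    have := mul_le_mul_of_nonneg_left one_le_log4 (Nat.cast_nonneg (α := ℝ) k)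
    linarith
  calc b x ≤ (x / (4 ^ k * X1)) * b (4 ^ k * X1) := h1
    _ ≤ 4 * (A * (1 + k)) := mul_le_mul h2 (hB k) (h.nonneg _) (by norm_num)
    _ ≤ 4 * A * (1 + Real.log x) := by
        have := mul_le_mul_of_nonneg_left h3 (by linarith : 0 ≤ 4 * A)
        linarith

/-- the normalized function -/
noncomputable def nf (b : ℝ → ℝ) (x : ℝ) : ℝ := b x - 1 / (4 * π) * Real.log x

theorem Hyp.step (h : Hyp b K) {A : ℝ} (hA : 1 ≤ A)
    (hB : ∀ x : ℝ, X1 ≤ x → b x ≤ A * (1 + Real.log x)) {q : ℝ} {m : ℕ} (hq : 4 ≤ q)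
    (hm : 1 ≤ m) (hmq : (m : ℝ) ≤ q) :
    nf b (m ^ 2 * q ^ 110) ≤ nf b (q ^ 110) + 112 * K * A / q ^ 4 := by
  have hK := h.Kpos
  have hq0 : 0 < q := by linarith
  have hq1 : 1 ≤ q := by linarith
  have hm0 : (0 : ℝ) < m := by exact_mod_cast hm
  have h1 := h.main hq hm hmq le_rfl
  have hX : X1 ≤ q ^ 110 := by
    unfold X1
    exact pow_le_pow_left₀ (by norm_num) hq 110
  have h2 := hB _ hX
  have hlog : Real.log (q ^ 110) ≤ 110 * q := by
    rw [Real.log_pow]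
    have := Real.log_le_sub_one_of_pos hq0
    push_cast
    linarith
  have h3 : 1 + b (q ^ 110) ≤ 112 * A * q := by
    have h4 : A * (1 + Real.log (q ^ 110)) ≤ A * (1 + 110 * q) :=
      mul_le_mul_of_nonneg_left (by linarith) (by linarith)
    have h5 : A * 1 ≤ A * q := mul_le_mul_of_nonneg_left hq1 (by linarith)
    linarith
  have h4 : K / q ^ 5 * (1 + b (q ^ 110)) ≤ 112 * K * A / q ^ 4 := by
    calc K / q ^ 5 * (1 + b (q ^ 110)) ≤ K / q ^ 5 * (112 * A * q) :=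
          mul_le_mul_of_nonneg_left h3 (by positivity)
      _ = _ := by field_simp
  unfold nf
  have e : Real.log (m ^ 2 * q ^ 110) = 2 * Real.log m + Real.log (q ^ 110) := by
    rw [Real.log_mul (by positivity) (by positivity), Real.log_pow]
    push_cast
    ring
  rw [e]
  have e2 : 1 / (4 * π) * (2 * Real.log m + Real.log (q ^ 110)) =
      1 / (2 * π) * Real.log m + 1 / (4 * π) * Real.log (q ^ 110) := by
    field_simp
    ring
  rw [e2]
  linarith

theorem Hyp.chain (h : Hyp b K) {A : ℝ} (hA : 1 ≤ A)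
    (hB : ∀ x : ℝ, X1 ≤ x → b x ≤ A * (1 + Real.log x)) : ∃ M : ℝ, 0 ≤ M ∧
    ∀ q : ℝ, 4 ≤ q → ∀ j : ℕ, nf b (4 ^ j * q ^ 110) ≤ nf b (q ^ 110) + M / q ^ 4 := by
  obtain ⟨ρ, hρ, hρ4⟩ := exists_rho
  have hρ0 : 0 < ρ := by linarith
  have hK := h.Kpos
  obtain ⟨r, hr⟩ : ∃ r : ℝ, r = (ρ ^ 4)⁻¹ := ⟨_, rfl⟩
  have hr0 : 0 ≤ r := by rw [hr]; positivity
  have hr1 : r < 1 := by
    rw [hr]
    exact inv_lt_one_of_one_lt₀ (one_lt_pow₀ hρ (by norm_num))
  have h1r : 0 < 1 - r := by linarith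
  refine ⟨112 * K * A * (1 / (1 - r)), by positivity, fun q hq => ?_⟩
  have hq0 : 0 < q := by linarith
  have key : ∀ j : ℕ, nf b (4 ^ j * q ^ 110) ≤ nf b (q ^ 110) +
      112 * K * A / q ^ 4 * ∑ i ∈ Finset.range j, r ^ i := by
    intro j
    induction j with
    | zero => simp
    | succ j ih =>
      have hρj : (1 : ℝ) ≤ ρ ^ j := one_le_pow₀ hρ.le
      have hqj : q ≤ ρ ^ j * q := by
        have := mul_le_mul_of_nonneg_right hρj hq0.le
        linarith
      have hs := h.step hA hB (q := ρ ^ j * q) (m := 2) (by linarith) (by norm_num)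
        (by push_cast; linarith)
      have e : (ρ ^ j * q) ^ 110 = 4 ^ j * q ^ 110 := by
        rw [mul_pow, ← pow_mul, mul_comm j 110, pow_mul, hρ4]
      have e1 : ((2 : ℕ) : ℝ) ^ 2 * (ρ ^ j * q) ^ 110 = 4 ^ (j + 1) * q ^ 110 := by
        rw [e]
        push_cast
        ring
      have e2 : 112 * K * A / (ρ ^ j * q) ^ 4 = 112 * K * A / q ^ 4 * r ^ j := by
        rw [hr, inv_pow, ← pow_mul, mul_pow, ← pow_mul, mul_comm j 4]
        field_simp
      rw [e1, e, e2] at hs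
      rw [Finset.sum_range_succ, mul_add]
      linarith
  intro j
  refine (key j).trans ?_
  have := mul_le_mul_of_nonneg_left (geom_le hr0 hr1 j)
    (by positivity : 0 ≤ 112 * K * A / q ^ 4)
  have e : 112 * K * A / q ^ 4 * (1 / (1 - r)) = 112 * K * A * (1 / (1 - r)) / q ^ 4 := by ring
  rw [e] at this
  linarith

/-- the key estimate -/
theorem Hyp.star (h : Hyp b K) : ∃ M : ℝ, 0 ≤ M ∧ ∀ q : ℝ, 4 ≤ q → ∀ ε : ℝ, 0 < ε →
    ∃ Y : ℝ, ∀ y : ℝ, Y ≤ y → nf b y ≤ nf b (q ^ 110) + M / q ^ 4 + ε := by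
  obtain ⟨A, hA, hB⟩ := h.apriori
  obtain ⟨M, hM, hch⟩ := h.chain hA hB
  have hK := h.Kpos
  refine ⟨M, hM, fun q0 hq0 ε hε => ?_⟩
  have hq00 : 0 < q0 := by linarith
  have hx0 : 0 < q0 ^ 110 := by positivity
  -- threshold
  obtain ⟨S0, hS0⟩ : ∃ S0 : ℝ, S0 = 2 + q0 + (112 * K * A + 2694 * A) / ε := ⟨_, rfl⟩
  have hS0pos : 0 < (112 * K * A + 2694 * A) / ε := by positivity
  refine ⟨S0 ^ 448, fun y hy => ?_⟩
  obtain ⟨S, hS, hSy⟩ := exists_root (n := 448) (by norm_num) (c := S0) (x := y)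
    (by rw [hS0]; positivity) hy
  have hS2 : 2 ≤ S := by linarith
  have hSq0 : q0 ≤ S := by linarith
  have hSpos : 0 < S := by linarith
  have hS1 : 1 ≤ S := by linarith
  have hSε : (112 * K * A + 2694 * A) / S ≤ ε := by
    rw [div_le_iff₀ hSpos]
    have h1 : (112 * K * A + 2694 * A) / ε ≤ S := by linarith
    rw [div_le_iff₀ hε] at h1
    linarith
  have hy0 : 0 < y := by rw [← hSy]; positivity
  -- choice of j
  have hge : 1 ≤ S ^ 444 / q0 ^ 110 := by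
    rw [one_le_div hx0]
    calc q0 ^ 110 ≤ S ^ 110 := pow_le_pow_left₀ hq00.le hSq0 110
      _ ≤ S ^ 444 := pow_le_pow_right₀ hS1 (by norm_num)
  obtain ⟨j, hj1, hj2⟩ := exists_nat_pow_near (x := S ^ 444 / q0 ^ 110) (y := 4) hge
    (by norm_num)
  rw [le_div_iff₀ hx0] at hj1
  rw [div_lt_iff₀ hx0] at hj2
  obtain ⟨ρ, hρ, hρ4⟩ := exists_rho
  have hρ0 : 0 < ρ := by linarith
  have hρj : (1 : ℝ) ≤ ρ ^ j := one_le_pow₀ hρ.le
  obtain ⟨q, hqd⟩ : ∃ q : ℝ, q = ρ ^ j * q0 := ⟨_, rfl⟩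
  have hq4 : 4 ≤ q := by
    have := mul_le_mul_of_nonneg_right hρj hq00.le
    rw [hqd]
    linarith
  have hqpos : 0 < q := by linarith
  have hq110 : q ^ 110 = 4 ^ j * q0 ^ 110 := by
    rw [hqd, mul_pow, ← pow_mul, mul_comm j 110, pow_mul, hρ4]
  rw [← hq110] at hj1
  have hj2' : S ^ 444 < 4 * q ^ 110 := by
    rw [hq110]
    rw [pow_succ (4 : ℝ) j] at hj2
    linarith
  have hx110 : 0 < q ^ 110 := by positivity
  -- 2 S^2 ≤ q
  have hSq : 2 * S ^ 2 ≤ q := by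
    by_contra hcon
    push Not at hcon
    have h1 := pow_lt_pow_left₀ hcon hqpos.le (by norm_num : (110 : ℕ) ≠ 0)
    have h2 : 4 * (2 * S ^ 2) ^ 110 ≤ S ^ 444 := by
      have h3 : (2 : ℝ) ^ 112 ≤ S ^ 112 := pow_le_pow_left₀ (by norm_num) hS2 112
      have h4 : S ^ 112 ≤ S ^ 224 := pow_le_pow_right₀ hS1 (by norm_num)
      calc 4 * (2 * S ^ 2) ^ 110 = 2 ^ 112 * S ^ 220 := by ring
        _ ≤ S ^ 224 * S ^ 220 := by
            apply mul_le_mul_of_nonneg_right _ (by positivity)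
            linarith
        _ = S ^ 444 := by ring
    linarith
  -- choice of m
  obtain ⟨t, ht⟩ : ∃ t : ℝ, t = Real.sqrt (y / q ^ 110) := ⟨_, rfl⟩
  have ht0 : 0 ≤ t := by rw [ht]; exact Real.sqrt_nonneg _
  have ht2 : t ^ 2 = y / q ^ 110 := by rw [ht]; exact Real.sq_sqrt (by positivity)
  have htl : S ^ 2 ≤ t := by
    rw [ht]
    apply Real.le_sqrt_of_sq_le
    rw [le_div_iff₀ hx110, ← hSy]
    calc (S ^ 2) ^ 2 * q ^ 110 ≤ (S ^ 2) ^ 2 * S ^ 444 := by gcongr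
      _ = S ^ 448 := by ring
  have htu : t ≤ 2 * S ^ 2 := by
    rw [ht]
    apply Real.sqrt_le_iff.2
    refine ⟨by positivity, ?_⟩
    rw [div_le_iff₀ hx110, ← hSy]
    calc S ^ 448 = S ^ 4 * S ^ 444 := by ring
      _ ≤ S ^ 4 * (4 * q ^ 110) := by gcongr
      _ = _ := by ring
  obtain ⟨m, hm⟩ : ∃ m : ℕ, m = ⌊t⌋₊ := ⟨_, rfl⟩
  have hmt : (m : ℝ) ≤ t := by rw [hm]; exact Nat.floor_le ht0
  have htm : t < m + 1 := by rw [hm]; exact Nat.lt_floor_add_one t
  have hS4 : 4 ≤ S ^ 2 := by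
    have := pow_le_pow_left₀ (by norm_num) hS2 2
    linarith
  have hmS : S ^ 2 / 2 ≤ m := by linarith
  have hm2 : (2 : ℝ) ≤ m := by linarith
  have hm0 : (0 : ℝ) < m := by linarith
  have hm1 : 1 ≤ m := by exact_mod_cast (by linarith : (1 : ℝ) ≤ m)
  have hmq : (m : ℝ) ≤ q := by linarith
  have hst := h.step hA hB hq4 hm1 hmq
  have hcj := hch q0 hq0 j
  rw [← hq110] at hcj
  -- comparison of y and m^2 x
  obtain ⟨w, hw⟩ : ∃ w : ℝ, w = m ^ 2 * q ^ 110 := ⟨_, rfl⟩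
  rw [← hw] at hst
  have hw0 : 0 < w := by rw [hw]; positivity
  have hyt : y = t ^ 2 * q ^ 110 := by rw [ht2]; field_simp
  have hwy : w ≤ y := by
    rw [hw, hyt]
    gcongr
  have hyw : y / w ≤ 1 + 3 / m := by
    rw [div_le_iff₀ hw0, hw, hyt]
    have h1 : t ^ 2 ≤ ((m : ℝ) + 1) ^ 2 := pow_le_pow_left₀ ht0 htm.le 2
    have h2 : ((m : ℝ) + 1) ^ 2 ≤ (1 + 3 / m) * m ^ 2 := by
      have e : (1 + 3 / (m : ℝ)) * m ^ 2 = m ^ 2 + 3 * m := by field_simp
      rw [e]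
      have e2 : ((m : ℝ) + 1) ^ 2 = m ^ 2 + 2 * m + 1 := by ring
      rw [e2]
      linarith
    calc t ^ 2 * q ^ 110 ≤ ((1 + 3 / m) * m ^ 2) * q ^ 110 := by
          apply mul_le_mul_of_nonneg_right (h1.trans h2) hx110.le
      _ = _ := by ring
  have hX : X1 ≤ w := by
    have h1 : X1 ≤ q ^ 110 := by
      unfold X1
      exact pow_le_pow_left₀ (by norm_num) hq4 110
    have h2 : 1 * q ^ 110 ≤ (m : ℝ) ^ 2 * q ^ 110 := by
      apply mul_le_mul_of_nonneg_right _ hx110.le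
      exact one_le_pow₀ (by linarith)
    rw [hw]
    linarith
  have hbw := hB w hX
  have hlogwy : Real.log w ≤ Real.log y := Real.log_le_log hw0 hwy
  have hlogy : Real.log y ≤ 448 * S := by
    rw [← hSy, Real.log_pow]
    have := Real.log_le_sub_one_of_pos hSpos
    push_cast
    linarith
  have hbw0 := h.nonneg w
  have hby : b y ≤ b w + 3 / m * b w := by
    have h1 := h.mono hw0 hwy
    have h2 := mul_le_mul_of_nonneg_right hyw hbw0
    linarith
  have hbw2 : b w ≤ 449 * A * S := by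
    have h1 : A * (1 + Real.log w) ≤ A * (1 + 448 * S) :=
      mul_le_mul_of_nonneg_left (by linarith) (by linarith)
    have h2 : A * 1 ≤ A * S := mul_le_mul_of_nonneg_left hS1 (by linarith)
    linarith
  have herr1 : 3 / m * b w ≤ 2694 * A / S := by
    have h1 : 3 / (m : ℝ) ≤ 6 / S ^ 2 := by
      rw [div_le_div_iff₀ hm0 (by positivity)]
      linarith
    calc 3 / m * b w ≤ 6 / S ^ 2 * (449 * A * S) := mul_le_mul h1 hbw2 hbw0 (by positivity)
      _ = _ := by field_simp; ring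
  have herr2 : 112 * K * A / q ^ 4 ≤ 112 * K * A / S := by
    apply div_le_div_of_nonneg_left (by positivity) hSpos
    have h1 : S ≤ q := by
      have : S * 1 ≤ S * S := mul_le_mul_of_nonneg_left hS1 hSpos.le
      have e : S * S = S ^ 2 := by ring
      rw [e] at this
      linarith
    calc S ≤ q := h1
      _ ≤ q ^ 4 := le_self_pow₀ (by linarith) (by norm_num)
  have hpi0 : 0 < 1 / (4 * π) := by positivity
  have hlog2 := mul_le_mul_of_nonneg_left hlogwy hpi0.le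
  have e5 : (112 * K * A + 2694 * A) / S = 112 * K * A / S + 2694 * A / S := by ring
  rw [e5] at hSε
  have hfy : nf b y ≤ nf b w + 3 / m * b w := by
    unfold nf
    linarith
  linarith

/-- existence of the limit -/
theorem Hyp.limit (h : Hyp b K) (hlow : ∃ C : ℝ, ∀ X : ℝ, ∃ x, X ≤ x ∧
    1 / (4 * π) * Real.log x - C ≤ b x) : ∃ ξ : ℝ, Tendsto (nf b) atTop (𝓝 ξ) := by
  obtain ⟨M, hM, hstar⟩ := h.star
  obtain ⟨C, hC⟩ := hlow
  -- lower bound of the upper envelope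
  have hbd : ∀ q : ℝ, 4 ≤ q → -C ≤ nf b (q ^ 110) + M / q ^ 4 := by
    intro q hq
    apply le_of_forall_pos_le_add
    intro ε hε
    obtain ⟨Y, hY⟩ := hstar q hq ε hε
    obtain ⟨x, hx, hxC⟩ := hC Y
    have := hY x hx
    have h2 : -C ≤ nf b x := by unfold nf; linarith
    linarith
  set V : Set ℝ := {v | ∃ q : ℝ, 4 ≤ q ∧ v = nf b (q ^ 110) + M / q ^ 4} with hV
  have hne : V.Nonempty := ⟨_, 4, le_rfl, rfl⟩
  have hbdd : BddBelow V := ⟨-C, by rintro v ⟨q, hq, rfl⟩; exact hbd q hq⟩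
  refine ⟨sInf V, ?_⟩
  rw [Metric.tendsto_atTop]
  intro ε hε
  -- upper estimate
  obtain ⟨v, ⟨q, hq, rfl⟩, hv⟩ := Real.lt_sInf_add_pos hne (half_pos hε)
  obtain ⟨Y, hY⟩ := hstar q hq (ε / 2) (half_pos hε)
  -- lower estimate
  obtain ⟨c, hcd⟩ : ∃ c : ℝ, c = 4 + 2 * M / ε := ⟨_, rfl⟩
  have hMe : 0 ≤ 2 * M / ε := by positivity
  refine ⟨max Y (c ^ 110), fun y hy => ?_⟩
  have hy1 : Y ≤ y := (le_max_left _ _).trans hy
  have hy2 : c ^ 110 ≤ y := (le_max_right _ _).trans hy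
  obtain ⟨q', hq', hqy⟩ := exists_root (n := 110) (by norm_num) (c := c) (x := y)
    (by linarith) hy2
  have hq'4 : 4 ≤ q' := by linarith
  have hlow : sInf V ≤ nf b y + M / q' ^ 4 := by
    rw [← hqy]
    exact csInf_le hbdd ⟨q', hq'4, rfl⟩
  have hsmall : M / q' ^ 4 ≤ ε / 2 := by
    rw [div_le_iff₀ (by positivity)]
    have h1 : 2 * M / ε ≤ q' := by linarith
    rw [div_le_iff₀ hε] at h1
    have h2 : q' ≤ q' ^ 4 := le_self_pow₀ (by linarith) (by norm_num)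
    have h3 := mul_le_mul_of_nonneg_left h2 (half_pos hε).le
    linarith
  have hup := hY y hy1
  rw [Real.dist_eq, abs_lt]
  constructor
  · by_contra hcon
    push Not at hcon
    have h1 : M / q' ^ 4 < ε := by linarith
    linarith
  · linarith

end Pool.Agent.H969
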