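import Mathlib
import Pool.Agent.H969.Fixed

/-! Averaging over the numbers of points. -/

set_option autoImplicit false

open MeasureTheory
open scoped ENNReal NNReal

namespace Pool.Agent.H969

/-- indicator of an atypical number of points -/
noncomputable def bad (η r : ℝ) (n : ℕ) : ℝ := if |(n : ℝ) - r| ≤ η * r then 0 else 1

theorem bad_nonneg (η r : ℝ) (n : ℕ) : 0 ≤ bad η r n := by
  unfold bad; split_ifs <;> norm_num

theorem bad_le_one (η r : ℝ) (n : ℕ) : bad η r n ≤ 1 := by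
  unfold bad; split_ifs <;> norm_num

theorem integrable_bad (η r : ℝ) : Integrable (bad η r) (P r) := by
  apply Integrable.of_bound Measurable.of_discrete.aestronglyMeasurable 1
  refine Filter.Eventually.of_forall fun n => ?_
  rw [Real.norm_eq_abs, abs_of_nonneg (bad_nonneg _ _ _)]
  exact bad_le_one _ _ _

theorem integrable_mul_bad {r : ℝ} (hr : 0 ≤ r) (η : ℝ) :
    Integrable (fun n : ℕ => (n : ℝ) * bad η r n) (P r) := by
  apply (integrable_nat_P hr).mono' Measurable.of_discrete.aestronglyMeasurable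
  refine Filter.Eventually.of_forall fun n => ?_
  have := bad_nonneg η r n
  rw [Real.norm_eq_abs, abs_of_nonneg (by positivity)]
  exact mul_le_of_le_one_right (Nat.cast_nonneg _) (bad_le_one _ _ _)

theorem tail1 {r η : ℝ} (hr : 1 ≤ r) (hη : 0 < η) :
    ∫ n : ℕ, (n : ℝ) * bad η r n ∂(P r) ≤ 20 / (η ^ 4 * r) := by
  have hr0 : 0 ≤ r := by linarith
  refine le_trans ?_ (tail_P hr hη)
  have i1 : Integrable (fun n : ℕ => (1 + (n : ℝ)) * bad η r n) (P r) := by
    refine ((integrable_bad η r).add (integrable_mul_bad hr0 η)).congr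
      (Filter.Eventually.of_forall fun n => ?_)
    simp only [Pi.add_apply]
    ring
  apply integral_mono (integrable_mul_bad hr0 η) i1
  intro n
  simp only
  have := bad_nonneg η r n
  nlinarith

theorem tail0 {r η : ℝ} (hr : 1 ≤ r) (hη : 0 < η) :
    ∫ n : ℕ, bad η r n ∂(P r) ≤ 4 / (η ^ 4 * r ^ 2) := by
  have hr0 : 0 ≤ r := by linarith
  have i4 := integrable_sub_P hr0 4 r
  have hpos : 0 < (η * r) ^ 4 := by positivity
  calc ∫ n : ℕ, bad η r n ∂(P r) ≤ ∫ n : ℕ, ((n : ℝ) - r) ^ 4 / (η * r) ^ 4 ∂(P r) := by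
        apply integral_mono_of_nonneg _ (i4.div_const _)
        · refine Filter.Eventually.of_forall fun n => ?_
          simp only
          rw [le_div_iff₀ hpos]
          unfold bad
          split_ifs with h
          · rw [zero_mul]
            positivity
          · push Not at h
            rw [one_mul]
            have := pow_le_pow_left₀ (by positivity) h.le 4
            rwa [← abs_pow, abs_of_nonneg (by positivity)] at this
        · exact Filter.Eventually.of_forall fun n => bad_nonneg _ _ _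
    _ = Mo r 4 / (η * r) ^ 4 := by
        rw [integral_div]
        rfl
    _ ≤ 4 / (η ^ 4 * r ^ 2) := by
        rw [Mo_four hr0, div_le_div_iff₀ hpos (by positivity)]
        have h1 : 3 * r ^ 2 + r ≤ 4 * r ^ 2 := by nlinarith
        calc (3 * r ^ 2 + r) * (η ^ 4 * r ^ 2) ≤ (4 * r ^ 2) * (η ^ 4 * r ^ 2) :=
              mul_le_mul_of_nonneg_right h1 (by positivity)
          _ = 4 * (η * r) ^ 4 := by ring

/-- gain of the modes -/
noncomputable def gain (a1 a2 : ℝ) (l : ℕ) : ℝ := (a1 * sg a1 l + a2 * sg a2 l) / El a1 a2 l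

theorem sg_le {a1 a2 : ℝ} (ha1 : 0 < a1) (ha2 : 0 < a2) (l : ℕ) :
    sg a1 l ≤ (2 * El a1 a2 l) ^ 2 ∧ sg a2 l ≤ (2 * El a1 a2 l) ^ 2 := by
  have hkp := kap_pos l
  have c1 := ct_pos ha1 l
  have c2 := ct_pos ha2 l
  have e2 : 2 * El a1 a2 l = ct a1 l / kap l + ct a2 l / kap l := by
    unfold El; field_simp
  have key : ∀ c : ℝ, 0 < c → sg c l ≤ (ct c l / kap l) ^ 2 := by
    intro c hc
    have p := isProb_U hc
    unfold sg
    calc ∫ y, mN c l y ^ 2 ∂(U c) ≤ ∫ _y, (ct c l / kap l) ^ 2 ∂(U c) := by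
          apply integral_mono_of_nonneg (Filter.Eventually.of_forall fun _ => sq_nonneg _)
            (integrable_const _)
          filter_upwards [U_ae c] with y hy
          rw [← sq_abs]
          exact pow_le_pow_left₀ (abs_nonneg _) (abs_mN_le hc l hy) 2
      _ = _ := by simp
  rw [e2]
  constructor
  · refine (key a1 ha1).trans (pow_le_pow_left₀ (by positivity) ?_ 2)
    have : 0 < ct a2 l / kap l := by positivity
    linarith
  · refine (key a2 ha2).trans (pow_le_pow_left₀ (by positivity) ?_ 2)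
    have : 0 < ct a1 l / kap l := by positivity
    linarith

theorem gain_nonneg {a1 a2 : ℝ} (ha1 : 0 < a1) (ha2 : 0 < a2) (l : ℕ) : 0 ≤ gain a1 a2 l := by
  have := El_pos ha1 ha2 l
  have := sg_nonneg a1 l
  have := sg_nonneg a2 l
  unfold gain
  positivity

theorem gain_le {a1 a2 : ℝ} (ha1 : 0 < a1) (ha2 : 0 < a2) (l : ℕ) :
    gain a1 a2 l ≤ 4 * (a1 + a2) * El a1 a2 l := by
  have hE := El_pos ha1 ha2 l
  obtain ⟨h1, h2⟩ := sg_le ha1 ha2 l
  unfold gain
  rw [div_le_iff₀ hE]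
  calc a1 * sg a1 l + a2 * sg a2 l ≤ a1 * (2 * El a1 a2 l) ^ 2 + a2 * (2 * El a1 a2 l) ^ 2 := by
        gcongr
    _ = _ := by ring

/-- the basic inequality -/
theorem upper_raw {a1 a2 x δ η τ : ℝ} {L : ℕ} (ha1 : 0 < a1) (ha2 : 0 < a2)
    (h1 : 1 ≤ x * a1) (h2 : 1 ≤ x * a2) (hη : 0 < η) (hη4 : η ≤ 1 / 4) (hτ : 0 < τ)
    (hδ : δ ≤ 1 / 20)
    (hle : 4 * η + τ * ∑ i ∈ Finset.range L, kap i * (ct a1 i + ct a2 i) ≤ δ) :
    bN (a1 + a2) x ≤ (1 + 12 * δ) * (bN a1 x + bN a2 x) + (1 + 14 * δ) * (a1 * a2 / 3) -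
      (1 - 14 * δ) * ∑ i ∈ Finset.range L, gain a1 a2 i +
      76800 * (∑ i ∈ Finset.range L, El a1 a2 i) * (a1 + a2) ^ 2 / (x * τ ^ 2) +
      ((a1 + a2) ^ 2 + 1 + 4 * (∑ i ∈ Finset.range L, El a1 a2 i) / x) *
        (20 / (η ^ 4 * (x * a1)) + 4 * (x * a2) / (η ^ 4 * (x * a1) ^ 2) +
        (4 * (x * a1) / (η ^ 4 * (x * a2) ^ 2) + 20 / (η ^ 4 * (x * a2)))) := by
  have hx : 0 < x := by
    by_contra h
    push Not at h
    nlinarith
  set a := a1 + a2 with ha
  have hapos : 0 < a := by positivity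
  have hsumE : 0 ≤ ∑ i ∈ Finset.range L, El a1 a2 i :=
    Finset.sum_nonneg fun i _ => (El_pos ha1 ha2 i).le
  have hΛ : 0 ≤ ∑ i ∈ Finset.range L, kap i * (ct a1 i + ct a2 i) :=
    Finset.sum_nonneg fun i _ => by
      have := ct_pos ha1 i
      have := ct_pos ha2 i
      have := kap_pos i
      positivity
  have hηδ : 4 * η ≤ δ := by
    have : 0 ≤ τ * ∑ i ∈ Finset.range L, kap i * (ct a1 i + ct a2 i) := by positivity
    linarith
  have hδ0 : 0 < δ := by linarith
  set r1 := x * a1 with hr1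
  set r2 := x * a2 with hr2
  have hr10 : 0 ≤ r1 := by linarith
  have hr20 : 0 ≤ r2 := by linarith
  set D := a ^ 2 + 1 + 4 * (∑ i ∈ Finset.range L, El a1 a2 i) / x with hD
  have hD0 : 0 ≤ D := by positivity
  -- pointwise bound
  have hpt : ∀ n : ℕ × ℕ, AN a1 a2 n.1 n.2 ≤
      ((1 + 12 * δ) * (eN n.1 a1 + eN n.2 a2) +
      (1 + 14 * δ) * ((a1 * ((n.2 : ℝ) - r2) - a2 * ((n.1 : ℝ) - r1)) ^ 2 / (3 * (x * a)))) +
      ((-(1 - 14 * δ) * ∑ i ∈ Finset.range L,
        ((n.1 * sg a1 i + n.2 * sg a2 i) / (x * El a1 a2 i)) +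
        76800 * (∑ i ∈ Finset.range L, El a1 a2 i) * a ^ 2 / (x * τ ^ 2)) +
      D * ((n.1 * bad η r1 n.1 + n.2 * bad η r1 n.1) +
        (n.1 * bad η r2 n.2 + n.2 * bad η r2 n.2))) := by
    rintro ⟨k, l⟩
    simp only
    have hek := eN_nonneg k a1
    have hel := eN_nonneg l a2
    have hlast : 0 ≤ 76800 * (∑ i ∈ Finset.range L, El a1 a2 i) * a ^ 2 / (x * τ ^ 2) := by
      positivity
    have hb1 := bad_nonneg η r1 k
    have hb2 := bad_nonneg η r2 l
    have hsq : 0 ≤ (1 + 14 * δ) * ((a1 * ((l : ℝ) - r2) - a2 * ((k : ℝ) - r1)) ^ 2 /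
        (3 * (x * a))) := by positivity
    have hgs : 0 ≤ ∑ i ∈ Finset.range L, (((k : ℝ) * sg a1 i + l * sg a2 i) / (x * El a1 a2 i)) :=
      Finset.sum_nonneg fun i _ => by
        have := El_pos ha1 ha2 i
        have := sg_nonneg a1 i
        have := sg_nonneg a2 i
        positivity
    by_cases hg : |(k : ℝ) - r1| ≤ η * r1 ∧ |(l : ℝ) - r2| ≤ η * r2
    · obtain ⟨hg1, hg2⟩ := hg
      have hb1' : bad η r1 k = 0 := by unfold bad; rw [if_pos hg1]
      have hb2' : bad η r2 l = 0 := by unfold bad; rw [if_pos hg2]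
      have k1 := abs_le.1 hg1
      have k2 := abs_le.1 hg2
      have hkr : (1 - η) * r1 ≤ k := by linarith
      have hlr : (1 - η) * r2 ≤ l := by linarith
      have hk0 : (0 : ℝ) < k := by nlinarith
      have hl0 : (0 : ℝ) < l := by nlinarith
      have hk : 0 < k := by exact_mod_cast hk0
      have hl : 0 < l := by exact_mod_cast hl0
      have hnum : a1 * (l : ℝ) - a2 * k = a1 * ((l : ℝ) - r2) - a2 * ((k : ℝ) - r1) := by
        rw [hr1, hr2]; ring
      have hkl : (1 - η) * (x * a) ≤ (k : ℝ) + l := by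
        calc (1 - η) * (x * a) = (1 - η) * r1 + (1 - η) * r2 := by rw [hr1, hr2, ha]; ring
          _ ≤ _ := by linarith
      have hxa : 0 < x * a := by positivity
      have h34 : (3 / 4 : ℝ) ≤ 1 - η := by linarith
      have hh0 : |(a1 * (l : ℝ) - a2 * k) / (k + l)| ≤ 4 * η * (a1 * a2 / a) := by
        rw [abs_div, abs_of_pos (by positivity : (0 : ℝ) < k + l), div_le_iff₀ (by positivity), hnum]
        calc |a1 * ((l : ℝ) - r2) - a2 * ((k : ℝ) - r1)|
            ≤ |a1 * ((l : ℝ) - r2)| + |a2 * ((k : ℝ) - r1)| := abs_sub _ _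
          _ ≤ a1 * (η * r2) + a2 * (η * r1) := by
              rw [abs_mul, abs_mul, abs_of_pos ha1, abs_of_pos ha2]
              gcongr
          _ = 2 * η * (a1 * a2 / a) * (x * a) := by
              rw [hr1, hr2]; field_simp; ring
          _ ≤ 2 * η * (a1 * a2 / a) * (2 * ((k : ℝ) + l)) := by
              apply mul_le_mul_of_nonneg_left _ (by positivity)
              nlinarith
          _ = _ := by ring
      have hj : ∀ b b' : ℝ, 0 < b → 0 < b' → a = b + b' → a1 * a2 = b * b' →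
          (∀ i, ct b i ≤ ct a1 i + ct a2 i) →
          |(a1 * (l : ℝ) - a2 * k) / (k + l)| / b +
            ∑ i ∈ Finset.range L, τ * (kap i * ct b i) ≤ δ := by
        intro b b' hb hb' hab hab' hct
        refine le_trans (add_le_add ?_ ?_) hle
        · rw [div_le_iff₀ hb]
          refine hh0.trans ?_
          rw [hab', mul_assoc 4 η b, mul_assoc 4 η]
          apply mul_le_mul_of_nonneg_left _ (by norm_num)
          apply mul_le_mul_of_nonneg_left _ hη.le
          rw [div_le_iff₀ hapos]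
          nlinarith
        · rw [Finset.mul_sum]
          apply Finset.sum_le_sum
          intro i _
          have := kap_pos i
          gcongr
          exact hct i
      have hA := AN_good (L := L) (ε := 14 * δ) (τ := τ) (η := η) ha1 ha2 hx hk hl hδ hτ
        (by positivity) (by linarith) hη.le (by nlinarith)
        (by rw [← hr1]; linarith) (by rw [← hr2]; linarith)
        (hj a1 a2 ha1 ha2 ha rfl (fun i => by linarith [ct_pos ha2 i]))
        (hj a2 a1 ha2 ha1 (by rw [ha]; ring) (by ring) (fun i => by linarith [ct_pos ha1 i]))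
      refine hA.trans ?_
      rw [hb1', hb2', Finset.sum_add_distrib, ← Finset.mul_sum]
      have t1 : (1 + 12 * δ) * ((a1 * (l : ℝ) - a2 * k) ^ 2 / (3 * (k + l))) ≤
          (1 + 14 * δ) * ((a1 * ((l : ℝ) - r2) - a2 * ((k : ℝ) - r1)) ^ 2 / (3 * (x * a))) := by
        rw [hnum]
        set W := (a1 * ((l : ℝ) - r2) - a2 * ((k : ℝ) - r1)) ^ 2 with hW
        have hW0 : 0 ≤ W := sq_nonneg _
        calc (1 + 12 * δ) * (W / (3 * ((k : ℝ) + l)))
            ≤ (1 + 12 * δ) * (W / (3 * ((1 - η) * (x * a)))) := by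
              gcongr
          _ = ((1 + 12 * δ) / (1 - η)) * (W / (3 * (x * a))) := by
              field_simp
          _ ≤ (1 + 14 * δ) * (W / (3 * (x * a))) := by
              apply mul_le_mul_of_nonneg_right _ (by positivity)
              rw [div_le_iff₀ (by linarith)]
              nlinarith
      have t2 : ∑ i ∈ Finset.range L, 19200 * El a1 a2 i * ((k : ℝ) + l) ^ 2 / (x ^ 3 * τ ^ 2) ≤
          76800 * (∑ i ∈ Finset.range L, El a1 a2 i) * a ^ 2 / (x * τ ^ 2) := by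
        have hkl2 : ((k : ℝ) + l) ^ 2 ≤ (2 * (x * a)) ^ 2 := by
          apply pow_le_pow_left₀ (by positivity)
          calc (k : ℝ) + l ≤ (1 + η) * r1 + (1 + η) * r2 := by linarith
            _ = (1 + η) * (x * a) := by rw [hr1, hr2, ha]; ring
            _ ≤ 2 * (x * a) := by
              apply mul_le_mul_of_nonneg_right (by linarith) hxa.le
        calc _ ≤ ∑ i ∈ Finset.range L, 19200 * El a1 a2 i * (2 * (x * a)) ^ 2 / (x ^ 3 * τ ^ 2) := by
              apply Finset.sum_le_sum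
              intro i _
              have := El_pos ha1 ha2 i
              gcongr
          _ = _ := by
              rw [← Finset.sum_div, ← Finset.sum_mul, ← Finset.mul_sum]
              field_simp
              ring
      have t3 : D * (((k : ℝ) * 0 + l * 0) + (k * 0 + l * 0)) = 0 := by ring
      rw [t3]
      linarith
    · -- atypical case
      have hcr := AN_le ha1 ha2 k l
      have hbb : 1 ≤ bad η r1 k + bad η r2 l := by
        by_contra hcon
        push Not at hcon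
        apply hg
        constructor
        · by_contra h
          have : bad η r1 k = 1 := by unfold bad; rw [if_neg h]
          linarith
        · by_contra h
          have : bad η r2 l = 1 := by unfold bad; rw [if_neg h]
          linarith
      have hkl0 : (0 : ℝ) ≤ (k : ℝ) + l := by positivity
      have hG : ∑ i ∈ Finset.range L, (((k : ℝ) * sg a1 i + l * sg a2 i) / (x * El a1 a2 i)) ≤
          ((k : ℝ) + l) * (4 * (∑ i ∈ Finset.range L, El a1 a2 i) / x) := by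
        rw [Finset.mul_sum, Finset.sum_div, Finset.mul_sum]
        apply Finset.sum_le_sum
        intro i _
        have hE := El_pos ha1 ha2 i
        obtain ⟨s1, s2⟩ := sg_le ha1 ha2 i
        rw [div_le_iff₀ (by positivity)]
        calc (k : ℝ) * sg a1 i + l * sg a2 i
            ≤ k * (2 * El a1 a2 i) ^ 2 + l * (2 * El a1 a2 i) ^ 2 := by gcongr
          _ = _ := by field_simp; ring
      have hDD : ((k : ℝ) + l) * (a ^ 2 + 1) + ∑ i ∈ Finset.range L,
          (((k : ℝ) * sg a1 i + l * sg a2 i) / (x * El a1 a2 i)) ≤ D * ((k : ℝ) + l) := by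
        rw [hD]
        linarith
      have hDD2 : D * ((k : ℝ) + l) ≤ D * ((k * bad η r1 k + l * bad η r1 k) +
          (k * bad η r2 l + l * bad η r2 l)) := by
        apply mul_le_mul_of_nonneg_left _ hD0
        nlinarith
      have hms : -(∑ i ∈ Finset.range L, (((k : ℝ) * sg a1 i + l * sg a2 i) / (x * El a1 a2 i))) ≤
          -(1 - 14 * δ) * ∑ i ∈ Finset.range L,
          (((k : ℝ) * sg a1 i + l * sg a2 i) / (x * El a1 a2 i)) := by
        nlinarith
      have hpos1 : 0 ≤ (1 + 12 * δ) * (eN k a1 + eN l a2) := by positivity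
      linarith
  -- integrate
  rw [bN_split ha1 ha2 hx.le, ← hr1, ← hr2]
  set Q := (P r1).prod (P r2) with hQ
  have ik : Integrable (fun n : ℕ × ℕ => (n.1 : ℝ)) Q := (integrable_nat_P hr10).comp_fst _
  have il : Integrable (fun n : ℕ × ℕ => (n.2 : ℝ)) Q := (integrable_nat_P hr20).comp_snd _
  have heN : ∀ {c r : ℝ}, 0 < c → 0 ≤ r → Integrable (fun n : ℕ => eN n c) (P r) := by
    intro c r hc hr
    apply ((integrable_nat_P hr).mul_const (c ^ 2 + 1)).mono'
      Measurable.of_discrete.aestronglyMeasurable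
    refine Filter.Eventually.of_forall fun n => ?_
    rw [Real.norm_eq_abs, abs_of_nonneg (eN_nonneg _ _)]
    exact eN_le hc n
  have ie1 : Integrable (fun n : ℕ × ℕ => eN n.1 a1) Q := (heN ha1 hr10).comp_fst _
  have ie2 : Integrable (fun n : ℕ × ℕ => eN n.2 a2) Q := (heN ha2 hr20).comp_snd _
  have iAN : Integrable (fun n : ℕ × ℕ => AN a1 a2 n.1 n.2) Q := by
    apply ((ik.add il).mul_const (a ^ 2 + 1)).mono' Measurable.of_discrete.aestronglyMeasurable
    refine Filter.Eventually.of_forall fun n => ?_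
    rw [Real.norm_eq_abs, abs_of_nonneg (AN_nonneg _ _ _ _)]
    exact AN_le ha1 ha2 n.1 n.2
  have i1 : Integrable (fun n : ℕ × ℕ => (1 + 12 * δ) * (eN n.1 a1 + eN n.2 a2)) Q :=
    (ie1.add ie2).const_mul _
  have ic1 : Integrable (fun n : ℕ => (n : ℝ) - r1) (P r1) :=
    (integrable_nat_P hr10).sub (integrable_const _)
  have ic2 : Integrable (fun n : ℕ => (n : ℝ) - r2) (P r2) :=
    (integrable_nat_P hr20).sub (integrable_const _)
  have is1 : Integrable (fun n : ℕ × ℕ => ((n.1 : ℝ) - r1) ^ 2) Q :=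
    (integrable_sub_P hr10 2 r1).comp_fst _
  have is2 : Integrable (fun n : ℕ × ℕ => ((n.2 : ℝ) - r2) ^ 2) Q :=
    (integrable_sub_P hr20 2 r2).comp_snd _
  have is3 : Integrable (fun n : ℕ × ℕ => ((n.1 : ℝ) - r1) * ((n.2 : ℝ) - r2)) Q :=
    ic1.mul_prod ic2
  have eW : ∀ n : ℕ × ℕ, (a1 * ((n.2 : ℝ) - r2) - a2 * ((n.1 : ℝ) - r1)) ^ 2 =
      (a1 ^ 2 * ((n.2 : ℝ) - r2) ^ 2 + a2 ^ 2 * ((n.1 : ℝ) - r1) ^ 2) -
        2 * a1 * a2 * (((n.1 : ℝ) - r1) * ((n.2 : ℝ) - r2)) := fun n => by ring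
  have is12 : Integrable (fun n : ℕ × ℕ => a1 ^ 2 * ((n.2 : ℝ) - r2) ^ 2 +
      a2 ^ 2 * ((n.1 : ℝ) - r1) ^ 2) Q := (is2.const_mul _).add (is1.const_mul _)
  have iW : Integrable (fun n : ℕ × ℕ => (a1 * ((n.2 : ℝ) - r2) - a2 * ((n.1 : ℝ) - r1)) ^ 2) Q := by
    simp_rw [eW]
    exact is12.sub (is3.const_mul _)
  have vW : ∫ n : ℕ × ℕ, (a1 * ((n.2 : ℝ) - r2) - a2 * ((n.1 : ℝ) - r1)) ^ 2 ∂Q =
      x * a1 * a2 * a := by
    simp_rw [eW]
    rw [integral_sub is12 (is3.const_mul _), integral_add (is2.const_mul _) (is1.const_mul _),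
      integral_const_mul, integral_const_mul, integral_const_mul, hQ,
      integral_prod_mul (fun n : ℕ => (n : ℝ) - r1) (fun n : ℕ => (n : ℝ) - r2),
      int_fst _ _ (f := fun n : ℕ => ((n : ℝ) - r1) ^ 2) Measurable.of_discrete.aestronglyMeasurable,
      int_snd _ _ (f := fun n : ℕ => ((n : ℝ) - r2) ^ 2) Measurable.of_discrete.aestronglyMeasurable]
    have z1 : ∫ n : ℕ, ((n : ℝ) - r1) ∂(P r1) = 0 := by
      have := Mo_one hr10
      unfold Mo at this
      simpa using this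
    have m1 : ∫ n : ℕ, ((n : ℝ) - r1) ^ 2 ∂(P r1) = r1 := Mo_two hr10
    have m2 : ∫ n : ℕ, ((n : ℝ) - r2) ^ 2 ∂(P r2) = r2 := Mo_two hr20
    rw [z1, m1, m2, hr1, hr2, ha]
    ring
  have i2 : Integrable (fun n : ℕ × ℕ => (1 + 14 * δ) *
      ((a1 * ((n.2 : ℝ) - r2) - a2 * ((n.1 : ℝ) - r1)) ^ 2 / (3 * (x * a)))) Q :=
    (iW.div_const _).const_mul _
  have i12 : Integrable (fun n : ℕ × ℕ => (1 + 12 * δ) * (eN n.1 a1 + eN n.2 a2) +
      (1 + 14 * δ) *
      ((a1 * ((n.2 : ℝ) - r2) - a2 * ((n.1 : ℝ) - r1)) ^ 2 / (3 * (x * a)))) Q := i1.add i2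
  have i3' : ∀ i, Integrable (fun n : ℕ × ℕ =>
      (((n.1 : ℝ) * sg a1 i + n.2 * sg a2 i) / (x * El a1 a2 i))) Q := fun i =>
    ((ik.mul_const _).add (il.mul_const _)).div_const _
  have i3'' : Integrable (fun n : ℕ × ℕ => ∑ i ∈ Finset.range L,
      (((n.1 : ℝ) * sg a1 i + n.2 * sg a2 i) / (x * El a1 a2 i))) Q :=
    integrable_finsetSum _ fun i _ => i3' i
  have i3 : Integrable (fun n : ℕ × ℕ => -(1 - 14 * δ) * ∑ i ∈ Finset.range L,
      (((n.1 : ℝ) * sg a1 i + n.2 * sg a2 i) / (x * El a1 a2 i))) Q := i3''.const_mul _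
  have i34 : Integrable (fun n : ℕ × ℕ => -(1 - 14 * δ) * ∑ i ∈ Finset.range L,
      (((n.1 : ℝ) * sg a1 i + n.2 * sg a2 i) / (x * El a1 a2 i)) +
      76800 * (∑ i ∈ Finset.range L, El a1 a2 i) * a ^ 2 / (x * τ ^ 2)) Q :=
    i3.add (integrable_const _)
  have ib1 := integrable_bad η r1
  have ib2 := integrable_bad η r2
  have ikb1 := integrable_mul_bad hr10 η
  have ilb2 := integrable_mul_bad hr20 η
  have b1 : Integrable (fun n : ℕ × ℕ => (n.1 : ℝ) * bad η r1 n.1) Q := ikb1.comp_fst _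
  have b2 : Integrable (fun n : ℕ × ℕ => (n.2 : ℝ) * bad η r1 n.1) Q := by
    have : Integrable (fun n : ℕ × ℕ => bad η r1 n.1 * (n.2 : ℝ)) Q :=
      ib1.mul_prod (integrable_nat_P hr20)
    refine this.congr (Filter.Eventually.of_forall fun n => ?_)
    simp only
    ring
  have b3 : Integrable (fun n : ℕ × ℕ => (n.1 : ℝ) * bad η r2 n.2) Q :=
    (integrable_nat_P hr10).mul_prod ib2
  have b4 : Integrable (fun n : ℕ × ℕ => (n.2 : ℝ) * bad η r2 n.2) Q := ilb2.comp_snd _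
  have b12 : Integrable (fun n : ℕ × ℕ => (n.1 : ℝ) * bad η r1 n.1 + n.2 * bad η r1 n.1) Q :=
    b1.add b2
  have b34 : Integrable (fun n : ℕ × ℕ => (n.1 : ℝ) * bad η r2 n.2 + n.2 * bad η r2 n.2) Q :=
    b3.add b4
  have i5 : Integrable (fun n : ℕ × ℕ => D * (((n.1 : ℝ) * bad η r1 n.1 + n.2 * bad η r1 n.1) +
        (n.1 * bad η r2 n.2 + n.2 * bad η r2 n.2))) Q := (b12.add b34).const_mul _
  have i345 : Integrable (fun n : ℕ × ℕ => (-(1 - 14 * δ) * ∑ i ∈ Finset.range L,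
      (((n.1 : ℝ) * sg a1 i + n.2 * sg a2 i) / (x * El a1 a2 i)) +
      76800 * (∑ i ∈ Finset.range L, El a1 a2 i) * a ^ 2 / (x * τ ^ 2)) +
      D * (((n.1 : ℝ) * bad η r1 n.1 + n.2 * bad η r1 n.1) +
        (n.1 * bad η r2 n.2 + n.2 * bad η r2 n.2))) Q := i34.add i5
  have hmono := integral_mono iAN (i12.add i345) hpt
  refine hmono.trans ?_
  have v1 : ∫ n : ℕ × ℕ, eN n.1 a1 ∂Q = bN a1 x := by
    rw [hQ, int_fst _ _ (f := fun n : ℕ => eN n a1) Measurable.of_discrete.aestronglyMeasurable]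
    rfl
  have v2 : ∫ n : ℕ × ℕ, eN n.2 a2 ∂Q = bN a2 x := by
    rw [hQ, int_snd _ _ (f := fun n : ℕ => eN n a2) Measurable.of_discrete.aestronglyMeasurable]
    rfl
  have v3 : ∫ n : ℕ × ℕ, (n.1 : ℝ) ∂Q = r1 := by
    rw [hQ, int_fst _ _ (f := fun n : ℕ => (n : ℝ)) Measurable.of_discrete.aestronglyMeasurable,
      mean_P hr10]
  have v4 : ∫ n : ℕ × ℕ, (n.2 : ℝ) ∂Q = r2 := by
    rw [hQ, int_snd _ _ (f := fun n : ℕ => (n : ℝ)) Measurable.of_discrete.aestronglyMeasurable,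
      mean_P hr20]
  have v5 : ∫ n : ℕ × ℕ, (n.1 : ℝ) * bad η r1 n.1 ∂Q ≤ 20 / (η ^ 4 * r1) := by
    rw [hQ, int_fst _ _ (f := fun n : ℕ => (n : ℝ) * bad η r1 n)
      Measurable.of_discrete.aestronglyMeasurable]
    exact tail1 h1 hη
  have v6 : ∫ n : ℕ × ℕ, (n.2 : ℝ) * bad η r2 n.2 ∂Q ≤ 20 / (η ^ 4 * r2) := by
    rw [hQ, int_snd _ _ (f := fun n : ℕ => (n : ℝ) * bad η r2 n)
      Measurable.of_discrete.aestronglyMeasurable]
    exact tail1 h2 hη
  have v7 : ∫ n : ℕ × ℕ, (n.1 : ℝ) * bad η r2 n.2 ∂Q ≤ 4 * r1 / (η ^ 4 * r2 ^ 2) := by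
    rw [hQ, integral_prod_mul (fun n : ℕ => (n : ℝ)) (bad η r2), mean_P hr10]
    have := mul_le_mul_of_nonneg_left (tail0 h2 hη) hr10
    calc _ ≤ _ := this
      _ = _ := by ring
  have v8 : ∫ n : ℕ × ℕ, (n.2 : ℝ) * bad η r1 n.1 ∂Q ≤ 4 * r2 / (η ^ 4 * r1 ^ 2) := by
    have e : ∀ n : ℕ × ℕ, (n.2 : ℝ) * bad η r1 n.1 = bad η r1 n.1 * (n.2 : ℝ) := fun n =>
      mul_comm _ _
    rw [integral_congr_ae (Filter.Eventually.of_forall e), hQ,
      integral_prod_mul (bad η r1) (fun n : ℕ => (n : ℝ)), mean_P hr20]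
    have := mul_le_mul_of_nonneg_right (tail0 h1 hη) hr20
    calc _ ≤ _ := this
      _ = _ := by ring
  have vG : ∫ n : ℕ × ℕ, (∑ i ∈ Finset.range L,
      (((n.1 : ℝ) * sg a1 i + n.2 * sg a2 i) / (x * El a1 a2 i))) ∂Q =
      ∑ i ∈ Finset.range L, gain a1 a2 i := by
    rw [integral_finsetSum _ (fun i _ => i3' i)]
    apply Finset.sum_congr rfl
    intro i _
    rw [integral_div, integral_add (ik.mul_const _) (il.mul_const _), integral_mul_const,
      integral_mul_const, v3, v4, gain, hr1, hr2]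
    have := El_pos ha1 ha2 i
    field_simp
  have hfin : ∫ n : ℕ × ℕ, (((1 + 12 * δ) * (eN n.1 a1 + eN n.2 a2) +
      (1 + 14 * δ) * ((a1 * ((n.2 : ℝ) - r2) - a2 * ((n.1 : ℝ) - r1)) ^ 2 / (3 * (x * a)))) +
      ((-(1 - 14 * δ) * ∑ i ∈ Finset.range L,
        ((n.1 * sg a1 i + n.2 * sg a2 i) / (x * El a1 a2 i)) +
        76800 * (∑ i ∈ Finset.range L, El a1 a2 i) * a ^ 2 / (x * τ ^ 2)) +
      D * ((n.1 * bad η r1 n.1 + n.2 * bad η r1 n.1) +
        (n.1 * bad η r2 n.2 + n.2 * bad η r2 n.2)))) ∂Q =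
      ((1 + 12 * δ) * (bN a1 x + bN a2 x) + (1 + 14 * δ) * (x * a1 * a2 * a / (3 * (x * a)))) +
      ((-(1 - 14 * δ) * ∑ i ∈ Finset.range L, gain a1 a2 i +
        76800 * (∑ i ∈ Finset.range L, El a1 a2 i) * a ^ 2 / (x * τ ^ 2)) +
      D * ((∫ n : ℕ × ℕ, (n.1 : ℝ) * bad η r1 n.1 ∂Q + ∫ n : ℕ × ℕ, (n.2 : ℝ) * bad η r1 n.1 ∂Q) +
        (∫ n : ℕ × ℕ, (n.1 : ℝ) * bad η r2 n.2 ∂Q +
          ∫ n : ℕ × ℕ, (n.2 : ℝ) * bad η r2 n.2 ∂Q))) := by
    rw [integral_add i12 i345, integral_add i1 i2, integral_add i34 i5,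
      integral_add i3 (integrable_const _), integral_const_mul, integral_const_mul,
      integral_const_mul, integral_const_mul, integral_add ie1 ie2, integral_add b12 b34,
      integral_add b1 b2, integral_add b3 b4, v1, v2, vG, integral_div, vW]
    simp
  refine (le_of_eq hfin).trans ?_
  have e3 : x * a1 * a2 * a / (3 * (x * a)) = a1 * a2 / 3 := by field_simp
  rw [e3]
  have hDT := mul_le_mul_of_nonneg_left (add_le_add (add_le_add v5 v8) (add_le_add v7 v6)) hD0
  linarith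

end Pool.Agent.H969
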