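import Mathlib
import Pool.Agent.H969.Upper
import Pool.Agent.H969.Theta

/-! The recursion for the Neumann problem. -/

set_option autoImplicit false

open MeasureTheory
open scoped ENNReal NNReal Real

namespace Pool.Agent.H969

theorem gain_eq {a1 a2 : ℝ} (ha1 : 0 < a1) (ha2 : 0 < a2) (l : ℕ) :
    gain a1 a2 l = 1 / kap l ^ 2 - psi (a1 + a2) l + psi a1 l + psi a2 l := by
  have hk := kap_pos l
  have hE := El_pos ha1 ha2 l
  have c1 := ct_pos ha1 l
  have c2 := ct_pos ha2 l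
  have hct := ct_add ha1 ha2 l
  have hs : ∀ c : ℝ, 0 < c → c * sg c l = ((c / 2) * (ct c l ^ 2 - 1) + ct c l / (2 * kap l)) /
      (2 * kap l ^ 2) := by
    intro c hc
    have hS : 0 < Real.sinh (kap l * c) := Real.sinh_pos_iff.2 (by positivity)
    have e : c / 2 / Real.sinh (kap l * c) ^ 2 = (c / 2) * (ct c l ^ 2 - 1) := by
      unfold ct
      have := Real.cosh_sq (c * kap l)
      field_simp
      linarith
    rw [sg_eq hc, e]
    field_simp
  unfold gain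
  rw [div_eq_iff hE.ne', hs a1 ha1, hs a2 ha2]
  unfold psi El
  linear_combination ((a1 + a2) / (4 * kap l ^ 2)) * hct

theorem sum_gain {a1 a2 : ℝ} (ha1 : 0 < a1) (ha2 : 0 < a2) (L : ℕ) :
    a1 * a2 / 3 - ∑ i ∈ Finset.range L, gain a1 a2 i = Th (a1 + a2) L - Th a1 L - Th a2 L := by
  have e : ∑ i ∈ Finset.range L, gain a1 a2 i = ∑ i ∈ Finset.range L,
      (psi a1 i + 1 / kap i ^ 2) + ∑ i ∈ Finset.range L, (psi a2 i + 1 / kap i ^ 2) -
      ∑ i ∈ Finset.range L, (psi (a1 + a2) i + 1 / kap i ^ 2) := by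
    rw [← Finset.sum_add_distrib, ← Finset.sum_sub_distrib]
    apply Finset.sum_congr rfl
    intro i _
    rw [gain_eq ha1 ha2]
    ring
  rw [e]
  unfold Th
  ring

theorem kap_le {L i : ℕ} (hi : i < L) {q : ℝ} (hLq : (L : ℝ) ≤ q ^ 6) : kap i ≤ 4 * q ^ 6 := by
  have h1 : (i : ℝ) + 1 ≤ L := by exact_mod_cast hi
  unfold kap
  have := Real.pi_lt_four
  have h2 : (0 : ℝ) ≤ (i : ℝ) + 1 := by positivity
  nlinarith

theorem ct_le {c q : ℝ} (hq : 2 ≤ q) (hc : 1 / q ≤ c) (i : ℕ) : ct c i ≤ 2 * q := by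
  have hq0 : 0 < q := by linarith
  have hc0 : 0 < c := lt_of_lt_of_le (by positivity) hc
  have hk := kap_pos i
  have hk1 : 1 ≤ kap i := by
    unfold kap
    have := Real.pi_gt_three
    have h2 : (0 : ℝ) ≤ (i : ℝ) := by positivity
    nlinarith
  have h := coth_le (x := kap i * c) (by positivity)
  have h2 : 1 / (kap i * c) ≤ q := by
    rw [div_le_iff₀ (by positivity)]
    have : 1 ≤ q * c := by
      rwa [div_le_iff₀ hq0, mul_comm] at hc
    nlinarith
  unfold ct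
  linarith

theorem El_le {a1 a2 q : ℝ} (hq : 2 ≤ q) (h1 : 1 / q ≤ a1) (h2 : 1 / q ≤ a2) (i : ℕ) :
    El a1 a2 i ≤ q := by
  have c1 := ct_le hq h1 i
  have c2 := ct_le hq h2 i
  have hk := kap_pos i
  have hk1 : 3 ≤ kap i := by
    unfold kap
    have := Real.pi_gt_three
    have h2 : (0 : ℝ) ≤ (i : ℝ) := by positivity
    nlinarith
  unfold El
  rw [div_le_iff₀ (by positivity)]
  nlinarith

/-- constant in the error terms -/
noncomputable def KK : ℝ := 400000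

theorem bN_nonneg (c x : ℝ) : 0 ≤ bN c x := integral_nonneg fun _ => eN_nonneg _ _

/-- The inequality with explicit parameters. -/
theorem upper_q {q a1 a2 x : ℝ} {L : ℕ} (hq : 2 ≤ q) (h1 : 1 / q ≤ a1) (h1' : a1 ≤ q)
    (h2 : 1 / q ≤ a2) (h2' : a2 ≤ q) (hL : (L : ℝ) ≤ q ^ 6) (hx : q ^ 110 ≤ x) :
    bN (a1 + a2) x ≤ (1 + KK / q ^ 12) * (bN a1 x + bN a2 x) +
      (Th (a1 + a2) L - Th a1 L - Th a2 L) + KK / q ^ 12 := by
  have hq0 : 0 < q := by linarith
  have hq1 : 1 ≤ q := by linarith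
  have ha1 : 0 < a1 := lt_of_lt_of_le (by positivity) h1
  have ha2 : 0 < a2 := lt_of_lt_of_le (by positivity) h2
  have hx0 : 0 < x := lt_of_lt_of_le (by positivity) hx
  have hpow : ∀ {n m : ℕ}, n ≤ m → q ^ n ≤ q ^ m := fun h => pow_le_pow_right₀ hq1 h
  have hq20 : (1048576 : ℝ) ≤ q ^ 20 := by
    calc (1048576 : ℝ) = 2 ^ 20 := by norm_num
      _ ≤ q ^ 20 := pow_le_pow_left₀ (by norm_num) hq 20
  have hxa : ∀ a : ℝ, 1 / q ≤ a → q ^ 109 ≤ x * a := by
    intro a ha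
    calc q ^ 109 = q ^ 110 * (1 / q) := by field_simp
      _ ≤ x * a := by gcongr
  have hone : ∀ a : ℝ, 1 / q ≤ a → 1 ≤ x * a := fun a ha =>
    (one_le_pow₀ hq1).trans (hxa a ha)
  have hsumE : ∑ i ∈ Finset.range L, El a1 a2 i ≤ q ^ 7 := by
    calc _ ≤ ∑ _i ∈ Finset.range L, q := Finset.sum_le_sum fun i _ => El_le hq h1 h2 i
      _ = L * q := by simp
      _ ≤ q ^ 6 * q := by gcongr
      _ = q ^ 7 := by ring
  have hsumE0 : 0 ≤ ∑ i ∈ Finset.range L, El a1 a2 i :=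
    Finset.sum_nonneg fun i _ => (El_pos ha1 ha2 i).le
  have hΛ : ∑ i ∈ Finset.range L, kap i * (ct a1 i + ct a2 i) ≤ 16 * q ^ 13 := by
    calc _ ≤ ∑ _i ∈ Finset.range L, (4 * q ^ 6) * (2 * q + 2 * q) := by
          apply Finset.sum_le_sum
          intro i hi
          have k1 := kap_le (Finset.mem_range.1 hi) hL
          have k2 := ct_le hq h1 i
          have k3 := ct_le hq h2 i
          have k4 := ct_pos ha1 i
          have k5 := ct_pos ha2 i
          have k6 := kap_pos i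
          gcongr
      _ = L * (16 * q ^ 7) := by rw [Finset.sum_const, Finset.card_range, nsmul_eq_mul]; ring
      _ ≤ q ^ 6 * (16 * q ^ 7) := by gcongr
      _ = 16 * q ^ 13 := by ring
  have hraw := upper_raw (δ := 20 / q ^ 20) (η := 1 / q ^ 20) (τ := 1 / q ^ 33) (L := L) ha1 ha2
    (hone a1 h1) (hone a2 h2) (by positivity)
    (by rw [div_le_div_iff₀ (by positivity) (by norm_num)]; linarith)
    (by positivity)
    (by rw [div_le_div_iff₀ (by positivity) (by norm_num)]; linarith)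
    (by
      calc 4 * (1 / q ^ 20) + 1 / q ^ 33 * ∑ i ∈ Finset.range L, kap i * (ct a1 i + ct a2 i)
          ≤ 4 * (1 / q ^ 20) + 1 / q ^ 33 * (16 * q ^ 13) := by gcongr
        _ = 20 / q ^ 20 := by field_simp; ring)
  have hg : ∑ i ∈ Finset.range L, gain a1 a2 i ≤ 8 * q ^ 8 := by
    calc _ ≤ ∑ i ∈ Finset.range L, 4 * (a1 + a2) * El a1 a2 i :=
          Finset.sum_le_sum fun i _ => gain_le ha1 ha2 i
      _ = 4 * (a1 + a2) * ∑ i ∈ Finset.range L, El a1 a2 i := by rw [Finset.mul_sum]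
      _ ≤ 4 * (q + q) * q ^ 7 := by gcongr
      _ = 8 * q ^ 8 := by ring
  have hsg := sum_gain ha1 ha2 L
  have hb1 := bN_nonneg a1 x
  have hb2 := bN_nonneg a2 x
  have ha12 : a1 * a2 ≤ q ^ 2 := by
    calc a1 * a2 ≤ q * q := by gcongr
      _ = q ^ 2 := by ring
  -- the four error terms
  have t0 : (1 + 12 * (20 / q ^ 20)) * (bN a1 x + bN a2 x) ≤
      (1 + KK / q ^ 12) * (bN a1 x + bN a2 x) := by
    apply mul_le_mul_of_nonneg_right _ (by positivity)
    have : 12 * (20 / q ^ 20) ≤ KK / q ^ 12 := by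
      unfold KK
      rw [← mul_div_assoc, div_le_div_iff₀ (by positivity) (by positivity)]
      have := hpow (show 12 ≤ 20 by norm_num)
      have h0 : 0 < q ^ 12 := by positivity
      nlinarith
    linarith
  have t1 : 14 * (20 / q ^ 20) * (a1 * a2 / 3 + ∑ i ∈ Finset.range L, gain a1 a2 i) ≤
      2520 / q ^ 12 := by
    have hq8 : q ^ 2 ≤ q ^ 8 := hpow (by norm_num)
    calc _ ≤ 14 * (20 / q ^ 20) * (9 * q ^ 8) := by
          apply mul_le_mul_of_nonneg_left _ (by positivity)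
          have : 0 ≤ q ^ 8 := by positivity
          linarith
      _ = 2520 / q ^ 12 := by field_simp; ring
  have t2 : 76800 * (∑ i ∈ Finset.range L, El a1 a2 i) * (a1 + a2) ^ 2 / (x * (1 / q ^ 33) ^ 2) ≤
      307200 / q ^ 12 := by
    calc _ ≤ 76800 * q ^ 7 * (q + q) ^ 2 / (q ^ 110 * (1 / q ^ 33) ^ 2) := by gcongr
      _ = 307200 / q ^ 35 := by field_simp; ring
      _ ≤ 307200 / q ^ 12 := by
          gcongr
          norm_num
  have t3 : ((a1 + a2) ^ 2 + 1 + 4 * (∑ i ∈ Finset.range L, El a1 a2 i) / x) *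
        (20 / ((1 / q ^ 20) ^ 4 * (x * a1)) + 4 * (x * a2) / ((1 / q ^ 20) ^ 4 * (x * a1) ^ 2) +
        (4 * (x * a1) / ((1 / q ^ 20) ^ 4 * (x * a2) ^ 2) +
          20 / ((1 / q ^ 20) ^ 4 * (x * a2)))) ≤ 432 / q ^ 12 := by
    have hD : (a1 + a2) ^ 2 + 1 + 4 * (∑ i ∈ Finset.range L, El a1 a2 i) / x ≤ 9 * q ^ 7 := by
      have u1 : (a1 + a2) ^ 2 ≤ 4 * q ^ 7 := by
        calc (a1 + a2) ^ 2 ≤ (q + q) ^ 2 := by gcongr
          _ = 4 * q ^ 2 := by ring
          _ ≤ 4 * q ^ 7 := by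
            have := hpow (show 2 ≤ 7 by norm_num)
            linarith
      have u2 : (1 : ℝ) ≤ q ^ 7 := one_le_pow₀ hq1
      have u3 : 4 * (∑ i ∈ Finset.range L, El a1 a2 i) / x ≤ 4 * q ^ 7 := by
        have hx1 : 1 ≤ x := (one_le_pow₀ hq1).trans hx
        calc 4 * (∑ i ∈ Finset.range L, El a1 a2 i) / x ≤ 4 * q ^ 7 / 1 := by gcongr
          _ = _ := by ring
      linarith
    have hA : ∀ a : ℝ, 1 / q ≤ a → 20 / ((1 / q ^ 20) ^ 4 * (x * a)) ≤ 20 / q ^ 29 := by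
      intro a ha
      calc 20 / ((1 / q ^ 20) ^ 4 * (x * a)) ≤ 20 / ((1 / q ^ 20) ^ 4 * q ^ 109) := by
            have := hxa a ha
            gcongr
        _ = 20 / q ^ 29 := by field_simp
    have hB : ∀ a a' : ℝ, 1 / q ≤ a → 0 < a' → a' ≤ q →
        4 * (x * a') / ((1 / q ^ 20) ^ 4 * (x * a) ^ 2) ≤ 4 / q ^ 27 := by
      intro a a' ha ha'0 ha'
      have ha0 : 0 < a := lt_of_lt_of_le (by positivity) ha
      calc 4 * (x * a') / ((1 / q ^ 20) ^ 4 * (x * a) ^ 2)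
          ≤ 4 * (x * q) / ((1 / q ^ 20) ^ 4 * (x * (1 / q)) ^ 2) := by gcongr
        _ = 4 * q ^ 83 / x := by field_simp
        _ ≤ 4 * q ^ 83 / q ^ 110 := by gcongr
        _ = 4 / q ^ 27 := by field_simp
    have hT : (20 / ((1 / q ^ 20) ^ 4 * (x * a1)) +
        4 * (x * a2) / ((1 / q ^ 20) ^ 4 * (x * a1) ^ 2) +
        (4 * (x * a1) / ((1 / q ^ 20) ^ 4 * (x * a2) ^ 2) +
          20 / ((1 / q ^ 20) ^ 4 * (x * a2)))) ≤ 48 / q ^ 27 := by
      have v1 := hA a1 h1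
      have v2 := hA a2 h2
      have v3 := hB a1 a2 h1 ha2 h2'
      have v4 := hB a2 a1 h2 ha1 h1'
      have v5 : 20 / q ^ 29 ≤ 20 / q ^ 27 := by
        gcongr
        norm_num
      have v6 : 48 / q ^ 27 = 20 / q ^ 27 + 4 / q ^ 27 + (4 / q ^ 27 + 20 / q ^ 27) := by
        field_simp; norm_num
      rw [v6]
      linarith
    calc _ ≤ 9 * q ^ 7 * (48 / q ^ 27) := by
          apply mul_le_mul hD hT (by positivity) (by positivity)
      _ = 432 / q ^ 20 := by field_simp; ring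
      _ ≤ 432 / q ^ 12 := by
          gcongr
          norm_num
  have t4 : 2520 / q ^ 12 + 307200 / q ^ 12 + 432 / q ^ 12 ≤ KK / q ^ 12 := by
    unfold KK
    rw [← add_div, ← add_div]
    gcongr
    norm_num
  linarith

end Pool.Agent.H969
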