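import Mathlib
import Pool.Agent.H969.Rec
import Pool.Agent.H969.Swap

/-! Similarities and the recursion over strips. -/

set_option autoImplicit false

open MeasureTheory
open scoped ENNReal NNReal Real

namespace Pool.Agent.H969

theorem costR_sim_le {ι : Type*} [Fintype ι] {φ : ℝ × ℝ → ℝ × ℝ} (hφ : Continuous φ) {s : ℝ}
    (hs : 0 < s) (hsq : ∀ x y, sqd (φ x) (φ y) = s * sqd x y) (z : ι → ℝ × ℝ)
    {lam : Measure (ℝ × ℝ)} (hne : ∃ p : ι → Measure (ℝ × ℝ), IsPlan lam p) :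
    costR (fun i => φ (z i)) (lam.map φ) ≤ s * costR z lam := by
  have := costR_le_of (z := z) (z' := fun i => φ (z i)) (lam' := lam.map φ) (X := 0) hs hne ?_
  · simpa using this
  · intro p hp
    refine ⟨fun i => (p i).map φ, hp.map hφ.measurable, ?_⟩
    rw [add_zero]
    unfold planCost
    rw [Finset.mul_sum]
    apply le_of_eq
    apply Finset.sum_congr rfl
    intro i _
    rw [integral_map hφ.measurable.aemeasurable (continuous_sqd _).aestronglyMeasurable]
    simp_rw [hsq]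
    rw [integral_const_mul]

theorem costR_sim {ι : Type*} [Fintype ι] (φ : (ℝ × ℝ) ≃ₜ (ℝ × ℝ)) {s : ℝ}
    (hs : 0 < s) (hsq : ∀ x y, sqd (φ x) (φ y) = s * sqd x y) (z : ι → ℝ × ℝ)
    {lam : Measure (ℝ × ℝ)} (hne : ∃ p : ι → Measure (ℝ × ℝ), IsPlan lam p) :
    costR (fun i => φ (z i)) (lam.map φ) = s * costR z lam := by
  apply le_antisymm (costR_sim_le φ.continuous hs hsq z hne)
  have hsq' : ∀ x y, sqd (φ.symm x) (φ.symm y) = s⁻¹ * sqd x y := by
    intro x y
    have := hsq (φ.symm x) (φ.symm y)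
    rw [φ.apply_symm_apply, φ.apply_symm_apply] at this
    rw [this, inv_mul_cancel_left₀ hs.ne']
  obtain ⟨p, hp⟩ := hne
  have := costR_sim_le φ.symm.continuous (inv_pos.2 hs) hsq' (fun i => φ (z i))
    (lam := lam.map φ) ⟨_, hp.map φ.continuous.measurable⟩
  simp only [φ.symm_apply_apply] at this
  rw [Measure.map_map φ.symm.continuous.measurable φ.continuous.measurable] at this
  have e : (φ.symm ∘ φ : ℝ × ℝ → ℝ × ℝ) = id := by
    ext1 x
    simp
  rw [e, Measure.map_id] at this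
  rw [inv_mul_eq_div, le_div_iff₀ hs] at this
  linarith

theorem eN_swap {c : ℝ} (hc : 0 < c) (n : ℕ) : eN n (1 / c) = (1 / c ^ 2) * eN n c := by
  have p1 := isProb_U hc
  have hm := (swp c hc).continuous.measurable
  have hU : U (1 / c) = (U c).map (swp c hc) := by
    unfold U
    rw [map_swp hc (by positivity)]
    congr 1
    field_simp
  have p2 : IsProbabilityMeasure ((U c).map (swp c hc)) :=
    Measure.isProbabilityMeasure_map hm.aemeasurable
  unfold eN
  have hpm : (Measure.pi fun _ : Fin n => (U c).map (swp c hc)) =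
      (Measure.pi fun _ : Fin n => U c).map (fun z i => swp c hc (z i)) :=
    (Measure.pi_map_pi (f := fun _ : Fin n => (swp c hc : ℝ × ℝ → ℝ × ℝ))
      (fun _ => hm.aemeasurable)).symm
  have hm2 : Measurable (fun z : Fin n → ℝ × ℝ => fun i => swp c hc (z i)) := by
    apply measurable_pi_lambda
    intro i
    exact hm.comp (measurable_pi_apply i)
  rw [hU, hpm, integral_map hm2.aemeasurable (measurable_cost _ _).aestronglyMeasurable,
    ← integral_const_mul]
  congr 1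
  ext z
  have e : unif (1 / c) 1 ((n : ℝ) / (1 / c)) = (unif c 1 (n / c)).map (swp c hc) := by
    rw [map_swp hc (by positivity)]
    congr 1
    field_simp
  rw [e]
  apply costR_sim (swp c hc) (by positivity) _ z (exists_plan_unif hc)
  intro x y
  simp only [swp_apply, sqd]
  field_simp
  ring

theorem bN_swap {c : ℝ} (hc : 0 < c) (x : ℝ) : bN (1 / c) (c ^ 2 * x) = (1 / c ^ 2) * bN c x := by
  unfold bN
  rw [← integral_const_mul]
  have e : c ^ 2 * x * (1 / c) = x * c := by field_simp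
  rw [e]
  congr 1
  ext n
  exact eN_swap hc n

theorem gain_sum_nonneg {a1 a2 : ℝ} (ha1 : 0 < a1) (ha2 : 0 < a2) (L : ℕ) :
    Th (a1 + a2) L - Th a1 L - Th a2 L ≤ a1 * a2 / 3 := by
  rw [← sum_gain ha1 ha2]
  have : 0 ≤ ∑ i ∈ Finset.range L, gain a1 a2 i :=
    Finset.sum_nonneg fun i _ => gain_nonneg ha1 ha2 i
  linarith

theorem pow_le_two {κ : ℝ} {m : ℕ} (hκ : 0 ≤ κ) (h : κ * m ≤ 1 / 2) : (1 + κ) ^ m ≤ 2 := by
  calc (1 + κ) ^ m ≤ (Real.exp κ) ^ m := by
        apply pow_le_pow_left₀ (by linarith)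
        linarith [Real.add_one_le_exp κ]
    _ = Real.exp (m * κ) := by rw [← Real.exp_nat_mul]
    _ ≤ Real.exp (1 / 2) := by
        apply Real.exp_le_exp.2
        linarith
    _ ≤ 2 := by
        have h1 : Real.exp (1 / 2) ^ 2 = Real.exp 1 := by
          rw [← Real.exp_nat_mul]
          norm_num
        have h2 : Real.exp 1 < 4 := by linarith [Real.exp_one_lt_d9]
        nlinarith [Real.exp_pos (1 / 2)]

/-- the recursion over strips -/
theorem strips {q a x : ℝ} {m L : ℕ} (hq : 4 ≤ q) (hm : 1 ≤ m) (ha : 1 / q ≤ a)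
    (hma : m * a ≤ q) (hmq : (m : ℝ) ≤ q) (hL : (L : ℝ) ≤ q ^ 6) (hx : q ^ 110 ≤ x) :
    bN (m * a) x ≤ m * bN a x + (Th (m * a) L - m * Th a L) + 3 * KK / q ^ 8 * (1 + bN a x) ∧
    bN (m * a) x ≤ 2 * m * (bN a x + q ^ 2) := by
  have hq0 : 0 < q := by linarith
  have hq1 : 1 ≤ q := by linarith
  have ha0 : 0 < a := lt_of_lt_of_le (by positivity) ha
  have hq10 : KK ≤ q ^ 10 := by
    unfold KK
    calc (400000 : ℝ) ≤ 4 ^ 10 := by norm_num
      _ ≤ q ^ 10 := pow_le_pow_left₀ (by norm_num) hq 10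
  set κ : ℝ := KK / q ^ 12 with hκ
  have hKK : 0 < KK := by unfold KK; norm_num
  have hκ0 : 0 < κ := by positivity
  have hκq : κ * q ^ 2 ≤ 1 := by
    rw [hκ, div_mul_eq_mul_div, div_le_one (by positivity)]
    calc KK * q ^ 2 ≤ q ^ 10 * q ^ 2 := by gcongr
      _ = q ^ 12 := by ring
  have hκ1 : κ ≤ 1 / 2 := by nlinarith
  have hκm : κ * m ≤ 1 / 2 := by
    have h1 : κ * m ≤ κ * q := by gcongr
    nlinarith
  set F := bN a x with hF
  have hF0 : 0 ≤ F := bN_nonneg a x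
  -- crude bound
  have crude : ∀ j : ℕ, 1 ≤ j → j ≤ m → bN (j * a) x ≤ (1 + κ) ^ j * (j * (F + q ^ 2)) := by
    intro j hj
    induction j, hj using Nat.le_induction with
    | base =>
      intro _
      rw [Nat.cast_one, one_mul, one_mul, pow_one, ← hF]
      nlinarith [sq_nonneg q]
    | succ j hj ih =>
      intro hjm
      have ih' := ih (by omega)
      have hj0 : (1 : ℝ) ≤ j := by exact_mod_cast hj
      have hjm' : (j : ℝ) + 1 ≤ m := by exact_mod_cast hjm
      have hja : (j : ℝ) * a ≤ q := by nlinarith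
      have hja' : 1 / q ≤ (j : ℝ) * a := by nlinarith
      have h := upper_q (L := L) (by linarith) hja' hja ha
        (by nlinarith) hL hx
      have hg := gain_sum_nonneg (a1 := (j : ℝ) * a) (a2 := a) (by positivity) ha0 L
      have e : ((j + 1 : ℕ) : ℝ) * a = (j : ℝ) * a + a := by push_cast; ring
      rw [e]
      have haq : a ≤ q := by nlinarith
      have h3 : (j : ℝ) * a * a / 3 ≤ q ^ 2 / 3 := by
        have : (j : ℝ) * a * a ≤ q * q := by gcongr
        nlinarith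
      have h4 : κ ≤ q ^ 2 / 2 := by nlinarith
      have h5 : bN ((j : ℝ) * a + a) x ≤ (1 + κ) * (bN (j * a) x + F) + q ^ 2 := by
        have : 0 ≤ q ^ 2 := sq_nonneg q
        linarith
      have hpow1 : 1 ≤ (1 + κ) ^ (j + 1) := one_le_pow₀ (by linarith)
      have hpowj : 1 ≤ (1 + κ) ^ j := one_le_pow₀ (by linarith)
      calc bN ((j : ℝ) * a + a) x ≤ (1 + κ) * (bN (j * a) x + F) + q ^ 2 := h5
        _ ≤ (1 + κ) * ((1 + κ) ^ j * (j * (F + q ^ 2)) + (1 + κ) ^ j * F) +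
            (1 + κ) ^ (j + 1) * q ^ 2 := by
            gcongr
            · exact le_mul_of_one_le_left hF0 hpowj
            · exact le_mul_of_one_le_left (sq_nonneg q) hpow1
        _ = (1 + κ) ^ (j + 1) * ((j + 1 : ℕ) * (F + q ^ 2)) := by
            push_cast
            ring
  have crude2 : ∀ j : ℕ, 1 ≤ j → j ≤ m → bN (j * a) x ≤ 2 * j * (F + q ^ 2) := by
    intro j hj hjm
    refine (crude j hj hjm).trans ?_
    have : (1 + κ) ^ j ≤ 2 := by
      apply pow_le_two hκ0.le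
      have : (j : ℝ) ≤ m := by exact_mod_cast hjm
      nlinarith
    have h2 : 0 ≤ (j : ℝ) * (F + q ^ 2) := by positivity
    nlinarith
  refine ⟨?_, crude2 m hm le_rfl⟩
  -- fine bound
  have fine : ∀ j : ℕ, 1 ≤ j → j ≤ m → bN (j * a) x ≤ j * F + (Th (j * a) L - j * Th a L) +
      κ * (j * (2 * m * (F + q ^ 2) + F + 1)) := by
    intro j hj
    induction j, hj using Nat.le_induction with
    | base =>
      intro _
      rw [Nat.cast_one, one_mul, one_mul, one_mul, one_mul, ← hF]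
      have : 0 ≤ κ * (2 * m * (F + q ^ 2) + F + 1) := by positivity
      linarith
    | succ j hj ih =>
      intro hjm
      have ih' := ih (by omega)
      have hj0 : (1 : ℝ) ≤ j := by exact_mod_cast hj
      have hjm' : (j : ℝ) + 1 ≤ m := by exact_mod_cast hjm
      have hja : (j : ℝ) * a ≤ q := by nlinarith
      have hja' : 1 / q ≤ (j : ℝ) * a := by nlinarith
      have h := upper_q (L := L) (by linarith) hja' hja ha
        (by nlinarith) hL hx
      have hc := crude2 j hj (by omega)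
      have e : ((j + 1 : ℕ) : ℝ) * a = (j : ℝ) * a + a := by push_cast; ring
      rw [e]
      have hjm2 : 2 * (j : ℝ) * (F + q ^ 2) ≤ 2 * m * (F + q ^ 2) := by
        have : 0 ≤ F + q ^ 2 := by positivity
        nlinarith
      have h6 : κ * (bN (j * a) x + F) ≤ κ * (2 * m * (F + q ^ 2) + F) := by
        apply mul_le_mul_of_nonneg_left _ hκ0.le
        linarith
      rw [← hκ, ← hF] at h
      push_cast
      linarith
  refine (fine m hm le_rfl).trans ?_
  have hm0 : (1 : ℝ) ≤ m := by exact_mod_cast hm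
  have h7 : κ * (m * (2 * m * (F + q ^ 2) + F + 1)) ≤ 3 * KK / q ^ 8 * (1 + F) := by
    have hq2 : 1 ≤ q ^ 2 := one_le_pow₀ hq1
    have g1 : F + q ^ 2 ≤ q ^ 2 * (1 + F) := by nlinarith
    have g2 : F + 1 ≤ q ^ 2 * (1 + F) := by nlinarith
    have g3 : (m : ℝ) * (2 * m * (F + q ^ 2) + F + 1) ≤ 3 * q ^ 4 * (1 + F) := by
      have g4 : 2 * (m : ℝ) * (F + q ^ 2) + F + 1 ≤ 3 * m * (q ^ 2 * (1 + F)) := by nlinarith
      calc (m : ℝ) * (2 * m * (F + q ^ 2) + F + 1) ≤ m * (3 * m * (q ^ 2 * (1 + F))) := by gcongr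
        _ ≤ q * (3 * q * (q ^ 2 * (1 + F))) := by gcongr
        _ = _ := by ring
    calc κ * (m * (2 * m * (F + q ^ 2) + F + 1)) ≤ κ * (3 * q ^ 4 * (1 + F)) := by gcongr
      _ = _ := by rw [hκ]; field_simp
  linarith

/-- **The main recursion.** -/
theorem main_rec {q x : ℝ} {m : ℕ} (hq : 4 ≤ q) (hm : 1 ≤ m) (hmq : (m : ℝ) ≤ q)
    (hx : q ^ 110 ≤ x) :
    bN 1 (m ^ 2 * x) ≤ bN 1 x + 1 / (2 * π) * Real.log m + 5000000 / q ^ 5 * (1 + bN 1 x) := by
  have hq0 : 0 < q := by linarith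
  have hq1 : 1 ≤ q := by linarith
  have hm0 : (1 : ℝ) ≤ m := by exact_mod_cast hm
  have hmpos : (0 : ℝ) < m := by linarith
  have hx0 : 0 < x := lt_of_lt_of_le (by positivity) hx
  set L : ℕ := ⌊q ^ 5⌋₊ with hLdef
  have hL1 : (L : ℝ) ≤ q ^ 5 := Nat.floor_le (by positivity)
  have hL2 : q ^ 5 < L + 1 := Nat.lt_floor_add_one _
  have hq5 : (1024 : ℝ) ≤ q ^ 5 := by
    calc (1024 : ℝ) = 4 ^ 5 := by norm_num
      _ ≤ q ^ 5 := pow_le_pow_left₀ (by norm_num) hq 5
  have hL3 : q ^ 5 / 2 ≤ L := by linarith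
  have hL0 : (0 : ℝ) < L := by linarith
  have hLpos : 0 < L := by exact_mod_cast hL0
  have hL6 : (L : ℝ) ≤ q ^ 6 := by
    calc (L : ℝ) ≤ q ^ 5 := hL1
      _ ≤ q ^ 6 := pow_le_pow_right₀ hq1 (by norm_num)
  have hmL6 : ((m * L : ℕ) : ℝ) ≤ q ^ 6 := by
    push_cast
    calc (m : ℝ) * L ≤ q * q ^ 5 := by gcongr
      _ = q ^ 6 := by ring
  have hKK : 0 < KK := by unfold KK; norm_num
  set F := bN 1 x with hF
  have hF0 : 0 ≤ F := bN_nonneg 1 x
  -- strips of unit squares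
  have s1 := strips (q := q) (a := 1) (x := x) (m := m) (L := L) hq hm
    (by rw [div_le_one hq0]; exact hq1) (by linarith) hmq hL6 hx
  rw [mul_one, ← hF] at s1
  -- thin strips
  have hx2 : q ^ 110 ≤ (m : ℝ) ^ 2 * x := by
    have : 1 ≤ (m : ℝ) ^ 2 := one_le_pow₀ hm0
    nlinarith
  have s2 := (strips (q := q) (a := 1 / m) (x := m ^ 2 * x) (m := m) (L := m * L) hq hm
    (by apply one_div_le_one_div_of_le hmpos hmq)
    (by rw [mul_one_div_cancel hmpos.ne']; exact hq1) hmq hmL6 hx2).1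
  rw [mul_one_div_cancel hmpos.ne', bN_swap hmpos] at s2
  have hth := theta_up (m := m) (L := L) (by omega) hLpos
  set G := bN m x with hG
  have hG0 : 0 ≤ G := bN_nonneg _ _
  have e1 : (m : ℝ) * (1 / m ^ 2 * G) = (1 / m) * G := by field_simp
  rw [e1] at s2
  have hinv : 0 < 1 / (m : ℝ) := by positivity
  have hinv1 : 1 / (m : ℝ) ≤ 1 := by rw [div_le_one hmpos]; exact hm0
  have s3 := mul_le_mul_of_nonneg_left s1.1 hinv.le
  have e2 : 1 / (m : ℝ) * (m * F + (Th m L - m * Th 1 L) + 3 * KK / q ^ 8 * (1 + F)) =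
      F + (1 / m * Th m L - Th 1 L) + 1 / m * (3 * KK / q ^ 8 * (1 + F)) := by
    field_simp
  rw [e2] at s3
  have h8 : 1 / (m : ℝ) * (3 * KK / q ^ 8 * (1 + F)) ≤ 3 * KK / q ^ 8 * (1 + F) := by
    apply mul_le_of_le_one_left (by positivity) hinv1
  have h9 : 1 / (m : ℝ) ^ 2 * G ≤ 2 * (F + q ^ 2) := by
    have : 1 / (m : ℝ) ^ 2 * G ≤ 1 / (m : ℝ) ^ 2 * (2 * m * (F + q ^ 2)) := by
      apply mul_le_mul_of_nonneg_left s1.2 (by positivity)
    refine this.trans ?_
    have e : 1 / (m : ℝ) ^ 2 * (2 * m * (F + q ^ 2)) = 1 / m * (2 * (F + q ^ 2)) := by field_simp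
    rw [e]
    exact mul_le_of_le_one_left (by positivity) hinv1
  have h10 : 3 * KK / q ^ 8 * (1 + 1 / (m : ℝ) ^ 2 * G) ≤ 3 * KK / q ^ 8 * (1 + 2 * (F + q ^ 2)) := by
    gcongr
  have h11 : 3 * KK / q ^ 8 * (1 + F) + 3 * KK / q ^ 8 * (1 + 2 * (F + q ^ 2)) ≤
      3 * KK / q ^ 8 * (4 * q ^ 2 * (1 + F)) := by
    rw [← mul_add]
    apply mul_le_mul_of_nonneg_left _ (by positivity)
    have : 1 ≤ q ^ 2 := one_le_pow₀ hq1
    nlinarith
  have h12 : 3 * KK / q ^ 8 * (4 * q ^ 2 * (1 + F)) ≤ 4800000 / q ^ 5 * (1 + F) := by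
    have e : 3 * KK / q ^ 8 * (4 * q ^ 2 * (1 + F)) = 4800000 / q ^ 6 * (1 + F) := by
      unfold KK
      field_simp
      ring
    rw [e]
    gcongr
    norm_num
  have h13 : 1 / (L : ℝ) ≤ 2 / q ^ 5 * (1 + F) := by
    calc 1 / (L : ℝ) ≤ 1 / (q ^ 5 / 2) := by gcongr
      _ = 2 / q ^ 5 * 1 := by field_simp
      _ ≤ 2 / q ^ 5 * (1 + F) := by gcongr; linarith
  have h14 : 4800000 / q ^ 5 * (1 + F) + 2 / q ^ 5 * (1 + F) ≤ 5000000 / q ^ 5 * (1 + F) := by
    rw [← add_mul, ← add_div]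
    gcongr
    norm_num
  linarith

end Pool.Agent.H969
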