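import Mathlib
import Pool.Agent.H969.Sim

/-! Monotonicity in the number of points. -/

set_option autoImplicit false

open MeasureTheory ProbabilityTheory
open scoped ENNReal NNReal Real

namespace Pool.Agent.H969

theorem count_succAbove {n : ℕ} (i j : Fin (n + 1)) :
    (∑ k : Fin n, if i.succAbove k = j then (1 : ℝ≥0∞) else 0) = if i = j then 0 else 1 := by
  by_cases h : i = j
  · subst h
    rw [if_pos rfl]
    apply Finset.sum_eq_zero
    intro k _
    rw [if_neg (Fin.succAbove_ne _ _)]
  · rw [if_neg h]
    obtain ⟨k, hk⟩ := Fin.exists_succAbove_eq (Ne.symm h)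
    rw [Finset.sum_eq_single k]
    · rw [if_pos hk]
    · intro k' _ hne
      rw [if_neg]
      intro h'
      apply hne
      rw [← hk] at h'
      exact Fin.succAbove_right_injective h'
    · intro h'; exact absurd (Finset.mem_univ _) h'

/-- combination of leave-one-out plans -/
theorem costR_succ_le {n : ℕ} (hn : 0 < n) {c : ℝ} (hc : 0 < c) (z : Fin (n + 1) → ℝ × ℝ) :
    costR z (unif c 1 ((n + 1 : ℕ) / c)) ≤
      (1 / n) * ∑ i : Fin (n + 1), costR (fun k => z (i.succAbove k)) (unif c 1 (n / c)) := by
  have hn0 : (0 : ℝ) < n := by exact_mod_cast hn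
  apply le_of_forall_pos_le_add
  intro ε hε
  set ε' := ε * n / (n + 1) with hε'
  have hε'0 : 0 < ε' := by positivity
  have hch : ∀ i : Fin (n + 1), ∃ p : Fin n → Measure (ℝ × ℝ), IsPlan (unif c 1 (n / c)) p ∧
      planCost (fun k => z (i.succAbove k)) p <
        costR (fun k => z (i.succAbove k)) (unif c 1 (n / c)) + ε' := by
    intro i
    have hne : Nonempty {p : Fin n → Measure (ℝ × ℝ) // IsPlan (unif c 1 (n / c)) p} := by
      obtain ⟨p, hp⟩ := exists_plan_unif (n := n) hc
      exact ⟨⟨p, hp⟩⟩
    obtain ⟨p, hp⟩ := exists_lt_of_ciInf_lt (f := fun p : {p : Fin n → Measure (ℝ × ℝ) //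
      IsPlan (unif c 1 (n / c)) p} => planCost (fun k => z (i.succAbove k)) p.1)
      (show (⨅ p : {p : Fin n → Measure (ℝ × ℝ) // IsPlan (unif c 1 (n / c)) p},
        planCost (fun k => z (i.succAbove k)) p.1) <
        costR (fun k => z (i.succAbove k)) (unif c 1 (n / c)) + ε' from by
        change costR _ _ < _
        linarith)
    exact ⟨p.1, p.2, hp⟩
  choose p hp hcost using hch
  -- the new plan
  let q : Fin (n + 1) → Measure (ℝ × ℝ) := fun j =>
    (n : ℝ≥0∞)⁻¹ • ∑ i : Fin (n + 1), ∑ k : Fin n,
      (if i.succAbove k = j then (1 : ℝ≥0∞) else 0) • p i k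
  have hninv : (n : ℝ≥0∞)⁻¹ ≠ ∞ := ENNReal.inv_ne_top.2 (by exact_mod_cast hn.ne')
  have hnn : (n : ℝ≥0∞)⁻¹ * n = 1 :=
    ENNReal.inv_mul_cancel (by exact_mod_cast hn.ne') (ENNReal.natCast_ne_top n)
  have hq : IsPlan (unif c 1 ((n + 1 : ℕ) / c)) q := by
    refine ⟨?_, ?_⟩
    · intro j
      simp only [q]
      rw [Measure.smul_apply, Measure.finsetSum_apply]
      have e : ∀ i : Fin (n + 1), (∑ k : Fin n,
          (if i.succAbove k = j then (1 : ℝ≥0∞) else 0) • p i k) Set.univ =
          if i = j then 0 else 1 := by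
        intro i
        rw [Measure.finsetSum_apply, ← count_succAbove i j]
        apply Finset.sum_congr rfl
        intro k _
        rw [Measure.smul_apply, (hp i).mass, smul_eq_mul, mul_one]
      simp_rw [e]
      have e2 : (∑ i : Fin (n + 1), if i = j then (0 : ℝ≥0∞) else 1) = n := by
        rw [Finset.sum_ite]
        simp only [Finset.sum_const_zero, zero_add, Finset.sum_const, nsmul_eq_mul, mul_one]
        have : (Finset.univ.filter fun i : Fin (n + 1) => ¬i = j) = Finset.univ.erase j := by
          ext i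
          simp
        rw [this, Finset.card_erase_of_mem (Finset.mem_univ _), Finset.card_univ,
          Fintype.card_fin]
        simp
      rw [e2, smul_eq_mul, hnn]
    · simp only [q]
      rw [← Finset.smul_sum, Finset.sum_comm]
      have e : ∀ i : Fin (n + 1), ∑ j : Fin (n + 1), ∑ k : Fin n,
          (if i.succAbove k = j then (1 : ℝ≥0∞) else 0) • p i k = unif c 1 (n / c) := by
        intro i
        rw [Finset.sum_comm, ← (hp i).sum]
        apply Finset.sum_congr rfl
        intro k _
        rw [← Finset.sum_smul]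
        simp
      simp_rw [e]
      rw [Finset.sum_const, Finset.card_univ, Fintype.card_fin, ← Nat.cast_smul_eq_nsmul ℝ≥0∞,
        smul_smul]
      unfold unif
      rw [smul_smul]
      congr 1
      rw [← ENNReal.ofReal_natCast n, ← ENNReal.ofReal_natCast (n + 1),
        ← ENNReal.ofReal_inv_of_pos hn0, ← ENNReal.ofReal_mul (by positivity),
        ← ENNReal.ofReal_mul (by positivity)]
      congr 1
      field_simp
  refine (costR_le z hq).trans ?_
  have hpI : ∀ (i : Fin (n + 1)) (k : Fin n) (x : ℝ × ℝ), Integrable (sqd x) (p i k) := by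
    intro i k x
    have := (hp i).isProb k
    exact integrable_of_carried (isCompact_rect c 1) ((hp i).ae k (unif_ae _ _ _))
      (continuous_sqd _)
  have hcq : planCost z q = (1 / n) * ∑ i : Fin (n + 1),
      planCost (fun k => z (i.succAbove k)) (p i) := by
    unfold planCost
    have e1 : ∀ j : Fin (n + 1), ∫ y, sqd (z j) y ∂(q j) = (1 / (n : ℝ)) *
        ∑ i : Fin (n + 1), ∑ k : Fin n, (if i.succAbove k = j then (1 : ℝ) else 0) *
          ∫ y, sqd (z j) y ∂(p i k) := by
      intro j
      simp only [q]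
      have hI1 : ∀ (i : Fin (n + 1)) (k : Fin n), Integrable (sqd (z j))
          ((if i.succAbove k = j then (1 : ℝ≥0∞) else 0) • p i k) := by
        intro i k
        apply (hpI i k (z j)).smul_measure
        split_ifs <;> simp
      rw [integral_smul_measure, integral_finsetSum_measure]
      · rw [smul_eq_mul, ENNReal.toReal_inv, ENNReal.toReal_natCast, one_div]
        congr 1
        apply Finset.sum_congr rfl
        intro i _
        rw [integral_finsetSum_measure (fun k _ => hI1 i k)]
        apply Finset.sum_congr rfl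
        intro k _
        rw [integral_smul_measure]
        split_ifs <;> simp
      · intro i _
        exact integrable_finsetSum_measure.2 fun k _ => hI1 i k
    simp_rw [e1]
    rw [← Finset.mul_sum, Finset.sum_comm]
    congr 1
    apply Finset.sum_congr rfl
    intro i _
    rw [Finset.sum_comm]
    apply Finset.sum_congr rfl
    intro k _
    rw [Finset.sum_eq_single (i.succAbove k)]
    · simp
    · intro j _ hne
      rw [if_neg (Ne.symm hne), zero_mul]
    · intro h; exact absurd (Finset.mem_univ _) h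
  rw [hcq]
  have hsum : ∑ i : Fin (n + 1), planCost (fun k => z (i.succAbove k)) (p i) ≤
      ∑ i : Fin (n + 1), costR (fun k => z (i.succAbove k)) (unif c 1 (n / c)) + (n + 1) * ε' := by
    calc _ ≤ ∑ i : Fin (n + 1), (costR (fun k => z (i.succAbove k)) (unif c 1 (n / c)) + ε') :=
          Finset.sum_le_sum fun i _ => (hcost i).le
      _ = _ := by
          rw [Finset.sum_add_distrib, Finset.sum_const, Finset.card_univ, Fintype.card_fin,
            nsmul_eq_mul]
          push_cast
          ring
  have := mul_le_mul_of_nonneg_left hsum (by positivity : 0 ≤ 1 / (n : ℝ))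
  refine this.trans (le_of_eq ?_)
  rw [mul_add, hε']
  congr 1
  field_simp

theorem integral_succAbove {n : ℕ} {c : ℝ} (hc : 0 < c) (i : Fin (n + 1))
    {f : (Fin n → ℝ × ℝ) → ℝ} (hf : Measurable f) :
    ∫ z, f (fun k => z (i.succAbove k)) ∂(Measure.pi fun _ : Fin (n + 1) => U c) =
      ∫ z, f z ∂(Measure.pi fun _ : Fin n => U c) := by
  have p1 := isProb_U hc
  have h := measurePreserving_piFinSuccAbove (fun _ : Fin (n + 1) => U c) i
  have h2 : ∫ z, f (fun k => z (i.succAbove k)) ∂(Measure.pi fun _ : Fin (n + 1) => U c) =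
      ∫ w, f w.2 ∂((U c).prod (Measure.pi fun _ : Fin n => U c)) := by
    have hf2 : Measurable (fun w : (ℝ × ℝ) × (Fin n → ℝ × ℝ) => f w.2) := hf.comp measurable_snd
    rw [← h.map_eq, integral_map h.measurable.aemeasurable hf2.aestronglyMeasurable]
    rfl
  rw [h2, int_snd _ _ hf.aestronglyMeasurable]

theorem eN_succ {n : ℕ} (hn : 0 < n) {c : ℝ} (hc : 0 < c) :
    eN (n + 1) c ≤ (n + 1) / n * eN n c := by
  have p1 := isProb_U hc
  have hn0 : (0 : ℝ) < n := by exact_mod_cast hn
  have hI : ∀ i : Fin (n + 1), Integrable (fun z : Fin (n + 1) → ℝ × ℝ =>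
      costR (fun k => z (i.succAbove k)) (unif c 1 (n / c)))
      (Measure.pi fun _ : Fin (n + 1) => U c) := by
    intro i
    have hm : Measurable (fun z : Fin (n + 1) → ℝ × ℝ =>
        costR (fun k => z (i.succAbove k)) (unif c 1 (n / c))) :=
      (measurable_cost c _).comp (measurable_pi_lambda _ fun k => measurable_pi_apply _)
    apply Integrable.of_bound hm.aestronglyMeasurable (n * (c ^ 2 + 1))
    filter_upwards [ae_pi (ι := Fin (n + 1)) (U c) (U_ae c)] with z hz
    rw [Real.norm_eq_abs, abs_of_nonneg (costR_nonneg _ _)]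
    simpa using costR_unif_le (ι := Fin n) hc (z := fun k => z (i.succAbove k))
      (fun k => hz _)
  have hI0 : Integrable (fun z : Fin (n + 1) → ℝ × ℝ => costR z (unif c 1 ((n + 1 : ℕ) / c)))
      (Measure.pi fun _ : Fin (n + 1) => U c) := by
    have := integrable_cost (ι := Fin (n + 1)) hc (ae_pi (ι := Fin (n + 1)) (U c) (U_ae c))
    simpa using this
  have h := integral_mono hI0 ((integrable_finsetSum Finset.univ fun i _ => hI i).const_mul
    (1 / (n : ℝ))) (fun z => costR_succ_le hn hc z)
  have e : eN (n + 1) c = ∫ z, costR z (unif c 1 ((n + 1 : ℕ) / c))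
      ∂(Measure.pi fun _ : Fin (n + 1) => U c) := rfl
  rw [e]
  refine h.trans (le_of_eq ?_)
  rw [integral_const_mul, integral_finsetSum _ fun i _ => hI i]
  have e2 : ∀ i : Fin (n + 1), ∫ z, costR (fun k => z (i.succAbove k)) (unif c 1 (n / c))
      ∂(Measure.pi fun _ : Fin (n + 1) => U c) = eN n c := by
    intro i
    rw [integral_succAbove hc i (f := fun z => costR z (unif c 1 (n / c))) (measurable_cost c _)]
    rfl
  simp_rw [e2]
  rw [Finset.sum_const, Finset.card_univ, Fintype.card_fin, nsmul_eq_mul]
  push_cast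
  ring

/-- expected normalised cost -/
noncomputable def En (n : ℕ) : ℝ := eN n 1 / n

theorem En_nonneg (n : ℕ) : 0 ≤ En n := by
  have := eN_nonneg n 1
  unfold En
  positivity

theorem En_succ {n : ℕ} (hn : 0 < n) : En (n + 1) ≤ En n := by
  have hn0 : (0 : ℝ) < n := by exact_mod_cast hn
  have h := eN_succ hn one_pos
  unfold En
  rw [div_le_iff₀ (by positivity)]
  push_cast
  refine h.trans (le_of_eq ?_)
  ring

theorem En_anti {n m : ℕ} (hn : 0 < n) (h : n ≤ m) : En m ≤ En n := by
  induction m, h using Nat.le_induction with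
  | base => exact le_rfl
  | succ m hm ih => exact (En_succ (by omega)).trans ih

theorem En_le (n : ℕ) : En n ≤ 2 := by
  rcases Nat.eq_zero_or_pos n with h | h
  · subst h
    unfold En
    simp
  · have hn0 : (0 : ℝ) < n := by exact_mod_cast h
    have := eN_le one_pos n
    unfold En
    rw [div_le_iff₀ hn0]
    linarith

theorem integrable_En (r : ℝ) : Integrable (fun n => En (n + 1)) (P r) := by
  apply Integrable.of_bound Measurable.of_discrete.aestronglyMeasurable 2
  refine Filter.Eventually.of_forall fun n => ?_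
  rw [Real.norm_eq_abs, abs_of_nonneg (En_nonneg _)]
  exact En_le _

theorem bN_eq {x : ℝ} (hx : 0 ≤ x) : bN 1 x = x * ∫ n, En (n + 1) ∂(P x) := by
  have h := (P_shift hx (f := En) (integrable_En x)).2
  rw [← h]
  unfold bN
  rw [mul_one]
  congr 1
  ext n
  unfold En
  rcases Nat.eq_zero_or_pos n with h0 | h0
  · subst h0
    have := eN_le one_pos 0
    have h2 := eN_nonneg 0 1
    simp at this ⊢
    linarith
  · have hn0 : (n : ℝ) ≠ 0 := by exact_mod_cast h0.ne'
    field_simp

theorem P_add {x y : ℝ} (hx : 0 ≤ x) (hy : 0 ≤ y) :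
    P (x + y) = ((P x).prod (P y)).map (fun n : ℕ × ℕ => n.1 + n.2) := by
  unfold P
  rw [Real.toNNReal_add hx hy, ← poissonMeasure_conv_poissonMeasure]
  rfl

theorem h_anti {x y : ℝ} (hx : 0 ≤ x) (hxy : x ≤ y) :
    ∫ n, En (n + 1) ∂(P y) ≤ ∫ n, En (n + 1) ∂(P x) := by
  have e : y = x + (y - x) := by ring
  have hd : 0 ≤ y - x := by linarith
  rw [e, P_add hx hd, integral_map (by fun_prop) Measurable.of_discrete.aestronglyMeasurable]
  have h1 : ∫ n : ℕ × ℕ, En (n.1 + n.2 + 1) ∂((P x).prod (P (y - x))) ≤
      ∫ n : ℕ × ℕ, En (n.1 + 1) ∂((P x).prod (P (y - x))) := by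
    apply integral_mono_of_nonneg
    · exact Filter.Eventually.of_forall fun n => En_nonneg _
    · apply Integrable.of_bound Measurable.of_discrete.aestronglyMeasurable 2
      refine Filter.Eventually.of_forall fun n => ?_
      rw [Real.norm_eq_abs, abs_of_nonneg (En_nonneg _)]
      exact En_le _
    · exact Filter.Eventually.of_forall fun n => En_anti (by omega) (by omega)
  refine h1.trans (le_of_eq ?_)
  rw [int_fst _ _ (f := fun n => En (n + 1)) Measurable.of_discrete.aestronglyMeasurable]

theorem b_mono {x y : ℝ} (hx : 0 < x) (hxy : x ≤ y) : bN 1 y ≤ (y / x) * bN 1 x := by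
  have hy : 0 < y := lt_of_lt_of_le hx hxy
  rw [bN_eq hx.le, bN_eq hy.le]
  have := mul_le_mul_of_nonneg_left (h_anti hx.le hxy) hy.le
  refine this.trans (le_of_eq ?_)
  field_simp

end Pool.Agent.H969
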