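import Mathlib
import Pool.Agent.H969.DSeq

/-! Comparison of the two problems. -/

set_option autoImplicit false

open MeasureTheory
open scoped ENNReal NNReal Real

namespace Pool.Agent.H969

/-- scaling of the first variable about the center -/
noncomputable def pinch (κ : ℝ) (y : ℝ × ℝ) : ℝ × ℝ := (κ * y.1 + (1 - κ) / 2, y.2)

theorem continuous_pinch (κ : ℝ) : Continuous (pinch κ) := by unfold pinch; fun_prop

theorem map_pinch {κ x : ℝ} (hκ : 0 < κ) (hx : 0 ≤ x) :
    (unif 1 1 (x * κ)).map (pinch κ) =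
      ENNReal.ofReal x • volume.restrict (Set.Icc ((1 - κ) / 2) ((1 + κ) / 2) ×ˢ Set.Icc 0 1) := by
  apply Measure.ext_of_lintegral
  intro F hF
  unfold unif rect
  rw [lintegral_map hF (continuous_pinch κ).measurable, lintegral_smul_measure,
    lintegral_smul_measure, smul_eq_mul, smul_eq_mul]
  simp only [pinch]
  rw [lint_prod' _ _ (fun y : ℝ × ℝ => F (κ * y.1 + (1 - κ) / 2, y.2)) (by fun_prop),
    lint_prod' _ _ _ hF]
  simp only
  have e1 : ∀ t : ℝ, ∫⁻ s in Set.Icc (0:ℝ) 1, F (κ * s + (1 - κ) / 2, t) =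
      ENNReal.ofReal (1 / κ) * ∫⁻ s in Set.Icc ((1 - κ) / 2) ((1 + κ) / 2), F (s, t) := fun t => by
    have := lint_aff (b := (1 - κ) / 2) hκ zero_le_one (fun u => F (u, t))
    rw [this, show κ * 1 + (1 - κ) / 2 = (1 + κ) / 2 by ring]
  simp_rw [e1]
  rw [lintegral_const_mul' _ _ ENNReal.ofReal_ne_top, ← mul_assoc,
    ← ENNReal.ofReal_mul (by positivity)]
  congr 2
  field_simp

theorem dC_zero_eq (c : ℝ) : dC c 0 = dR c := by
  ext y
  unfold dC dR
  simp

theorem QQ_zero_eq (c : ℝ) : QQ c 0 = rect c 1 := by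
  unfold QQ rect
  simp

theorem dR_zero {c : ℝ} {y : ℝ × ℝ} (hy : y ∉ rect c 1) : dR c y = 0 := by
  rw [← dC_zero_eq]
  exact dC_zero (by rwa [QQ_zero_eq])

theorem dR_out {c : ℝ} {y z : ℝ × ℝ} (hy : y ∉ rect c 1) : dR c z ^ 2 ≤ sqd z y := by
  rw [← dC_zero_eq]
  exact dC_out (by rwa [QQ_zero_eq])

theorem integrableOn_box {f : ℝ × ℝ → ℝ} (hf : Continuous f) (a1 a2 b1 b2 : ℝ) :
    Integrable f (volume.restrict (Set.Icc a1 a2 ×ˢ Set.Icc b1 b2)) :=
  hf.continuousOn.integrableOn_compact (isCompact_Icc.prod isCompact_Icc)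

theorem vol_box_real {a1 a2 b1 b2 : ℝ} (ha : a1 ≤ a2) (hb : b1 ≤ b2) :
    (volume (Set.Icc a1 a2 ×ˢ Set.Icc b1 b2 : Set (ℝ × ℝ))).toReal = (a2 - a1) * (b2 - b1) := by
  rw [vol_box, ENNReal.toReal_mul, ENNReal.toReal_ofReal (by linarith),
    ENNReal.toReal_ofReal (by linarith)]

theorem strip_int {κ : ℝ} :
    ∫ y in rect 1 1, dR 1 y ^ 2 ≤
      (∫ y in (Set.Icc ((1 - κ) / 2) ((1 + κ) / 2) ×ˢ Set.Icc 0 1), dR 1 y ^ 2) +
        |κ - 1| ^ 3 / 4 := by
  set S : Set (ℝ × ℝ) := Set.Icc ((1 - κ) / 2) ((1 + κ) / 2) ×ˢ Set.Icc 0 1 with hS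
  set β := |κ - 1| / 2 with hβ
  have hβ0 : 0 ≤ β := by positivity
  have hd : Continuous fun y => dR 1 y ^ 2 := (continuous_dR 1).pow 2
  have hSm : MeasurableSet S := measurableSet_Icc.prod measurableSet_Icc
  set B1 : Set (ℝ × ℝ) := Set.Icc 0 β ×ˢ Set.Icc 0 1 with hB1
  set B2 : Set (ℝ × ℝ) := Set.Icc (1 - β) 1 ×ˢ Set.Icc 0 1 with hB2
  have hB1m : MeasurableSet B1 := measurableSet_Icc.prod measurableSet_Icc
  have hB2m : MeasurableSet B2 := measurableSet_Icc.prod measurableSet_Icc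
  have hpt : ∀ y ∈ rect 1 1, dR 1 y ^ 2 ≤ S.indicator (fun y => dR 1 y ^ 2) y +
      (B1.indicator (fun _ => β ^ 2) y + B2.indicator (fun _ => β ^ 2) y) := by
    intro y hy
    have n1 : 0 ≤ B1.indicator (fun _ => β ^ 2) y := Set.indicator_nonneg (fun _ _ => sq_nonneg _) _
    have n2 : 0 ≤ B2.indicator (fun _ => β ^ 2) y := Set.indicator_nonneg (fun _ _ => sq_nonneg _) _
    by_cases h : y ∈ S
    · rw [Set.indicator_of_mem h]
      linarith
    · rw [Set.indicator_of_notMem h, zero_add]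
      have hd0 := dR_nonneg 1 y
      obtain ⟨⟨y1, y2⟩, hy2⟩ := hy
      have hor : y.1 < (1 - κ) / 2 ∨ (1 + κ) / 2 < y.1 := by
        by_contra hcon
        push Not at hcon
        exact h ⟨⟨hcon.1, hcon.2⟩, hy2⟩
      have hle : (1 - κ) / 2 ≤ β := by
        rw [hβ, abs_sub_comm]
        linarith [le_abs_self (1 - κ)]
      rcases hor with h1 | h1
      · have hmem : y ∈ B1 := ⟨⟨y1, by linarith⟩, hy2⟩
        rw [Set.indicator_of_mem hmem]
        have : dR 1 y ≤ β := by
          unfold dR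
          refine max_le hβ0 ((min_le_left _ _).trans ((min_le_left _ _).trans ?_))
          linarith
        have := pow_le_pow_left₀ hd0 this 2
        linarith
      · have hmem : y ∈ B2 := ⟨⟨by linarith, y2⟩, hy2⟩
        rw [Set.indicator_of_mem hmem]
        have : dR 1 y ≤ β := by
          unfold dR
          refine max_le hβ0 ((min_le_left _ _).trans ((min_le_right _ _).trans ?_))
          linarith
        have := pow_le_pow_left₀ hd0 this 2
        linarith
  have hRm : MeasurableSet (rect 1 1) := measurableSet_rect 1 1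
  have i0 : Integrable (fun y => dR 1 y ^ 2) (volume.restrict (rect 1 1)) := intOn_rect hd
  have i1 : Integrable (S.indicator (fun y => dR 1 y ^ 2)) (volume.restrict (rect 1 1)) :=
    i0.indicator hSm
  have hfin : IsFiniteMeasure (volume.restrict (rect 1 1)) :=
    ⟨by rw [Measure.restrict_apply_univ]; exact (isCompact_rect 1 1).measure_lt_top⟩
  have i2 : Integrable (B1.indicator (fun _ : ℝ × ℝ => β ^ 2)) (volume.restrict (rect 1 1)) :=
    (integrable_const _).indicator hB1m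
  have i3 : Integrable (B2.indicator (fun _ : ℝ × ℝ => β ^ 2)) (volume.restrict (rect 1 1)) :=
    (integrable_const _).indicator hB2m
  have i23 : Integrable (fun y => B1.indicator (fun _ : ℝ × ℝ => β ^ 2) y +
    B2.indicator (fun _ : ℝ × ℝ => β ^ 2) y) (volume.restrict (rect 1 1)) := i2.add i3
  have i123 : Integrable (fun y => S.indicator (fun y => dR 1 y ^ 2) y +
      (B1.indicator (fun _ : ℝ × ℝ => β ^ 2) y + B2.indicator (fun _ : ℝ × ℝ => β ^ 2) y))
      (volume.restrict (rect 1 1)) := i1.add i23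
  have hmono := setIntegral_mono_on (μ := volume) i0 i123 hRm hpt
  rw [integral_add i1 i23, integral_add i2 i3] at hmono
  have f1 : ∫ y in rect 1 1, S.indicator (fun y => dR 1 y ^ 2) y ≤ ∫ y in S, dR 1 y ^ 2 := by
    rw [integral_indicator hSm, Measure.restrict_restrict hSm]
    apply setIntegral_mono_set (integrableOn_box hd _ _ _ _)
    · exact Filter.Eventually.of_forall fun y => sq_nonneg _
    · exact Filter.Eventually.of_forall fun y hy => hy.1
  have f2 : ∀ (B : Set (ℝ × ℝ)), MeasurableSet B → (volume B) ≠ ∞ → (volume B).toReal = β →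
      ∫ y in rect 1 1, B.indicator (fun _ : ℝ × ℝ => β ^ 2) y ≤ β ^ 3 := by
    intro B hB hfinB hv
    rw [integral_indicator_const _ hB, smul_eq_mul, Measure.real]
    have : ((volume.restrict (rect 1 1)) B).toReal ≤ β := by
      rw [← hv]
      exact ENNReal.toReal_mono hfinB (Measure.restrict_apply_le _ _)
    calc _ ≤ β * β ^ 2 := mul_le_mul_of_nonneg_right this (sq_nonneg _)
      _ = _ := by ring
  have v1 : (volume B1).toReal = β := by
    rw [hB1, vol_box_real hβ0 zero_le_one]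
    ring
  have v2 : (volume B2).toReal = β := by
    rw [hB2, vol_box_real (by linarith) zero_le_one]
    ring
  have fin1 : volume B1 ≠ ∞ := (isCompact_Icc.prod isCompact_Icc).measure_lt_top.ne
  have fin2 : volume B2 ≠ ∞ := (isCompact_Icc.prod isCompact_Icc).measure_lt_top.ne
  have g1 := f2 B1 hB1m fin1 v1
  have g2 := f2 B2 hB2m fin2 v2
  have e2 : |κ - 1| ^ 3 / 4 = β ^ 3 + β ^ 3 := by rw [hβ]; ring
  rw [e2]
  linarith

theorem int_center : ∫ y in rect 1 1, (y.1 - 1 / 2) ^ 2 = 1 / 12 := by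
  have e : ∫ y in rect 1 1, (y.1 - 1 / 2) ^ 2 = ∫ y in rect 1 1, ((y.1 - 1 / 2) ^ 2) * 1 := by
    congr 1
    ext y
    ring
  rw [e, int_prod_rect (fun s => (s - 1 / 2) ^ 2) (fun _ => 1),
    setInt_of_deriv zero_le_one (f := fun s => (s - 1 / 2) ^ 3 / 3)]
  · simp
    norm_num
  · intro x
    have h := (((hasDerivAt_id x).sub_const (1 / 2)).pow 3).div_const 3
    refine h.congr_deriv ?_
    simp
  · fun_prop

theorem nd_plan {n : ℕ} {x : ℝ} (hn : 0 < n) (hx : 0 < x) {z : Fin n → ℝ × ℝ}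
    {p : Fin n → Measure (ℝ × ℝ)} (hp : IsPlan (unif 1 1 n) p) :
    costD z (dR 1) (unif 1 1 x) ≤ (1 + |n / x - 1|) * planCost z p +
      ((n / x - 1) * (n / 12 - ∑ i, ((z i).1 - 1 / 2) ^ 2) + (n / x - 1) ^ 2 * (n / 12) +
        x * (|n / x - 1| ^ 3 / 4)) := by
  have hn' : (0 : ℝ) < n := by exact_mod_cast hn
  obtain ⟨κ, hκd⟩ : ∃ κ : ℝ, κ = n / x := ⟨_, rfl⟩
  have hκ : 0 < κ := by rw [hκd]; positivity
  have hxκ : x * κ = n := by rw [hκd]; field_simp
  rw [← hκd]
  have hφ := continuous_pinch κ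
  have hφm := hφ.measurable
  have hDR := DD_R 1 x
  have hRm : MeasurableSet (rect 1 1) := measurableSet_rect 1 1
  have hd2 : Continuous fun y => dR 1 y ^ 2 := (continuous_dR 1).pow 2
  have hmap := map_pinch hκ hx.le
  rw [hxκ] at hmap
  have hsub : IsSub (unif 1 1 x) (fun i => ((p i).map (pinch κ)).restrict (rect 1 1)) := by
    refine ⟨fun i => ?_, ?_⟩
    · calc _ ≤ ((p i).map (pinch κ)) Set.univ := Measure.restrict_le_self _
        _ = 1 := by
          rw [Measure.map_apply hφm MeasurableSet.univ, Set.preimage_univ]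
          exact hp.mass i
        _ ≤ 1 := le_rfl
    · rw [← restrict_fsum, ← Measure.map_finset_sum' hφm.aemeasurable, hp.sum, hmap]
      unfold unif
      rw [Measure.restrict_smul, Measure.restrict_restrict hRm]
      apply Measure.le_iff.2
      intro s _
      simp only [Measure.smul_apply, smul_eq_mul]
      gcongr
      exact Set.inter_subset_left
  have hc := hDR.costD_le z hsub
  refine hc.trans ?_
  have hcφ : Continuous fun y => dR 1 (pinch κ y) ^ 2 := hd2.comp hφ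
  have hsφ : ∀ i, Continuous fun y => sqd (z i) (pinch κ y) := fun i =>
    (continuous_sqd (z i)).comp hφ
  have hcen : Continuous fun y : ℝ × ℝ => (y.1 - 1 / 2) ^ 2 := by fun_prop
  have ip : ∀ i {f : ℝ × ℝ → ℝ}, Continuous f → Integrable f (p i) := fun i f hf => by
    have := hp.isProb i
    exact integrable_of_carried (isCompact_rect 1 1) (hp.ae i (unif_ae 1 1 n)) hf
  have iu : ∀ {f : ℝ × ℝ → ℝ}, Continuous f → Integrable f (unif 1 1 n) := fun hf =>
    integrable_of_carried (isCompact_rect 1 1) (unif_ae 1 1 n) hf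
  -- per point
  have key : ∀ i, dR 1 (z i) ^ 2 + ∫ y, kd (dR 1) (z i) y
      ∂(((p i).map (pinch κ)).restrict (rect 1 1)) ≤
      ∫ y, sqd (z i) (pinch κ y) ∂(p i) - ∫ y, dR 1 (pinch κ y) ^ 2 ∂(p i) := by
    intro i
    have hpi := hp.isProb i
    have hkm : Measurable ((rect 1 1).indicator (kd (dR 1) (z i))) :=
      (continuous_kd (continuous_dR 1) (z i)).measurable.indicator hRm
    rw [← integral_indicator hRm, integral_map hφm.aemeasurable hkm.aestronglyMeasurable,
      ← integral_sub (ip i (hsφ i)) (ip i hcφ)]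
    have e1 : dR 1 (z i) ^ 2 = ∫ _y, dR 1 (z i) ^ 2 ∂(p i) := by simp
    rw [e1]
    have hI : Integrable (fun y => (rect 1 1).indicator (kd (dR 1) (z i)) (pinch κ y)) (p i) := by
      apply (ip i ((continuous_kd (continuous_dR 1) (z i)).comp hφ)).norm.mono'
        (hkm.comp hφm).aestronglyMeasurable
      refine Filter.Eventually.of_forall fun y => ?_
      simp only [Function.comp_apply]
      by_cases h : pinch κ y ∈ rect 1 1
      · rw [Set.indicator_of_mem h]
      · rw [Set.indicator_of_notMem h, norm_zero]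
        exact norm_nonneg _
    rw [← integral_add (integrable_const _) hI]
    apply integral_mono ((integrable_const _).add hI) ((ip i (hsφ i)).sub (ip i hcφ))
    intro y
    change dR 1 (z i) ^ 2 + (rect 1 1).indicator (kd (dR 1) (z i)) (pinch κ y) ≤
      sqd (z i) (pinch κ y) - dR 1 (pinch κ y) ^ 2
    by_cases h : pinch κ y ∈ rect 1 1
    · rw [Set.indicator_of_mem h]
      unfold kd
      linarith
    · rw [Set.indicator_of_notMem h, dR_zero h]
      have := dR_out (c := 1) (z := z i) h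
      simp only [ne_eq, OfNat.ofNat_ne_zero, not_false_eq_true, zero_pow, sub_zero, add_zero]
      exact this
  have hsum : ∑ i, dR 1 (z i) ^ 2 + subCost z (dR 1)
      (fun i => ((p i).map (pinch κ)).restrict (rect 1 1)) ≤
      ∑ i, ∫ y, sqd (z i) (pinch κ y) ∂(p i) - ∫ y, dR 1 (pinch κ y) ^ 2 ∂(unif 1 1 n) := by
    unfold subCost
    rw [← Finset.sum_add_distrib, ← hp.sum_integral (iu hcφ), ← Finset.sum_sub_distrib]
    exact Finset.sum_le_sum fun i _ => key i
  -- the transported target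
  have hT : ∫ y, dR 1 (pinch κ y) ^ 2 ∂(unif 1 1 n) =
      x * ∫ y in (Set.Icc ((1 - κ) / 2) ((1 + κ) / 2) ×ˢ Set.Icc 0 1), dR 1 y ^ 2 := by
    have h1 : ∫ y, dR 1 y ^ 2 ∂((unif 1 1 n).map (pinch κ)) =
        ∫ y, dR 1 (pinch κ y) ^ 2 ∂(unif 1 1 n) :=
      integral_map hφm.aemeasurable hd2.aestronglyMeasurable
    rw [← h1, hmap, integral_smul_measure, ENNReal.toReal_ofReal hx.le, smul_eq_mul]
  have hM : ∫ y, dR 1 y ^ 2 ∂(unif 1 1 x) = x * ∫ y in rect 1 1, dR 1 y ^ 2 := by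
    unfold unif
    rw [integral_smul_measure, ENNReal.toReal_ofReal hx.le, smul_eq_mul]
  have hstrip := mul_le_mul_of_nonneg_left (strip_int (κ := κ)) hx.le
  -- the costs
  have hC : ∫ y : ℝ × ℝ, (y.1 - 1 / 2) ^ 2 ∂(unif 1 1 n) = (n : ℝ) / 12 := by
    unfold unif
    rw [integral_smul_measure, ENNReal.toReal_ofReal hn'.le, smul_eq_mul, int_center]
    ring
  have key2 : ∀ i, ∫ y, sqd (z i) (pinch κ y) ∂(p i) ≤ (1 + |κ - 1|) * ∫ y, sqd (z i) y ∂(p i) +
      ((κ - 1) + (κ - 1) ^ 2) * ∫ y, (y.1 - 1 / 2) ^ 2 ∂(p i) -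
        (κ - 1) * ((z i).1 - 1 / 2) ^ 2 := by
    intro i
    have hpi := hp.isProb i
    have j1 : Integrable (fun y => (1 + |κ - 1|) * sqd (z i) y) (p i) :=
      (ip i (continuous_sqd _)).const_mul _
    have j2 : Integrable (fun y : ℝ × ℝ => ((κ - 1) + (κ - 1) ^ 2) * (y.1 - 1 / 2) ^ 2) (p i) :=
      (ip i hcen).const_mul _
    have j12 : Integrable (fun y : ℝ × ℝ => (1 + |κ - 1|) * sqd (z i) y +
        ((κ - 1) + (κ - 1) ^ 2) * (y.1 - 1 / 2) ^ 2) (p i) := j1.add j2
    calc ∫ y, sqd (z i) (pinch κ y) ∂(p i) ≤ ∫ y, ((1 + |κ - 1|) * sqd (z i) y +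
        ((κ - 1) + (κ - 1) ^ 2) * (y.1 - 1 / 2) ^ 2 - (κ - 1) * ((z i).1 - 1 / 2) ^ 2) ∂(p i) := by
          apply integral_mono (ip i (hsφ i)) (j12.sub (integrable_const _))
          intro y
          change ((z i).1 - (κ * y.1 + (1 - κ) / 2)) ^ 2 + ((z i).2 - y.2) ^ 2 ≤
            (1 + |κ - 1|) * (((z i).1 - y.1) ^ 2 + ((z i).2 - y.2) ^ 2) +
            ((κ - 1) + (κ - 1) ^ 2) * (y.1 - 1 / 2) ^ 2 - (κ - 1) * ((z i).1 - 1 / 2) ^ 2
          have e : ((z i).1 - (κ * y.1 + (1 - κ) / 2)) ^ 2 = ((z i).1 - y.1) ^ 2 +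
              ((κ - 1) + (κ - 1) ^ 2) * (y.1 - 1 / 2) ^ 2 - (κ - 1) * ((z i).1 - 1 / 2) ^ 2 +
              (κ - 1) * ((z i).1 - y.1) ^ 2 := by ring
          rw [e]
          have h1 : (κ - 1) * ((z i).1 - y.1) ^ 2 ≤ |κ - 1| * ((z i).1 - y.1) ^ 2 :=
            mul_le_mul_of_nonneg_right (le_abs_self _) (sq_nonneg _)
          have h2 : 0 ≤ |κ - 1| * ((z i).2 - y.2) ^ 2 := by positivity
          linarith
      _ = _ := by
          rw [integral_sub j12 (integrable_const _), integral_add j1 j2, integral_const_mul,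
            integral_const_mul]
          simp
  have hsum2 := Finset.sum_le_sum (fun i (_ : i ∈ Finset.univ) => key2 i)
  rw [Finset.sum_sub_distrib, Finset.sum_add_distrib, ← Finset.mul_sum, ← Finset.mul_sum,
    ← Finset.mul_sum, hp.sum_integral (iu hcen), hC] at hsum2
  change _ ≤ (1 + |κ - 1|) * planCost z p + _ - _ at hsum2
  rw [hT] at hsum
  rw [hM]
  linarith

end Pool.Agent.H969
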