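import Mathlib
import Pool.Agent.H969.ND

/-! Comparison of the averages. -/

set_option autoImplicit false

open MeasureTheory
open scoped ENNReal NNReal Real

namespace Pool.Agent.H969

theorem dR_le_half (y : ℝ × ℝ) : dR 1 y ≤ 1 / 2 := by
  unfold dR
  apply max_le (by norm_num)
  rcases le_total y.2 (1 / 2) with h | h
  · exact (min_le_right _ _).trans ((min_le_left _ _).trans h)
  · exact (min_le_right _ _).trans ((min_le_right _ _).trans (by linarith))

theorem nd_fixed {x : ℝ} (hx : 0 < x) (n : ℕ) :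
    eD n 1 x ≤ (1 + |n / x - 1|) * eN n 1 + ((n / x - 1) ^ 2 * (n / 12) +
        x * (|n / x - 1| ^ 3 / 4)) := by
  have p := isProb_U (c := 1) one_pos
  rcases Nat.eq_zero_or_pos n with hn | hn
  · subst hn
    have h1 := eD_le 0 one_pos x
    have h2 : ∫ y, dR 1 y ^ 2 ∂(unif 1 1 x) ≤ x / 4 := by
      rw [unif_integral one_pos hx.le]
      have : ∫ y, dR 1 y ^ 2 ∂(U 1) ≤ ∫ _y, (1 / 4 : ℝ) ∂(U 1) := by
        apply integral_mono (integrable_of_carried (isCompact_rect 1 1) (U_ae 1)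
          ((continuous_dR 1).pow 2)) (integrable_const _)
        intro y
        have := pow_le_pow_left₀ (dR_nonneg 1 y) (dR_le_half y) 2
        change dR 1 y ^ 2 ≤ 1 / 4
        linarith
      have h5 : ∫ _y : ℝ × ℝ, (1 / 4 : ℝ) ∂(U 1) = 1 / 4 := by simp
      rw [h5] at this
      have := mul_le_mul_of_nonneg_left this hx.le
      linarith
    have h3 := eN_nonneg 0 1
    have e : |((0 : ℕ) : ℝ) / x - 1| = 1 := by simp
    rw [e]
    push_cast at h1 ⊢
    have e2 : (0 / x - 1) ^ 2 * (0 / 12 : ℝ) = 0 := by simp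
    rw [e2]
    linarith
  · have hn' : (0 : ℝ) < n := by exact_mod_cast hn
    obtain ⟨ε, hε⟩ : ∃ ε : ℝ, ε = n / x - 1 := ⟨_, rfl⟩
    have hpt : ∀ z : Fin n → ℝ × ℝ, costD z (dR 1) (unif 1 1 x) ≤
        (1 + |ε|) * costR z (unif 1 1 (n / 1)) +
        (ε * (n / 12 - ∑ i, ((z i).1 - 1 / 2) ^ 2) + ε ^ 2 * (n / 12) +
        x * (|ε| ^ 3 / 4)) := by
      intro z
      have hpos : 0 < 1 + |ε| := by positivity
      have : (costD z (dR 1) (unif 1 1 x) - (ε * (n / 12 - ∑ i, ((z i).1 - 1 / 2) ^ 2) +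
          ε ^ 2 * (n / 12) + x * (|ε| ^ 3 / 4))) / (1 + |ε|) ≤
          costR z (unif 1 1 (n / 1)) := by
        apply le_costR z (exists_plan_unif one_pos)
        intro p hp
        rw [div_one] at hp
        rw [div_le_iff₀ hpos]
        have := nd_plan (z := z) hn hx hp
        rw [← hε] at this
        linarith
      rw [div_le_iff₀ hpos] at this
      linarith
    rw [← hε]
    set m := (Measure.pi fun _ : Fin n => U 1) with hm
    have hae : ∀ᵐ z ∂m, ∀ i, z i ∈ rect 1 1 := ae_pi (ι := Fin n) (U 1) (U_ae 1)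
    have i0 : Integrable (fun z : Fin n → ℝ × ℝ => costD z (dR 1) (unif 1 1 x)) m :=
      (DD_R 1 x).integrable_costD m
    have i1 : Integrable (fun z : Fin n → ℝ × ℝ => costR z (unif 1 1 (n / 1))) m := by
      have := integrable_cost (ι := Fin n) one_pos hae
      simpa using this
    have hfc : Continuous fun y : ℝ × ℝ => (y.1 - 1 / 2) ^ 2 := by fun_prop
    have hc : Continuous fun z : Fin n → ℝ × ℝ => ∑ i, ((z i).1 - 1 / 2) ^ 2 := by fun_prop
    have i2 : Integrable (fun z : Fin n → ℝ × ℝ => ∑ i, ((z i).1 - 1 / 2) ^ 2) m :=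
      integrable_cont hae hc
    have e2 : ∫ z : Fin n → ℝ × ℝ, (∑ i, ((z i).1 - 1 / 2) ^ 2) ∂m = (n : ℝ) / 12 := by
      have := pi_mean (ι := Fin n) (U 1) (f := fun y => (y.1 - 1 / 2) ^ 2)
        (integrable_of_carried (isCompact_rect 1 1) (U_ae 1) hfc)
      rw [integral_U one_pos, int_center, Fintype.card_fin] at this
      rw [this]
      ring
    have j1 : Integrable (fun z : Fin n → ℝ × ℝ => (1 + |ε|) * costR z (unif 1 1 (n / 1))) m :=
      i1.const_mul _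
    have j2 : Integrable (fun z : Fin n → ℝ × ℝ =>
        ε * ((n : ℝ) / 12 - ∑ i, ((z i).1 - 1 / 2) ^ 2)) m :=
      ((integrable_const _).sub i2).const_mul _
    have j3 : Integrable (fun z : Fin n → ℝ × ℝ =>
        ε * ((n : ℝ) / 12 - ∑ i, ((z i).1 - 1 / 2) ^ 2) + ε ^ 2 * (n / 12)) m :=
      j2.add (integrable_const _)
    have j4 : Integrable (fun z : Fin n → ℝ × ℝ =>
        ε * ((n : ℝ) / 12 - ∑ i, ((z i).1 - 1 / 2) ^ 2) + ε ^ 2 * (n / 12) +
        x * (|ε| ^ 3 / 4)) m := j3.add (integrable_const _)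
    have hmono := integral_mono i0 (j1.add j4) hpt
    have e3 : ∫ z, ((1 + |ε|) * costR z (unif 1 1 (n / 1)) +
        (ε * ((n : ℝ) / 12 - ∑ i, ((z i).1 - 1 / 2) ^ 2) + ε ^ 2 * (n / 12) +
        x * (|ε| ^ 3 / 4))) ∂m = (1 + |ε|) * eN n 1 + (ε ^ 2 * (n / 12) +
        x * (|ε| ^ 3 / 4)) := by
      rw [integral_add j1 j4, integral_add j3 (integrable_const _),
        integral_add j2 (integrable_const _), integral_const_mul, integral_const_mul,
        integral_sub (integrable_const _) i2, e2]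
      have e5 : ∫ z : Fin n → ℝ × ℝ, costR z (unif 1 1 ((n : ℝ) / 1)) ∂m = eN n 1 := rfl
      rw [e5]
      simp
    exact hmono.trans (le_of_eq e3)

theorem nd_poisson {x η : ℝ} (hx : 1 ≤ x) (hη : 0 < η) :
    bD 1 x ≤ (1 + η) * bN 1 x + 30 / (η ^ 3 * x) + 2 := by
  have hx0 : 0 < x := by linarith
  have hxn : 0 ≤ x := hx0.le
  unfold bD bN
  rw [mul_one]
  have i2 := integrable_sub_P hxn 2 x
  have i3 := integrable_sub_P hxn 3 x
  have i4 := integrable_sub_P hxn 4 x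
  have i5 := integrable_sub_P hxn 5 x
  have m2 : ∫ n : ℕ, ((n : ℝ) - x) ^ 2 ∂(P x) = x := Mo_two hxn
  have m3 : ∫ n : ℕ, ((n : ℝ) - x) ^ 3 ∂(P x) = x := Mo_three hxn
  have m4 : ∫ n : ℕ, ((n : ℝ) - x) ^ 4 ∂(P x) = 3 * x ^ 2 + x := Mo_four hxn
  have m5 : ∫ n : ℕ, ((n : ℝ) - x) ^ 5 ∂(P x) = 10 * x ^ 2 + x := Mo_five hxn
  have ie : Integrable (fun n => eN n 1) (P x) := by
    apply ((integrable_nat_P hxn).mul_const (1 ^ 2 + 1)).mono'
      Measurable.of_discrete.aestronglyMeasurable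
    refine Filter.Eventually.of_forall fun n => ?_
    rw [Real.norm_eq_abs, abs_of_nonneg (eN_nonneg _ _)]
    exact eN_le one_pos n
  have iD : Integrable (fun n => eD n 1 x) (P x) :=
    integrable_of_le hxn (fun n => eD_nonneg n _ _) (fun n => eD_le n one_pos _)
  have hpt : ∀ n : ℕ, eD n 1 x ≤ (1 + η) * eN n 1 +
      ((2 / (η ^ 3 * x ^ 4)) * (((n : ℝ) - x) ^ 5 + x * ((n : ℝ) - x) ^ 4) +
      ((1 / (12 * x ^ 2)) * (((n : ℝ) - x) ^ 3 + x * ((n : ℝ) - x) ^ 2) +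
      (1 / (4 * x ^ 2)) * (((n : ℝ) - x) ^ 2 + ((n : ℝ) - x) ^ 4))) := by
    intro n
    have h := nd_fixed hx0 n
    have hn : (0 : ℝ) ≤ n := Nat.cast_nonneg n
    have hE0 := eN_nonneg n 1
    have hE2 := eN_le one_pos n
    have e1 : (n : ℝ) / x - 1 = ((n : ℝ) - x) / x := by field_simp
    rw [e1] at h
    obtain ⟨t, ht⟩ : ∃ t : ℝ, t = (n : ℝ) - x := ⟨_, rfl⟩
    rw [← ht] at h ⊢
    have hnt : (n : ℝ) = t + x := by rw [ht]; ring
    have a1 : |t / x| * eN n 1 ≤ η * eN n 1 + (2 / (η ^ 3 * x ^ 4)) * (t ^ 5 + x * t ^ 4) := by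
      have hn4 : t ^ 5 + x * t ^ 4 = n * t ^ 4 := by rw [hnt]; ring
      rw [hn4]
      rcases le_or_gt |t / x| η with h1 | h1
      · have := mul_le_mul_of_nonneg_right h1 hE0
        have : 0 ≤ (2 / (η ^ 3 * x ^ 4)) * (n * t ^ 4) := by positivity
        linarith
      · have h2 : |t / x| ≤ |t / x| ^ 4 / η ^ 3 := by
          rw [le_div_iff₀ (by positivity)]
          have h3 := pow_le_pow_left₀ hη.le h1.le 3
          calc |t / x| * η ^ 3 ≤ |t / x| * |t / x| ^ 3 :=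
                mul_le_mul_of_nonneg_left h3 (abs_nonneg _)
            _ = _ := by ring
        have h4 : |t / x| ^ 4 = t ^ 4 / x ^ 4 := by
          rw [← abs_pow, abs_of_nonneg (by positivity), div_pow]
        rw [h4] at h2
        have h5 : |t / x| * eN n 1 ≤ (t ^ 4 / x ^ 4 / η ^ 3) * (n * (1 ^ 2 + 1)) :=
          mul_le_mul h2 hE2 hE0 (by positivity)
        have h6 : 0 ≤ η * eN n 1 := by positivity
        calc _ ≤ _ := h5
          _ = (2 / (η ^ 3 * x ^ 4)) * (n * t ^ 4) := by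
              field_simp
              ring
          _ ≤ _ := by linarith
    have a2 : (t / x) ^ 2 * ((n : ℝ) / 12) = (1 / (12 * x ^ 2)) * (t ^ 3 + x * t ^ 2) := by
      rw [hnt]
      field_simp
    have a3 : x * (|t / x| ^ 3 / 4) ≤ (1 / (4 * x ^ 2)) * (t ^ 2 + t ^ 4) := by
      have h1 : |t| ^ 3 ≤ t ^ 2 + t ^ 4 := by
        rcases le_or_gt |t| 1 with h2 | h2
        · have : |t| ^ 3 ≤ |t| ^ 2 := pow_le_pow_of_le_one (abs_nonneg _) h2 (by norm_num)
          rw [sq_abs] at this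
          have : 0 ≤ t ^ 4 := by positivity
          linarith
        · have : |t| ^ 3 ≤ |t| ^ 4 := pow_le_pow_right₀ h2.le (by norm_num)
          rw [← abs_pow t 4, abs_of_nonneg (by positivity : 0 ≤ t ^ 4)] at this
          have := sq_nonneg t
          linarith
      rw [abs_div, abs_of_pos hx0, div_pow]
      calc x * (|t| ^ 3 / x ^ 3 / 4) = (1 / (4 * x ^ 2)) * |t| ^ 3 := by field_simp
        _ ≤ _ := mul_le_mul_of_nonneg_left h1 (by positivity)
    rw [a2] at h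
    linarith
  have k1 : Integrable (fun n => (1 + η) * eN n 1) (P x) := ie.const_mul _
  have k2 : Integrable (fun n : ℕ => (2 / (η ^ 3 * x ^ 4)) *
      (((n : ℝ) - x) ^ 5 + x * ((n : ℝ) - x) ^ 4)) (P x) := (i5.add (i4.const_mul _)).const_mul _
  have k3 : Integrable (fun n : ℕ => (1 / (12 * x ^ 2)) *
      (((n : ℝ) - x) ^ 3 + x * ((n : ℝ) - x) ^ 2)) (P x) := (i3.add (i2.const_mul _)).const_mul _
  have k4 : Integrable (fun n : ℕ => (1 / (4 * x ^ 2)) *
      (((n : ℝ) - x) ^ 2 + ((n : ℝ) - x) ^ 4)) (P x) := (i2.add i4).const_mul _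
  have k34 : Integrable (fun n : ℕ => (1 / (12 * x ^ 2)) *
      (((n : ℝ) - x) ^ 3 + x * ((n : ℝ) - x) ^ 2) + (1 / (4 * x ^ 2)) *
      (((n : ℝ) - x) ^ 2 + ((n : ℝ) - x) ^ 4)) (P x) := k3.add k4
  have k234 : Integrable (fun n : ℕ => (2 / (η ^ 3 * x ^ 4)) *
      (((n : ℝ) - x) ^ 5 + x * ((n : ℝ) - x) ^ 4) + ((1 / (12 * x ^ 2)) *
      (((n : ℝ) - x) ^ 3 + x * ((n : ℝ) - x) ^ 2) + (1 / (4 * x ^ 2)) *
      (((n : ℝ) - x) ^ 2 + ((n : ℝ) - x) ^ 4))) (P x) := k2.add k34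
  have hmono := integral_mono iD (k1.add k234) hpt
  have e3 : ∫ n : ℕ, ((1 + η) * eN n 1 +
      ((2 / (η ^ 3 * x ^ 4)) * (((n : ℝ) - x) ^ 5 + x * ((n : ℝ) - x) ^ 4) +
      ((1 / (12 * x ^ 2)) * (((n : ℝ) - x) ^ 3 + x * ((n : ℝ) - x) ^ 2) +
      (1 / (4 * x ^ 2)) * (((n : ℝ) - x) ^ 2 + ((n : ℝ) - x) ^ 4)))) ∂(P x) =
      (1 + η) * ∫ n, eN n 1 ∂(P x) +
      ((2 / (η ^ 3 * x ^ 4)) * ((10 * x ^ 2 + x) + x * (3 * x ^ 2 + x)) +
      ((1 / (12 * x ^ 2)) * (x + x * x) + (1 / (4 * x ^ 2)) * (x + (3 * x ^ 2 + x)))) := by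
    rw [integral_add k1 k234, integral_add k2 k34, integral_add k3 k4, integral_const_mul,
      integral_const_mul, integral_const_mul, integral_const_mul,
      integral_add i5 (i4.const_mul _), integral_add i3 (i2.const_mul _), integral_add i2 i4,
      integral_const_mul, integral_const_mul, m2, m3, m4, m5]
  refine (hmono.trans (le_of_eq e3)).trans ?_
  have hx2 : x ≤ x ^ 2 := by nlinarith
  have hx3 : x ^ 2 ≤ x ^ 3 := by
    calc x ^ 2 = x ^ 2 * 1 := (mul_one _).symm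
      _ ≤ x ^ 2 * x := mul_le_mul_of_nonneg_left hx (sq_nonneg _)
      _ = x ^ 3 := by ring
  have b1 : (2 / (η ^ 3 * x ^ 4)) * ((10 * x ^ 2 + x) + x * (3 * x ^ 2 + x)) ≤
      30 / (η ^ 3 * x) := by
    calc _ ≤ (2 / (η ^ 3 * x ^ 4)) * (15 * x ^ 3) := by
          apply mul_le_mul_of_nonneg_left _ (by positivity)
          have e : (10 * x ^ 2 + x) + x * (3 * x ^ 2 + x) = 3 * x ^ 3 + 11 * x ^ 2 + x := by ring
          rw [e]
          linarith
      _ = _ := by field_simp; ring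
  have b2 : (1 / (12 * x ^ 2)) * (x + x * x) ≤ 1 / 6 := by
    rw [one_div_mul_eq_div, div_le_div_iff₀ (by positivity) (by norm_num)]
    nlinarith
  have b3 : (1 / (4 * x ^ 2)) * (x + (3 * x ^ 2 + x)) ≤ 5 / 4 := by
    rw [one_div_mul_eq_div, div_le_div_iff₀ (by positivity) (by norm_num)]
    nlinarith
  linarith

end Pool.Agent.H969
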