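import Mathlib
import Pool.Agent.H969.Lim
import Pool.Agent.H969.ND2
import Pool.Agent.H969.Mono

/-! The limit for the Poisson averages and removal of the averaging. -/

set_option autoImplicit false

open MeasureTheory Filter Topology
open scoped ENNReal NNReal Real

namespace Pool.Agent.H969

theorem hyp_bN : Hyp (bN 1) 5000000 where
  Kpos := by norm_num
  nonneg x := bN_nonneg 1 x
  main hq hm hmq hx := main_rec hq hm hmq hx
  mono hx hxy := b_mono hx hxy

theorem X1_le_X0 : X1 ≤ X0 := by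
  unfold X1
  rw [X0_def]
  exact pow_le_pow_right₀ (by norm_num) (by norm_num)

theorem bN_lower : ∃ C : ℝ, ∀ X : ℝ, ∃ x, X ≤ x ∧ 1 / (4 * π) * Real.log x - C ≤ bN 1 x := by
  obtain ⟨C, hC⟩ := bD_lower
  obtain ⟨A, hA, hB⟩ := hyp_bN.apriori
  refine ⟨C + 111 * A + 32, fun X => ?_⟩
  obtain ⟨x, hx, hx0, hxC⟩ := hC X
  refine ⟨x, hx, ?_⟩
  have hX1 : X1 ≤ x := X1_le_X0.trans hx0
  have h4 : (4 : ℝ) ^ 110 ≤ x := hX1
  obtain ⟨q, hq, hqx⟩ := exists_root (n := 110) (by norm_num) (by norm_num) h4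
  have hq0 : 0 < q := by linarith
  have hx1 : 1 ≤ x := by linarith [X1_ge]
  have hxpos : 0 < x := by linarith
  have hnd := nd_poisson (η := 1 / q) hx1 (by positivity)
  have hb := hB x hX1
  have hlog : Real.log x ≤ 110 * q := by
    rw [← hqx, Real.log_pow]
    have := Real.log_le_sub_one_of_pos hq0
    push_cast
    linarith
  have h1 : 1 / q * bN 1 x ≤ 111 * A := by
    rw [one_div_mul_eq_div, div_le_iff₀ hq0]
    have h2 : A * (1 + Real.log x) ≤ A * (111 * q) :=
      mul_le_mul_of_nonneg_left (by linarith) (by linarith)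
    linarith
  have h2 : 30 / ((1 / q) ^ 3 * x) ≤ 30 := by
    have h3 : 1 ≤ (1 / q) ^ 3 * x := by
      rw [← hqx]
      have e : (1 / q) ^ 3 * q ^ 110 = q ^ 107 := by field_simp
      rw [e]
      exact one_le_pow₀ (by linarith)
    exact div_le_self (by norm_num) h3
  linarith

theorem bN_limit : ∃ ξ : ℝ, Tendsto (nf (bN 1)) atTop (𝓝 ξ) := hyp_bN.limit bN_lower

/-- tail estimate -/
theorem tail_far {x g : ℝ} (hx : 1 ≤ x) (hg : 0 < g) {s : ℕ → ℝ}
    (hs : ∀ n, s n = 0 ∨ (s n = 1 ∧ g ≤ |(n : ℝ) - x|)) :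
    ∫ n, s n ∂(P x) ≤ 4 * x ^ 2 / g ^ 4 := by
  have hx0 : 0 ≤ x := by linarith
  have i4 := integrable_sub_P hx0 4 x
  calc ∫ n, s n ∂(P x) ≤ ∫ n : ℕ, ((n : ℝ) - x) ^ 4 / g ^ 4 ∂(P x) := by
        apply integral_mono_of_nonneg _ (i4.div_const _)
        · refine Filter.Eventually.of_forall fun n => ?_
          simp only
          rcases hs n with h | ⟨h, h2⟩
          · rw [h]; positivity
          · rw [h, one_le_div (by positivity)]
            have := pow_le_pow_left₀ hg.le h2 4
            rwa [← abs_pow, abs_of_nonneg (by positivity)] at this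
        · refine Filter.Eventually.of_forall fun n => ?_
          simp only [Pi.zero_apply]
          rcases hs n with h | ⟨h, h2⟩ <;> rw [h]
          norm_num
    _ = Mo x 4 / g ^ 4 := by
        rw [integral_div]
        rfl
    _ ≤ 4 * x ^ 2 / g ^ 4 := by
        rw [Mo_four hx0]
        gcongr
        nlinarith

theorem integrable_bdd {s : ℕ → ℝ} {C : ℝ} (hs : ∀ n, |s n| ≤ C) (x : ℝ) :
    Integrable s (P x) :=
  Integrable.of_bound Measurable.of_discrete.aestronglyMeasurable C
    (Filter.Eventually.of_forall fun n => hs n)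

/-- upper estimate -/
theorem dep_up {n : ℕ} {x g : ℝ} (hn : 0 < n) (hx : 1 ≤ x) (hg : 0 < g) (hnx : x + g ≤ n) :
    En n ≤ bN 1 x / x + 8 * x ^ 2 / g ^ 4 := by
  have hx0 : 0 < x := by linarith
  have e1 : bN 1 x / x = ∫ k, En (k + 1) ∂(P x) := by
    rw [bN_eq hx0.le]
    field_simp
  let s : ℕ → ℝ := fun k => if n ≤ k then 1 else 0
  have hs := tail_far (s := s) hx hg (fun k => by
    by_cases h : n ≤ k
    · right
      refine ⟨if_pos h, ?_⟩
      have : (n : ℝ) ≤ k := by exact_mod_cast h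
      exact le_trans (by linarith) (le_abs_self _)
    · left
      exact if_neg h)
  have is : Integrable s (P x) := integrable_bdd (C := 1) (fun k => by
    simp only [s]
    split_ifs <;> simp) x
  have h1 : En n ≤ ∫ k, (En (k + 1) + 2 * s k) ∂(P x) := by
    have e2 : En n = ∫ _k : ℕ, En n ∂(P x) := by simp
    rw [e2]
    apply integral_mono (integrable_const _) ((integrable_En x).add (is.const_mul 2))
    intro k
    simp only [s]
    change En n ≤ En (k + 1) + 2 * (if n ≤ k then 1 else 0)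
    split_ifs with h
    · have := En_le n
      have := En_nonneg (k + 1)
      linarith
    · have := En_anti (n := k + 1) (m := n) (by omega) (by omega)
      linarith
  rw [integral_add (integrable_En x) (is.const_mul 2), integral_const_mul] at h1
  rw [e1]
  have e3 : 8 * x ^ 2 / g ^ 4 = 2 * (4 * x ^ 2 / g ^ 4) := by ring
  rw [e3]
  linarith

/-- lower estimate -/
theorem dep_low {n : ℕ} {x g : ℝ} (hn : 0 < n) (hx : 1 ≤ x) (hg : 0 < g) (hnx : (n : ℝ) + g ≤ x) :
    bN 1 x / x ≤ En n + 8 * x ^ 2 / g ^ 4 := by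
  have hx0 : 0 < x := by linarith
  have e1 : bN 1 x / x = ∫ k, En (k + 1) ∂(P x) := by
    rw [bN_eq hx0.le]
    field_simp
  let s : ℕ → ℝ := fun k => if k + 1 < n then 1 else 0
  have hs := tail_far (s := s) hx hg (fun k => by
    by_cases h : k + 1 < n
    · right
      refine ⟨if_pos h, ?_⟩
      have : (k : ℝ) + 1 < n := by exact_mod_cast h
      rw [abs_sub_comm]
      exact le_trans (by linarith) (le_abs_self _)
    · left
      exact if_neg h)
  have is : Integrable s (P x) := integrable_bdd (C := 1) (fun k => by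
    simp only [s]
    split_ifs <;> simp) x
  have h1 : ∫ k, En (k + 1) ∂(P x) ≤ ∫ k, (En n + 2 * s k) ∂(P x) := by
    apply integral_mono (integrable_En x) ((integrable_const _).add (is.const_mul 2))
    intro k
    change En (k + 1) ≤ En n + 2 * (if k + 1 < n then 1 else 0)
    split_ifs with h
    · have := En_le (k + 1)
      have := En_nonneg n
      linarith
    · have := En_anti (n := n) (m := k + 1) hn (by omega)
      linarith
  rw [integral_add (integrable_const _) (is.const_mul 2), integral_const_mul, integral_const] at h1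
  simp only [probReal_univ, one_smul] at h1
  rw [e1]
  have e3 : 8 * x ^ 2 / g ^ 4 = 2 * (4 * x ^ 2 / g ^ 4) := by ring
  rw [e3]
  linarith

/-- two-sided estimate -/
theorem dep_both {A : ℝ} (hA : 1 ≤ A) (hB : ∀ x : ℝ, X1 ≤ x → bN 1 x ≤ A * (1 + Real.log x))
    {n : ℕ} {T : ℝ} (hT : 4 ^ 110 ≤ T) (hnT : T ^ 5 = n) :
    nf (bN 1) (T ^ 5 + T ^ 4) - 40 * A / Real.sqrt T ≤
      n * En n - 1 / (4 * π) * Real.log n ∧
    n * En n - 1 / (4 * π) * Real.log n ≤
      nf (bN 1) (T ^ 5 - T ^ 4) + 40 * A / Real.sqrt T := by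
  have hT4 : 4 ≤ T := le_trans (le_self_pow₀ (by norm_num) (by norm_num)) hT
  have hT0 : 0 < T := by linarith
  obtain ⟨S, hS⟩ : ∃ S : ℝ, S = Real.sqrt T := ⟨_, rfl⟩
  have hST : S ^ 2 = T := by rw [hS]; exact Real.sq_sqrt hT0.le
  rw [← hS]
  have hS0 : 0 < S := by rw [hS]; exact Real.sqrt_pos.2 hT0
  have hS2 : 2 ≤ S := by
    by_contra h
    push Not at h
    have := pow_lt_pow_left₀ h hS0.le (by norm_num : (2 : ℕ) ≠ 0)
    rw [hST] at this
    linarith
  have hn0 : (0 : ℝ) < n := by rw [← hnT]; positivity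
  have hn : 0 < n := by exact_mod_cast hn0
  have hpi0 : 0 < 1 / (4 * π) := by positivity
  have hT5 : T ^ 5 = T * T ^ 4 := by ring
  have hT4p : 0 < T ^ 4 := by positivity
  have h45 : 4 * T ^ 4 ≤ T ^ 5 := by
    rw [hT5]
    exact mul_le_mul_of_nonneg_right hT4 hT4p.le
  have hlogT : Real.log T ≤ 2 * S := by
    rw [← hST, Real.log_pow]
    have := Real.log_le_sub_one_of_pos hS0
    push_cast
    linarith
  have hbig : ∀ x : ℝ, T ^ 4 ≤ x → x ≤ 2 * T ^ 5 → X1 ≤ x ∧ 1 ≤ x ∧ bN 1 x ≤ 13 * A * S := by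
    intro x h1 h2
    have h3 : T ≤ T ^ 4 := le_self_pow₀ (by linarith) (by norm_num)
    have h4 : X1 ≤ x := by
      unfold X1
      linarith
    refine ⟨h4, by linarith [X1_ge], (hB x h4).trans ?_⟩
    have h5 : Real.log x ≤ 6 * Real.log T := by
      have h6 : x ≤ T ^ 6 := by
        calc x ≤ 2 * T ^ 5 := h2
          _ ≤ T * T ^ 5 := by
              apply mul_le_mul_of_nonneg_right (by linarith) (by positivity)
          _ = T ^ 6 := by ring
      have h7 := Real.log_le_log (by linarith [X1_ge]) h6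
      rw [Real.log_pow] at h7
      exact_mod_cast h7
    calc A * (1 + Real.log x) ≤ A * (13 * S) := by
          apply mul_le_mul_of_nonneg_left _ (by linarith)
          linarith
      _ = _ := by ring
  constructor
  · -- lower bound
    obtain ⟨x, hx⟩ : ∃ x : ℝ, x = T ^ 5 + T ^ 4 := ⟨_, rfl⟩
    rw [← hx]
    obtain ⟨-, hx1, hbx⟩ := hbig x (by rw [hx]; linarith [pow_pos hT0 5]) (by rw [hx]; linarith)
    have hx0 : 0 < x := by linarith
    have hd := dep_low (n := n) (x := x) (g := T ^ 4) hn hx1 hT4p (by rw [← hnT, hx])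
    have hb0 := bN_nonneg 1 x
    -- n * En n ≥ n/x * b - n * err
    have e1 : n * (bN 1 x / x) ≤ n * En n + n * (8 * x ^ 2 / (T ^ 4) ^ 4) := by
      have := mul_le_mul_of_nonneg_left hd hn0.le
      linarith
    have e2 : n * (8 * x ^ 2 / (T ^ 4) ^ 4) ≤ 13 / S := by
      have h1 : x ≤ 5 / 4 * T ^ 5 := by rw [hx]; linarith
      have h2 : x ^ 2 ≤ (5 / 4 * T ^ 5) ^ 2 := pow_le_pow_left₀ hx0.le h1 2
      rw [← hnT]
      calc T ^ 5 * (8 * x ^ 2 / (T ^ 4) ^ 4) ≤ T ^ 5 * (8 * (5 / 4 * T ^ 5) ^ 2 / (T ^ 4) ^ 4) := by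
            gcongr
        _ = 25 / 2 / T := by field_simp; ring
        _ ≤ 13 / S := by
            rw [div_le_div_iff₀ hT0 hS0]
            have : S * 1 ≤ S * S := mul_le_mul_of_nonneg_left (by linarith) hS0.le
            have e : S * S = T := by rw [← hST]; ring
            linarith
    have e3 : bN 1 x - bN 1 x / T ≤ n * (bN 1 x / x) := by
      have h1 : 1 - 1 / T ≤ n / x := by
        rw [← hnT, hx, le_div_iff₀ (by positivity)]
        have e : (1 - 1 / T) * (T ^ 5 + T ^ 4) = T ^ 5 - T ^ 3 := by field_simp; ring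
        rw [e]
        linarith [pow_pos hT0 3]
      have := mul_le_mul_of_nonneg_right h1 hb0
      have e : (n : ℝ) / x * bN 1 x = n * (bN 1 x / x) := by ring
      rw [e] at this
      have e' : (1 - 1 / T) * bN 1 x = bN 1 x - bN 1 x / T := by ring
      rw [e'] at this
      exact this
    have e4 : bN 1 x / T ≤ 13 * A / S := by
      calc bN 1 x / T ≤ 13 * A * S / T := by gcongr
        _ = 13 * A / S := by rw [← hST]; field_simp
    have e5 : Real.log n ≤ Real.log x := by
      apply Real.log_le_log hn0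
      rw [← hnT, hx]
      linarith
    have e6 := mul_le_mul_of_nonneg_left e5 hpi0.le
    have e7 : 13 / S ≤ 13 * A / S := by gcongr; linarith
    have e8 : 40 * A / S = 13 * A / S + 13 * A / S + 14 * A / S := by ring
    have e9 : 0 ≤ 14 * A / S := by positivity
    unfold nf
    linarith
  · -- upper bound
    obtain ⟨x, hx⟩ : ∃ x : ℝ, x = T ^ 5 - T ^ 4 := ⟨_, rfl⟩
    rw [← hx]
    obtain ⟨-, hx1, hbx⟩ := hbig x (by rw [hx]; linarith) (by rw [hx]; linarith [pow_pos hT0 5])
    have hx0 : 0 < x := by linarith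
    have hd := dep_up (n := n) (x := x) (g := T ^ 4) hn hx1 hT4p (by rw [← hnT, hx]; linarith)
    have hb0 := bN_nonneg 1 x
    have e1 : n * En n ≤ n * (bN 1 x / x) + n * (8 * x ^ 2 / (T ^ 4) ^ 4) := by
      have := mul_le_mul_of_nonneg_left hd hn0.le
      linarith
    have e2 : n * (8 * x ^ 2 / (T ^ 4) ^ 4) ≤ 13 / S := by
      have h1 : x ≤ 5 / 4 * T ^ 5 := by rw [hx]; linarith
      have h2 : x ^ 2 ≤ (5 / 4 * T ^ 5) ^ 2 := pow_le_pow_left₀ hx0.le h1 2
      rw [← hnT]
      calc T ^ 5 * (8 * x ^ 2 / (T ^ 4) ^ 4) ≤ T ^ 5 * (8 * (5 / 4 * T ^ 5) ^ 2 / (T ^ 4) ^ 4) := by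
            gcongr
        _ = 25 / 2 / T := by field_simp; ring
        _ ≤ 13 / S := by
            rw [div_le_div_iff₀ hT0 hS0]
            have : S * 1 ≤ S * S := mul_le_mul_of_nonneg_left (by linarith) hS0.le
            have e : S * S = T := by rw [← hST]; ring
            linarith
    have e3 : n * (bN 1 x / x) ≤ bN 1 x + 2 * (bN 1 x / T) := by
      have h1 : n / x ≤ 1 + 2 * (1 / T) := by
        rw [← hnT, hx, div_le_iff₀ (by linarith)]
        have e : (1 + 2 * (1 / T)) * (T ^ 5 - T ^ 4) = T ^ 5 + T ^ 4 - 2 * T ^ 3 := by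
          field_simp; ring
        rw [e]
        have : 4 * T ^ 3 ≤ T ^ 4 := by
          have : T ^ 4 = T * T ^ 3 := by ring
          rw [this]
          exact mul_le_mul_of_nonneg_right hT4 (by positivity)
        linarith [pow_pos hT0 3]
      have := mul_le_mul_of_nonneg_right h1 hb0
      have e : (n : ℝ) / x * bN 1 x = n * (bN 1 x / x) := by ring
      rw [e] at this
      have e' : (1 + 2 * (1 / T)) * bN 1 x = bN 1 x + 2 * (bN 1 x / T) := by ring
      rw [e'] at this
      exact this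
    have e4 : bN 1 x / T ≤ 13 * A / S := by
      calc bN 1 x / T ≤ 13 * A * S / T := by gcongr
        _ = 13 * A / S := by rw [← hST]; field_simp
    have e5 : Real.log x ≤ Real.log n := by
      apply Real.log_le_log hx0
      rw [← hnT, hx]
      linarith
    have e6 := mul_le_mul_of_nonneg_left e5 hpi0.le
    have e7 : 13 / S ≤ 13 * A / S := by gcongr; linarith
    have e8 : 40 * A / S = 13 * A / S + 2 * (13 * A / S) + 1 * A / S := by ring
    have e9 : 0 ≤ 1 * A / S := by positivity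
    unfold nf
    linarith

/-- the limit for the discrete sequence -/
theorem En_limit : ∃ ξ : ℝ, Tendsto (fun n : ℕ => n * En n - 1 / (4 * π) * Real.log n)
    atTop (𝓝 ξ) := by
  obtain ⟨ξ, hξ⟩ := bN_limit
  obtain ⟨A, hA, hB⟩ := hyp_bN.apriori
  refine ⟨ξ, ?_⟩
  let T : ℕ → ℝ := fun n => (n : ℝ) ^ (((5 : ℕ) : ℝ)⁻¹)
  have hT : Tendsto T atTop atTop :=
    (tendsto_rpow_atTop (by norm_num)).comp tendsto_natCast_atTop_atTop
  have hT5 : ∀ n, T n ^ 5 = n := fun n =>
    Real.rpow_inv_natCast_pow (Nat.cast_nonneg n) (by norm_num)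
  have hsq : Tendsto (fun n => 40 * A / Real.sqrt (T n)) atTop (𝓝 0) :=
    Tendsto.const_div_atTop (Real.tendsto_sqrt_atTop.comp hT) _
  have hp : Tendsto (fun n => T n ^ 5 + T n ^ 4) atTop atTop := by
    apply tendsto_atTop_mono' atTop _ hT
    filter_upwards [hT.eventually_ge_atTop 1] with n hn
    have h1 : T n ≤ T n ^ 5 := le_self_pow₀ hn (by norm_num)
    have h2 : 0 ≤ T n ^ 4 := by positivity
    linarith
  have hm : Tendsto (fun n => T n ^ 5 - T n ^ 4) atTop atTop := by
    apply tendsto_atTop_mono' atTop _ hT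
    filter_upwards [hT.eventually_ge_atTop 2] with n hn
    have h1 : T n ≤ T n ^ 4 := le_self_pow₀ (by linarith) (by norm_num)
    have h2 : T n ^ 5 = T n * T n ^ 4 := by ring
    have h3 : 2 * T n ^ 4 ≤ T n * T n ^ 4 := mul_le_mul_of_nonneg_right hn (by positivity)
    linarith
  have l1 : Tendsto (fun n => nf (bN 1) (T n ^ 5 + T n ^ 4) - 40 * A / Real.sqrt (T n))
      atTop (𝓝 ξ) := by
    have := (hξ.comp hp).sub hsq
    simpa using this
  have l2 : Tendsto (fun n => nf (bN 1) (T n ^ 5 - T n ^ 4) + 40 * A / Real.sqrt (T n))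
      atTop (𝓝 ξ) := by
    have := (hξ.comp hm).add hsq
    simpa using this
  apply tendsto_of_tendsto_of_tendsto_of_le_of_le' l1 l2
  · filter_upwards [hT.eventually_ge_atTop (4 ^ 110)] with n hn
    exact (dep_both hA hB hn (hT5 n)).1
  · filter_upwards [hT.eventually_ge_atTop (4 ^ 110)] with n hn
    exact (dep_both hA hB hn (hT5 n)).2

end Pool.Agent.H969
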