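import Mathlib
import Pool.Agent.H969.Final

/-! The cost expressed by couplings. -/

set_option autoImplicit false

open MeasureTheory Filter Topology
open scoped ENNReal NNReal Real

namespace Pool.Agent.H969

theorem lint_sqd {n : ℕ} {p : Fin n → Measure (ℝ × ℝ)} (hp : IsPlan (unif 1 1 (n / 1)) p)
    (i : Fin n) (x : ℝ × ℝ) :
    ∫⁻ y, ENNReal.ofReal ((x.1 - y.1) ^ 2 + (x.2 - y.2) ^ 2) ∂(p i) =
      ENNReal.ofReal (∫ y, sqd x y ∂(p i)) := by
  have hpi := hp.isProb i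
  rw [ofReal_integral_eq_lintegral_ofReal]
  · rfl
  · exact integrable_of_carried (isCompact_rect 1 1) (hp.ae i (unif_ae 1 1 _)) (continuous_sqd x)
  · exact Eventually.of_forall fun y => sqd_nonneg _ _

theorem sum_ofReal_plan {n : ℕ} (hn : 0 < n) {p : Fin n → Measure (ℝ × ℝ)}
    (hp : IsPlan (unif 1 1 (n / 1)) p) (X : Fin n → ℝ × ℝ) :
    (n : ℝ≥0∞)⁻¹ * ∑ i, ∫⁻ y, ENNReal.ofReal (((X i).1 - y.1) ^ 2 + ((X i).2 - y.2) ^ 2) ∂(p i) =
      ENNReal.ofReal (planCost X p / n) := by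
  have hn0 : (0 : ℝ) < n := by exact_mod_cast hn
  simp_rw [lint_sqd hp]
  rw [← ENNReal.ofReal_sum_of_nonneg (fun i _ => integral_nonneg fun _ => sqd_nonneg _ _),
    ← ENNReal.ofReal_natCast, ← ENNReal.ofReal_inv_of_pos hn0,
    ← ENNReal.ofReal_mul (by positivity)]
  congr 1
  unfold planCost
  ring

theorem inner_eq {n : ℕ} (hn : 0 < n) (X : Fin n → ℝ × ℝ) :
    (⨅ (γ : Measure ((ℝ × ℝ) × (ℝ × ℝ)))
            (_ : γ.map Prod.fst = (n : ℝ≥0∞)⁻¹ • ∑ i, Measure.dirac (X i) ∧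
                 γ.map Prod.snd = (volume : Measure (ℝ × ℝ)).restrict
                   (Set.Icc (0:ℝ) 1 ×ˢ Set.Icc (0:ℝ) 1)),
            ∫⁻ p, ENNReal.ofReal ((p.1.1 - p.2.1) ^ 2 + (p.1.2 - p.2.2) ^ 2) ∂γ) =
      ENNReal.ofReal (costR X (unif 1 1 (n / 1)) / n) := by
  have hn0 : (0 : ℝ) < n := by exact_mod_cast hn
  have hnE : (n : ℝ≥0∞) ≠ 0 := by exact_mod_cast hn.ne'
  have hnT : (n : ℝ≥0∞) ≠ ∞ := ENNReal.natCast_ne_top n
  have hcm : Measurable fun p : (ℝ × ℝ) × (ℝ × ℝ) =>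
      ENNReal.ofReal ((p.1.1 - p.2.1) ^ 2 + (p.1.2 - p.2.2) ^ 2) := by fun_prop
  apply le_antisymm
  · -- couplings from plans
    obtain ⟨c, hc⟩ : ∃ c : ℝ≥0∞, c = (⨅ (γ : Measure ((ℝ × ℝ) × (ℝ × ℝ)))
            (_ : γ.map Prod.fst = (n : ℝ≥0∞)⁻¹ • ∑ i, Measure.dirac (X i) ∧
                 γ.map Prod.snd = (volume : Measure (ℝ × ℝ)).restrict
                   (Set.Icc (0:ℝ) 1 ×ˢ Set.Icc (0:ℝ) 1)),
            ∫⁻ p, ENNReal.ofReal ((p.1.1 - p.2.1) ^ 2 + (p.1.2 - p.2.2) ^ 2) ∂γ) := ⟨_, rfl⟩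
    rw [← hc]
    have key : ∀ p : Fin n → Measure (ℝ × ℝ), IsPlan (unif 1 1 (n / 1)) p →
        c ≤ ENNReal.ofReal (planCost X p / n) := by
      intro p hp
      have hmk : ∀ i, Measurable (Prod.mk (X i) : ℝ × ℝ → (ℝ × ℝ) × (ℝ × ℝ)) := fun i =>
        measurable_prodMk_left
      rw [hc]
      refine iInf₂_le_of_le ((n : ℝ≥0∞)⁻¹ • ∑ i, (p i).map (Prod.mk (X i))) ⟨?_, ?_⟩ ?_
      · rw [Measure.map_smul, Measure.map_finset_sum' measurable_fst.aemeasurable]
        congr 1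
        apply Finset.sum_congr rfl
        intro i _
        rw [Measure.map_map measurable_fst (hmk i)]
        have e : (Prod.fst ∘ Prod.mk (X i) : ℝ × ℝ → ℝ × ℝ) = fun _ => X i := rfl
        rw [e, Measure.map_const, hp.mass i, one_smul]
      · rw [Measure.map_smul, Measure.map_finset_sum' measurable_snd.aemeasurable]
        have e : ∀ i, ((p i).map (Prod.mk (X i))).map Prod.snd = p i := by
          intro i
          rw [Measure.map_map measurable_snd (hmk i)]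
          have e : (Prod.snd ∘ Prod.mk (X i) : ℝ × ℝ → ℝ × ℝ) = id := rfl
          rw [e, Measure.map_id]
        simp_rw [e]
        rw [hp.sum, div_one]
        unfold unif
        rw [smul_smul, ENNReal.ofReal_natCast, ENNReal.inv_mul_cancel hnE hnT, one_smul]
        rfl
      · rw [lintegral_smul_measure, lintegral_finsetSum_measure, smul_eq_mul]
        have e : ∀ i, ∫⁻ p, ENNReal.ofReal ((p.1.1 - p.2.1) ^ 2 + (p.1.2 - p.2.2) ^ 2)
            ∂((p i).map (Prod.mk (X i))) =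
            ∫⁻ y, ENNReal.ofReal (((X i).1 - y.1) ^ 2 + ((X i).2 - y.2) ^ 2) ∂(p i) := fun i =>
          lintegral_map hcm (hmk i)
        simp_rw [e]
        rw [sum_ofReal_plan hn hp]
    obtain ⟨p0, hp0⟩ := exists_plan_unif (n := n) one_pos
    have hcT : c ≠ ∞ := ne_top_of_le_ne_top ENNReal.ofReal_ne_top (key p0 hp0)
    have h1 : c.toReal * n ≤ costR X (unif 1 1 (n / 1)) := by
      apply le_costR X ⟨p0, hp0⟩
      intro p hp
      have h2 := ENNReal.toReal_mono ENNReal.ofReal_ne_top (key p hp)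
      have h3 := planCost_nonneg X p
      rw [ENNReal.toReal_ofReal (by positivity), le_div_iff₀ hn0] at h2
      exact h2
    rw [← ENNReal.ofReal_toReal hcT]
    apply ENNReal.ofReal_le_ofReal
    rwa [le_div_iff₀ hn0]
  · -- plans from couplings
    refine le_iInf₂ fun γ hγ => ?_
    obtain ⟨h1, h2⟩ := hγ
    have hfin : IsFiniteMeasure γ := by
      refine ⟨?_⟩
      have h3 : (γ.map Prod.snd) Set.univ = ((volume : Measure (ℝ × ℝ)).restrict
          (Set.Icc (0:ℝ) 1 ×ˢ Set.Icc (0:ℝ) 1)) Set.univ := by rw [h2]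
      rw [Measure.map_apply measurable_snd MeasurableSet.univ, Set.preimage_univ,
        Measure.restrict_apply_univ] at h3
      rw [h3]
      exact (isCompact_Icc.prod isCompact_Icc).measure_lt_top
    have hfst : γ.fst = (n : ℝ≥0∞)⁻¹ • ∑ i, Measure.dirac (X i) := h1
    have hdis : ∀ {f : (ℝ × ℝ) × (ℝ × ℝ) → ℝ≥0∞}, Measurable f →
        ∫⁻ x, f x ∂γ = (n : ℝ≥0∞)⁻¹ * ∑ i, ∫⁻ y, f (X i, y) ∂(γ.condKernel (X i)) := by
      intro f hf
      rw [← Measure.lintegral_condKernel hf, hfst, lintegral_smul_measure,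
        lintegral_finsetSum_measure, smul_eq_mul]
      congr 1
      apply Finset.sum_congr rfl
      intro i _
      rw [lintegral_dirac]
    have hplan : IsPlan (unif 1 1 (n / 1)) (fun i => γ.condKernel (X i)) := by
      refine ⟨fun i => measure_univ, ?_⟩
      ext B hB
      have h3 := hdis (f := (Prod.snd ⁻¹' B : Set ((ℝ × ℝ) × (ℝ × ℝ))).indicator 1)
        (measurable_one.indicator (measurable_snd hB))
      rw [lintegral_indicator_one (measurable_snd hB), ← Measure.map_apply measurable_snd hB,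
        h2] at h3
      have h4 : ∀ i, ∫⁻ y, (Prod.snd ⁻¹' B : Set ((ℝ × ℝ) × (ℝ × ℝ))).indicator 1 (X i, y)
          ∂(γ.condKernel (X i)) = γ.condKernel (X i) B := by
        intro i
        rw [← lintegral_indicator_one hB]
        rfl
      simp_rw [h4] at h3
      rw [Measure.finsetSum_apply, div_one]
      unfold unif
      rw [Measure.smul_apply, smul_eq_mul, ENNReal.ofReal_natCast]
      change _ = (n : ℝ≥0∞) * ((volume : Measure (ℝ × ℝ)).restrict
                   (Set.Icc (0:ℝ) 1 ×ˢ Set.Icc (0:ℝ) 1)) B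
      rw [h3, ← mul_assoc, ENNReal.mul_inv_cancel hnE hnT, one_mul]
    rw [hdis hcm, sum_ofReal_plan hn hplan]
    apply ENNReal.ofReal_le_ofReal
    have := costR_le X hplan
    gcongr

theorem U_one : (volume : Measure (ℝ × ℝ)).restrict (Set.Icc (0:ℝ) 1 ×ˢ Set.Icc (0:ℝ) 1) = U 1 := by
  unfold U unif rect
  rw [div_one, ENNReal.ofReal_one, one_smul]

theorem outer_eq {n : ℕ} (hn : 0 < n) :
    (∫⁻ X : Fin n → ℝ × ℝ,
          (⨅ (γ : Measure ((ℝ × ℝ) × (ℝ × ℝ)))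
            (_ : γ.map Prod.fst = (n : ℝ≥0∞)⁻¹ • ∑ i, Measure.dirac (X i) ∧
                 γ.map Prod.snd = (volume : Measure (ℝ × ℝ)).restrict
                   (Set.Icc (0:ℝ) 1 ×ˢ Set.Icc (0:ℝ) 1)),
            ∫⁻ p, ENNReal.ofReal ((p.1.1 - p.2.1) ^ 2 + (p.1.2 - p.2.2) ^ 2) ∂γ)
        ∂(Measure.pi fun _ : Fin n =>
            (volume : Measure (ℝ × ℝ)).restrict (Set.Icc (0:ℝ) 1 ×ˢ Set.Icc (0:ℝ) 1))).toReal =
      En n := by
  have p1 := isProb_U (c := 1) one_pos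
  simp_rw [inner_eq hn]
  rw [U_one]
  have hae : ∀ᵐ z ∂(Measure.pi fun _ : Fin n => U 1), ∀ i, z i ∈ rect 1 1 :=
    ae_pi (ι := Fin n) (U 1) (U_ae 1)
  have hi : Integrable (fun z : Fin n → ℝ × ℝ => costR z (unif 1 1 (n / 1)))
      (Measure.pi fun _ : Fin n => U 1) := by
    have := integrable_cost (ι := Fin n) one_pos hae
    simpa using this
  rw [← ofReal_integral_eq_lintegral_ofReal (hi.div_const _)
    (Eventually.of_forall fun z => div_nonneg (costR_nonneg _ _) (Nat.cast_nonneg n)),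
    ENNReal.toReal_ofReal (integral_nonneg fun z =>
      div_nonneg (costR_nonneg _ _) (Nat.cast_nonneg n)), integral_div]
  rfl

/-- the final statement -/
theorem final_result : ∃ ξ : ℝ, Asymptotics.IsLittleO Filter.atTop
    (fun n : ℕ =>
      (∫⁻ X : Fin n → ℝ × ℝ,
          (⨅ (γ : Measure ((ℝ × ℝ) × (ℝ × ℝ)))
            (_ : γ.map Prod.fst = (n : ℝ≥0∞)⁻¹ • ∑ i, Measure.dirac (X i) ∧
                 γ.map Prod.snd = (volume : Measure (ℝ × ℝ)).restrict
                   (Set.Icc (0:ℝ) 1 ×ˢ Set.Icc (0:ℝ) 1)),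
            ∫⁻ p, ENNReal.ofReal ((p.1.1 - p.2.1) ^ 2 + (p.1.2 - p.2.2) ^ 2) ∂γ)
        ∂(Measure.pi fun _ : Fin n =>
            (volume : Measure (ℝ × ℝ)).restrict (Set.Icc (0:ℝ) 1 ×ˢ Set.Icc (0:ℝ) 1))).toReal
      - (1 / (4 * Real.pi)) * Real.log n / n - ξ / n)
    (fun n : ℕ => 1 / (n : ℝ)) := by
  obtain ⟨ξ, hξ⟩ := En_limit
  refine ⟨ξ, ?_⟩
  rw [Asymptotics.isLittleO_iff_tendsto']
  · have h0 : Tendsto (fun n : ℕ => (n * En n - 1 / (4 * π) * Real.log n) - ξ) atTop (𝓝 0) := by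
      have := hξ.sub_const ξ
      rwa [sub_self] at this
    apply h0.congr'
    filter_upwards [eventually_gt_atTop 0] with n hn
    have hn0 : (0 : ℝ) < n := by exact_mod_cast hn
    rw [outer_eq hn]
    field_simp
  · filter_upwards [eventually_gt_atTop 0] with n hn h
    have hn0 : (0 : ℝ) < n := by exact_mod_cast hn
    have : (0 : ℝ) < 1 / n := by positivity
    exact absurd h this.ne'

end Pool.Agent.H969
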